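import Pool.Agent.Lib.MP_70d4d1_co.Defs

namespace Pool.Agent.Lib.MP_70d4d1_co

open Module

variable {V E : Type*} [NormedAddCommGroup E] [InnerProductSpace ℝ E]
variable {G : SimpleGraph V} {x : V → E}

theorem ent_self (G : SimpleGraph V) (u : V) : ent G u u = 2 := by
  classical
  simp [ent]

theorem ent_adj {u v : V} (h : G.Adj u v) : ent G u v = 1 := by
  classical
  simp [ent, h.ne, h]

theorem ent_nadj {u v : V} (h : u ≠ v) (h' : ¬ G.Adj u v) : ent G u v = 0 := by
  classical
  simp [ent, h, h']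

theorem ent_cases (u v : V) : (u = v ∧ ent G u v = 2) ∨ (u ≠ v ∧ G.Adj u v ∧ ent G u v = 1) ∨
    (u ≠ v ∧ ¬ G.Adj u v ∧ ent G u v = 0) := by
  classical
  by_cases h : u = v
  · left; subst h; exact ⟨rfl, ent_self G u⟩
  · by_cases h' : G.Adj u v
    · right; left; exact ⟨h, h', ent_adj h'⟩
    · right; right; exact ⟨h, h', ent_nadj h h'⟩

theorem ent_int (u v : V) : ∃ z : ℤ, ent G u v = z := by
  rcases ent_cases (G := G) u v with ⟨_, h⟩ | ⟨_, _, h⟩ | ⟨_, _, h⟩
  · exact ⟨2, by rw [h]; norm_num⟩
  · exact ⟨1, by rw [h]; norm_num⟩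
  · exact ⟨0, by rw [h]; norm_num⟩

theorem mem_lat (x : V → E) (v : V) : x v ∈ lat x := Submodule.subset_span ⟨v, rfl⟩

theorem root_x (hx : Rep G x) (v : V) : Root x (x v) :=
  ⟨mem_lat x v, by rw [hx v v, ent_self]⟩

/-- Inner products of lattice vectors with `w` are integers if those of the generators are. -/
theorem int_of_gen {w : E} (hw : ∀ v, ∃ z : ℤ, inner ℝ w (x v) = z) {b : E} (hb : b ∈ lat x) :
    ∃ z : ℤ, inner ℝ w b = z := by
  induction hb using Submodule.span_induction with
  | mem b hb => obtain ⟨v, rfl⟩ := hb; exact hw v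
  | zero => exact ⟨0, by simp⟩
  | add a b _ _ ha hb =>
    obtain ⟨m, hm⟩ := ha
    obtain ⟨n, hn⟩ := hb
    exact ⟨m + n, by rw [inner_add_right, hm, hn]; push_cast; ring⟩
  | smul c a _ ha =>
    obtain ⟨m, hm⟩ := ha
    refine ⟨c * m, ?_⟩
    rw [← Int.cast_smul_eq_zsmul ℝ c a, inner_smul_right, hm]
    push_cast
    ring

theorem lat_int (hx : Rep G x) {a b : E} (ha : a ∈ lat x) (hb : b ∈ lat x) :
    ∃ z : ℤ, inner ℝ a b = z := by
  apply int_of_gen _ hb
  intro v
  have := int_of_gen (x := x) (w := x v) (fun u => by rw [hx v u]; exact ent_int v u) ha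
  obtain ⟨z, hz⟩ := this
  exact ⟨z, by rw [real_inner_comm]; exact hz⟩

theorem sub_sq (a b : E) : inner ℝ (a - b) (a - b) =
    inner ℝ a a - 2 * inner ℝ a b + inner ℝ b b := by
  rw [inner_sub_left, inner_sub_right, inner_sub_right, real_inner_comm a b]
  ring

theorem add_sq' (a b : E) : inner ℝ (a + b) (a + b) =
    inner ℝ a a + 2 * inner ℝ a b + inner ℝ b b := by
  rw [inner_add_left, inner_add_right, inner_add_right, real_inner_comm a b]
  ring

theorem Root.neg {r : E} (h : Root x r) : Root x (-r) :=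
  ⟨(lat x).neg_mem h.1, by rw [inner_neg_neg]; exact h.2⟩

theorem Root.sub {a b : E} (ha : Root x a) (hb : Root x b) (h : inner ℝ a b = 1) :
    Root x (a - b) :=
  ⟨(lat x).sub_mem ha.1 hb.1, by rw [sub_sq, ha.2, hb.2, h]; norm_num⟩

theorem Root.add {a b : E} (ha : Root x a) (hb : Root x b) (h : inner ℝ a b = -1) :
    Root x (a + b) :=
  ⟨(lat x).add_mem ha.1 hb.1, by rw [add_sq', ha.2, hb.2, h]; norm_num⟩

theorem eq_of_ip_two {a b : E} (ha : inner ℝ a a = (2 : ℝ)) (hb : inner ℝ b b = (2 : ℝ))
    (h : 2 ≤ inner ℝ a b) : a = b := by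
  have h1 : inner ℝ (a - b) (a - b) ≤ 0 := by rw [sub_sq, ha, hb]; linarith
  have h2 : inner ℝ (a - b) (a - b) = 0 := le_antisymm h1 real_inner_self_nonneg
  exact sub_eq_zero.mp (inner_self_eq_zero.mp h2)

theorem Root.ip (hx : Rep G x) {a b : E} (ha : Root x a) (hb : Root x b) (h1 : a ≠ b)
    (h2 : a ≠ -b) : inner ℝ a b = -1 ∨ inner ℝ a b = 0 ∨ inner ℝ a b = 1 := by
  obtain ⟨z, hz⟩ := lat_int hx ha.1 hb.1
  have h3 : inner ℝ a b < 2 := by
    by_contra h
    exact h1 (eq_of_ip_two ha.2 hb.2 (not_lt.mp h))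
  have h4 : -2 < inner ℝ a b := by
    by_contra h
    apply h2
    apply eq_of_ip_two ha.2 hb.neg.2
    rw [inner_neg_right]
    linarith [not_lt.mp h]
  rw [hz] at h3 h4 ⊢
  have h5 : z < 2 := by exact_mod_cast h3
  have h6 : -2 < z := by exact_mod_cast h4
  have h7 : z = -1 ∨ z = 0 ∨ z = 1 := by omega
  rcases h7 with h | h | h
  · left; rw [h]; norm_num
  · right; left; rw [h]; norm_num
  · right; right; rw [h]; norm_num

section frames

variable {ι : Type*} {g : ι → E}

/-- Inner products of differences in a simplex frame. -/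
theorem Frame.ip [DecidableEq ι] (hg : Frame x g) (i j k l : ι) : inner ℝ (g i - g j) (g k - g l) =
    (if i = k then (1 : ℝ) else 0) - (if i = l then 1 else 0) - (if j = k then 1 else 0) +
      (if j = l then 1 else 0) := by
  have hq : ∀ a b : ι, inner ℝ (g a - g b) (g a - g b) = if a = b then (0 : ℝ) else 2 := by
    intro a b
    by_cases h : a = b
    · subst h; simp
    · rw [if_neg h]; exact (hg a b h).2
  have key : inner ℝ (g i - g j) (g k - g l) =
      (inner ℝ (g i - g l) (g i - g l) + inner ℝ (g j - g k) (g j - g k) -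
        inner ℝ (g i - g k) (g i - g k) - inner ℝ (g j - g l) (g j - g l)) / 2 := by
    simp only [inner_sub_left, inner_sub_right, real_inner_comm (g i) (g k),
      real_inner_comm (g i) (g l), real_inner_comm (g j) (g k), real_inner_comm (g j) (g l)]
    ring
  rw [key, hq, hq, hq, hq]
  split_ifs <;> norm_num

theorem Frame.lin [Fintype ι] (hg : Frame x g) (o : ι) :
    LinearIndependent ℝ (fun i : {i : ι // i ≠ o} => g i - g o) := by
  classical
  rw [Fintype.linearIndependent_iff]
  intro c hc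
  have h1 : ∀ j : {i : ι // i ≠ o}, c j + ∑ i, c i = 0 := by
    intro j
    have h2 : inner ℝ (∑ i, c i • (g i - g o)) (g j - g o) = (0 : ℝ) := by rw [hc]; simp
    rw [sum_inner] at h2
    have h3 : ∀ i : {i : ι // i ≠ o}, inner ℝ (c i • (g i - g o)) (g j - g o) =
        (if i = j then c i else 0) + c i := by
      intro i
      rw [inner_smul_left, hg.ip]
      have e1 : (i : ι) ≠ o := i.2
      have e2 : (o : ι) ≠ j := fun h => j.2 h.symm
      by_cases h : i = j
      · subst h
        simp [e1, e1.symm]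
        ring
      · have h' : (i : ι) ≠ j := fun h'' => h (Subtype.ext h'')
        simp [h, h', e1, e2]
    rw [Finset.sum_congr rfl (fun i _ => h3 i), Finset.sum_add_distrib,
      Finset.sum_ite_eq' Finset.univ j] at h2
    simpa using h2
  have h4 : ∑ i, c i = 0 := by
    have h5 : ∑ j : {i : ι // i ≠ o}, (c j + ∑ i, c i) = 0 := Finset.sum_eq_zero fun j _ => h1 j
    rw [Finset.sum_add_distrib, Finset.sum_const, nsmul_eq_mul] at h5
    have h6 : (1 + (Finset.univ : Finset {i : ι // i ≠ o}).card : ℝ) * ∑ i, c i = 0 := by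
      linarith
    rcases mul_eq_zero.mp h6 with h | h
    · exfalso
      have : (0 : ℝ) ≤ ((Finset.univ : Finset {i : ι // i ≠ o}).card : ℝ) := Nat.cast_nonneg _
      linarith
    · exact h
  intro j
  have := h1 j
  rw [h4] at this
  simpa using this

theorem Frame.card_le [Fintype ι] [FiniteDimensional ℝ E] (hg : Frame x g) :
    Fintype.card ι ≤ finrank ℝ E + 1 := by
  classical
  rcases isEmpty_or_nonempty ι with h | ⟨⟨o⟩⟩
  · simp
  · have h1 := (hg.lin o).fintype_card_le_finrank
    have h2 : Fintype.card {i : ι // i ≠ o} = Fintype.card ι - 1 := by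
      rw [Fintype.card_subtype_compl, Fintype.card_subtype_eq]
    omega

/-- There is a simplex frame with `n` members. -/
def HasFrame (x : V → E) (n : ℕ) : Prop := ∃ g : Fin n → E, Frame x g

theorem Frame.hasFrame [Fintype ι] (hg : Frame x g) : HasFrame x (Fintype.card ι) := by
  refine ⟨fun i => g ((Fintype.equivFin ι).symm i), fun i j hij => ?_⟩
  exact hg _ _ fun h => hij ((Fintype.equivFin ι).symm.injective h)

/-- A simplex frame of maximum size. -/
def MaxF (x : V → E) {N : ℕ} (g : Fin N → E) : Prop := Frame x g ∧ ∀ n, HasFrame x n → n ≤ N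

theorem exists_maxF [FiniteDimensional ℝ E] (x : V → E) : ∃ (N : ℕ) (g : Fin N → E),
    MaxF x g := by
  classical
  have hb : ∀ n, HasFrame x n → n ≤ finrank ℝ E + 1 := by
    rintro n ⟨g, hg⟩
    simpa using hg.card_le
  have h0 : HasFrame x 0 := ⟨fun i => i.elim0, fun i => i.elim0⟩
  have h1 := Nat.findGreatest_spec (P := HasFrame x) (Nat.zero_le (finrank ℝ E + 1)) h0
  obtain ⟨g, hg⟩ := h1
  exact ⟨_, g, hg, fun n hn => Nat.le_findGreatest (hb n hn) hn⟩

variable {N : ℕ} {g : Fin N → E}

/-- A maximal frame cannot be extended. -/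
theorem MaxF.no_ext (hg : MaxF x g) (p : E) (hp : ∀ i, Root x (p - g i)) : False := by
  have h1 : Frame x (fun o : Option (Fin N) => o.elim p g) := by
    intro i j hij
    match i, j with
    | none, none => exact absurd rfl hij
    | none, some j => exact hp j
    | some i, none =>
      have := (hp i).neg
      rw [neg_sub] at this
      exact this
    | some i, some j => exact hg.1 i j fun h => hij (by rw [h])
  have h2 := hg.2 _ h1.hasFrame
  simp at h2

theorem MaxF.no_big (hg : MaxF x g) {ι : Type*} [Fintype ι] {f : ι → E} (hf : Frame x f)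
    (h : N < Fintype.card ι) : False := by
  have := hg.2 _ hf.hasFrame
  omega

theorem MaxF.two_le [Nonempty V] (hx : Rep G x) (hg : MaxF x g) : 2 ≤ N := by
  obtain ⟨v⟩ := ‹Nonempty V›
  have h1 : Frame x (fun b : Bool => if b then x v else 0) := by
    intro i j hij
    cases i <;> cases j
    · exact absurd rfl hij
    · simpa using (root_x hx v).neg
    · simpa using root_x hx v
    · exact absurd rfl hij
  simpa using hg.2 _ h1.hasFrame

end frames

end Pool.Agent.Lib.MP_70d4d1_co
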