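import Pool.Agent.Lib.MP_70d4d1_co.Sys

namespace Pool.Agent.Lib.MP_70d4d1_co

theorem bip_card_div {a n x : ℕ} (ha : 1 ≤ a) (hx : a * x + a ≤ n) :
    (Finset.univ.filter fun u : Fin n => u.val / a = x).card = a := by
  have h : (Finset.univ.filter fun u : Fin n => u.val / a = x).card =
      (Finset.univ : Finset (Fin a)).card := by
    refine Finset.card_nbij' (fun u => ⟨u.val % a, Nat.mod_lt _ ha⟩)
      (fun t => ⟨a * x + t.val, lt_of_lt_of_le (Nat.add_lt_add_left t.isLt _) hx⟩) ?_ ?_ ?_ ?_
    · intro u _
      simp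
    · intro t _
      have h1 : (a * x + t.val) / a = x := by
        rw [Nat.mul_add_div ha, Nat.div_eq_of_lt t.isLt, add_zero]
      simp [h1]
    · intro u hu
      simp only [Finset.coe_filter, Finset.mem_univ, true_and, Set.mem_ofPred_eq] at hu
      apply Fin.ext
      change a * x + u.val % a = u.val
      rw [← hu]
      exact Nat.div_add_mod u.val a
    · intro t _
      apply Fin.ext
      change (a * x + t.val) % a = t.val
      rw [Nat.mul_add_mod, Nat.mod_eq_of_lt t.isLt]
  rw [h, Finset.card_univ, Fintype.card_fin]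

theorem bip_card_mod {b q r : ℕ} (hr : r < q) :
    (Finset.univ.filter fun u : Fin (b * q) => u.val % q = r).card = b := by
  have hq : 0 < q := by omega
  have h : (Finset.univ.filter fun u : Fin (b * q) => u.val % q = r).card =
      (Finset.univ : Finset (Fin b)).card := by
    refine Finset.card_nbij' (fun u => ⟨u.val / q, Nat.div_lt_of_lt_mul
        (lt_of_lt_of_eq u.isLt (mul_comm b q))⟩)
      (fun t => ⟨q * t.val + r, ?_⟩) ?_ ?_ ?_ ?_
    · have h1 : q * t.val + q ≤ b * q := by
        have h2 : t.val + 1 ≤ b := t.isLt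
        calc q * t.val + q = (t.val + 1) * q := by ring
          _ ≤ b * q := Nat.mul_le_mul_right q h2
      omega
    · intro u _
      simp
    · intro t _
      have h1 : (q * t.val + r) % q = r := by
        rw [Nat.mul_add_mod, Nat.mod_eq_of_lt hr]
      simp [h1]
    · intro u hu
      simp only [Finset.coe_filter, Finset.mem_univ, true_and, Set.mem_ofPred_eq] at hu
      apply Fin.ext
      change q * (u.val / q) + r = u.val
      rw [← hu]
      exact Nat.div_add_mod u.val q
    · intro t _
      apply Fin.ext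
      change (q * t.val + r) / q = t.val
      rw [Nat.mul_add_div hq, Nat.div_eq_of_lt hr, add_zero]
  rw [h, Finset.card_univ, Fintype.card_fin]

/-- Line graphs of semiregular bipartite graphs with degrees `a` and `b`. -/
theorem good_bip {d a b q : ℕ} (ha : 1 ≤ a) (hb : 1 ≤ b) (hab : a + b = d + 2) (hq : a ≤ q)
    (hd : a ∣ b * q) : Good d (b * q) := by
  classical
  have hq0 : 0 < q := by omega
  have h := good_of_system (V := Fin (b * q)) (ι := ℕ ⊕ ℕ) (d := d)
    (fun v => Sum.inl (v.val / a)) (fun v => Sum.inr (v.val % q)) (fun v => by simp) ?_ ?_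
  · rw [Fintype.card_fin] at h
    exact h
  · intro u v huv
    rw [Sym2.eq_iff] at huv
    have h1 : u.val / a = v.val / a ∧ u.val % q = v.val % q := by
      rcases huv with ⟨h2, h3⟩ | ⟨h2, _⟩
      · exact ⟨Sum.inl.inj h2, Sum.inr.inj h3⟩
      · exact absurd h2 (by simp)
    obtain ⟨h2, h3⟩ := h1
    apply Fin.ext
    have h4 := Nat.div_add_mod u.val a
    have h5 := Nat.div_add_mod v.val a
    have h6 := Nat.mod_lt u.val ha
    have h7 := Nat.mod_lt v.val ha
    rw [h2] at h4
    rcases le_total u.val v.val with h8 | h8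
    · have h9 : (v.val - u.val) % q = 0 := Nat.sub_mod_eq_zero_of_mod_eq h3.symm
      have h10 : v.val - u.val < q := by omega
      rw [Nat.mod_eq_of_lt h10] at h9
      omega
    · have h9 : (u.val - v.val) % q = 0 := Nat.sub_mod_eq_zero_of_mod_eq h3
      have h10 : u.val - v.val < q := by omega
      rw [Nat.mod_eq_of_lt h10] at h9
      omega
  · intro v
    have h1 : (Finset.univ.filter fun u : Fin (b * q) =>
        (Sum.inl (u.val / a) : ℕ ⊕ ℕ) = Sum.inl (v.val / a) ∨
          (Sum.inr (u.val % q) : ℕ ⊕ ℕ) = Sum.inl (v.val / a)) =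
        Finset.univ.filter fun u : Fin (b * q) => u.val / a = v.val / a := by
      apply Finset.filter_congr
      intro u _
      simp
    have h2 : (Finset.univ.filter fun u : Fin (b * q) =>
        (Sum.inl (u.val / a) : ℕ ⊕ ℕ) = Sum.inr (v.val % q) ∨
          (Sum.inr (u.val % q) : ℕ ⊕ ℕ) = Sum.inr (v.val % q)) =
        Finset.univ.filter fun u : Fin (b * q) => u.val % q = v.val % q := by
      apply Finset.filter_congr
      intro u _
      simp
    have h3 : a * (v.val / a) + a ≤ b * q := by
      obtain ⟨c, hc⟩ := hd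
      have h4 : v.val / a < c := Nat.div_lt_of_lt_mul (lt_of_lt_of_eq v.isLt hc)
      calc a * (v.val / a) + a = a * (v.val / a + 1) := by ring
        _ ≤ a * c := Nat.mul_le_mul_left a h4
        _ = b * q := hc.symm
    have h5 := bip_card_div ha h3
    have h6 := bip_card_mod (b := b) (Nat.mod_lt v.val hq0)
    have h7 : (Finset.univ.filter fun u : Fin (b * q) =>
        (Sum.inl (u.val / a) : ℕ ⊕ ℕ) = Sum.inl (v.val / a) ∨
          (Sum.inr (u.val % q) : ℕ ⊕ ℕ) = Sum.inl (v.val / a)).card +
        (Finset.univ.filter fun u : Fin (b * q) =>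
        (Sum.inl (u.val / a) : ℕ ⊕ ℕ) = Sum.inr (v.val % q) ∨
          (Sum.inr (u.val % q) : ℕ ⊕ ℕ) = Sum.inr (v.val % q)).card = d + 2 := by
      rw [h1, h2, h5, h6, hab]
    convert h7

end Pool.Agent.Lib.MP_70d4d1_co
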