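import Pool.Agent.Lib.MP_70d4d1_co.Main

namespace Pool.Agent.Lib.MP_70d4d1_co

theorem blocks_eq (d : ℕ) : Blocks d = Orders d := by
  have h1 : {m | ∃ a b, 1 ≤ a ∧ 1 ≤ b ∧ a + b = d + 2 ∧ a ∣ m ∧ b ∣ m ∧ a * b ≤ m} =
      {m | ∃ a b q, 1 ≤ a ∧ 1 ≤ b ∧ a + b = d + 2 ∧ a ≤ q ∧ m = b * q ∧ a ∣ m} := by
    ext m
    constructor
    · rintro ⟨a, b, ha, hb, hab, hdvd, ⟨q, rfl⟩, hle⟩
      refine ⟨a, b, q, ha, hb, hab, ?_, rfl, hdvd⟩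
      rw [mul_comm a b] at hle
      exact Nat.le_of_mul_le_mul_left hle (by omega)
    · rintro ⟨a, b, q, ha, hb, hab, hq, rfl, hdvd⟩
      refine ⟨a, b, ha, hb, hab, hdvd, ⟨q, rfl⟩, ?_⟩
      rw [mul_comm a b]
      exact Nat.mul_le_mul_left b hq
  unfold Blocks Orders Ord
  rw [h1]

theorem minus_two {d n : ℕ} (hd : 3 ≤ d) (hn : ¬ (d + 1) ∣ n) :
    mu n d = -2 ↔ n ∈ AddSubmonoid.closure (Blocks d) := by
  rw [blocks_eq]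
  exact ⟨fun h => mem_of_good hd (good_of_mu hd hn h), fun h => mu_eq_of_good hd hn (good_of_mem h)⟩

end Pool.Agent.Lib.MP_70d4d1_co
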