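import Pool.Agent.Lib.MP_70d4d1_co.Pattern

namespace Pool.Agent.Lib.MP_70d4d1_co

open Module

variable {V E : Type*} [NormedAddCommGroup E] [InnerProductSpace ℝ E]
variable {G : SimpleGraph V} {x : V → E} {N : ℕ} {g : Fin N → E}

/-- A `D`-frame: an orthonormal family all of whose sums and differences are in the lattice. -/
def DFrame (x : V → E) {N : ℕ} (f : Fin N → E) : Prop :=
  (∀ i j, inner ℝ (f i) (f j) = if i = j then (1 : ℝ) else 0) ∧
    ∀ i j, i ≠ j → f i + f j ∈ lat x ∧ f i - f j ∈ lat x

/-- A real number is a sign. -/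
def Sgn (a : ℝ) : Prop := a = 1 ∨ a = -1

theorem Sgn.sq {a : ℝ} (h : Sgn a) : a * a = 1 := by
  rcases h with h | h <;> rw [h] <;> norm_num

theorem Sgn.neg {a : ℝ} (h : Sgn a) : Sgn (-a) := by
  rcases h with h | h
  · right; rw [h]
  · left; rw [h]; norm_num

theorem DFrame.root {f : Fin N → E} (hf : DFrame x f) {i j : Fin N} (hij : i ≠ j) {a b : ℝ}
    (ha : Sgn a) (hb : Sgn b) : Root x (a • f i + b • f j) := by
  refine ⟨?_, ?_⟩
  · obtain ⟨h1, h2⟩ := hf.2 i j hij
    rcases ha with rfl | rfl <;> rcases hb with rfl | rfl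
    · simpa using h1
    · simpa [sub_eq_add_neg] using h2
    · have := (lat x).neg_mem h2
      have e : (-1 : ℝ) • f i + (1 : ℝ) • f j = -(f i - f j) := by module
      rw [e]; exact this
    · have := (lat x).neg_mem h1
      have e : (-1 : ℝ) • f i + (-1 : ℝ) • f j = -(f i + f j) := by module
      rw [e]; exact this
  · rw [add_sq', inner_smul_left, inner_smul_right, inner_smul_left, inner_smul_right,
      inner_smul_left, inner_smul_right, hf.1, hf.1, hf.1, if_pos rfl, if_pos rfl, if_neg hij]
    simp only [conj_trivial]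
    have := ha.sq
    have := hb.sq
    linarith

theorem DFrame.ip {f : Fin N → E} (s : E) (i j : Fin N) (a b : ℝ) :
    inner ℝ s (a • f i + b • f j) = a * inner ℝ s (f i) + b * inner ℝ s (f j) := by
  rw [inner_add_right, inner_smul_right, inner_smul_right]

/-- Every root is either of `D`-type or orthogonal to a `D`-frame of maximal size. -/
theorem DFrame.dicho (hx : Rep G x) (hg : MaxF x g) {f : Fin N → E} (hf : DFrame x f) {s : E}
    (hs : Root x s) : (∃ i j, i ≠ j ∧ ∃ a b : ℝ, Sgn a ∧ Sgn b ∧ s = a • f i + b • f j) ∨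
      ∀ i, inner ℝ s (f i) = (0 : ℝ) := by
  classical
  by_cases h : ∃ i j, i ≠ j ∧ ∃ a b : ℝ, Sgn a ∧ Sgn b ∧ s = a • f i + b • f j
  · exact Or.inl h
  by_cases h0 : ∀ i, inner ℝ s (f i) = (0 : ℝ)
  · exact Or.inr h0
  exfalso
  push Not at h h0
  obtain ⟨o, ho⟩ := h0
  have h1 : ∀ i j, i ≠ j → ∀ a b : ℝ, Sgn a → Sgn b →
      (a * inner ℝ s (f i) + b * inner ℝ s (f j) = -1 ∨
        a * inner ℝ s (f i) + b * inner ℝ s (f j) = 0 ∨
        a * inner ℝ s (f i) + b * inner ℝ s (f j) = 1) := by
    intro i j hij a b ha hb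
    rw [← DFrame.ip]
    refine Root.ip hx hs (hf.root hij ha hb) (h i j hij a b ha hb) ?_
    have := h i j hij (-a) (-b) ha.neg hb.neg
    intro e
    apply this
    rw [e]
    module
  -- signs
  have h2 : ∀ j, ∃ η : ℝ, Sgn η ∧ η * inner ℝ s (f j) = |inner ℝ s (f j)| := by
    intro j
    rcases le_total 0 (inner ℝ s (f j)) with h3 | h3
    · exact ⟨1, Or.inl rfl, by rw [abs_of_nonneg h3]; ring⟩
    · exact ⟨-1, Or.inr rfl, by rw [abs_of_nonpos h3]; ring⟩
  choose η hη1 hη2 using h2
  have hpos : 0 < η o * inner ℝ s (f o) := by rw [hη2]; exact abs_pos.mpr ho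
  have h3 : ∀ j, j ≠ o → η o * inner ℝ s (f o) + η j * inner ℝ s (f j) = 1 := by
    intro j hj
    have h4 : 0 ≤ η j * inner ℝ s (f j) := by rw [hη2]; exact abs_nonneg _
    rcases h1 o j (Ne.symm hj) (η o) (η j) (hη1 o) (hη1 j) with h5 | h5 | h5
    · linarith
    · linarith
    · exact h5
  let F : Option (Fin N) → E := fun p => match p with
    | none => s
    | some j => if j = o then 0 else η o • f o + η j • f j
  have hF : Frame x F := by
    have hroot : ∀ j, j ≠ o → Root x (η o • f o + η j • f j) := fun j hj =>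
      hf.root (Ne.symm hj) (hη1 o) (hη1 j)
    have hsj : ∀ j, Root x (s - F (some j)) := by
      intro j
      by_cases hj : j = o
      · have : F (some j) = 0 := by simp [F, hj]
        rw [this, sub_zero]
        exact hs
      · have : F (some j) = η o • f o + η j • f j := by simp [F, hj]
        rw [this]
        refine hs.sub (hroot j hj) ?_
        rw [DFrame.ip]
        exact h3 j hj
    have hjk : ∀ j k, j ≠ k → Root x (F (some j) - F (some k)) := by
      intro j k hjk
      by_cases hj : j = o
      · have hk : k ≠ o := fun h => hjk (hj.trans h.symm)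
        have e1 : F (some j) = 0 := by simp [F, hj]
        have e2 : F (some k) = η o • f o + η k • f k := by simp [F, hk]
        rw [e1, e2, zero_sub]
        exact (hroot k hk).neg
      · have e1 : F (some j) = η o • f o + η j • f j := by simp [F, hj]
        rw [e1]
        by_cases hk : k = o
        · have e2 : F (some k) = 0 := by simp [F, hk]
          rw [e2, sub_zero]
          exact hroot j hj
        · have e2 : F (some k) = η o • f o + η k • f k := by simp [F, hk]
          rw [e2]
          have e3 : η o • f o + η j • f j - (η o • f o + η k • f k) =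
              η j • f j + (-η k) • f k := by module
          rw [e3]
          exact hf.root hjk (hη1 j) (hη1 k).neg
    intro p q hpq
    match p, q with
    | none, none => exact absurd rfl hpq
    | none, some k => exact hsj k
    | some j, none =>
      have := (hsj j).neg
      rw [neg_sub] at this
      exact this
    | some j, some k => exact hjk j k fun h => hpq (by rw [h])
  exact hg.no_big hF (by simp)

/-- A root with a pattern of size two gives a `D`-frame. -/
theorem exists_DFrame (hg : Frame x g) {r : E} (hr : Root x r) {S : Finset (Fin N)}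
    (h : Pat g r S) (hS : S.card = 2) : ∃ f : Fin N → E, DFrame x f := by
  classical
  obtain ⟨a, b, hab, rfl⟩ := Finset.card_eq_two.mp hS
  refine ⟨fun i => (1 / 2 : ℝ) • ((g i - g a) + (g i - g b) + r), ?_⟩
  have hd : ∀ i j, (1 / 2 : ℝ) • ((g i - g a) + (g i - g b) + r) -
      (1 / 2 : ℝ) • ((g j - g a) + (g j - g b) + r) = g i - g j := by
    intro i j; module
  have hs : ∀ i j, (1 / 2 : ℝ) • ((g i - g a) + (g i - g b) + r) +
      (1 / 2 : ℝ) • ((g j - g a) + (g j - g b) + r) = r + (g i - g a) + (g j - g b) := by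
    intro i j; module
  have h1 : ∀ i, inner ℝ ((1 / 2 : ℝ) • ((g i - g a) + (g i - g b) + r))
      ((1 / 2 : ℝ) • ((g i - g a) + (g i - g b) + r)) = (1 : ℝ) := by
    intro i
    rw [inner_smul_left, inner_smul_right, add_sq', add_sq', inner_add_left, hg.ip, hg.ip, hg.ip,
      real_inner_comm r (g i - g a), real_inner_comm r (g i - g b), h i a, h i b, hr.2]
    simp only [conj_trivial, Finset.mem_insert, Finset.mem_singleton]
    by_cases h2 : i = a
    · subst h2
      simp [hab, hab.symm]
      norm_num
    · by_cases h3 : i = b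
      · subst h3
        simp [hab, hab.symm]
        norm_num
      · simp [h2, h3, hab, hab.symm, Ne.symm h2, Ne.symm h3]
        norm_num
  refine ⟨fun i j => ?_, fun i j hij => ⟨?_, ?_⟩⟩
  · by_cases hij : i = j
    · subst hij
      rw [if_pos rfl]
      exact h1 i
    · rw [if_neg hij]
      have h2 := sub_sq ((1 / 2 : ℝ) • ((g i - g a) + (g i - g b) + r))
        ((1 / 2 : ℝ) • ((g j - g a) + (g j - g b) + r))
      rw [hd, (hg i j hij).2, h1 i, h1 j] at h2
      linarith
  · show (1 / 2 : ℝ) • ((g i - g a) + (g i - g b) + r) +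
      (1 / 2 : ℝ) • ((g j - g a) + (g j - g b) + r) ∈ lat x
    rw [hs]
    have hl : ∀ i j, g i - g j ∈ lat x := by
      intro i j
      by_cases h : i = j
      · subst h; simp
      · exact (hg i j h).1
    exact (lat x).add_mem ((lat x).add_mem hr.1 (hl _ _)) (hl _ _)
  · show (1 / 2 : ℝ) • ((g i - g a) + (g i - g b) + r) -
      (1 / 2 : ℝ) • ((g j - g a) + (g j - g b) + r) ∈ lat x
    rw [hd]
    exact (hg i j hij).1

end Pool.Agent.Lib.MP_70d4d1_co
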