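import Pool.Agent.Lib.MP_70d4d1_co.Pattern

namespace Pool.Agent.Lib.MP_70d4d1_co

open Module

variable {V E : Type*} [NormedAddCommGroup E] [InnerProductSpace ℝ E]
variable {G : SimpleGraph V} {x : V → E} {N : ℕ} {g : Fin N → E}

/-- An exceptional subspace: every root is in `W` or orthogonal to it, and `t` times the dual
lattice is in the lattice. -/
structure Exc (x : V → E) (W : Submodule ℝ E) (t d : ℕ) : Prop where
  fin : FiniteDimensional ℝ W
  rk : finrank ℝ W ≤ d
  dicho : ∀ s, Root x s → s ∈ W ∨ ∀ w ∈ W, inner ℝ s w = (0 : ℝ)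
  ne : ∃ s, Root x s ∧ s ∈ W
  dual : ∀ w ∈ W, (∀ b ∈ lat x, ∃ z : ℤ, inner ℝ w b = z) → (t : ℝ) • w ∈ lat x

/-- The sum of all `g j - g o`. -/
noncomputable def usum {N : ℕ} (g : Fin N → E) (o : Fin N) : E := ∑ j, (g j - g o)

theorem usum_ip (hg : Frame x g) (o a b : Fin N) : inner ℝ (usum g o) (g a - g b) =
    -(N : ℝ) * ((if o = a then (1 : ℝ) else 0) - (if o = b then 1 else 0)) := by
  unfold usum
  rw [sum_inner]
  simp_rw [hg.ip]
  rw [Finset.sum_add_distrib, Finset.sum_sub_distrib, Finset.sum_sub_distrib]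
  simp only [Finset.sum_ite_eq', Finset.mem_univ, if_true, Finset.sum_const, Finset.card_univ,
    Fintype.card_fin, nsmul_eq_mul]
  ring

theorem usum_mem (g : Fin N → E) (o : Fin N) : usum g o ∈ dif g :=
  Submodule.sum_mem _ fun j _ => mem_dif g j o

theorem wsum_ip (hg : Frame x g) (o a b : Fin N) (h : Fin N → ℝ) :
    inner ℝ (∑ i, h i • (g i - g o)) (g a - g b) =
    h a - h b - (∑ i, h i) * ((if o = a then (1 : ℝ) else 0) - (if o = b then 1 else 0)) := by
  rw [sum_inner]
  have h1 : ∀ i ∈ (Finset.univ : Finset (Fin N)), inner ℝ (h i • (g i - g o)) (g a - g b) =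
      (if i = a then h i else 0) - (if i = b then h i else 0) -
        h i * ((if o = a then (1 : ℝ) else 0) - (if o = b then 1 else 0)) := by
    intro i _
    rw [inner_smul_left, hg.ip]
    simp only [conj_trivial]
    split_ifs <;> ring
  rw [Finset.sum_congr rfl h1, Finset.sum_sub_distrib, Finset.sum_sub_distrib, ← Finset.sum_mul]
  simp

theorem exp_dif (hg : Frame x g) (o : Fin N) {y : E} (hy : y ∈ dif g) :
    (N : ℝ) • y = (N : ℝ) • ∑ i, inner ℝ y (g i - g o) • (g i - g o) -
      (∑ i, inner ℝ y (g i - g o)) • usum g o := by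
  have h1 : (N : ℝ) • y - ((N : ℝ) • ∑ i, inner ℝ y (g i - g o) • (g i - g o) -
      (∑ i, inner ℝ y (g i - g o)) • usum g o) = 0 := by
    apply eq_zero_of_dif (g := g)
    · intro a b
      rw [inner_sub_left, inner_sub_left, inner_smul_left, inner_smul_left, inner_smul_left,
        wsum_ip hg, usum_ip hg]
      simp only [conj_trivial, inner_sub_right]
      ring
    · refine (dif g).sub_mem ((dif g).smul_mem _ hy) ((dif g).sub_mem ((dif g).smul_mem _ ?_)
        ((dif g).smul_mem _ (usum_mem g o)))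
      exact Submodule.sum_mem _ fun j _ => (dif g).smul_mem _ (mem_dif g j o)
  exact sub_eq_zero.mp h1

theorem qv_exp (hg : Frame x g) (o : Fin N) (S : Finset (Fin N)) :
    qv g S = (N : ℝ) • ∑ i ∈ S, (g i - g o) - (S.card : ℝ) • usum g o := by
  have h1 : qv g S - ((N : ℝ) • ∑ i ∈ S, (g i - g o) - (S.card : ℝ) • usum g o) = 0 := by
    apply eq_zero_of_dif (g := g)
    · intro a b
      rw [inner_sub_left, inner_sub_left, inner_smul_left, inner_smul_left, qv_ip hg, usum_ip hg,
        sum_inner]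
      simp_rw [hg.ip]
      rw [Finset.sum_add_distrib, Finset.sum_sub_distrib, Finset.sum_sub_distrib]
      simp only [conj_trivial, Finset.sum_ite_eq', Finset.sum_const, nsmul_eq_mul]
      ring
    · refine (dif g).sub_mem (qv_mem g S) ((dif g).sub_mem ((dif g).smul_mem _ ?_)
        ((dif g).smul_mem _ (usum_mem g o)))
      exact Submodule.sum_mem _ fun j _ => mem_dif g j o
  exact sub_eq_zero.mp h1

theorem dif_lat (hg : Frame x g) (i j : Fin N) : g i - g j ∈ lat x := by
  by_cases h : i = j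
  · subst h; simp
  · exact (hg i j h).1

theorem usum_lat (hg : Frame x g) (o : Fin N) : usum g o ∈ lat x :=
  Submodule.sum_mem _ fun j _ => dif_lat hg j o

theorem int_smul_lat {z : ℤ} {y : E} (hy : y ∈ lat x) : (z : ℝ) • y ∈ lat x := by
  rw [Int.cast_smul_eq_zsmul]
  exact (lat x).smul_mem z hy

/-- A pattern of full or zero size is orthogonal to the frame. -/
theorem Pat.perp {r : E} {S : Finset (Fin N)} (h : Pat g r S) (hc : S.card = 0 ∨ S.card = N) :
    ∀ i j, inner ℝ r (g i - g j) = (0 : ℝ) := by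
  intro i j
  rw [h i j]
  rcases hc with h0 | h0
  · rw [Finset.card_eq_zero] at h0
    subst h0
    simp
  · have : S = Finset.univ := by
      rw [← Finset.card_eq_iff_eq_univ, h0, Fintype.card_fin]
    subst this
    simp

theorem Pat.add {r s : E} {S T : Finset (Fin N)} (h : Pat g r S) (h' : Pat g s T)
    (hd : Disjoint S T) : Pat g (r + s) (S ∪ T) := by
  have key : ∀ a, (if a ∈ S ∪ T then (1 : ℝ) else 0) =
      (if a ∈ S then 1 else 0) + (if a ∈ T then 1 else 0) := by
    intro a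
    by_cases h1 : a ∈ S
    · have h2 : a ∉ T := Finset.disjoint_left.mp hd h1
      simp [h1, h2]
    · simp [h1]
  intro i j
  rw [inner_add_left, h i j, h' i j, key, key]
  ring

/-- From a pattern of size three, produce a disjoint one, and their sum is a root. -/
theorem three_add (hg : MaxF x g) (hN : 6 ≤ N) {r : E} (hr : Root x r) {S : Finset (Fin N)}
    (h : Pat g r S) (hS : S.card = 3) :
    ∃ r' T, Root x r' ∧ Pat g r' T ∧ T.card = 3 ∧ Disjoint S T ∧ inner ℝ r r' = (-1 : ℝ) ∧
      Root x (r + r') ∧ Pat g (r + r') (S ∪ T) ∧ (S ∪ T).card = 6 := by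
  obtain ⟨T, hT1, hT2⟩ : ∃ T ⊆ Sᶜ, T.card = 3 := by
    apply Finset.exists_subset_card_eq
    rw [Finset.card_compl, Fintype.card_fin]
    omega
  have hd : Disjoint S T := by
    rw [Finset.disjoint_left]
    intro a ha hb
    exact (Finset.mem_compl.mp (hT1 hb)) ha
  obtain ⟨r', h1, h2, h3⟩ := exists_move hg.1 hr h T (by rw [hT2, hS])
  have h4 := move_ip hg.1 (by omega) hr h h2 h3 (by rw [hT2, hS]) hd
  rw [hS] at h4
  have h5 : inner ℝ r r' = (-1 : ℝ) := by rw [h4]; norm_num
  exact ⟨r', T, h1, h2, hT2, hd, h5, hr.add h1 h5, h.add h2 hd,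
    by rw [Finset.card_union_of_disjoint hd, hS, hT2]⟩

/-- Hypothesis: no root has a pattern of size two. -/
def NoTwo (x : V → E) {N : ℕ} (g : Fin N → E) : Prop :=
  ∀ r S, Root x r → Pat g r S → S.card ≠ 2

theorem NoTwo.neg (h : NoTwo x g) {r : E} {S : Finset (Fin N)} (hr : Root x r)
    (hS : Pat g r S) : S.card + 2 ≠ N := by
  intro hc
  apply h (-r) Sᶜ hr.neg hS.neg
  rw [Finset.card_compl, Fintype.card_fin]
  omega

/-- No pattern of size three if `N = 7` or `N = 8`. -/
theorem no_three (hg : MaxF x g) (h2 : NoTwo x g) (hN : N = 7 ∨ N = 8) {r : E}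
    (hr : Root x r) {S : Finset (Fin N)} (h : Pat g r S) : S.card ≠ 3 := by
  intro hS
  obtain ⟨r', T, -, -, -, -, -, a1, a2, a3⟩ := three_add hg (by omega) hr h hS
  rcases hN with hN | hN
  · exact hg.card_ne_pred a1 a2 (by omega)
  · exact h2.neg a1 a2 (by omega)

theorem no_three' (hg : MaxF x g) (h2 : NoTwo x g) (hN : N = 7 ∨ N = 8) {r : E}
    (hr : Root x r) {S : Finset (Fin N)} (h : Pat g r S) : S.card + 3 ≠ N := by
  intro hS
  apply no_three hg h2 hN hr.neg h.neg
  rw [Finset.card_compl, Fintype.card_fin]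
  omega

/-- Possible sizes. -/
theorem pat_sizes (hg : MaxF x g) (h2 : NoTwo x g) (hN : 2 ≤ N) {r : E}
    (hr : Root x r) {S : Finset (Fin N)} (h : Pat g r S) :
    S.card = 0 ∨ S.card = N ∨ (N = 6 ∧ S.card = 3) ∨ (N = 8 ∧ S.card = 4) ∨
      (N = 9 ∧ S.card = 3) ∨ (N = 9 ∧ S.card = 6) := by
  have h3 := pat_card hg.1 (by omega) hr.2 h
  have h4 : S.card ≤ N := by simpa using S.card_le_univ
  have a1 := hg.card_ne_one hr h
  have a2 := hg.card_ne_pred hr h
  have a3 := h2 r S hr h
  have a4 := h2.neg hr h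
  have a5 := fun hN => no_three hg h2 hN hr h
  have a6 := fun hN => no_three' hg h2 hN hr h
  generalize S.card = k at h3 h4 a1 a2 a3 a4 a5 a6 ⊢
  by_cases b1 : k = 0
  · exact Or.inl b1
  by_cases b2 : k = N
  · exact Or.inr (Or.inl b2)
  have b3 : 3 ≤ k := by omega
  obtain ⟨l, hl⟩ : ∃ l, N = k + l := ⟨N - k, by omega⟩
  have b4 : 3 ≤ l := by omega
  have b5 : N - k = l := by omega
  rw [b5] at h3
  have b6 : (k - 2) * (l - 2) ≤ 4 := by
    obtain ⟨k', rfl⟩ : ∃ k', k = k' + 2 := ⟨k - 2, by omega⟩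
    obtain ⟨l', rfl⟩ : ∃ l', l = l' + 2 := ⟨l - 2, by omega⟩
    rw [hl] at h3
    have : k' * l' ≤ 4 := by nlinarith
    simpa using this
  have b7 : k ≤ 6 := by
    by_contra hcon
    have : 5 * 1 ≤ (k - 2) * (l - 2) := Nat.mul_le_mul (by omega) (by omega)
    omega
  have b8 : l ≤ 6 := by
    by_contra hcon
    have : 1 * 5 ≤ (k - 2) * (l - 2) := Nat.mul_le_mul (by omega) (by omega)
    omega
  clear hr h hg h2
  interval_cases k <;> interval_cases l <;> omega

end Pool.Agent.Lib.MP_70d4d1_co
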