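import Pool.Agent.Lib.MP_70d4d1_co.CaseE

namespace Pool.Agent.Lib.MP_70d4d1_co

open Module

variable {V E : Type*} [NormedAddCommGroup E] [InnerProductSpace ℝ E]
variable {G : SimpleGraph V} {x : V → E} {N : ℕ} {g : Fin N → E}

theorem ip_usum (o : Fin N) (w : E) : inner ℝ w (usum g o) = ∑ i, inner ℝ w (g i - g o) := by
  unfold usum
  rw [inner_sum]

theorem ip_qv_exp (hg : Frame x g) (o : Fin N) (S : Finset (Fin N)) (w : E) :
    inner ℝ w (qv g S) = (N : ℝ) * ∑ i ∈ S, inner ℝ w (g i - g o) -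
      (S.card : ℝ) * ∑ i, inner ℝ w (g i - g o) := by
  rw [qv_exp hg o, inner_sub_right, inner_smul_right, inner_smul_right, inner_sum, ip_usum]

/-- Sums of integers are integers. -/
theorem int_sum {ι : Type*} (s : Finset ι) (h : ι → ℝ) (hh : ∀ i, ∃ z : ℤ, h i = z) :
    ∃ z : ℤ, ∑ i ∈ s, h i = z := by
  choose z hz using hh
  exact ⟨∑ i ∈ s, z i, by push_cast; exact Finset.sum_congr rfl fun i _ => hz i⟩

/-- Case `N = 9`. -/
theorem exc_nine (hx : Rep G x) (hg : MaxF x g) (h2 : NoTwo x g) (hN : N = 9) {r : E}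
    (hr : Root x r) {S : Finset (Fin N)} (hS : Pat g r S) (hc : S.card = 3) :
    Exc x (dif g) 1 8 := by
  have hN0 : 0 < N := by omega
  let o : Fin N := ⟨0, hN0⟩
  have hNr : (N : ℝ) = 9 := by rw [hN]; norm_num
  have e1 : (N : ℝ) • r = qv g S := pat_eq hg.1 hr.2 hS (by rw [hc, hN])
  -- `r = Σ e_i - u / 3`
  have e2 : (1 / 3 : ℝ) • usum g o = ∑ i ∈ S, (g i - g o) - r := by
    have h3 := qv_exp hg.1 o S
    rw [← e1, hc, hNr] at h3
    have h4 : (9 : ℝ) • r = (9 : ℝ) • (∑ i ∈ S, (g i - g o) - (1 / 3 : ℝ) • usum g o) := by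
      rw [h3]; push_cast; module
    have h5 := smul_right_injective E (by norm_num : (9 : ℝ) ≠ 0) h4
    rw [h5]; module
  have e3 : (1 / 3 : ℝ) • usum g o ∈ lat x := by
    rw [e2]
    exact (lat x).sub_mem (Submodule.sum_mem _ fun i _ => dif_lat hg.1 i o) hr.1
  refine ⟨inferInstance, ?_, ?_, ⟨r, hr, ?_⟩, ?_⟩
  · have := finrank_dif_le g
    omega
  · intro s hs
    rcases exists_pat hx hg.1 hN0 hs with ⟨i, j, -, rfl⟩ | ⟨T, hT⟩
    · exact Or.inl (mem_dif g i j)
    · have hz : ∀ T' s', Root x s' → Pat g s' T' → T'.card = 3 → s' ∈ dif g := by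
        intro T' s' hs' hT' hc'
        have : (N : ℝ) • s' = qv g T' := pat_eq hg.1 hs'.2 hT' (by rw [hc', hN])
        have h6 : s' = (1 / 9 : ℝ) • qv g T' := by
          rw [← this, hNr, smul_smul]; norm_num
        rw [h6]
        exact (dif g).smul_mem _ (qv_mem g T')
      rcases pat_sizes hg h2 (by omega) hs hT with h | h | h | h | h | h
      · exact Or.inr fun w hw => perp_dif (hT.perp (Or.inl h)) hw
      · exact Or.inr fun w hw => perp_dif (hT.perp (Or.inr h)) hw
      · omega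
      · omega
      · exact Or.inl (hz T s hs hT h.2)
      · left
        have h7 := hz Tᶜ (-s) hs.neg hT.neg (by
          rw [Finset.card_compl, Fintype.card_fin, h.2]
          omega)
        have := (dif g).neg_mem h7
        rwa [neg_neg] at this
  · have h6 : r = (1 / 9 : ℝ) • qv g S := by
      rw [← e1, hNr, smul_smul]; norm_num
    rw [h6]
    exact (dif g).smul_mem _ (qv_mem g S)
  · intro w hw hint
    have hh : ∀ i, ∃ z : ℤ, inner ℝ w (g i - g o) = z := fun i => hint _ (dif_lat hg.1 i o)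
    obtain ⟨H, hH⟩ := int_sum Finset.univ _ hh
    obtain ⟨HS, hHS⟩ := int_sum S _ hh
    obtain ⟨c, hcr⟩ := hint r hr.1
    have h3 : (N : ℝ) * inner ℝ w r = inner ℝ w (qv g S) := by
      rw [← e1, inner_smul_right]
    rw [ip_qv_exp hg.1 o, hH, hHS, hcr, hNr, hc] at h3
    have h4 : 9 * c = 9 * HS - 3 * H := by
      have : (9 : ℝ) * c = 9 * HS - 3 * H := by push_cast at h3; exact h3
      exact_mod_cast this
    have h5 : H = 3 * (HS - c) := by omega
    have h6 := exp_dif hg.1 o hw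
    rw [hH, hNr] at h6
    have h7 : w = ∑ i, inner ℝ w (g i - g o) • (g i - g o) -
        ((HS - c : ℤ) : ℝ) • ((1 / 3 : ℝ) • usum g o) := by
      apply smul_right_injective E (by norm_num : (9 : ℝ) ≠ 0)
      simp only
      rw [h6, h5]
      push_cast
      module
    rw [Nat.cast_one, one_smul, h7]
    refine (lat x).sub_mem (Submodule.sum_mem _ fun i _ => ?_) (int_smul_lat e3)
    obtain ⟨z, hz⟩ := hh i
    rw [hz]
    exact int_smul_lat (dif_lat hg.1 i o)

/-- Case `N = 8`. -/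
theorem exc_eight (hx : Rep G x) (hg : MaxF x g) (h2 : NoTwo x g) (hN : N = 8) {r : E}
    (hr : Root x r) {S : Finset (Fin N)} (hS : Pat g r S) (hc : S.card = 4) :
    Exc x (dif g) 2 7 := by
  have hN0 : 0 < N := by omega
  let o : Fin N := ⟨0, hN0⟩
  have hNr : (N : ℝ) = 8 := by rw [hN]; norm_num
  have e1 : (N : ℝ) • r = qv g S := pat_eq hg.1 hr.2 hS (by rw [hc, hN])
  have e2 : (1 / 2 : ℝ) • usum g o = ∑ i ∈ S, (g i - g o) - r := by
    have h3 := qv_exp hg.1 o S
    rw [← e1, hc, hNr] at h3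
    have h4 : (8 : ℝ) • r = (8 : ℝ) • (∑ i ∈ S, (g i - g o) - (1 / 2 : ℝ) • usum g o) := by
      rw [h3]; push_cast; module
    have h5 := smul_right_injective E (by norm_num : (8 : ℝ) ≠ 0) h4
    rw [h5]; module
  have e3 : (1 / 2 : ℝ) • usum g o ∈ lat x := by
    rw [e2]
    exact (lat x).sub_mem (Submodule.sum_mem _ fun i _ => dif_lat hg.1 i o) hr.1
  have hz : ∀ T' s', Root x s' → Pat g s' T' → T'.card = 4 → s' ∈ dif g := by
    intro T' s' hs' hT' hc'
    have : (N : ℝ) • s' = qv g T' := pat_eq hg.1 hs'.2 hT' (by rw [hc', hN])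
    have h6 : s' = (1 / 8 : ℝ) • qv g T' := by
      rw [← this, hNr, smul_smul]; norm_num
    rw [h6]
    exact (dif g).smul_mem _ (qv_mem g T')
  refine ⟨inferInstance, ?_, ?_, ⟨r, hr, hz S r hr hS hc⟩, ?_⟩
  · have := finrank_dif_le g
    omega
  · intro s hs
    rcases exists_pat hx hg.1 hN0 hs with ⟨i, j, -, rfl⟩ | ⟨T, hT⟩
    · exact Or.inl (mem_dif g i j)
    · rcases pat_sizes hg h2 (by omega) hs hT with h | h | h | h | h | h
      · exact Or.inr fun w hw => perp_dif (hT.perp (Or.inl h)) hw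
      · exact Or.inr fun w hw => perp_dif (hT.perp (Or.inr h)) hw
      · omega
      · exact Or.inl (hz T s hs hT h.2)
      · omega
      · omega
  · intro w hw hint
    have hh : ∀ i, ∃ z : ℤ, inner ℝ w (g i - g o) = z := fun i => hint _ (dif_lat hg.1 i o)
    obtain ⟨H, hH⟩ := int_sum Finset.univ _ hh
    obtain ⟨HS, hHS⟩ := int_sum S _ hh
    obtain ⟨c, hcr⟩ := hint r hr.1
    have h3 : (N : ℝ) * inner ℝ w r = inner ℝ w (qv g S) := by
      rw [← e1, inner_smul_right]
    rw [ip_qv_exp hg.1 o, hH, hHS, hcr, hNr, hc] at h3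
    have h4 : 8 * c = 8 * HS - 4 * H := by
      have : (8 : ℝ) * c = 8 * HS - 4 * H := by push_cast at h3; exact h3
      exact_mod_cast this
    have h5 : H = 2 * (HS - c) := by omega
    have h6 := exp_dif hg.1 o hw
    rw [hH, hNr] at h6
    have h7 : (2 : ℝ) • w = (2 : ℝ) • ∑ i, inner ℝ w (g i - g o) • (g i - g o) -
        ((HS - c : ℤ) : ℝ) • ((1 / 2 : ℝ) • usum g o) := by
      apply smul_right_injective E (by norm_num : (4 : ℝ) ≠ 0)
      simp only
      have : (4 : ℝ) • (2 : ℝ) • w = (8 : ℝ) • w := by module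
      rw [this, h6, h5]
      push_cast
      module
    rw [Nat.cast_ofNat, h7]
    have h8 : ∑ i, inner ℝ w (g i - g o) • (g i - g o) ∈ lat x := by
      refine Submodule.sum_mem _ fun i _ => ?_
      obtain ⟨z, hz⟩ := hh i
      rw [hz]
      exact int_smul_lat (dif_lat hg.1 i o)
    refine (lat x).sub_mem ?_ (int_smul_lat e3)
    have := int_smul_lat (z := 2) h8
    simpa using this

end Pool.Agent.Lib.MP_70d4d1_co
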