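import Pool.Agent.Lib.MP_70d4d1_co.CaseE2

namespace Pool.Agent.Lib.MP_70d4d1_co

open Module

variable {V E : Type*} [NormedAddCommGroup E] [InnerProductSpace ℝ E]
variable {G : SimpleGraph V} {x : V → E} {N : ℕ} {g : Fin N → E}

theorem six_eq (hg : Frame x g) (hN : N = 6) {ρ s : E} (hρ : inner ℝ ρ ρ = (2 : ℝ))
    (hρg : ∀ i j, inner ℝ ρ (g i - g j) = (0 : ℝ)) (hs : inner ℝ s s = (2 : ℝ))
    {T : Finset (Fin N)} (hT : Pat g s T) (hc : T.card = 3) {ε : ℝ} (hε : ε * ε = 1)
    (h : ε * inner ℝ s ρ = 1) : (6 : ℝ) • s = qv g T + (3 * ε) • ρ := by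
  have hNr : (N : ℝ) = 6 := by rw [hN]; norm_num
  have h1 : inner ℝ ((6 : ℝ) • s - (qv g T + (3 * ε) • ρ))
      ((6 : ℝ) • s - (qv g T + (3 * ε) • ρ)) = (0 : ℝ) := by
    rw [sub_sq, add_sq', inner_add_right, inner_smul_left, inner_smul_right, inner_smul_left,
      inner_smul_left, inner_smul_left, inner_smul_right, inner_smul_right, inner_smul_right, hρ,
      hs, ip_qv_self hT, qv_self hg, real_inner_comm ρ (qv g T),
      perp_dif hρg (qv_mem g T), hc, hNr]
    simp only [conj_trivial]
    push_cast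
    linear_combination (18 : ℝ) * hε - 36 * h
  exact sub_eq_zero.mp (inner_self_eq_zero.mp h1)

/-- Case `N = 6`. -/
theorem exc_six (hx : Rep G x) (hg : MaxF x g) (h2 : NoTwo x g) (hN : N = 6) {r : E}
    (hr : Root x r) {S : Finset (Fin N)} (hS : Pat g r S) (hc : S.card = 3) :
    ∃ W, Exc x W 3 6 := by
  have hN0 : 0 < N := by omega
  let o : Fin N := ⟨0, hN0⟩
  have hNr : (N : ℝ) = 6 := by rw [hN]; norm_num
  obtain ⟨r', T, hr', hT, hTc, hdis, hip, hroot, hpat, hc6⟩ := three_add hg (by omega) hr hS hc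
  generalize hρd : r + r' = ρ at hroot hpat
  have hρg : ∀ i j, inner ℝ ρ (g i - g j) = (0 : ℝ) := hpat.perp (Or.inr (by omega))
  have hrρ : inner ℝ r ρ = (1 : ℝ) := by
    rw [← hρd, inner_add_right, hr.2, hip]; norm_num
  have e1 : (6 : ℝ) • r = qv g S + (3 : ℝ) • ρ := by
    have := six_eq hg.1 hN hroot.2 hρg hr.2 hS hc (ε := 1) (by norm_num) (by rw [hrρ]; norm_num)
    simpa using this
  have e2 : (1 / 2 : ℝ) • (usum g o - ρ) = ∑ i ∈ S, (g i - g o) - r := by
    have h3 := qv_exp hg.1 o S
    rw [h3, hc, hNr] at e1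
    have h4 : (6 : ℝ) • r = (6 : ℝ) • (∑ i ∈ S, (g i - g o) -
        (1 / 2 : ℝ) • (usum g o - ρ)) := by
      rw [e1]; push_cast; module
    have h5 := smul_right_injective E (by norm_num : (6 : ℝ) ≠ 0) h4
    rw [h5]; module
  have e3 : (1 / 2 : ℝ) • (usum g o - ρ) ∈ lat x := by
    rw [e2]
    exact (lat x).sub_mem (Submodule.sum_mem _ fun i _ => dif_lat hg.1 i o) hr.1
  have hdW : dif g ≤ dif g ⊔ Submodule.span ℝ {ρ} := le_sup_left
  have hρW : ρ ∈ dif g ⊔ Submodule.span ℝ {ρ} :=
    (le_sup_right : Submodule.span ℝ {ρ} ≤ _) (Submodule.mem_span_singleton_self ρ)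
  have hfin : FiniteDimensional ℝ (Submodule.span ℝ {ρ} : Submodule ℝ E) :=
    FiniteDimensional.span_of_finite ℝ (Set.finite_singleton _)
  refine ⟨dif g ⊔ Submodule.span ℝ {ρ}, inferInstance, ?_, ?_, ⟨ρ, hroot, hρW⟩, ?_⟩
  · have h3 := finrank_dif_le g
    have h4 : finrank ℝ (Submodule.span ℝ {ρ}) ≤ 1 := by
      have := finrank_span_finset_le_card (R := ℝ) ({ρ} : Finset E)
      simp only [Finset.coe_singleton, Finset.card_singleton] at this
      exact this
    have h5 := Submodule.finrank_add_le_finrank_add_finrank (dif g) (Submodule.span ℝ {ρ})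
    omega
  · intro s hs
    rcases exists_pat hx hg.1 hN0 hs with ⟨i, j, -, rfl⟩ | ⟨U, hU⟩
    · exact Or.inl (hdW (mem_dif g i j))
    · by_cases hsρ : s = ρ
      · left; rw [hsρ]; exact hρW
      by_cases hsρ' : s = -ρ
      · left; rw [hsρ']; exact Submodule.neg_mem _ hρW
      have hz := Root.ip hx hs hroot hsρ hsρ'
      obtain ⟨m, hm⟩ := lat_int hx hs.1 hr.1
      have hperp : (∀ i j, inner ℝ s (g i - g j) = (0 : ℝ)) →
          ∀ w ∈ dif g ⊔ Submodule.span ℝ {ρ}, inner ℝ s w = (0 : ℝ) := by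
        intro hp w hw
        have h3 : (6 : ℝ) * inner ℝ s r = 3 * inner ℝ s ρ := by
          rw [← inner_smul_right, e1, inner_add_right, inner_smul_right,
            perp_dif hp (qv_mem g S), zero_add]
        have h4 : inner ℝ s ρ = (0 : ℝ) := by
          rcases hz with h | h | h
          · exfalso
            rw [h, hm] at h3
            have : (2 * m : ℤ) = -1 := by
              have : (2 * m : ℝ) = -1 := by linarith
              exact_mod_cast this
            omega
          · exact h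
          · exfalso
            rw [h, hm] at h3
            have : (2 * m : ℤ) = 1 := by
              have : (2 * m : ℝ) = 1 := by linarith
              exact_mod_cast this
            omega
        obtain ⟨y, hy, t, ht, rfl⟩ := Submodule.mem_sup.mp hw
        obtain ⟨c, rfl⟩ := Submodule.mem_span_singleton.mp ht
        rw [inner_add_right, inner_smul_right, h4, perp_dif hp hy]
        norm_num
      have h3 : U.card = 3 → s ∈ dif g ⊔ Submodule.span ℝ {ρ} := by
        intro hU3
        obtain ⟨rU, hrU, hpU, hdU⟩ := exists_move hg.1 hr hS U (by rw [hU3, hc])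
        have h4 : inner ℝ rU ρ = (1 : ℝ) := by
          have h5 : inner ℝ ρ (rU - r) = (0 : ℝ) := perp_dif hρg hdU
          rw [inner_sub_right, real_inner_comm rU ρ, real_inner_comm r ρ, hrρ] at h5
          linarith
        have h6 : (6 : ℝ) • rU = qv g U + (3 : ℝ) • ρ := by
          have := six_eq hg.1 hN hroot.2 hρg hrU.2 hpU hU3 (ε := 1) (by norm_num)
            (by rw [h4]; norm_num)
          simpa using this
        obtain ⟨k, hk⟩ := lat_int hx hs.1 hrU.1
        have h7 : (6 : ℝ) * inner ℝ s rU = 9 + 3 * inner ℝ s ρ := by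
          rw [← inner_smul_right, h6, inner_add_right, inner_smul_right, ip_qv_self hU, hU3, hNr]
          norm_num
        have hmem : ∀ ε : ℝ, ε * ε = 1 → ε * inner ℝ s ρ = 1 →
            s ∈ dif g ⊔ Submodule.span ℝ {ρ} := by
          intro ε h8 h9
          have h10 := six_eq hg.1 hN hroot.2 hρg hs.2 hU hU3 h8 h9
          have h11 : s = (1 / 6 : ℝ) • (qv g U + (3 * ε) • ρ) := by
            rw [← h10, smul_smul]; norm_num
          rw [h11]
          exact Submodule.smul_mem _ _ (Submodule.add_mem _ (hdW (qv_mem g U))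
            (Submodule.smul_mem _ _ hρW))
        rcases hz with h | h | h
        · exact hmem (-1) (by norm_num) (by rw [h]; norm_num)
        · exfalso
          rw [h, hk] at h7
          have : (2 * k : ℤ) = 3 := by
            have : (2 * k : ℝ) = 3 := by linarith
            exact_mod_cast this
          omega
        · exact hmem 1 (by norm_num) (by rw [h]; norm_num)
      rcases pat_sizes hg h2 (by omega) hs hU with h | h | h | h | h | h
      · exact Or.inr (hperp (hU.perp (Or.inl h)))
      · exact Or.inr (hperp (hU.perp (Or.inr h)))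
      · exact Or.inl (h3 h.2)
      · omega
      · omega
      · omega
  · intro w hw hint
    have hh : ∀ i, ∃ z : ℤ, inner ℝ w (g i - g o) = z := fun i => hint _ (dif_lat hg.1 i o)
    obtain ⟨H, hH⟩ := int_sum Finset.univ _ hh
    obtain ⟨HS, hHS⟩ := int_sum S _ hh
    obtain ⟨b, hb⟩ := hint r hr.1
    obtain ⟨c, hc'⟩ := hint ρ hroot.1
    have h3 : (6 : ℝ) * inner ℝ w r = inner ℝ w (qv g S) + 3 * inner ℝ w ρ := by
      rw [← inner_smul_right, e1, inner_add_right, inner_smul_right]
    rw [ip_qv_exp hg.1 o, hH, hHS, hb, hc', hNr, hc] at h3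
    have h4 : 6 * b = 6 * HS - 3 * H + 3 * c := by
      have : (6 : ℝ) * b = 6 * HS - 3 * H + 3 * c := by push_cast at h3; linarith
      exact_mod_cast this
    obtain ⟨m, hm⟩ : ∃ m : ℤ, H = c + 2 * m := ⟨HS - b, by omega⟩
    obtain ⟨y, hy, t, ht, rfl⟩ := Submodule.mem_sup.mp hw
    obtain ⟨c', rfl⟩ := Submodule.mem_span_singleton.mp ht
    have h5 : ∀ i, inner ℝ (y + c' • ρ) (g i - g o) = inner ℝ y (g i - g o) := by
      intro i
      rw [inner_add_left, inner_smul_left, hρg]
      simp
    have h6 : 2 * c' = (c : ℝ) := by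
      rw [← hc', inner_add_left, inner_smul_left, hroot.2, real_inner_comm,
        perp_dif hρg hy]
      simp only [conj_trivial]
      ring
    simp_rw [h5] at hH hh
    have h7 := exp_dif hg.1 o hy
    rw [hH, hNr] at h7
    have h8 : (3 : ℝ) • (y + c' • ρ) = (3 : ℝ) • ∑ i, inner ℝ y (g i - g o) • (g i - g o) -
        (H : ℝ) • ((1 / 2 : ℝ) • (usum g o - ρ)) + ((c - m : ℤ) : ℝ) • ρ := by
      apply smul_right_injective E (by norm_num : (2 : ℝ) ≠ 0)
      simp only
      have : (2 : ℝ) • (3 : ℝ) • (y + c' • ρ) = (6 : ℝ) • y + (3 * (2 * c')) • ρ := by module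
      rw [this, h7, h6, hm]
      push_cast
      module
    rw [Nat.cast_ofNat, h8]
    have h9 : ∑ i, inner ℝ y (g i - g o) • (g i - g o) ∈ lat x := by
      refine Submodule.sum_mem _ fun i _ => ?_
      obtain ⟨z, hz⟩ := hh i
      rw [hz]
      exact int_smul_lat (dif_lat hg.1 i o)
    refine (lat x).add_mem ((lat x).sub_mem ?_ (int_smul_lat e3)) (int_smul_lat hroot.1)
    have := int_smul_lat (z := 3) h9
    simpa using this


end Pool.Agent.Lib.MP_70d4d1_co
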