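import Pool.Agent.Lib.MP_70d4d1_co.Defs

namespace Pool.Agent.Lib.MP_70d4d1_co

theorem Circ_of_set {n k : ℕ} (T : Finset ℕ) (hT : ∀ i ∈ T, 1 ≤ i ∧ i < n + 1)
    (hs : ∀ i ∈ T, n + 1 - i ∈ T) (hc : T.card = k) :
    ∃ H : SimpleGraph (ZMod (n + 1)), Reg H k := by
  have hval : ∀ i ∈ T, ((i : ZMod (n + 1))).val = i := by
    intro i hi
    rw [ZMod.val_natCast]
    exact Nat.mod_eq_of_lt (hT i hi).2
  have hneg : ∀ x : ZMod (n + 1), x.val ∈ T → (-x).val ∈ T := by
    intro x hx
    have hx0 : x ≠ 0 := by
      intro h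
      rw [h, ZMod.val_zero] at hx
      have := (hT 0 hx).1
      omega
    have : NeZero x := ⟨hx0⟩
    rw [ZMod.val_neg_of_ne_zero]
    exact hs _ hx
  let H : SimpleGraph (ZMod (n + 1)) :=
    { Adj := fun u v => (v - u).val ∈ T
      symm := ⟨fun u v h => by
        have h1 := hneg _ h
        rwa [neg_sub] at h1⟩
      loopless := ⟨fun u h => by
        rw [sub_self, ZMod.val_zero] at h
        have := (hT 0 h).1
        omega⟩ }
  refine ⟨H, fun v => ?_⟩
  have h1 : H.neighborSet v = (fun i : ℕ => ((i : ZMod (n + 1)) + v)) '' (T : Set ℕ) := by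
    ext u
    simp only [SimpleGraph.mem_neighborSet, Set.mem_image, Finset.mem_coe]
    constructor
    · intro h
      exact ⟨(u - v).val, h, by rw [ZMod.natCast_zmod_val]; ring⟩
    · rintro ⟨i, hi, rfl⟩
      show ((i : ZMod (n + 1)) + v - v).val ∈ T
      rw [add_sub_cancel_right, hval i hi]
      exact hi
  rw [h1, Set.ncard_image_of_injOn, Set.ncard_coe_finset, hc]
  intro i hi j hj hij
  have h2 : (i : ZMod (n + 1)) = (j : ZMod (n + 1)) := add_right_cancel hij
  rw [← hval i hi, ← hval j hj, h2]

/-- Regular graphs exist for all admissible parameters. -/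
theorem exists_regular {N k : ℕ} (hk : k < N) (he : Even (N * k)) :
    ∃ H : SimpleGraph (Fin N), Reg H k := by
  obtain ⟨n, rfl⟩ : ∃ n, N = n + 1 := ⟨N - 1, by omega⟩
  change ∃ H : SimpleGraph (ZMod (n + 1)), Reg H k
  rcases Nat.even_or_odd' k with ⟨m, rfl | rfl⟩
  · apply Circ_of_set (Finset.Icc 1 m ∪ Finset.Icc (n + 1 - m) n)
    · intro i hi
      simp only [Finset.mem_union, Finset.mem_Icc] at hi
      omega
    · intro i hi
      simp only [Finset.mem_union, Finset.mem_Icc] at hi ⊢
      omega
    · rw [Finset.card_union_of_disjoint]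
      · rw [Nat.card_Icc, Nat.card_Icc]; omega
      · rw [Finset.disjoint_left]
        intro i hi hj
        simp only [Finset.mem_Icc] at hi hj
        omega
  · have hN : Even (n + 1) := by
      rcases Nat.even_mul.mp he with h | h
      · exact h
      · exact absurd h (by simp)
    obtain ⟨r, hr⟩ := hN
    apply Circ_of_set (insert r (Finset.Icc 1 m ∪ Finset.Icc (n + 1 - m) n))
    · intro i hi
      simp only [Finset.mem_insert, Finset.mem_union, Finset.mem_Icc] at hi
      omega
    · intro i hi
      simp only [Finset.mem_insert, Finset.mem_union, Finset.mem_Icc] at hi ⊢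
      omega
    · rw [Finset.card_insert_of_notMem, Finset.card_union_of_disjoint]
      · rw [Nat.card_Icc, Nat.card_Icc]; omega
      · rw [Finset.disjoint_left]
        intro i hi hj
        simp only [Finset.mem_Icc] at hi hj
        omega
      · simp only [Finset.mem_union, Finset.mem_Icc]
        omega

end Pool.Agent.Lib.MP_70d4d1_co
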