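import Pool.Agent.Lib.MP_70d4d1_co.Defs

namespace Pool.Agent.Lib.MP_70d4d1_co

/-- A cyclic enumeration of `H`. -/
structure CycEnum {V : Type*} [Fintype V] (H : SimpleGraph V) (c : ℕ → V) : Prop where
  three : 3 ≤ Fintype.card V
  per : ∀ i, c (i + Fintype.card V) = c i
  inj : ∀ i j, i < Fintype.card V → j < Fintype.card V → c i = c j → i = j
  surj : ∀ v, ∃ i, i < Fintype.card V ∧ c i = v
  adj : ∀ u v, H.Adj u v ↔ ∃ i, (u = c i ∧ v = c (i + 1)) ∨ (v = c i ∧ u = c (i + 1))

/-- A connected `2`-regular graph is a cycle. -/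
theorem exists_cycEnum {V : Type*} [Fintype V] {H : SimpleGraph V} (hr : Reg H 2)
    (hc : H.Connected) : ∃ c : ℕ → V, CycEnum H c := by
  classical
  have hcyc : H.IsCycles := fun v _ => hr v
  obtain ⟨v0⟩ := hc.nonempty
  have hne : (H.neighborSet v0).Nonempty := by
    apply Set.nonempty_of_ncard_ne_zero
    rw [hr v0]
    norm_num
  obtain ⟨p, hp, hverts⟩ := hcyc.exists_cycle_toSubgraph_verts_eq_connectedComponentSupp
    (c := H.connectedComponentMk v0) (v := v0) rfl hne
  have hall : ∀ v, v ∈ p.toSubgraph.verts := by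
    intro v
    rw [hverts]
    exact (SimpleGraph.ConnectedComponent.eq.2 (hc.preconnected v v0))
  have hsupp : ∀ v, v ∈ p.support := fun v => p.mem_verts_toSubgraph.1 (hall v)
  have h3 : 3 ≤ p.length := hp.three_le_length
  have hend : p.getVert p.length = v0 := p.getVert_length
  have hstart : p.getVert 0 = v0 := p.getVert_zero
  have hinj : ∀ i j, i < p.length → j < p.length → p.getVert i = p.getVert j → i = j := by
    intro i j hi hj h
    exact hp.getVert_injOn' (by show i ≤ p.length - 1; omega) (by show j ≤ p.length - 1; omega) h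
  have hsurj : ∀ v, ∃ i, i < p.length ∧ p.getVert i = v := by
    intro v
    obtain ⟨i, h1, h2⟩ := SimpleGraph.Walk.mem_support_iff_exists_getVert.1 (hsupp v)
    rcases Nat.lt_or_ge i p.length with h | h
    · exact ⟨i, h, h1⟩
    · have h4 : i = p.length := le_antisymm h2 h
      exact ⟨0, by omega, by rw [hstart, ← h1, h4, hend]⟩
  have hcard : Fintype.card V = p.length := by
    rw [← Fintype.card_fin p.length]
    refine (Fintype.card_of_bijective (f := fun i : Fin p.length => p.getVert i) ⟨?_, ?_⟩).symm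
    · intro i j h
      exact Fin.ext (hinj i j i.2 j.2 h)
    · intro v
      obtain ⟨i, h1, h2⟩ := hsurj v
      exact ⟨⟨i, h1⟩, h2⟩
  have hpos : 0 < p.length := by omega
  have hsucc : ∀ i, p.getVert ((i + 1) % p.length) = p.getVert (i % p.length + 1) := by
    intro i
    have h1 := Nat.mod_lt i hpos
    rw [← Nat.mod_add_mod]
    rcases Nat.lt_or_ge (i % p.length + 1) p.length with h | h
    · rw [Nat.mod_eq_of_lt h]
    · have h4 : i % p.length + 1 = p.length := le_antisymm h1 h
      rw [h4, Nat.mod_self, hstart, hend]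
  refine ⟨fun i => p.getVert (i % p.length), ?_, ?_, ?_, ?_, ?_⟩
  · omega
  · intro i
    rw [hcard, Nat.add_mod_right]
  · intro i j hi hj h
    rw [hcard] at hi hj
    beta_reduce at h
    rw [Nat.mod_eq_of_lt hi, Nat.mod_eq_of_lt hj] at h
    exact hinj i j hi hj h
  · intro v
    obtain ⟨i, h1, h2⟩ := hsurj v
    exact ⟨i, by omega, by rw [Nat.mod_eq_of_lt h1, h2]⟩
  · intro u v
    rw [← hp.adj_toSubgraph_iff_of_isCycles hcyc (hall u), p.toSubgraph_adj_iff]
    constructor
    · rintro ⟨i, h1, h2⟩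
      refine ⟨i, ?_⟩
      rw [hsucc, Nat.mod_eq_of_lt h2]
      rw [Sym2.eq_iff] at h1
      rcases h1 with ⟨h4, h5⟩ | ⟨h4, h5⟩
      · exact Or.inl ⟨h4.symm, h5.symm⟩
      · exact Or.inr ⟨h4.symm, h5.symm⟩
    · rintro ⟨i, h1⟩
      refine ⟨i % p.length, ?_, Nat.mod_lt i hpos⟩
      rw [hsucc] at h1
      rw [Sym2.eq_iff]
      rcases h1 with ⟨h4, h5⟩ | ⟨h4, h5⟩
      · exact Or.inl ⟨h4.symm, h5.symm⟩
      · exact Or.inr ⟨h4.symm, h5.symm⟩

end Pool.Agent.Lib.MP_70d4d1_co
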