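import Pool.Agent.Lib.MP_70d4d1_co.Defs

namespace Pool.Agent.Lib.MP_70d4d1_co

open Classical in
/-- Extension by zero. -/
noncomputable def ext0 {V : Type*} (s : Set V) (y : s → ℝ) : V → ℝ :=
  fun v => if h : v ∈ s then y ⟨v, h⟩ else 0

theorem ext0_mem {V : Type*} {s : Set V} (y : s → ℝ) (v : s) : ext0 s y v = y v := by
  unfold ext0
  rw [dif_pos v.2]

theorem ext0_not {V : Type*} {s : Set V} (y : s → ℝ) {v : V} (h : v ∉ s) : ext0 s y v = 0 := by
  unfold ext0
  rw [dif_neg h]

theorem ent_induce {V : Type*} (G : SimpleGraph V) (s : Set V) (u v : s) :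
    ent (G.induce s) u v = ent G u v := by
  classical
  unfold ent
  have h1 : (u = v) ↔ ((u : V) = (v : V)) := Subtype.ext_iff
  have h2 : (G.induce s).Adj u v ↔ G.Adj (u : V) (v : V) := Iff.rfl
  by_cases h : (u : V) = v
  · rw [if_pos (h1.2 h), if_pos h]
  · rw [if_neg (fun q => h (h1.1 q)), if_neg h]
    by_cases h' : G.Adj (u : V) (v : V)
    · rw [if_pos (h2.2 h'), if_pos h']
    · rw [if_neg (fun q => h' (h2.1 q)), if_neg h']

theorem sum_ext {V : Type*} [Fintype V] (s : Set V) [Fintype s] (f : V → ℝ)
    (hf : ∀ u, u ∉ s → f u = 0) : ∑ u, f u = ∑ u : s, f u := by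
  classical
  have h1 : ∑ u : s, f u = ∑ u ∈ s.toFinset, f u := Finset.sum_set_coe s
  rw [h1]
  symm
  apply Finset.sum_subset (Finset.subset_univ _)
  intro x _ hx
  exact hf x (fun h => hx (Set.mem_toFinset.2 h))

theorem form_ext0 {V : Type*} [Fintype V] (G : SimpleGraph V) (s : Set V) [Fintype s]
    (y : s → ℝ) : form G (ext0 s y) = form (G.induce s) y := by
  unfold form
  rw [sum_ext s]
  · apply Finset.sum_congr rfl
    intro u _
    rw [sum_ext s]
    · apply Finset.sum_congr rfl
      intro v _
      rw [ent_induce, ext0_mem, ext0_mem]
    · intro v hv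
      rw [ext0_not y hv]
      ring
  · intro u hu
    apply Finset.sum_eq_zero
    intro v _
    rw [ext0_not y hu]
    ring

/-- Induced subgraphs inherit positive semidefiniteness. -/
theorem psd_induce {V : Type*} [Fintype V] {G : SimpleGraph V} (h : Psd G) (s : Set V)
    [Fintype s] : Psd (G.induce s) := by
  intro y
  rw [← form_ext0]
  exact h _

/-- Induced subgraphs inherit positive definiteness. -/
theorem pd_induce {V : Type*} [Fintype V] {G : SimpleGraph V} (h : Pd G) (s : Set V)
    [Fintype s] : Pd (G.induce s) := by
  intro y hy
  rw [← form_ext0]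
  apply h
  intro h0
  apply hy
  funext v
  rw [← ext0_mem y v, h0]
  rfl

/-- If all components are positive semidefinite, so is the graph. -/
theorem psd_of_comps {V : Type*} [Fintype V] {G : SimpleGraph V}
    (h : ∀ (c : G.ConnectedComponent) (_ : Fintype c.supp), Psd (G.induce c.supp)) : Psd G := by
  classical
  intro y
  have : Fintype G.ConnectedComponent := Fintype.ofFinite _
  have key : form G y = ∑ c : G.ConnectedComponent,
      form G (ext0 c.supp (fun v => y v)) := by
    unfold form
    symm
    rw [Finset.sum_comm]
    apply Finset.sum_congr rfl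
    intro v _
    rw [Finset.sum_comm]
    apply Finset.sum_congr rfl
    intro u _
    rw [Finset.sum_eq_single (G.connectedComponentMk v)]
    · have hv : v ∈ (G.connectedComponentMk v).supp := rfl
      have h1 : ext0 (G.connectedComponentMk v).supp (fun v => y v) v = y v :=
        ext0_mem (s := (G.connectedComponentMk v).supp) (fun v => y v) ⟨v, hv⟩
      by_cases hu : u ∈ (G.connectedComponentMk v).supp
      · have h2 : ext0 (G.connectedComponentMk v).supp (fun v => y v) u = y u :=
          ext0_mem (s := (G.connectedComponentMk v).supp) (fun v => y v) ⟨u, hu⟩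
        rw [h1, h2]
      · have h2 : ent G v u = 0 := by
          unfold ent
          have hne : ¬ v = u := fun q => hu (q ▸ hv)
          have hna : ¬ G.Adj v u := fun q => hu (by
            show G.connectedComponentMk u = G.connectedComponentMk v
            exact (SimpleGraph.ConnectedComponent.connectedComponentMk_eq_of_adj q).symm)
          rw [if_neg hne, if_neg hna]
        rw [h2]
        ring
    · intro c _ hc
      have hv : v ∉ c.supp := fun q => hc q.symm
      rw [ext0_not _ hv]
      ring
    · intro q
      exact absurd (Finset.mem_univ _) q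
  rw [key]
  apply Finset.sum_nonneg
  intro c _
  have : Fintype c.supp := Fintype.ofFinite _
  rw [form_ext0]
  exact h c _ _

/-- Components of a regular graph are regular. -/
theorem reg_comp {V : Type*} {G : SimpleGraph V} {d : ℕ} (h : Reg G d)
    (c : G.ConnectedComponent) : Reg (G.induce c.supp) d := by
  intro v
  rw [← h v, ← Set.ncard_image_of_injective _ (Subtype.val_injective (p := (· ∈ c.supp)))]
  congr 1
  ext w
  constructor
  · rintro ⟨w', hw', rfl⟩
    exact hw'
  · intro hw
    have hw' : G.Adj v w := hw
    have hc : w ∈ c.supp := by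
      show G.connectedComponentMk w = c
      rw [← SimpleGraph.ConnectedComponent.connectedComponentMk_eq_of_adj hw']
      exact v.2
    exact ⟨⟨w, hc⟩, hw', rfl⟩

/-- Components are connected. -/
theorem conn_comp {V : Type*} {G : SimpleGraph V} (c : G.ConnectedComponent) :
    (G.induce c.supp).Connected := by
  exact c.connected_toSimpleGraph

/-- If `G` is `d`-regular and all its components are complete, then `d+1` divides the number
of vertices. -/
theorem dvd_of_complete_comps {V : Type*} [Fintype V] {G : SimpleGraph V} {d : ℕ}
    (h : Reg G d)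
    (hc : ∀ (c : G.ConnectedComponent) (u v : c.supp), u ≠ v → (G.induce c.supp).Adj u v) :
    (d + 1) ∣ Fintype.card V := by
  classical
  have : Fintype G.ConnectedComponent := Fintype.ofFinite _
  rw [← Finset.card_univ, Finset.card_eq_sum_card_fiberwise (f := G.connectedComponentMk)
    (t := Finset.univ) (fun x _ => Finset.mem_coe.2 (Finset.mem_univ _))]
  apply Finset.dvd_sum
  intro c _
  obtain ⟨v, hv⟩ := c.nonempty_supp
  have e : (Finset.univ.filter (fun a => G.connectedComponentMk a = c)).card = d + 1 := by
    have h1 : ((Finset.univ.filter (fun a => G.connectedComponentMk a = c) : Finset V) : Set V)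
        = insert v (G.neighborSet v) := by
      ext w
      constructor
      · intro hw
        have hw' : w ∈ c.supp := by
          have := Finset.mem_coe.1 hw
          exact (Finset.mem_filter.1 this).2
        by_cases hvw : w = v
        · exact Or.inl hvw
        · right
          exact hc c ⟨v, hv⟩ ⟨w, hw'⟩ (fun q => hvw (congrArg Subtype.val q).symm)
      · intro hw
        apply Finset.mem_coe.2
        apply Finset.mem_filter.2
        refine ⟨Finset.mem_univ _, ?_⟩
        rcases hw with hw | hw
        · rw [hw]
          exact hv
        · have hw' : G.Adj v w := hw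
          rw [← SimpleGraph.ConnectedComponent.connectedComponentMk_eq_of_adj hw']
          exact hv
    rw [← Set.ncard_coe_finset, h1, Set.ncard_insert_of_notMem, h v]
    intro q
    exact G.loopless.irrefl v q
  rw [e]

end Pool.Agent.Lib.MP_70d4d1_co
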