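import Pool.Agent.Lib.MP_70d4d1_co.Ray
import Pool.Agent.Lib.MP_70d4d1_co.Enum
import Pool.Agent.Lib.MP_70d4d1_co.Comp

namespace Pool.Agent.Lib.MP_70d4d1_co

section cyc

variable {V : Type*} [Fintype V] {H : SimpleGraph V} {c : ℕ → V}

theorem cyc_mod (h : CycEnum H c) (i : ℕ) : c (i % Fintype.card V) = c i := by
  have hp : ∀ q i, c (i + Fintype.card V * q) = c i := by
    intro q
    induction q with
    | zero => intro i; simp
    | succ q ih =>
      intro i
      rw [Nat.mul_succ, ← add_assoc, h.per, ih]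
  have := hp (i / Fintype.card V) (i % Fintype.card V)
  rw [Nat.mod_add_div] at this
  exact this.symm

theorem cyc_eq_iff (h : CycEnum H c) (i j : ℕ) :
    c i = c j ↔ i % Fintype.card V = j % Fintype.card V := by
  have h3 := h.three
  constructor
  · intro e
    rw [← cyc_mod h i, ← cyc_mod h j] at e
    exact h.inj _ _ (Nat.mod_lt _ (by omega)) (Nat.mod_lt _ (by omega)) e
  · intro e
    rw [← cyc_mod h i, ← cyc_mod h j, e]

/-- Sums over the vertices. -/
theorem cyc_sum (h : CycEnum H c) (f : V → ℝ) :
    ∑ v, f v = ∑ i ∈ Finset.range (Fintype.card V), f (c i) := by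
  classical
  symm
  refine Finset.sum_bij (fun i _ => c i) (fun i _ => Finset.mem_univ _) ?_ ?_ (fun i _ => rfl)
  · intro i hi j hj e
    exact h.inj i j (Finset.mem_range.1 hi) (Finset.mem_range.1 hj) e
  · intro v _
    obtain ⟨i, hi, e⟩ := h.surj v
    exact ⟨i, Finset.mem_range.2 hi, e⟩

open Classical in
theorem cyc_adj_eq (h : CycEnum H c) (u v : V) :
    adj H u v = ∑ i ∈ Finset.range (Fintype.card V),
      ((if c i = u ∧ c (i + 1) = v then (1 : ℝ) else 0) +
        (if c i = v ∧ c (i + 1) = u then (1 : ℝ) else 0)) := by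
  classical
  have h3 := h.three
  unfold adj
  simp only [Matrix.of_apply]
  by_cases hadj : H.Adj u v
  · rw [if_pos hadj]
    obtain ⟨i0, hi0⟩ := (h.adj u v).1 hadj
    -- reduce the index
    have key : ∀ (u v : V) (i0 : ℕ), u = c i0 → v = c (i0 + 1) →
        ∑ i ∈ Finset.range (Fintype.card V),
      ((if c i = u ∧ c (i + 1) = v then (1 : ℝ) else 0) +
        (if c i = v ∧ c (i + 1) = u then (1 : ℝ) else 0)) = 1 := by
      intro u v i0 hu hv
      subst hu
      subst hv
      rw [Finset.sum_eq_single (i0 % Fintype.card V)]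
      · have e1 : c (i0 % Fintype.card V) = c i0 := cyc_mod h i0
        have e2 : c (i0 % Fintype.card V + 1) = c (i0 + 1) := by
          rw [cyc_eq_iff h, Nat.mod_add_mod]
        have e3 : ¬ (c i0 = c (i0 + 1)) := by
          rw [cyc_eq_iff h]
          intro e
          have h5 : (i0 + 1) % Fintype.card V = (i0 % Fintype.card V + 1) % Fintype.card V := by
            rw [Nat.mod_add_mod]
          have h6 := Nat.mod_lt i0 (show 0 < Fintype.card V by omega)
          rcases Nat.lt_or_ge (i0 % Fintype.card V + 1) (Fintype.card V) with h7 | h7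
          · rw [Nat.mod_eq_of_lt h7] at h5
            omega
          · have h8 : i0 % Fintype.card V + 1 = Fintype.card V := by omega
            rw [h8, Nat.mod_self] at h5
            omega
        rw [e1, e2, if_pos ⟨rfl, rfl⟩, if_neg (fun q => e3 q.1)]
        ring
      · intro j hj hne
        have hj' := Finset.mem_range.1 hj
        rw [if_neg, if_neg]
        · ring
        · rintro ⟨q1, q2⟩
          rw [cyc_eq_iff h] at q1 q2
          have h5 : (i0 + 1 + 1) % Fintype.card V = i0 % Fintype.card V := by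
            rw [← q2, ← Nat.mod_add_mod (i0 + 1) _ 1, ← q1, Nat.mod_add_mod]
          have h6 := Nat.mod_lt i0 (show 0 < Fintype.card V by omega)
          have h5' : (i0 % Fintype.card V + 2) % Fintype.card V = i0 % Fintype.card V := by
            rw [Nat.mod_add_mod]; exact h5
          rcases Nat.lt_or_ge (i0 % Fintype.card V + 2) (Fintype.card V) with h7 | h7
          · rw [Nat.mod_eq_of_lt h7] at h5'
            omega
          · rw [Nat.mod_eq_sub_mod h7, Nat.mod_eq_of_lt (by omega)] at h5'
            omega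
        · rintro ⟨q1, -⟩
          rw [cyc_eq_iff h, Nat.mod_eq_of_lt hj'] at q1
          exact hne q1
      · intro q
        exact absurd (Finset.mem_range.2 (Nat.mod_lt _ (by omega))) q
    rcases hi0 with ⟨hu, hv⟩ | ⟨hv, hu⟩
    · exact (key u v i0 hu hv).symm
    · refine (key v u i0 hv hu).symm.trans ?_
      apply Finset.sum_congr rfl
      intro i _
      rw [add_comm]
  · rw [if_neg hadj]
    symm
    apply Finset.sum_eq_zero
    intro i _
    rw [if_neg, if_neg]
    · ring
    · rintro ⟨q1, q2⟩
      exact hadj ((h.adj u v).2 ⟨i, Or.inr ⟨q1.symm, q2.symm⟩⟩)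
    · rintro ⟨q1, q2⟩
      exact hadj ((h.adj u v).2 ⟨i, Or.inl ⟨q1.symm, q2.symm⟩⟩)

/-- The quadratic form of a cycle. -/
theorem cyc_aform (h : CycEnum H c) (y : V → ℝ) :
    aform H y = 2 * ∑ i ∈ Finset.range (Fintype.card V), y (c i) * y (c (i + 1)) := by
  classical
  unfold aform
  have h1 : ∀ u v, adj H u v * (y u * y v) = ∑ i ∈ Finset.range (Fintype.card V),
      ((if c i = u ∧ c (i + 1) = v then y u * y v else 0) +
        (if c i = v ∧ c (i + 1) = u then y u * y v else 0)) := by
    intro u v
    rw [cyc_adj_eq h, Finset.sum_mul]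
    apply Finset.sum_congr rfl
    intro i _
    rw [add_mul, ite_mul, ite_mul, one_mul, zero_mul]
  simp only [h1]
  have h2 : ∀ u : V, ∑ v, ∑ i ∈ Finset.range (Fintype.card V),
      ((if c i = u ∧ c (i + 1) = v then y u * y v else 0) +
        (if c i = v ∧ c (i + 1) = u then y u * y v else 0))
      = ∑ i ∈ Finset.range (Fintype.card V), ∑ v,
      ((if c i = u ∧ c (i + 1) = v then y u * y v else 0) +
        (if c i = v ∧ c (i + 1) = u then y u * y v else 0)) := fun u => Finset.sum_comm
  simp only [h2]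
  rw [Finset.sum_comm, Finset.mul_sum]
  apply Finset.sum_congr rfl
  intro i _
  have h3 : ∑ u, ∑ v, (if c i = u ∧ c (i + 1) = v then y u * y v else 0)
      = y (c i) * y (c (i + 1)) := by
    rw [Finset.sum_eq_single (c i), Finset.sum_eq_single (c (i + 1))]
    · simp
    · intro v _ hv
      rw [if_neg (fun q => hv q.2.symm)]
    · simp
    · intro u _ hu
      apply Finset.sum_eq_zero
      intro v _
      rw [if_neg (fun q => hu q.1.symm)]
    · simp
  have h4 : ∑ u, ∑ v, (if c i = v ∧ c (i + 1) = u then y u * y v else 0)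
      = y (c (i + 1)) * y (c i) := by
    rw [Finset.sum_eq_single (c (i + 1)), Finset.sum_eq_single (c i)]
    · simp
    · intro v _ hv
      rw [if_neg (fun q => hv q.1.symm)]
    · simp
    · intro u _ hu
      apply Finset.sum_eq_zero
      intro v _
      rw [if_neg (fun q => hu q.2.symm)]
    · simp
  simp only [Finset.sum_add_distrib]
  rw [h3, h4]
  ring

/-- A function with given values. -/
theorem cyc_fun (h : CycEnum H c) (w : ℕ → ℝ) :
    ∃ y : V → ℝ, ∀ i, i < Fintype.card V → y (c i) = w i := by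
  choose f hf using h.surj
  refine ⟨fun v => w (f v), fun i hi => ?_⟩
  have := h.inj _ _ (hf (c i)).1 hi (hf (c i)).2
  show w (f (c i)) = w i
  rw [this]

end cyc

section split

variable {V : Type*} [Fintype V]

omit [Fintype V] in
theorem adj_induce (G : SimpleGraph V) (s : Set V) (u v : s) :
    adj (G.induce s) u v = adj G u v := by
  classical
  unfold adj
  rfl

theorem aform_ext0 (G : SimpleGraph V) (s : Set V) [Fintype s] (y : s → ℝ) :
    aform G (ext0 s y) = aform (G.induce s) y := by
  unfold aform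
  rw [sum_ext s]
  · apply Finset.sum_congr rfl
    intro u _
    rw [sum_ext s]
    · apply Finset.sum_congr rfl
      intro v _
      rw [adj_induce, ext0_mem, ext0_mem]
    · intro v hv
      rw [ext0_not y hv]
      ring
  · intro u hu
    apply Finset.sum_eq_zero
    intro v _
    rw [ext0_not y hu]
    ring

theorem sq_ext0 (s : Set V) [Fintype s] (y : s → ℝ) :
    ∑ v, ext0 s y v ^ 2 = ∑ v : s, y v ^ 2 := by
  rw [sum_ext s]
  · apply Finset.sum_congr rfl
    intro u _
    rw [ext0_mem]
  · intro u hu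
    rw [ext0_not y hu]
    ring

/-- Splitting over the components. -/
theorem split_nonneg {G : SimpleGraph V} (t : ℝ)
    (h : ∀ (c : G.ConnectedComponent) (_ : Fintype c.supp) (y : c.supp → ℝ),
      t * ∑ v, y v ^ 2 ≤ aform (G.induce c.supp) y) (y : V → ℝ) :
    t * ∑ v, y v ^ 2 ≤ aform G y := by
  classical
  have : Fintype G.ConnectedComponent := Fintype.ofFinite _
  have key : aform G y = ∑ c : G.ConnectedComponent,
      aform G (ext0 c.supp (fun v => y v)) := by
    unfold aform
    symm
    rw [Finset.sum_comm]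
    apply Finset.sum_congr rfl
    intro v _
    rw [Finset.sum_comm]
    apply Finset.sum_congr rfl
    intro u _
    rw [Finset.sum_eq_single (G.connectedComponentMk v)]
    · have hv : v ∈ (G.connectedComponentMk v).supp := rfl
      have h1 : ext0 (G.connectedComponentMk v).supp (fun v => y v) v = y v :=
        ext0_mem (s := (G.connectedComponentMk v).supp) (fun v => y v) ⟨v, hv⟩
      by_cases hu : u ∈ (G.connectedComponentMk v).supp
      · have h2 : ext0 (G.connectedComponentMk v).supp (fun v => y v) u = y u :=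
          ext0_mem (s := (G.connectedComponentMk v).supp) (fun v => y v) ⟨u, hu⟩
        rw [h1, h2]
      · have h2 : adj G v u = 0 := by
          unfold adj
          have hna : ¬ G.Adj v u := fun q => hu (by
            show G.connectedComponentMk u = G.connectedComponentMk v
            exact (SimpleGraph.ConnectedComponent.connectedComponentMk_eq_of_adj q).symm)
          simp only [Matrix.of_apply]
          rw [if_neg hna]
        rw [h2]
        ring
    · intro c _ hc
      have hv : v ∉ c.supp := fun q => hc q.symm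
      rw [ext0_not _ hv]
      ring
    · intro q
      exact absurd (Finset.mem_univ _) q
  have key2 : ∑ v, y v ^ 2 = ∑ c : G.ConnectedComponent,
      ∑ v, ext0 c.supp (fun v => y v) v ^ 2 := by
    symm
    rw [Finset.sum_comm]
    apply Finset.sum_congr rfl
    intro v _
    rw [Finset.sum_eq_single (G.connectedComponentMk v)]
    · have h1 : ext0 (G.connectedComponentMk v).supp (fun v => y v) v = y v :=
        ext0_mem (s := (G.connectedComponentMk v).supp) (fun v => y v) ⟨v, rfl⟩
      rw [h1]
    · intro c _ hc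
      have hv : v ∉ c.supp := fun q => hc q.symm
      rw [ext0_not _ hv]
      ring
    · intro q
      exact absurd (Finset.mem_univ _) q
  rw [key, key2, Finset.mul_sum]
  apply Finset.sum_le_sum
  intro c _
  have : Fintype c.supp := Fintype.ofFinite _
  rw [aform_ext0, sq_ext0]
  exact h c _ _

end split

/-- A test vector on a component. -/
theorem comp_test {n : ℕ} {G : SimpleGraph (Fin n)} (hr : Reg G 2) (C : G.ConnectedComponent)
    (k : ℕ) (hk : C.supp.ncard = k) (w : ℕ → ℝ) (t : ℝ)
    (h0 : 0 < ∑ i ∈ Finset.range k, w i ^ 2)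
    (h1 : 2 * ∑ i ∈ Finset.range k, w i * w ((i + 1) % k) ≤ t * ∑ i ∈ Finset.range k, w i ^ 2) :
    lamMin G ≤ t := by
  classical
  have : Fintype C.supp := Fintype.ofFinite _
  have hk' : Fintype.card C.supp = k := by
    rw [← hk, Set.ncard_eq_toFinset_card', Set.toFinset_card]
  obtain ⟨c, hc⟩ := exists_cycEnum (reg_comp hr C) (conn_comp C)
  obtain ⟨y, hy⟩ := cyc_fun hc w
  have h3 := hc.three
  rw [hk'] at hy h3
  have e1 : ∑ v, y v ^ 2 = ∑ i ∈ Finset.range k, w i ^ 2 := by
    rw [cyc_sum hc, hk']
    apply Finset.sum_congr rfl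
    intro i hi
    rw [hy i (Finset.mem_range.1 hi)]
  have e2 : aform (G.induce C.supp) y = 2 * ∑ i ∈ Finset.range k, w i * w ((i + 1) % k) := by
    rw [cyc_aform hc, hk']
    congr 1
    apply Finset.sum_congr rfl
    intro i hi
    rw [hy i (Finset.mem_range.1 hi), ← cyc_mod hc (i + 1), hk', hy _ (Nat.mod_lt _ (by omega))]
  have hn : 0 < n := by
    obtain ⟨v, -⟩ := C.nonempty_supp
    exact v.pos
  apply lam_le_of hn G t (ext0 C.supp y)
  · rw [sq_ext0, e1]; exact h0
  · rw [sq_ext0, aform_ext0, e1, e2]; exact h1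

theorem comp_three {n : ℕ} {G : SimpleGraph (Fin n)} (hr : Reg G 2) (C : G.ConnectedComponent) :
    3 ≤ C.supp.ncard := by
  classical
  have : Fintype C.supp := Fintype.ofFinite _
  obtain ⟨c, hc⟩ := exists_cycEnum (reg_comp hr C) (conn_comp C)
  have := hc.three
  rwa [← Set.toFinset_card, ← Set.ncard_eq_toFinset_card'] at this

theorem exists_big {n : ℕ} {G : SimpleGraph (Fin n)} (hr : Reg G 2) (hn : ¬ 3 ∣ n) :
    ∃ C : G.ConnectedComponent, 4 ≤ C.supp.ncard := by
  classical
  by_contra hcon
  push Not at hcon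
  apply hn
  have h := dvd_of_complete_comps (d := 2) hr (fun C u v huv => by
    have : Fintype C.supp := Fintype.ofFinite _
    obtain ⟨c, hc⟩ := exists_cycEnum (reg_comp hr C) (conn_comp C)
    have h3 := hc.three
    have h4 := hcon C
    rw [Set.ncard_eq_toFinset_card', Set.toFinset_card] at h4
    have h5 : Fintype.card C.supp = 3 := by omega
    obtain ⟨i, hi, ei⟩ := hc.surj u
    obtain ⟨j, hj, ej⟩ := hc.surj v
    rw [h5] at hi hj
    rw [hc.adj]
    have hij : i ≠ j := by
      rintro rfl
      exact huv (ei.symm.trans ej)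
    have hmod : ∀ a b : ℕ, a % 3 = b % 3 → c a = c b := by
      intro a b hab
      rw [cyc_eq_iff hc, h5]
      exact hab
    by_cases q : j = (i + 1) % 3
    · refine ⟨i, Or.inl ⟨ei.symm, ?_⟩⟩
      rw [← ej]
      apply hmod
      omega
    · refine ⟨j, Or.inr ⟨ej.symm, ?_⟩⟩
      rw [← ei]
      apply hmod
      omega)
  rwa [Fintype.card_fin] at h

theorem sqrt5 : √5 ^ 2 = (5 : ℝ) ∧ (2.236 : ℝ) < √5 ∧ √5 < 2.237 := by
  have h := Real.sq_sqrt (show (0 : ℝ) ≤ 5 by norm_num)
  have h0 := Real.sqrt_nonneg 5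
  refine ⟨h, ?_, ?_⟩ <;> nlinarith

theorem sqrt3 : √3 ^ 2 = (3 : ℝ) ∧ (1.732 : ℝ) < √3 ∧ √3 < 1.733 := by
  have h := Real.sq_sqrt (show (0 : ℝ) ≤ 3 by norm_num)
  have h0 := Real.sqrt_nonneg 3
  refine ⟨h, ?_, ?_⟩ <;> nlinarith

theorem comp_four {n : ℕ} {G : SimpleGraph (Fin n)} (hr : Reg G 2) (C : G.ConnectedComponent)
    (hk : C.supp.ncard = 4) : lamMin G ≤ -2 := by
  apply comp_test hr C 4 hk (fun i => if i = 0 then 1 else if i = 1 then -1 else
    if i = 2 then 1 else -1)
  · simp
  · simp [Finset.sum_range_succ]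
    norm_num

theorem comp_five {n : ℕ} {G : SimpleGraph (Fin n)} (hr : Reg G 2) (C : G.ConnectedComponent)
    (hk : 5 ≤ C.supp.ncard) : lamMin G ≤ -((1 + √5) / 2) := by
  obtain ⟨h1, h2, h3⟩ := sqrt5
  obtain ⟨k, hk'⟩ : ∃ k, C.supp.ncard = k := ⟨_, rfl⟩
  rw [hk'] at hk
  set w : ℕ → ℝ := fun i => if i = 0 then 1 else if i = 1 then -((1 + √5) / 2) else
    if i = 2 then (1 + √5) / 2 else if i = 3 then -1 else 0 with hw
  have w0 : w 0 = 1 := rfl
  have w1 : w 1 = -((1 + √5) / 2) := rfl
  have w2 : w 2 = (1 + √5) / 2 := rfl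
  have w3 : w 3 = -1 := rfl
  have w4 : ∀ i, 4 ≤ i → w i = 0 := by
    intro i hi
    simp only [hw]
    rw [if_neg (by omega), if_neg (by omega), if_neg (by omega), if_neg (by omega)]
  have e1 : ∑ i ∈ Finset.range k, w i ^ 2 = ∑ i ∈ Finset.range 4, w i ^ 2 := by
    symm
    apply Finset.sum_subset (Finset.range_mono (by omega))
    intro x _ hx
    rw [Finset.mem_range] at hx
    rw [w4 x (by omega)]
    ring
  have e2 : ∑ i ∈ Finset.range k, w i * w ((i + 1) % k)
      = ∑ i ∈ Finset.range 4, w i * w ((i + 1) % k) := by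
    symm
    apply Finset.sum_subset (Finset.range_mono (by omega))
    intro x _ hx
    rw [Finset.mem_range] at hx
    rw [w4 x (by omega)]
    ring
  apply comp_test hr C k hk' w
  · rw [e1]
    simp only [Finset.sum_range_succ, Finset.sum_range_zero, w0, w1, w2, w3]
    nlinarith
  · rw [e1, e2]
    simp only [Finset.sum_range_succ, Finset.sum_range_zero, Nat.mod_eq_of_lt (show 0 + 1 < k by omega),
      Nat.mod_eq_of_lt (show 1 + 1 < k by omega), Nat.mod_eq_of_lt (show 2 + 1 < k by omega),
      Nat.mod_eq_of_lt (show 3 + 1 < k by omega)]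
    norm_num only [w0, w1, w2, w3, w4 4 le_rfl]
    nlinarith

theorem comp_six {n : ℕ} {G : SimpleGraph (Fin n)} (hr : Reg G 2) (C : G.ConnectedComponent)
    (hk : 6 ≤ C.supp.ncard) : lamMin G ≤ -√3 := by
  obtain ⟨h1, h2, h3⟩ := sqrt3
  obtain ⟨k, hk'⟩ : ∃ k, C.supp.ncard = k := ⟨_, rfl⟩
  rw [hk'] at hk
  set w : ℕ → ℝ := fun i => if i = 0 then 1 else if i = 1 then -√3 else
    if i = 2 then 2 else if i = 3 then -√3 else if i = 4 then 1 else 0 with hw
  have w0 : w 0 = 1 := rfl
  have w1 : w 1 = -√3 := rfl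
  have w2 : w 2 = 2 := rfl
  have w3 : w 3 = -√3 := rfl
  have w4 : w 4 = 1 := rfl
  have w5 : ∀ i, 5 ≤ i → w i = 0 := by
    intro i hi
    simp only [hw]
    rw [if_neg (by omega), if_neg (by omega), if_neg (by omega), if_neg (by omega),
      if_neg (by omega)]
  have e1 : ∑ i ∈ Finset.range k, w i ^ 2 = ∑ i ∈ Finset.range 5, w i ^ 2 := by
    symm
    apply Finset.sum_subset (Finset.range_mono (by omega))
    intro x _ hx
    rw [Finset.mem_range] at hx
    rw [w5 x (by omega)]
    ring
  have e2 : ∑ i ∈ Finset.range k, w i * w ((i + 1) % k)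
      = ∑ i ∈ Finset.range 5, w i * w ((i + 1) % k) := by
    symm
    apply Finset.sum_subset (Finset.range_mono (by omega))
    intro x _ hx
    rw [Finset.mem_range] at hx
    rw [w5 x (by omega)]
    ring
  apply comp_test hr C k hk' w
  · rw [e1]
    simp only [Finset.sum_range_succ, Finset.sum_range_zero, w0, w1, w2, w3, w4]
    nlinarith
  · rw [e1, e2]
    simp only [Finset.sum_range_succ, Finset.sum_range_zero, Nat.mod_eq_of_lt (show 0 + 1 < k by omega),
      Nat.mod_eq_of_lt (show 1 + 1 < k by omega), Nat.mod_eq_of_lt (show 2 + 1 < k by omega),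
      Nat.mod_eq_of_lt (show 3 + 1 < k by omega), Nat.mod_eq_of_lt (show 4 + 1 < k by omega)]
    norm_num only [w0, w1, w2, w3, w4, w5 5 le_rfl]
    nlinarith

/-- A `2`-regular graph that is not a union of triangles has least eigenvalue at most
`-(1+√5)/2`. -/
theorem two_le {n : ℕ} {G : SimpleGraph (Fin n)} (hr : Reg G 2) (hn : ¬ 3 ∣ n) :
    lamMin G ≤ -((1 + √5) / 2) := by
  obtain ⟨h1, h2, h3⟩ := sqrt5
  obtain ⟨C, hC⟩ := exists_big hr hn
  rcases Nat.lt_or_ge C.supp.ncard 5 with h | h
  · have := comp_four hr C (by omega)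
    linarith
  · exact comp_five hr C h

theorem penta (a b c d e f : ℝ) (hf : f ^ 2 = f + 1) (h1 : 1 < f) :
    -f * (a ^ 2 + b ^ 2 + c ^ 2 + d ^ 2 + e ^ 2) ≤
      2 * (a * b + b * c + c * d + d * e + e * a) := by
  have key : 2 * (a * b + b * c + c * d + d * e + e * a) +
      f * (a ^ 2 + b ^ 2 + c ^ 2 + d ^ 2 + e ^ 2) =
      f * (a + (f - 1) * (b + e)) ^ 2 + (b + c - (f - 1) * e) ^ 2 +
        (f - 1) * (c + e + f * d) ^ 2 := by
    have h2 : f ^ 2 - f - 1 = 0 := by linarith
    have h3 : f * (f - 1) = 1 := by linarith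
    linear_combination (-(2 * a * (b + e)) - (f - 1) * (b + e) ^ 2 - e ^ 2 - f * d ^ 2 -
      2 * (c + e) * d) * hf
  have p1 : 0 ≤ f * (a + (f - 1) * (b + e)) ^ 2 := mul_nonneg (by linarith) (sq_nonneg _)
  have p2 : 0 ≤ (b + c - (f - 1) * e) ^ 2 := sq_nonneg _
  have p3 : 0 ≤ (f - 1) * (c + e + f * d) ^ 2 := mul_nonneg (by linarith) (sq_nonneg _)
  linarith

/-- Equality for unions of triangles and pentagons only. -/
theorem two_eq_iff {n : ℕ} {G : SimpleGraph (Fin n)} (hr : Reg G 2) (hn : ¬ 3 ∣ n) :
    lamMin G = -((1 + √5) / 2) ↔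
      ∀ c : G.ConnectedComponent, c.supp.ncard = 3 ∨ c.supp.ncard = 5 := by
  obtain ⟨h1, h2, h3⟩ := sqrt5
  obtain ⟨g1, g2, g3⟩ := sqrt3
  constructor
  · intro h C
    have hC := comp_three hr C
    by_contra hcon
    push Not at hcon
    rcases Nat.lt_or_ge C.supp.ncard 5 with h5 | h5
    · have := comp_four hr C (by omega)
      linarith
    · have := comp_six hr C (by omega)
      linarith
  · intro h
    apply le_antisymm (two_le hr hn)
    have hn0 : 0 < n := by
      rcases Nat.eq_zero_or_pos n with q | q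
      · exact absurd (q ▸ dvd_zero 3) hn
      · exact q
    rw [le_lam_iff hn0]
    apply split_nonneg
    intro C _ y
    obtain ⟨c, hc⟩ := exists_cycEnum (reg_comp hr C) (conn_comp C)
    rw [cyc_aform hc, cyc_sum hc]
    have hk := h C
    rw [Set.ncard_eq_toFinset_card', Set.toFinset_card] at hk
    rcases hk with hk | hk
    · rw [hk]
      have e3 : c 3 = c 0 := by
        have := hc.per 0
        rwa [hk] at this
      simp only [Finset.sum_range_succ, Finset.sum_range_zero]
      norm_num only [e3]
      nlinarith [sq_nonneg (y (c 0) + y (c 1) + y (c 2)), sq_nonneg (y (c 0)),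
        sq_nonneg (y (c 1)), sq_nonneg (y (c 2))]
    · rw [hk]
      have e5 : c 5 = c 0 := by
        have := hc.per 0
        rwa [hk] at this
      simp only [Finset.sum_range_succ, Finset.sum_range_zero]
      norm_num only [e5]
      have := penta (y (c 0)) (y (c 1)) (y (c 2)) (y (c 3)) (y (c 4)) ((1 + √5) / 2)
        (by nlinarith) (by linarith)
      linarith

/-- Disjoint triangles and pentagons. -/
def blk (a b : ℕ) : SimpleGraph ((Fin a × Fin 3) ⊕ (Fin b × Fin 5)) where
  Adj u v := match u, v with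
    | .inl (x, i), .inl (y, j) => x = y ∧ i ≠ j
    | .inr (x, i), .inr (y, j) => x = y ∧ (j = i + 1 ∨ i = j + 1)
    | _, _ => False
  symm := ⟨by
    rintro (⟨x, i⟩ | ⟨x, i⟩) (⟨y, j⟩ | ⟨y, j⟩) h
    · exact ⟨h.1.symm, h.2.symm⟩
    · exact h
    · exact h
    · exact ⟨h.1.symm, h.2.symm⟩⟩
  loopless := ⟨by
    rintro (⟨x, i⟩ | ⟨x, i⟩) h
    · exact h.2 rfl
    · have hne : ∀ i : Fin 5, i ≠ i + 1 := by decide
      rcases h.2 with h | h
      · exact hne i h
      · exact hne i h⟩

theorem blk_reg (a b : ℕ) : Reg (blk a b) 2 := by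
  rintro (⟨x, i⟩ | ⟨x, i⟩)
  · have e : (blk a b).neighborSet (.inl (x, i)) =
        (fun j : Fin 3 => (.inl (x, j) : (Fin a × Fin 3) ⊕ (Fin b × Fin 5))) '' {j | i ≠ j} := by
      ext v
      rcases v with ⟨y, j⟩ | ⟨y, j⟩
      · constructor
        · rintro ⟨h1, h2⟩
          subst h1
          exact ⟨j, h2, rfl⟩
        · rintro ⟨j', h1, h2⟩
          simp only [Sum.inl.injEq, Prod.mk.injEq] at h2
          obtain ⟨h3, h4⟩ := h2
          subst h3 h4
          exact ⟨rfl, h1⟩
      · constructor
        · intro h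
          exact h.elim
        · rintro ⟨j', h1, h2⟩
          exact absurd h2 (by simp)
    rw [e, Set.ncard_image_of_injective]
    · rw [Set.ncard_eq_toFinset_card']
      clear e
      revert i
      decide
    · intro j j' h
      simpa using h
  · have e : (blk a b).neighborSet (.inr (x, i)) =
        (fun j : Fin 5 => (.inr (x, j) : (Fin a × Fin 3) ⊕ (Fin b × Fin 5))) ''
          {j | j = i + 1 ∨ i = j + 1} := by
      ext v
      rcases v with ⟨y, j⟩ | ⟨y, j⟩
      · constructor
        · intro h
          exact h.elim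
        · rintro ⟨j', h1, h2⟩
          exact absurd h2 (by simp)
      · constructor
        · rintro ⟨h1, h2⟩
          subst h1
          exact ⟨j, h2, rfl⟩
        · rintro ⟨j', h1, h2⟩
          simp only [Sum.inr.injEq, Prod.mk.injEq] at h2
          obtain ⟨h3, h4⟩ := h2
          subst h3 h4
          exact ⟨rfl, h1⟩
    rw [e, Set.ncard_image_of_injective]
    · rw [Set.ncard_eq_toFinset_card']
      clear e
      revert i
      decide
    · intro j j' h
      simpa using h

theorem blk_comp (a b : ℕ) (C : (blk a b).ConnectedComponent) :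
    C.supp.ncard = 3 ∨ C.supp.ncard = 5 := by
  have hstep : ∀ (u v : (Fin a × Fin 3) ⊕ (Fin b × Fin 5)), (blk a b).Reachable u v →
      Sum.map Prod.fst Prod.fst u = Sum.map Prod.fst Prod.fst v := by
    intro u v h
    obtain ⟨p⟩ := h
    induction p with
    | nil => rfl
    | cons h p ih =>
      rw [← ih]
      rename_i u v w
      rcases u with ⟨x, i⟩ | ⟨x, i⟩ <;> rcases v with ⟨y, j⟩ | ⟨y, j⟩
      · simp only [Sum.map_inl]
        rw [h.1]
      · exact h.elim
      · exact h.elim
      · simp only [Sum.map_inr]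
        rw [h.1]
  obtain ⟨u, hu⟩ := C.nonempty_supp
  have hC : C = (blk a b).connectedComponentMk u := hu.symm
  subst hC
  rcases u with ⟨x, i⟩ | ⟨x, i⟩
  · left
    have e : ((blk a b).connectedComponentMk (.inl (x, i))).supp =
        (fun j : Fin 3 => (.inl (x, j) : (Fin a × Fin 3) ⊕ (Fin b × Fin 5))) '' Set.univ := by
      ext v
      constructor
      · intro hv
        have h := hstep _ _ (SimpleGraph.ConnectedComponent.exact hv)
        rcases v with ⟨y, j⟩ | ⟨y, j⟩
        · simp only [Sum.map_inl, Sum.inl.injEq] at h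
          exact ⟨j, Set.mem_univ _, by rw [h]⟩
        · simp at h
      · rintro ⟨j, -, rfl⟩
        apply SimpleGraph.ConnectedComponent.sound
        by_cases hij : i = j
        · rw [hij]
        · exact SimpleGraph.Adj.reachable (show (blk a b).Adj _ _ from ⟨rfl, fun q => hij q.symm⟩)
    rw [e, Set.ncard_image_of_injective]
    · simp
    · intro j j' h
      simpa using h
  · right
    have e : ((blk a b).connectedComponentMk (.inr (x, i))).supp =
        (fun j : Fin 5 => (.inr (x, j) : (Fin a × Fin 3) ⊕ (Fin b × Fin 5))) '' Set.univ := by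
      ext v
      constructor
      · intro hv
        have h := hstep _ _ (SimpleGraph.ConnectedComponent.exact hv)
        rcases v with ⟨y, j⟩ | ⟨y, j⟩
        · simp at h
        · simp only [Sum.map_inr, Sum.inr.injEq] at h
          exact ⟨j, Set.mem_univ _, by rw [h]⟩
      · rintro ⟨j, -, rfl⟩
        apply SimpleGraph.ConnectedComponent.sound
        have hs : ∀ m : ℕ, ∀ j : Fin 5,
            (blk a b).Reachable (.inr (x, (fun z : Fin 5 => z + 1)^[m] j)) (.inr (x, j)) := by
          intro m
          induction m with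
          | zero => intro j; exact SimpleGraph.Reachable.refl _
          | succ m ih =>
            intro j
            rw [Function.iterate_succ_apply]
            refine SimpleGraph.Reachable.trans (ih (j + 1)) ?_
            apply SimpleGraph.Adj.reachable
            show (blk a b).Adj _ _
            exact ⟨rfl, Or.inr rfl⟩
        have h5 : ∀ i j : Fin 5, ∃ m : Fin 5, (fun z : Fin 5 => z + 1)^[m.val] i = j := by
          decide
        obtain ⟨m, hm⟩ := h5 i j
        have := hs m.val i
        rw [hm] at this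
        exact this
    rw [e, Set.ncard_image_of_injective]
    · simp
    · intro j j' h
      simpa using h

/-- Unions of triangles and pentagons. -/
theorem two_exists (a b : ℕ) : ∃ G : SimpleGraph (Fin (3 * a + 5 * b)), Reg G 2 ∧
    ∀ c : G.ConnectedComponent, c.supp.ncard = 3 ∨ c.supp.ncard = 5 := by
  classical
  have e : (Fin a × Fin 3) ⊕ (Fin b × Fin 5) ≃ Fin (3 * a + 5 * b) :=
    Fintype.equivFinOfCardEq (by simp; ring)
  have φ : (blk a b) ≃g (blk a b).map e.toEmbedding := SimpleGraph.Iso.map e (blk a b)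
  refine ⟨(blk a b).map e.toEmbedding, fun v => ?_, fun C => ?_⟩
  · have h := blk_reg a b (φ.symm v)
    rw [← h]
    exact Nat.card_congr (φ.symm.mapNeighborSet v)
  · have h := blk_comp a b (φ.symm.connectedComponentEquiv C)
    have h2 : C.supp.ncard = (φ.symm.connectedComponentEquiv C).supp.ncard :=
      Nat.card_congr (SimpleGraph.ConnectedComponent.isoEquivSupp φ.symm C)
    rw [h2]
    exact h

end Pool.Agent.Lib.MP_70d4d1_co
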