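import Mathlib

namespace Pool.Agent.Lib.MP_70d4d1_co

open Finset ComplexConjugate

namespace Wirt

/-- Wiener-Khinchin on `ZMod n`. -/
theorem corr {n : ℕ} [NeZero n] (Y : ZMod n → ℝ) (s : ZMod n) :
    ∑ k : ZMod n, ZMod.stdAddChar (k * s) *
      ((∑ j, (Y j : ℂ) * ZMod.stdAddChar (k * j)) *
        conj (∑ j, (Y j : ℂ) * ZMod.stdAddChar (k * j))) =
      (n : ℂ) * ∑ j, ((Y j : ℂ) * (Y (j + s) : ℂ)) := by
  have hconj : ∀ x : ZMod n, conj (ZMod.stdAddChar x : ℂ) = ZMod.stdAddChar (-x) := by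
    intro x
    rw [AddChar.map_neg_eq_conj]
  have h1 : ∀ k : ZMod n, ZMod.stdAddChar (k * s) *
      ((∑ j, (Y j : ℂ) * ZMod.stdAddChar (k * j)) *
        conj (∑ j, (Y j : ℂ) * ZMod.stdAddChar (k * j))) =
      ∑ j, ∑ l, ((Y j : ℂ) * (Y l : ℂ)) * ZMod.stdAddChar (k * (s + j - l)) := by
    intro k
    rw [map_sum, Finset.sum_mul_sum, Finset.mul_sum]
    refine Finset.sum_congr rfl fun j _ => ?_
    rw [Finset.mul_sum]
    refine Finset.sum_congr rfl fun l _ => ?_
    rw [map_mul (starRingEnd ℂ), hconj, Complex.conj_ofReal]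
    have e : k * (s + j - l) = k * s + k * j + -(k * l) := by ring
    rw [e, AddChar.map_add_eq_mul, AddChar.map_add_eq_mul]
    ring
  simp_rw [h1]
  rw [Finset.sum_comm, Finset.mul_sum]
  refine Finset.sum_congr rfl fun j _ => ?_
  rw [Finset.sum_comm]
  simp_rw [← Finset.mul_sum]
  have h2 : ∀ l : ZMod n, ∑ k : ZMod n, (ZMod.stdAddChar (k * (s + j - l)) : ℂ) =
      if s + j - l = 0 then (n : ℂ) else 0 := by
    intro l
    rw [AddChar.sum_mulShift _ (ZMod.isPrimitive_stdAddChar n), ZMod.card]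
    split_ifs <;> simp
  simp_rw [h2]
  rw [Finset.sum_eq_single (j + s)]
  · rw [if_pos (by ring)]
    ring
  · intro l _ hl
    rw [if_neg, mul_zero]
    intro h
    exact hl (by rw [← sub_eq_zero.1 h]; ring)
  · intro h
    exact absurd (Finset.mem_univ _) h

theorem cos_le {n k : ℕ} (h1 : 1 ≤ k) (h2 : k < n) :
    Real.cos (2 * Real.pi * k / n) ≤ Real.cos (2 * Real.pi / n) := by
  have hn : (0 : ℝ) < n := by exact_mod_cast (by omega : 0 < n)
  have hpi := Real.pi_pos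
  have hk : (1 : ℝ) ≤ k := by exact_mod_cast h1
  have hkn : (k : ℝ) + 1 ≤ n := by exact_mod_cast h2
  have hlow : 2 * Real.pi / n ≤ 2 * Real.pi * k / n := by
    apply div_le_div_of_nonneg_right _ hn.le
    nlinarith
  have h0 : 0 ≤ 2 * Real.pi / n := by positivity
  by_cases hc : 2 * Real.pi * k / n ≤ Real.pi
  · exact Real.cos_le_cos_of_nonneg_of_le_pi h0 hc hlow
  · push Not at hc
    have e : Real.cos (2 * Real.pi * k / n) = Real.cos (2 * Real.pi - 2 * Real.pi * k / n) := by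
      rw [Real.cos_two_pi_sub]
    rw [e]
    apply Real.cos_le_cos_of_nonneg_of_le_pi h0 (by linarith)
    have e2 : 2 * Real.pi - 2 * Real.pi * k / n = 2 * Real.pi * (n - k) / n := by
      field_simp
    rw [e2]
    apply div_le_div_of_nonneg_right _ hn.le
    nlinarith

theorem zmod {n : ℕ} [NeZero n] (Y : ZMod n → ℝ) (h0 : ∑ j, Y j = 0) :
    ∑ j, Y j * Y (j + 1) ≤ Real.cos (2 * Real.pi / n) * ∑ j, Y j ^ 2 := by
  set A : ZMod n → ℂ := fun k => ∑ j, (Y j : ℂ) * ZMod.stdAddChar (k * j) with hA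
  have hn : (0 : ℝ) < n := by exact_mod_cast Nat.pos_of_ne_zero (NeZero.ne n)
  have hAA : ∀ k, A k * conj (A k) = ((Complex.normSq (A k) : ℝ) : ℂ) := fun k =>
    Complex.mul_conj _
  have e0 : ∑ k, Complex.normSq (A k) = n * ∑ j, Y j ^ 2 := by
    have := corr Y 0
    simp only [mul_zero, AddChar.map_zero_eq_one, one_mul, add_zero] at this
    have h : ∀ k, (∑ j, (Y j : ℂ) * ZMod.stdAddChar (k * j)) *
        conj (∑ j, (Y j : ℂ) * ZMod.stdAddChar (k * j)) = ((Complex.normSq (A k) : ℝ) : ℂ) := hAA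
    simp_rw [h] at this
    have h2 : ((∑ k, Complex.normSq (A k) : ℝ) : ℂ) = ((n * ∑ j, Y j ^ 2 : ℝ) : ℂ) := by
      push_cast
      rw [this]
      congr 1
      refine Finset.sum_congr rfl fun j _ => ?_
      ring
    exact_mod_cast h2
  have e1 : ∑ k : ZMod n, Real.cos (2 * Real.pi * k.val / n) * Complex.normSq (A k) =
      n * ∑ j, Y j * Y (j + 1) := by
    have := corr Y 1
    simp only [mul_one] at this
    have h : ∀ k, (∑ j, (Y j : ℂ) * ZMod.stdAddChar (k * j)) *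
        conj (∑ j, (Y j : ℂ) * ZMod.stdAddChar (k * j)) = ((Complex.normSq (A k) : ℝ) : ℂ) := hAA
    simp_rw [h] at this
    have h3 := congrArg Complex.re this
    rw [Complex.re_sum] at h3
    have h4 : ((n : ℂ) * ∑ j, ((Y j : ℂ) * (Y (j + 1) : ℂ))).re = n * ∑ j, Y j * Y (j + 1) := by
      have : ((n : ℂ) * ∑ j, ((Y j : ℂ) * (Y (j + 1) : ℂ))) =
          ((n * ∑ j, Y j * Y (j + 1) : ℝ) : ℂ) := by push_cast; rfl
      rw [this, Complex.ofReal_re]
    rw [h4] at h3
    rw [← h3]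
    refine Finset.sum_congr rfl fun k _ => ?_
    rw [Complex.re_mul_ofReal]
    congr 1
    rw [ZMod.stdAddChar_apply, ZMod.toCircle_apply]
    have e : (2 * Real.pi * Complex.I * k.val / n : ℂ) =
        ((2 * Real.pi * k.val / n : ℝ) : ℂ) * Complex.I := by
      push_cast
      ring
    rw [e, Complex.exp_ofReal_mul_I_re]
  have key : 0 ≤ ∑ k : ZMod n, (Real.cos (2 * Real.pi / n) - Real.cos (2 * Real.pi * k.val / n)) *
      Complex.normSq (A k) := by
    refine Finset.sum_nonneg fun k _ => ?_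
    by_cases hk : k = 0
    · have : A k = 0 := by
        rw [hA]
        simp only [hk, zero_mul, AddChar.map_zero_eq_one, mul_one]
        exact_mod_cast congrArg (fun x : ℝ => (x : ℂ)) h0
      rw [this]
      simp
    · refine mul_nonneg (sub_nonneg.2 (cos_le ?_ (ZMod.val_lt k))) (Complex.normSq_nonneg _)
      rw [Nat.one_le_iff_ne_zero]
      intro h
      exact hk ((ZMod.val_eq_zero k).1 h)
  simp_rw [sub_mul] at key
  rw [Finset.sum_sub_distrib, ← Finset.mul_sum, e0, e1] at key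
  have : (n : ℝ) * (∑ j, Y j * Y (j + 1)) ≤ n * (Real.cos (2 * Real.pi / n) * ∑ j, Y j ^ 2) := by
    nlinarith
  exact le_of_mul_le_mul_left this hn

end Wirt

/-- Discrete Wirtinger inequality (Fan, Taussky, Todd). -/
theorem wirtinger {n : ℕ} (hn : 1 ≤ n) (y : ℕ → ℝ) (hper : ∀ i, y (i + n) = y i)
    (h0 : ∑ i ∈ Finset.range n, y i = 0) :
    ∑ i ∈ Finset.range n, y i * y (i + 1) ≤
      Real.cos (2 * Real.pi / n) * ∑ i ∈ Finset.range n, y i ^ 2 := by
  have : NeZero n := ⟨by omega⟩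
  have hp : Function.Periodic y n := hper
  have hsum : ∀ f : ℕ → ℝ, ∑ i ∈ Finset.range n, f i = ∑ j : ZMod n, f j.val := by
    intro f
    obtain ⟨m, rfl⟩ : ∃ m, n = m + 1 := ⟨n - 1, by omega⟩
    exact (Fin.sum_univ_eq_sum_range f (m + 1)).symm
  have hy : ∀ j : ZMod n, y (j.val + 1) = y (j + 1).val := by
    intro j
    rw [ZMod.val_add, ← hp.map_mod_nat (j.val + 1)]
    congr 1
    rw [Nat.add_mod j.val 1, Nat.add_mod j.val (ZMod.val 1)]
    congr 2
    rw [ZMod.val_one_eq_one_mod, Nat.mod_mod]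
  have h1 := Wirt.zmod (n := n) (fun j => y j.val) (by rw [← hsum]; exact h0)
  rw [hsum (fun i => y i * y (i + 1)), hsum (fun i => y i ^ 2)]
  simp only [hy]
  exact h1

end Pool.Agent.Lib.MP_70d4d1_co
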