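import Pool.Agent.Lib.MP_70d4d1_co.Ray
import Pool.Agent.Lib.MP_70d4d1_co.Wirt
import Pool.Agent.Lib.MP_70d4d1_co.Enum
import Pool.Agent.Lib.MP_70d4d1_co.Circ
import Pool.Agent.Lib.MP_70d4d1_co.Two

namespace Pool.Agent.Lib.MP_70d4d1_co

namespace Cocyc

theorem adj_row {n d : ℕ} {H : SimpleGraph (Fin n)} (hr : Reg H d) (u : Fin n) :
    ∑ v, adj H u v = d := by
  classical
  have h1 : ∑ v, adj H u v = ∑ v, (if H.Adj u v then (1 : ℝ) else 0) := by
    refine Finset.sum_congr rfl fun v _ => ?_
    simp [adj]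
  rw [h1, Finset.sum_boole]
  have h2 := hr u
  rw [Set.ncard_eq_toFinset_card'] at h2
  have h3 : Finset.univ.filter (fun v => H.Adj u v) = (H.neighborSet u).toFinset := by
    ext v
    simp
  rw [h3, h2]

theorem adj_symm {n : ℕ} (H : SimpleGraph (Fin n)) (u v : Fin n) : adj H u v = adj H v u := by
  classical
  simp [adj, SimpleGraph.adj_comm]

theorem adj_nonneg {n : ℕ} (H : SimpleGraph (Fin n)) (u v : Fin n) : 0 ≤ adj H u v := by
  classical
  simp only [adj, Matrix.of_apply]
  split_ifs <;> norm_num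

/-- The form of the complement. -/
theorem aform_compl {n : ℕ} (G : SimpleGraph (Fin n)) (y : Fin n → ℝ) :
    aform G y = (∑ v, y v) ^ 2 - ∑ v, y v ^ 2 - aform Gᶜ y := by
  classical
  have h1 : ∀ u v, adj G u v * (y u * y v) =
      y u * y v - (if u = v then y u * y v else 0) - adj Gᶜ u v * (y u * y v) := by
    intro u v
    by_cases h : u = v
    · subst h
      simp [adj]
    · by_cases h' : G.Adj u v
      · simp [adj, h, h']
      · simp [adj, h, h']
  unfold aform
  simp only [h1, Finset.sum_sub_distrib]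
  have h2 : (∑ v, y v) ^ 2 = ∑ u, ∑ v, y u * y v := by
    rw [sq, Finset.sum_mul_sum]
  rw [h2]
  congr 2
  refine Finset.sum_congr rfl fun u _ => ?_
  rw [Finset.sum_ite_eq]
  simp
  ring

theorem reg_compl {n d : ℕ} (hn : n = d + 3) {G : SimpleGraph (Fin n)} (hr : Reg G d) :
    Reg Gᶜ 2 := by
  intro v
  have h1 : (Gᶜ).neighborSet v = (insert v (G.neighborSet v))ᶜ := by
    ext u
    simp only [SimpleGraph.mem_neighborSet, SimpleGraph.compl_adj, Set.mem_compl_iff,
      Set.mem_insert_iff, not_or]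
    exact ⟨fun h => ⟨h.1.symm, h.2⟩, fun h => ⟨Ne.symm h.1, h.2⟩⟩
  have h2 := Set.ncard_add_ncard_compl (insert v (G.neighborSet v))
  rw [Set.ncard_insert_of_notMem (by simp), hr v, Nat.card_eq_fintype_card,
    Fintype.card_fin] at h2
  rw [h1]
  omega

theorem shift {n : ℕ} (f : ℕ → ℝ) (h : f n = f 0) :
    ∑ i ∈ Finset.range n, f (i + 1) = ∑ i ∈ Finset.range n, f i := by
  have h1 := Finset.sum_range_succ' f n
  rw [Finset.sum_range_succ, h] at h1
  linarith

/-- A periodic solution of a symmetric recurrence. -/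
theorem rec_sum {n : ℕ} (w : ℕ → ℝ) (k : ℝ) (hp : ∀ i, w (i + n) = w i)
    (hw : ∀ i, w (i + 2) + w i = 2 * k * w (i + 1)) :
    ∑ i ∈ Finset.range n, w i * w (i + 1) = k * ∑ i ∈ Finset.range n, w i ^ 2 := by
  have h0 : w n = w 0 := by simpa using hp 0
  have h1 : w (n + 1) = w 1 := by rw [add_comm]; exact hp 1
  have e1 := shift (n := n) (fun i => w i * w (i + 1)) (by simp [h0, h1])
  have e2 := shift (n := n) (fun i => w i ^ 2) (by simp [h0])
  have e3 : ∑ i ∈ Finset.range n, (w (i + 1) * w (i + 1 + 1) + w i * w (i + 1)) =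
      ∑ i ∈ Finset.range n, 2 * k * w (i + 1) ^ 2 := by
    refine Finset.sum_congr rfl fun i _ => ?_
    have := hw i
    rw [show i + 1 + 1 = i + 2 from rfl]
    calc w (i + 1) * w (i + 2) + w i * w (i + 1) = (w (i + 2) + w i) * w (i + 1) := by ring
      _ = _ := by rw [this]; ring
  rw [Finset.sum_add_distrib, ← Finset.mul_sum] at e3
  rw [e1, e2] at e3
  linarith

theorem rec_zero {n : ℕ} (w : ℕ → ℝ) (k : ℝ) (hk : k ≠ 1) (hp : ∀ i, w (i + n) = w i)
    (hw : ∀ i, w (i + 2) + w i = 2 * k * w (i + 1)) :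
    ∑ i ∈ Finset.range n, w i = 0 := by
  have h0 : w n = w 0 := by simpa using hp 0
  have h1 : w (n + 1) = w 1 := by rw [add_comm]; exact hp 1
  have e1 := shift (n := n) w h0
  have e2 := shift (n := n) (fun i => w (i + 1)) (by simp [h1])
  have e3 : ∑ i ∈ Finset.range n, (w (i + 1 + 1) + w i) =
      ∑ i ∈ Finset.range n, 2 * k * w (i + 1) :=
    Finset.sum_congr rfl fun i _ => hw i
  rw [Finset.sum_add_distrib, ← Finset.mul_sum] at e3
  rw [e2, e1] at e3
  have : (k - 1) * ∑ i ∈ Finset.range n, w i = 0 := by linarith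
  rcases mul_eq_zero.1 this with h | h
  · exact absurd (by linarith) hk
  · exact h

theorem cos_rec (a : ℝ) (i : ℕ) :
    Real.cos (a * (i + 2 : ℕ)) + Real.cos (a * i) = 2 * Real.cos a * Real.cos (a * (i + 1 : ℕ)) := by
  have e1 : a * ((i + 2 : ℕ) : ℝ) = a * ((i + 1 : ℕ) : ℝ) + a := by push_cast; ring
  have e2 : a * (i : ℝ) = a * ((i + 1 : ℕ) : ℝ) - a := by push_cast; ring
  rw [e1, e2, Real.cos_add, Real.cos_sub]
  ring

end Cocyc

/-- Cycles exist on every `n ≥ 3` points. -/
theorem exists_cycle {n : ℕ} (hn : 3 ≤ n) : ∃ H : SimpleGraph (Fin n), Reg H 2 ∧ H.Connected := by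
  classical
  obtain ⟨m, rfl⟩ : ∃ m, n = m + 3 := ⟨n - 3, by omega⟩
  refine ⟨SimpleGraph.cycleGraph (m + 3), fun v => ?_, SimpleGraph.cycleGraph_connected⟩
  have h := SimpleGraph.cycleGraph_degree_three_le (n := m) (v := v)
  rw [← SimpleGraph.card_neighborSet_eq_degree] at h
  rw [← Nat.card_coe_set_eq, Nat.card_eq_fintype_card]
  exact h

/-- Least eigenvalue of the complement of a cycle. -/
theorem lam_cocycle {n d : ℕ} (hn : n = d + 3) (hd : 1 ≤ d) {G : SimpleGraph (Fin n)}
    (hr : Reg G d) (hc : Gᶜ.Connected) : lamMin G = -1 - 2 * Real.cos (2 * Real.pi / n) := by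
  have hr2 := Cocyc.reg_compl hn hr
  obtain ⟨c, hcc⟩ := exists_cycEnum hr2 hc
  have hn0 : (0 : ℝ) < n := by rw [hn]; positivity
  have hcard : Fintype.card (Fin n) = n := Fintype.card_fin n
  have hsum : ∀ f : Fin n → ℝ, ∑ v, f v = ∑ i ∈ Finset.range n, f (c i) := by
    intro f
    have := cyc_sum hcc f
    rwa [hcard] at this
  have haf : ∀ y : Fin n → ℝ, aform Gᶜ y = 2 * ∑ i ∈ Finset.range n, y (c i) * y (c (i + 1)) := by
    intro y
    have := cyc_aform hcc y
    rwa [hcard] at this
  have hper : ∀ i, c (i + n) = c i := by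
    intro i
    have := hcc.per i
    rwa [hcard] at this
  apply le_antisymm
  · -- test vector
    set a : ℝ := 2 * Real.pi / n with ha
    obtain ⟨y, hy⟩ := cyc_fun hcc (fun i => Real.cos (a * i))
    rw [hcard] at hy
    have hwp : ∀ i : ℕ, Real.cos (a * ((i + n : ℕ) : ℝ)) = Real.cos (a * i) := by
      intro i
      have : a * ((i + n : ℕ) : ℝ) = a * i + 2 * Real.pi := by
        rw [ha]; push_cast; field_simp
      rw [this, Real.cos_add_two_pi]
    have hy' : ∀ i ≤ n, y (c i) = Real.cos (a * i) := by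
      intro i hi
      rcases Nat.lt_or_ge i n with h | h
      · exact hy i h
      · obtain rfl : i = n := le_antisymm hi h
        have h1 : c i = c 0 := by simpa using hper 0
        have h2 := hwp 0
        rw [zero_add] at h2
        rw [h1, h2]
        exact hy 0 (by omega)
    have hw := Cocyc.rec_sum (n := n) (fun i => Real.cos (a * i)) (Real.cos a) hwp
      (fun i => Cocyc.cos_rec a i)
    have hcos1 : Real.cos a < 1 := by
      have h3 : 0 < a := by rw [ha]; positivity
      have h4 : a ≤ Real.pi := by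
        rw [ha, div_le_iff₀ hn0]
        have : (2 : ℝ) ≤ n := by exact_mod_cast (by omega : 2 ≤ n)
        nlinarith [Real.pi_pos]
      have h5 := Real.cos_lt_cos_of_nonneg_of_le_pi (le_refl 0) h4 h3
      rwa [Real.cos_zero] at h5
    have hz := Cocyc.rec_zero (n := n) (fun i => Real.cos (a * i)) (Real.cos a) hcos1.ne hwp
      (fun i => Cocyc.cos_rec a i)
    have e1 : ∑ v, y v = 0 := by
      rw [hsum, ← hz]
      exact Finset.sum_congr rfl fun i hi => hy' i (Finset.mem_range.1 hi).le
    have e2 : ∑ v, y v ^ 2 = ∑ i ∈ Finset.range n, Real.cos (a * i) ^ 2 := by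
      rw [hsum]
      exact Finset.sum_congr rfl fun i hi => by rw [hy' i (Finset.mem_range.1 hi).le]
    have e3 : aform Gᶜ y = 2 * (Real.cos a * ∑ v, y v ^ 2) := by
      rw [haf, e2, ← hw]
      congr 1
      refine Finset.sum_congr rfl fun i hi => ?_
      rw [hy' i (Finset.mem_range.1 hi).le, hy' (i + 1) (Finset.mem_range.1 hi)]
    have hpos : 0 < ∑ v, y v ^ 2 := by
      rw [e2]
      apply Finset.sum_pos' (fun i _ => sq_nonneg _)
      exact ⟨0, Finset.mem_range.2 (by omega), by simp⟩
    apply lam_le_of (by omega) G _ y hpos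
    rw [Cocyc.aform_compl, e1, e3]
    apply le_of_eq
    ring
  · rw [le_lam_iff (by omega)]
    intro y
    set m : ℝ := (∑ v, y v) / n with hm
    have hsm : ∑ i ∈ Finset.range n, y (c i) = n * m := by
      rw [← hsum, hm]; field_simp
    have hz0 : ∑ i ∈ Finset.range n, (y (c i) - m) = 0 := by
      rw [Finset.sum_sub_distrib, hsm, Finset.sum_const, Finset.card_range, nsmul_eq_mul]
      ring
    have hw := wirtinger (n := n) (by omega) (fun i => y (c i) - m)
      (fun i => by rw [hper]) hz0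
    have hsh : ∑ i ∈ Finset.range n, y (c (i + 1)) = n * m := by
      rw [← hsm]
      exact Cocyc.shift (fun i => y (c i)) (by rw [show c n = c 0 by simpa using hper 0])
    have e1 : ∑ i ∈ Finset.range n, (y (c i) - m) * (y (c (i + 1)) - m) =
        ∑ i ∈ Finset.range n, y (c i) * y (c (i + 1)) - n * m ^ 2 := by
      have : ∀ i, (y (c i) - m) * (y (c (i + 1)) - m) =
          y (c i) * y (c (i + 1)) - m * y (c i) - m * y (c (i + 1)) + m ^ 2 := fun i => by ring
      simp only [this]
      rw [Finset.sum_add_distrib, Finset.sum_sub_distrib, Finset.sum_sub_distrib,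
        ← Finset.mul_sum, ← Finset.mul_sum, hsm, hsh, Finset.sum_const, Finset.card_range,
        nsmul_eq_mul]
      ring
    have e2 : ∑ i ∈ Finset.range n, (y (c i) - m) ^ 2 =
        ∑ v, y v ^ 2 - n * m ^ 2 := by
      have : ∀ i, (y (c i) - m) ^ 2 = y (c i) ^ 2 - 2 * m * y (c i) + m ^ 2 := fun i => by ring
      simp only [this]
      rw [Finset.sum_add_distrib, Finset.sum_sub_distrib, ← Finset.mul_sum, hsm,
        Finset.sum_const, Finset.card_range, nsmul_eq_mul, hsum (fun v => y v ^ 2)]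
      ring
    rw [e1, e2] at hw
    rw [Cocyc.aform_compl, haf, hsum y, hsm]
    have hnd : (n : ℝ) = d + 3 := by rw [hn]; push_cast; ring
    have hd1 : (1 : ℝ) ≤ d := by exact_mod_cast hd
    have hcos : -1 ≤ Real.cos (2 * Real.pi / n) := Real.neg_one_le_cos _
    have h1 : 0 ≤ n * m ^ 2 * (d + 1 + 2 * Real.cos (2 * Real.pi / n)) :=
      mul_nonneg (by positivity) (by linarith)
    have h2 : (n * m) ^ 2 = n * m ^ 2 * (d + 3) := by
      rw [← hnd]; ring
    rw [h2]
    nlinarith

/-- Least eigenvalue of the complement of a disconnected `2`-regular graph. -/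
theorem lam_cocycle' {n d : ℕ} (hn : n = d + 3) (hd : 1 ≤ d) {G : SimpleGraph (Fin n)}
    (hr : Reg G d) (hc : ¬ Gᶜ.Connected) : lamMin G = -3 := by
  classical
  have hr2 := Cocyc.reg_compl hn hr
  have hne : Nonempty (Fin n) := ⟨⟨0, by omega⟩⟩
  apply le_antisymm
  · have hc' : ¬ Gᶜ.Preconnected := fun h => hc ⟨h⟩
    unfold SimpleGraph.Preconnected at hc'
    push Not at hc'
    obtain ⟨u, v, huv⟩ := hc'
    set A : Finset (Fin n) := Finset.univ.filter (fun w => Gᶜ.Reachable u w) with hA
    have hu : u ∈ A := by simp [hA]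
    have hv : v ∈ Aᶜ := by simpa [hA] using huv
    have hAc : (0 : ℝ) < A.card := by exact_mod_cast Finset.card_pos.2 ⟨u, hu⟩
    have hBc : (0 : ℝ) < (Aᶜ).card := by exact_mod_cast Finset.card_pos.2 ⟨v, hv⟩
    set y : Fin n → ℝ := fun w => if w ∈ A then (Aᶜ.card : ℝ) else -(A.card : ℝ) with hy
    have hadj : ∀ w w', Gᶜ.Adj w w' → y w = y w' := by
      intro w w' h
      have : w ∈ A ↔ w' ∈ A := by
        simp only [hA, Finset.mem_filter, Finset.mem_univ, true_and]
        exact ⟨fun h1 => h1.trans h.reachable, fun h1 => h1.trans h.symm.reachable⟩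
      simp only [hy, this]
    have e0 : ∑ w, y w = 0 := by
      simp only [hy]
      rw [Finset.sum_ite, Finset.sum_const, Finset.sum_const, nsmul_eq_mul, nsmul_eq_mul]
      have h1 : Finset.univ.filter (fun w => w ∈ A) = A := by ext; simp
      have h2 : Finset.univ.filter (fun w => w ∉ A) = Aᶜ := by ext; simp
      rw [h1, h2]
      ring
    have e1 : aform Gᶜ y = 2 * ∑ w, y w ^ 2 := by
      unfold aform
      rw [Finset.mul_sum]
      refine Finset.sum_congr rfl fun w _ => ?_
      have h1 : ∀ w', adj Gᶜ w w' * (y w * y w') = adj Gᶜ w w' * y w ^ 2 := by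
        intro w'
        by_cases h : Gᶜ.Adj w w'
        · rw [hadj w w' h]; ring
        · have : adj Gᶜ w w' = 0 := by simp only [adj, Matrix.of_apply]; exact if_neg h
          rw [this]; ring
      simp only [h1]
      rw [← Finset.sum_mul, Cocyc.adj_row hr2]
      norm_num
    have hpos : 0 < ∑ w, y w ^ 2 := by
      apply Finset.sum_pos' (fun i _ => sq_nonneg _)
      refine ⟨u, Finset.mem_univ _, ?_⟩
      have : y u = (Aᶜ.card : ℝ) := by simp only [hy]; exact if_pos hu
      rw [this]
      positivity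
    apply lam_le_of (by omega) G _ y hpos
    rw [Cocyc.aform_compl, e0, e1]
    apply le_of_eq
    ring
  · rw [le_lam_iff (by omega)]
    intro y
    have h1 : aform Gᶜ y ≤ 2 * ∑ w, y w ^ 2 := by
      have h2 : aform Gᶜ y ≤ ∑ u, ∑ v, adj Gᶜ u v * ((y u ^ 2 + y v ^ 2) / 2) := by
        unfold aform
        refine Finset.sum_le_sum fun u _ => Finset.sum_le_sum fun v _ => ?_
        apply mul_le_mul_of_nonneg_left _ (Cocyc.adj_nonneg _ _ _)
        nlinarith [sq_nonneg (y u - y v)]
      have h3 : ∑ u, ∑ v, adj Gᶜ u v * ((y u ^ 2 + y v ^ 2) / 2) =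
          (∑ u, ∑ v, adj Gᶜ u v * (y u ^ 2 / 2)) + ∑ u, ∑ v, adj Gᶜ u v * (y v ^ 2 / 2) := by
        rw [← Finset.sum_add_distrib]
        refine Finset.sum_congr rfl fun u _ => ?_
        rw [← Finset.sum_add_distrib]
        refine Finset.sum_congr rfl fun v _ => ?_
        ring
      have h4 : ∑ u, ∑ v, adj Gᶜ u v * (y u ^ 2 / 2) = ∑ w, y w ^ 2 := by
        refine Finset.sum_congr rfl fun u _ => ?_
        rw [← Finset.sum_mul, Cocyc.adj_row hr2]
        push_cast
        ring
      have h5 : ∑ u, ∑ v, adj Gᶜ u v * (y v ^ 2 / 2) = ∑ w, y w ^ 2 := by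
        rw [Finset.sum_comm]
        refine Finset.sum_congr rfl fun v _ => ?_
        rw [← Finset.sum_mul]
        have : ∑ i, adj Gᶜ i v = 2 := by
          have := Cocyc.adj_row hr2 v
          simp only [Cocyc.adj_symm Gᶜ v] at this
          rw [this]; norm_num
        rw [this]
        ring
      rw [h3, h4, h5] at h2
      linarith
    rw [Cocyc.aform_compl]
    nlinarith [sq_nonneg (∑ v, y v)]

/-- Least eigenvalue of an odd cycle. -/
theorem lam_odd_cycle {n : ℕ} (hn : Odd n) {G : SimpleGraph (Fin n)} (hr : Reg G 2)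
    (hc : G.Connected) : lamMin G = -2 * Real.cos (Real.pi / n) := by
  obtain ⟨c, hcc⟩ := exists_cycEnum hr hc
  have hcard : Fintype.card (Fin n) = n := Fintype.card_fin n
  have h3 : 3 ≤ n := by have := hcc.three; rwa [hcard] at this
  have hn0 : (0 : ℝ) < n := by exact_mod_cast (by omega : 0 < n)
  have hsum : ∀ f : Fin n → ℝ, ∑ v, f v = ∑ i ∈ Finset.range n, f (c i) := by
    intro f
    have := cyc_sum hcc f
    rwa [hcard] at this
  have haf : ∀ y : Fin n → ℝ, aform G y = 2 * ∑ i ∈ Finset.range n, y (c i) * y (c (i + 1)) := by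
    intro y
    have := cyc_aform hcc y
    rwa [hcard] at this
  have hper : ∀ i, c (i + n) = c i := by
    intro i
    have := hcc.per i
    rwa [hcard] at this
  have hodd : ∀ i : ℕ, (-1 : ℝ) ^ (i + n) = -(-1) ^ i := by
    intro i
    rw [pow_add, hn.neg_one_pow]
    ring
  apply le_antisymm
  · set a : ℝ := Real.pi / n with ha
    set w : ℕ → ℝ := fun i => (-1) ^ i * Real.cos (a * i) with hwdef
    obtain ⟨y, hy⟩ := cyc_fun hcc w
    rw [hcard] at hy
    have hwp : ∀ i : ℕ, w (i + n) = w i := by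
      intro i
      have : a * ((i + n : ℕ) : ℝ) = a * i + Real.pi := by
        rw [ha]; push_cast; field_simp
      simp only [hwdef]
      rw [this, Real.cos_add_pi, hodd]
      ring
    have hy' : ∀ i ≤ n, y (c i) = w i := by
      intro i hi
      rcases Nat.lt_or_ge i n with h | h
      · exact hy i h
      · obtain rfl : i = n := le_antisymm hi h
        have h1 : c i = c 0 := by simpa using hper 0
        have h2 := hwp 0
        rw [zero_add] at h2
        rw [h1, h2]
        exact hy 0 (by omega)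
    have hwr : ∀ i, w (i + 2) + w i = 2 * (-Real.cos a) * w (i + 1) := by
      intro i
      have := Cocyc.cos_rec a i
      simp only [hwdef]
      have e : (-1 : ℝ) ^ (i + 2) * Real.cos (a * ((i + 2 : ℕ) : ℝ)) + (-1) ^ i * Real.cos (a * i)
          = (-1) ^ i * (Real.cos (a * ((i + 2 : ℕ) : ℝ)) + Real.cos (a * i)) := by
        rw [pow_add]; ring
      rw [e, this, pow_succ]
      ring
    have hw := Cocyc.rec_sum (n := n) w (-Real.cos a) hwp hwr
    have e2 : ∑ v, y v ^ 2 = ∑ i ∈ Finset.range n, w i ^ 2 := by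
      rw [hsum]
      exact Finset.sum_congr rfl fun i hi => by rw [hy' i (Finset.mem_range.1 hi).le]
    have e3 : aform G y = 2 * (-Real.cos a * ∑ v, y v ^ 2) := by
      rw [haf, e2, ← hw]
      congr 1
      refine Finset.sum_congr rfl fun i hi => ?_
      rw [hy' i (Finset.mem_range.1 hi).le, hy' (i + 1) (Finset.mem_range.1 hi)]
    have hpos : 0 < ∑ v, y v ^ 2 := by
      rw [e2]
      apply Finset.sum_pos' (fun i _ => sq_nonneg _)
      exact ⟨0, Finset.mem_range.2 (by omega), by simp [hwdef]⟩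
    apply lam_le_of (by omega) G _ y hpos
    rw [e3]
    apply le_of_eq
    ring
  · rw [le_lam_iff (by omega)]
    intro y
    set z : ℕ → ℝ := fun i => (-1) ^ i * y (c i) with hz
    have hzn : ∀ i, z (i + n) = -z i := by
      intro i
      simp only [hz]
      rw [hper, hodd]
      ring
    have hzp : ∀ i, z (i + 2 * n) = z i := by
      intro i
      rw [two_mul, ← add_assoc, hzn, hzn, neg_neg]
    have hsplit : ∀ f : ℕ → ℝ, ∑ i ∈ Finset.range (2 * n), f i =
        ∑ i ∈ Finset.range n, f i + ∑ i ∈ Finset.range n, f (i + n) := by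
      intro f
      rw [two_mul, Finset.sum_range_add]
      congr 1
      exact Finset.sum_congr rfl fun i _ => by rw [add_comm]
    have hz0 : ∑ i ∈ Finset.range (2 * n), z i = 0 := by
      rw [hsplit]
      simp only [hzn]
      rw [Finset.sum_neg_distrib]
      ring
    have hw := wirtinger (n := 2 * n) (by omega) z hzp hz0
    have e1 : ∑ i ∈ Finset.range (2 * n), z i * z (i + 1) =
        -(2 * ∑ i ∈ Finset.range n, y (c i) * y (c (i + 1))) := by
      rw [hsplit]
      have h1 : ∀ i, z i * z (i + 1) = -(y (c i) * y (c (i + 1))) := by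
        intro i
        simp only [hz]
        rw [pow_succ]
        have : ((-1 : ℝ) ^ i) * (-1) ^ i = 1 := by
          rw [← mul_pow]; norm_num
        calc (-1) ^ i * y (c i) * ((-1) ^ i * -1 * y (c (i + 1))) =
            (((-1 : ℝ) ^ i) * (-1) ^ i) * (-(y (c i) * y (c (i + 1)))) := by ring
          _ = _ := by rw [this]; ring
      have h2 : ∀ i, z (i + n) * z (i + n + 1) = -(y (c i) * y (c (i + 1))) := by
        intro i
        have : i + n + 1 = (i + 1) + n := by ring
        rw [this, hzn, hzn, neg_mul_neg, h1]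
      rw [Finset.sum_congr rfl fun i _ => h1 i, Finset.sum_congr rfl fun i _ => h2 i,
        Finset.sum_neg_distrib]
      ring
    have e2 : ∑ i ∈ Finset.range (2 * n), z i ^ 2 = 2 * ∑ v, y v ^ 2 := by
      rw [hsplit, hsum]
      have h1 : ∀ i, z i ^ 2 = y (c i) ^ 2 := by
        intro i
        simp only [hz]
        rw [mul_pow, ← pow_mul, mul_comm i 2, pow_mul]
        norm_num
      simp only [hzn, neg_sq, h1]
      ring
    have e3 : (2 * Real.pi / ((2 * n : ℕ) : ℝ)) = Real.pi / n := by
      push_cast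
      field_simp
    rw [e1, e2, e3] at hw
    rw [haf]
    linarith

end Pool.Agent.Lib.MP_70d4d1_co
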