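import Pool.Agent.Lib.MP_70d4d1_co.Conv

namespace Pool.Agent.Lib.MP_70d4d1_co

/-- There is a `d`-regular graph on `n` vertices with `A + 2 I` positive semidefinite. -/
def Good (d n : ℕ) : Prop := ∃ G : SimpleGraph (Fin n), Reg G d ∧ Psd G

theorem ent_map {V W : Type*} {G : SimpleGraph V} {H : SimpleGraph W} (e : G ≃g H) (u v : V) :
    ent H (e u) (e v) = ent G u v := by
  classical
  unfold ent
  have h1 : (e u = e v) ↔ u = v := e.injective.eq_iff
  have h2 : H.Adj (e u) (e v) ↔ G.Adj u v := e.map_adj_iff
  by_cases h : u = v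
  · rw [if_pos (h1.2 h), if_pos h]
  · rw [if_neg (fun q => h (h1.1 q)), if_neg h]
    by_cases h' : G.Adj u v
    · rw [if_pos (h2.2 h'), if_pos h']
    · rw [if_neg (fun q => h' (h2.1 q)), if_neg h']

theorem psd_map {V W : Type*} [Fintype V] [Fintype W] {G : SimpleGraph V} {H : SimpleGraph W}
    (e : G ≃g H) (h : Psd G) : Psd H := by
  intro y
  have h1 : form H y = form G (fun v => y (e v)) := by
    unfold form
    rw [← e.toEquiv.sum_comp]
    refine Finset.sum_congr rfl fun u _ => ?_
    rw [← e.toEquiv.sum_comp]
    refine Finset.sum_congr rfl fun v _ => ?_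
    have := ent_map e u v
    simp only [RelIso.coe_fn_toEquiv]
    rw [this]
  rw [h1]
  exact h _

theorem reg_map {V W : Type*} {G : SimpleGraph V} {H : SimpleGraph W} {d : ℕ}
    (e : G ≃g H) (h : Reg G d) : Reg H d := by
  intro w
  obtain ⟨v, rfl⟩ := e.surjective w
  rw [← h v, ← Set.ncard_image_of_injective _ e.injective]
  congr 1
  ext u
  obtain ⟨u', rfl⟩ := e.surjective u
  constructor
  · intro hu
    exact ⟨u', e.map_adj_iff.mp hu, rfl⟩
  · rintro ⟨u'', hu, he⟩
    rw [← he]
    exact e.map_adj_iff.mpr hu

theorem good_of_fintype {V : Type*} [Fintype V] {d n : ℕ} (G : SimpleGraph V) (hr : Reg G d)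
    (hp : Psd G) (hn : Fintype.card V = n) : Good d n := by
  subst hn
  let e := Fintype.equivFin V
  let f : G ≃g G.map e.toEmbedding := SimpleGraph.Iso.map e G
  exact ⟨G.map e.toEmbedding, reg_map f hr, psd_map f hp⟩

/-- The empty graph. -/
theorem good_zero (d : ℕ) : Good d 0 :=
  ⟨⊥, fun v => v.elim0, fun y => by simp [form]⟩

/-- Disjoint unions. -/
theorem good_add {d a b : ℕ} (ha : Good d a) (hb : Good d b) : Good d (a + b) := by
  classical
  obtain ⟨G, hr, hp⟩ := ha
  obtain ⟨H, hr', hp'⟩ := hb
  refine good_of_fintype (V := Fin a ⊕ Fin b) (SimpleGraph.sum G H) ?_ ?_ (by simp)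
  · rintro (v | v)
    · have h1 : (SimpleGraph.sum G H).neighborSet (Sum.inl v) = Sum.inl '' G.neighborSet v := by
        ext (u | u) <;> simp
      rw [h1, Set.ncard_image_of_injective _ Sum.inl_injective, hr v]
    · have h1 : (SimpleGraph.sum G H).neighborSet (Sum.inr v) = Sum.inr '' H.neighborSet v := by
        ext (u | u) <;> simp
      rw [h1, Set.ncard_image_of_injective _ Sum.inr_injective, hr' v]
  · intro y
    have h1 : form (SimpleGraph.sum G H) y = form G (fun v => y (Sum.inl v)) +
        form H (fun v => y (Sum.inr v)) := by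
      unfold form
      rw [Fintype.sum_sum_type]
      simp_rw [Fintype.sum_sum_type]
      congr 1
      · refine Finset.sum_congr rfl fun u _ => ?_
        have h2 : ∑ v : Fin b, ent (SimpleGraph.sum G H) (Sum.inl u) (Sum.inr v) *
            (y (Sum.inl u) * y (Sum.inr v)) = 0 := by
          refine Finset.sum_eq_zero fun v _ => ?_
          simp [ent]
        rw [h2, add_zero]
        refine Finset.sum_congr rfl fun v _ => ?_
        simp [ent]
      · refine Finset.sum_congr rfl fun u _ => ?_
        have h2 : ∑ v : Fin a, ent (SimpleGraph.sum G H) (Sum.inr u) (Sum.inl v) *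
            (y (Sum.inr u) * y (Sum.inl v)) = 0 := by
          refine Finset.sum_eq_zero fun v _ => ?_
          simp [ent]
        rw [h2, zero_add]
        refine Finset.sum_congr rfl fun v _ => ?_
        simp [ent]
    rw [h1]
    exact add_nonneg (hp _) (hp' _)

theorem good_mul {d a : ℕ} (ha : Good d a) (k : ℕ) : Good d (k * a) := by
  induction k with
  | zero => simpa using good_zero d
  | succ k ih =>
    rw [Nat.succ_mul]
    exact good_add ih ha

theorem good_sum {d : ℕ} {ι : Type*} (s : Finset ι) (a : ι → ℕ) (h : ∀ i ∈ s, Good d (a i)) :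
    Good d (∑ i ∈ s, a i) := by
  classical
  induction s using Finset.induction_on with
  | empty => simpa using good_zero d
  | insert i s hi ih =>
    rw [Finset.sum_insert hi]
    exact good_add (h i (Finset.mem_insert_self i s))
      (ih fun j hj => h j (Finset.mem_insert_of_mem hj))

/-- The rook graph `K_k x K_(d+2-k)` (on `Fin k × Fin (d+2-k)`, two different cells adjacent
iff they share a coordinate). -/
theorem good_rook {d k : ℕ} (h1 : 1 ≤ k) (h2 : k ≤ d + 1) : Good d (k * (d + 2 - k)) := by
  classical
  let G : SimpleGraph (Fin k × Fin (d + 2 - k)) :=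
    { Adj := fun p q => p ≠ q ∧ (p.1 = q.1 ∨ p.2 = q.2)
      symm := ⟨fun p q h => ⟨h.1.symm, by rcases h.2 with h | h <;> simp [h]⟩⟩
      loopless := ⟨fun p h => h.1 rfl⟩ }
  have hent : ∀ p q, ent G p q = (if p.1 = q.1 then (1 : ℝ) else 0) +
      (if p.2 = q.2 then 1 else 0) := by
    intro p q
    by_cases h : p = q
    · subst h; simp [ent]; norm_num
    · by_cases h3 : p.1 = q.1 <;> by_cases h4 : p.2 = q.2
      · exact absurd (Prod.ext h3 h4) h
      · simp [ent, G, h, h3, h4]
      · simp [ent, G, h, h3, h4]
      · simp [ent, G, h, h3, h4]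
  refine good_of_fintype G ?_ ?_ (by simp)
  · intro p
    have h3 : G.neighborSet p =
        ((Finset.univ.filter fun q : Fin k × Fin (d + 2 - k) => q.1 = p.1 ∧ q.2 ≠ p.2) ∪
        (Finset.univ.filter fun q : Fin k × Fin (d + 2 - k) => q.1 ≠ p.1 ∧ q.2 = p.2) :
          Finset _) := by
      ext q
      simp only [SimpleGraph.mem_neighborSet, Finset.coe_union, Finset.coe_filter,
        Finset.mem_univ, true_and, Set.mem_union, Set.mem_ofPred_eq, G]
      constructor
      · rintro ⟨h4, h5 | h5⟩
        · left
          exact ⟨h5.symm, fun h6 => h4 (Prod.ext h5 h6.symm)⟩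
        · right
          exact ⟨fun h6 => h4 (Prod.ext h6.symm h5), h5.symm⟩
      · rintro (⟨h4, h5⟩ | ⟨h4, h5⟩)
        · exact ⟨fun h6 => h5 (by rw [h6]), Or.inl h4.symm⟩
        · exact ⟨fun h6 => h4 (by rw [h6]), Or.inr h5.symm⟩
    rw [h3, Set.ncard_coe_finset, Finset.card_union_of_disjoint]
    · have e1 : (Finset.univ.filter fun q : Fin k × Fin (d + 2 - k) => q.1 = p.1 ∧ q.2 ≠ p.2) =
          ({p.1} : Finset (Fin k)) ×ˢ (Finset.univ.erase p.2) := by
        ext q
        rw [Finset.mem_filter, Finset.mem_product, Finset.mem_singleton, Finset.mem_erase]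
        simp only [Finset.mem_univ, true_and, and_true]
      have e2 : (Finset.univ.filter fun q : Fin k × Fin (d + 2 - k) => q.1 ≠ p.1 ∧ q.2 = p.2) =
          (Finset.univ.erase p.1) ×ˢ ({p.2} : Finset (Fin (d + 2 - k))) := by
        ext q
        rw [Finset.mem_filter, Finset.mem_product, Finset.mem_singleton, Finset.mem_erase]
        simp only [Finset.mem_univ, true_and, and_true]
      rw [e1, e2, Finset.card_product, Finset.card_product, Finset.card_singleton,
        Finset.card_singleton, Finset.card_erase_of_mem (Finset.mem_univ _),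
        Finset.card_erase_of_mem (Finset.mem_univ _), Finset.card_univ, Finset.card_univ,
        Fintype.card_fin, Fintype.card_fin]
      omega
    · rw [Finset.disjoint_filter]
      rintro q _ ⟨h4, _⟩ ⟨h5, _⟩
      exact h5 h4
  · intro y
    have h3 : form G y = ∑ i, (∑ j, y (i, j)) ^ 2 + ∑ j, (∑ i, y (i, j)) ^ 2 := by
      unfold form
      simp_rw [hent, add_mul, Finset.sum_add_distrib]
      congr 1
      · rw [Fintype.sum_prod_type]
        refine Finset.sum_congr rfl fun i _ => ?_
        rw [sq, Finset.sum_mul_sum]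
        refine Finset.sum_congr rfl fun j _ => ?_
        rw [Fintype.sum_prod_type]
        simp only [ite_mul, one_mul, zero_mul]
        rw [Finset.sum_eq_single i]
        · simp
        · intro i' _ h
          simp [Ne.symm h]
        · simp
      · rw [Fintype.sum_prod_type_right]
        refine Finset.sum_congr rfl fun j _ => ?_
        rw [sq, Finset.sum_mul_sum]
        refine Finset.sum_congr rfl fun i _ => ?_
        rw [Fintype.sum_prod_type_right]
        simp only [ite_mul, one_mul, zero_mul]
        rw [Finset.sum_eq_single j]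
        · simp
        · intro j' _ h
          simp [Ne.symm h]
        · simp
    rw [h3]
    exact add_nonneg (Finset.sum_nonneg fun i _ => sq_nonneg _)
      (Finset.sum_nonneg fun i _ => sq_nonneg _)

/-- The cocktail party graph on `d+2` vertices. -/
theorem good_cocktail {d : ℕ} (h : Even d) : Good d (d + 2) := by
  classical
  obtain ⟨m, hm⟩ := h
  let G : SimpleGraph (Fin (m + 1) × Bool) :=
    { Adj := fun p q => p.1 ≠ q.1
      symm := ⟨fun p q h => Ne.symm h⟩
      loopless := ⟨fun p h => h rfl⟩ }
  refine good_of_fintype G ?_ ?_ (by simp; omega)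
  · intro p
    have h3 : G.neighborSet p =
        (((Finset.univ.erase p.1) ×ˢ (Finset.univ : Finset Bool) : Finset _) : Set _) := by
      ext q
      simp only [SimpleGraph.mem_neighborSet, Finset.coe_product, Finset.coe_erase,
        Finset.coe_univ, Set.mem_prod, Set.mem_sdiff, Set.mem_univ, true_and,
        Set.mem_singleton_iff, and_true, G]
      exact ⟨fun h => Ne.symm h, fun h => Ne.symm h⟩
    rw [h3, Set.ncard_coe_finset, Finset.card_product,
      Finset.card_erase_of_mem (Finset.mem_univ _), Finset.card_univ, Finset.card_univ,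
      Fintype.card_fin, Fintype.card_bool]
    omega
  · apply psd_of_cocktail
    intro p
    refine ⟨(p.1, !p.2), ⟨?_, ?_⟩, ?_⟩
    · intro h
      have := congrArg Prod.snd h
      simp at this
    · simp [G]
    · rintro ⟨i, b⟩ ⟨h4, h5⟩
      have h6 : p.1 = i := by
        by_contra h
        exact h5 h
      subst h6
      refine Prod.ext rfl ?_
      have h7 : b ≠ p.2 := fun h => h4 (Prod.ext rfl h)
      cases b <;> cases hp : p.2 <;> simp_all

end Pool.Agent.Lib.MP_70d4d1_co
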