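import Pool.Agent.Lib.MP_70d4d1_co.Defs

namespace Pool.Agent.Lib.MP_70d4d1_co

/-- Cocktail party graphs have `A + 2 I` positive semidefinite. -/
theorem psd_of_cocktail {V : Type*} [Fintype V] {G : SimpleGraph V} (h : IsCocktail G) :
    Psd G := by
  classical
  choose σ hσ hu using fun v => (h v)
  have hinv : Function.Involutive σ := by
    intro v
    refine (hu (σ v) v ⟨(hσ v).1.symm, fun h' => (hσ v).2 h'.symm⟩).symm
  have hent : ∀ u v, ent G u v = 1 + (if u = v then 1 else 0) - (if v = σ u then 1 else 0) := by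
    intro u v
    unfold ent
    by_cases huv : u = v
    · subst huv
      have : u ≠ σ u := (hσ u).1.symm
      simp [this]
      norm_num
    · by_cases hA : G.Adj u v
      · have : v ≠ σ u := by
          rintro rfl
          exact (hσ u).2 hA
        simp [huv, hA, this]
      · have : v = σ u := hu u v ⟨fun e => huv e.symm, hA⟩
        rw [if_neg huv, if_neg hA, if_neg huv, if_pos this]
        norm_num
  intro y
  have h1 : form G y = (∑ u, y u) * (∑ v, y v) + ∑ u, y u * y u - ∑ u, y u * y (σ u) := by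
    unfold form
    rw [Finset.sum_mul_sum, ← Finset.sum_add_distrib, ← Finset.sum_sub_distrib]
    refine Finset.sum_congr rfl fun u _ => ?_
    have e : ∀ v, ent G u v * (y u * y v) =
        y u * y v + (if u = v then y u * y v else 0) - (if v = σ u then y u * y v else 0) := by
      intro v
      rw [hent]
      split_ifs <;> ring
    rw [Finset.sum_congr rfl fun v _ => e v, Finset.sum_sub_distrib, Finset.sum_add_distrib,
      Finset.sum_ite_eq, Finset.sum_ite_eq', if_pos (Finset.mem_univ _),
      if_pos (Finset.mem_univ _)]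
  have h2 : ∑ u, y (σ u) * y (σ u) = ∑ u, y u * y u :=
    Equiv.sum_comp hinv.toPerm fun u => y u * y u
  have h3 : form G y = (∑ u, y u) ^ 2 + (1 / 2) * ∑ u, (y u - y (σ u)) ^ 2 := by
    have e : ∑ u, (y u - y (σ u)) ^ 2 =
        ∑ u, y u * y u - 2 * ∑ u, y u * y (σ u) + ∑ u, y (σ u) * y (σ u) := by
      rw [Finset.mul_sum, ← Finset.sum_sub_distrib, ← Finset.sum_add_distrib]
      exact Finset.sum_congr rfl fun u _ => by ring
    rw [h1, e, h2]
    ring
  rw [h3]
  have h4 : 0 ≤ ∑ u, (y u - y (σ u)) ^ 2 := Finset.sum_nonneg fun u _ => sq_nonneg _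
  nlinarith [sq_nonneg (∑ u, y u)]

/-- number of common ends of two edges -/
theorem line_ent {m : ℕ} (H : SimpleGraph (Fin m)) (a b : H.edgeSet) :
    ent H.lineGraph a b = ∑ i : Fin m, (if i ∈ a.1 then (1 : ℝ) else 0) *
      (if i ∈ b.1 then (1 : ℝ) else 0) := by
  classical
  obtain ⟨a, ha⟩ := a
  obtain ⟨b, hb⟩ := b
  induction a using Sym2.inductionOn with
  | hf p q =>
    have hpq : p ≠ q := H.ne_of_adj ha
    have e : ∀ i : Fin m, (if i ∈ s(p, q) then (1 : ℝ) else 0) * (if i ∈ b then (1 : ℝ) else 0) =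
        (if i = p then (if p ∈ b then (1 : ℝ) else 0) else 0) +
        (if i = q then (if q ∈ b then (1 : ℝ) else 0) else 0) := by
      intro i
      by_cases h1 : i = p
      · subst h1
        simp [hpq]
      · by_cases h2 : i = q
        · subst h2
          simp [h1]
        · simp [h1, h2]
    change ent H.lineGraph _ _ = ∑ i : Fin m, (if i ∈ s(p, q) then (1 : ℝ) else 0) *
      (if i ∈ b then (1 : ℝ) else 0)
    rw [Finset.sum_congr rfl fun i _ => e i, Finset.sum_add_distrib, Finset.sum_ite_eq',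
      Finset.sum_ite_eq', if_pos (Finset.mem_univ _), if_pos (Finset.mem_univ _)]
    unfold ent
    by_cases hab : (⟨s(p, q), ha⟩ : H.edgeSet) = ⟨b, hb⟩
    · have hab' : s(p, q) = b := congrArg Subtype.val hab
      rw [if_pos hab]
      have h1 : p ∈ b := by rw [← hab']; exact Sym2.mem_mk_left p q
      have h2 : q ∈ b := by rw [← hab']; exact Sym2.mem_mk_right p q
      rw [if_pos h1, if_pos h2]
      norm_num
    · rw [if_neg hab]
      have hnot : ¬ (p ∈ b ∧ q ∈ b) := by
        intro h
        apply hab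
        apply Subtype.ext
        exact ((Sym2.mem_and_mem_iff hpq).1 h).symm
      have hadj : H.lineGraph.Adj ⟨s(p, q), ha⟩ ⟨b, hb⟩ ↔ p ∈ b ∨ q ∈ b := by
        rw [SimpleGraph.lineGraph_adj_iff_exists]
        constructor
        · rintro ⟨-, v, h1, h2⟩
          rcases Sym2.mem_iff.1 h1 with rfl | rfl
          · exact Or.inl h2
          · exact Or.inr h2
        · rintro (h1 | h1)
          · exact ⟨hab, p, Sym2.mem_mk_left p q, h1⟩
          · exact ⟨hab, q, Sym2.mem_mk_right p q, h1⟩
      by_cases h1 : p ∈ b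
      · have h2 : q ∉ b := fun h2 => hnot ⟨h1, h2⟩
        rw [if_pos (hadj.2 (Or.inl h1)), if_pos h1, if_neg h2]
        norm_num
      · by_cases h2 : q ∈ b
        · rw [if_pos (hadj.2 (Or.inr h2)), if_neg h1, if_pos h2]
          norm_num
        · rw [if_neg (fun h => (hadj.1 h).elim h1 h2), if_neg h1, if_neg h2]
          norm_num

/-- Line graphs have `A + 2 I` positive semidefinite. -/
theorem psd_of_line {V : Type*} [Fintype V] {G : SimpleGraph V} (h : IsLine G) : Psd G := by
  classical
  obtain ⟨m, H, ⟨f⟩⟩ := h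
  intro y
  have hent : ∀ u v, ent G u v = ∑ i : Fin m, (if i ∈ (f u).1 then (1 : ℝ) else 0) *
      (if i ∈ (f v).1 then (1 : ℝ) else 0) := by
    intro u v
    rw [← line_ent]
    unfold ent
    have h1 : (f u = f v) ↔ u = v := f.injective.eq_iff
    have h2 : H.lineGraph.Adj (f u) (f v) ↔ G.Adj u v := f.map_adj_iff
    by_cases e1 : u = v
    · rw [if_pos e1, if_pos (h1.2 e1)]
    · rw [if_neg e1, if_neg (fun e => e1 (h1.1 e))]
      by_cases e2 : G.Adj u v
      · rw [if_pos e2, if_pos (h2.2 e2)]
      · rw [if_neg e2, if_neg (fun e => e2 (h2.1 e))]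
  have h1 : form G y = ∑ i : Fin m, (∑ u, (if i ∈ (f u).1 then (1 : ℝ) else 0) * y u) ^ 2 := by
    unfold form
    have e : ∀ i : Fin m, (∑ u, (if i ∈ (f u).1 then (1 : ℝ) else 0) * y u) ^ 2 =
        ∑ u, ∑ v, (if i ∈ (f u).1 then (1 : ℝ) else 0) * (if i ∈ (f v).1 then (1 : ℝ) else 0) *
          (y u * y v) := by
      intro i
      rw [sq, Finset.sum_mul_sum]
      exact Finset.sum_congr rfl fun u _ => Finset.sum_congr rfl fun v _ => by ring
    have e2 : ∀ u v, ent G u v * (y u * y v) = ∑ i : Fin m,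
        (if i ∈ (f u).1 then (1 : ℝ) else 0) * (if i ∈ (f v).1 then (1 : ℝ) else 0) *
          (y u * y v) := by
      intro u v
      rw [hent, Finset.sum_mul]
    simp_rw [e, e2]
    rw [Finset.sum_comm (s := (Finset.univ : Finset (Fin m)))]
    refine Finset.sum_congr rfl fun u _ => ?_
    rw [Finset.sum_comm (s := (Finset.univ : Finset (Fin m)))]
  rw [h1]
  exact Finset.sum_nonneg fun i _ => sq_nonneg _

end Pool.Agent.Lib.MP_70d4d1_co
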