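import Mathlib

/-!
Regular graphs with the largest least eigenvalue: definitions.
-/

namespace Pool.Agent.Lib.MP_70d4d1_co

/-- Every vertex of `G` has exactly `d` neighbours. -/
def Reg {V : Type*} (G : SimpleGraph V) (d : ℕ) : Prop :=
  ∀ v, (G.neighborSet v).ncard = d

open Classical in
/-- The adjacency matrix of `G` over the real numbers. -/
noncomputable def adj {V : Type*} (G : SimpleGraph V) : Matrix V V ℝ :=
  Matrix.of fun u v => if G.Adj u v then 1 else 0

/-- The least eigenvalue of (the adjacency matrix of) `G`. -/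
noncomputable def lamMin {n : ℕ} (G : SimpleGraph (Fin n)) : ℝ :=
  sInf (spectrum ℝ (adj G))

/-- `mu n d`: the maximum (supremum) of the least eigenvalues of the `d`-regular graphs
on `n` vertices. -/
noncomputable def mu (n d : ℕ) : ℝ :=
  sSup {x | ∃ G : SimpleGraph (Fin n), Reg G d ∧ x = lamMin G}

/-- `K` is isomorphic to the line graph of a finite graph. -/
def IsLine {V : Type*} (K : SimpleGraph V) : Prop :=
  ∃ (m : ℕ) (H : SimpleGraph (Fin m)), Nonempty (K ≃g H.lineGraph)

/-- `K` is a cocktail party graph: every vertex is non-adjacent to exactly one other vertex. -/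
def IsCocktail {V : Type*} (K : SimpleGraph V) : Prop :=
  ∀ v, ∃! w, w ≠ v ∧ ¬ K.Adj v w

/-- Entries of `A + 2 I`. -/
noncomputable def ent {V : Type*} (G : SimpleGraph V) (u v : V) : ℝ :=
  open Classical in (if u = v then 2 else if G.Adj u v then 1 else 0)

/-- The quadratic form of `A + 2 I`. -/
noncomputable def form {V : Type*} [Fintype V] (G : SimpleGraph V) (y : V → ℝ) : ℝ :=
  ∑ u, ∑ v, ent G u v * (y u * y v)

/-- `A + 2 I` is positive semidefinite. -/
def Psd {V : Type*} [Fintype V] (G : SimpleGraph V) : Prop := ∀ y : V → ℝ, 0 ≤ form G y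

/-- `A + 2 I` is positive definite. -/
def Pd {V : Type*} [Fintype V] (G : SimpleGraph V) : Prop :=
  ∀ y : V → ℝ, y ≠ 0 → 0 < form G y

section rep

variable {V E : Type*} [NormedAddCommGroup E] [InnerProductSpace ℝ E]

/-- `x` is a representation of `G`: the Gram matrix of `x` is `A + 2 I`. -/
def Rep (G : SimpleGraph V) (x : V → E) : Prop := ∀ u v, inner ℝ (x u) (x v) = ent G u v

/-- The lattice generated by `x`. -/
def lat (x : V → E) : Submodule ℤ E := Submodule.span ℤ (Set.range x)

/-- Roots of the lattice. -/
def Root (x : V → E) (r : E) : Prop := r ∈ lat x ∧ inner ℝ r r = 2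

/-- A simplex frame: all differences of distinct members are roots. -/
def Frame (x : V → E) {ι : Type*} (g : ι → E) : Prop := ∀ i j, i ≠ j → Root x (g i - g j)

end rep

end Pool.Agent.Lib.MP_70d4d1_co
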