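import Pool.Agent.Lib.MP_70d4d1_co.Signed

namespace Pool.Agent.Lib.MP_70d4d1_co

open Module Finset

variable {V E : Type*} [NormedAddCommGroup E] [InnerProductSpace ℝ E]
variable {G : SimpleGraph V} {x : V → E}

/-- The seven remaining points. -/
def CC (a b : Fin 9) : Finset (Fin 9) := (univ.erase a).erase b

/-- The 28 labels. -/
def LL (a b : Fin 9) : Finset (Finset (Fin 9)) :=
  powersetCard 1 (CC a b) ∪ powersetCard 2 (CC a b)

theorem CC_card : ∀ a b : Fin 9, a ≠ b → (CC a b).card = 7 := by decide +kernel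

theorem LL_card : ∀ a b : Fin 9, a ≠ b → (LL a b).card = 28 := by decide +kernel

theorem LL_deg : ∀ a b : Fin 9, a ≠ b → ∀ k ∈ CC a b,
    ((LL a b).filter (fun L => k ∈ L)).card = 7 := by decide +kernel

/-- Combinatorial core: 26 of the 28 labels cannot have all degrees of the same parity. -/
theorem no_26_labels [Fintype V] (hV : Fintype.card V = 26) {a b : Fin 9} (hab : a ≠ b)
    (e : V → Finset (Fin 9)) (hinj : Function.Injective e) (hL : ∀ v, e v ∈ LL a b)
    (hpar : ∀ k ∈ CC a b, ∀ l ∈ CC a b, ∃ z : ℤ,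
      ((univ.filter fun v => k ∈ e v).card : ℤ) - (univ.filter fun v => l ∈ e v).card = 2 * z) :
    False := by
  classical
  let I : Finset (Finset (Fin 9)) := univ.image e
  have hI : I.card = 26 := by
    rw [card_image_of_injective _ hinj, card_univ, hV]
  have hIL : I ⊆ LL a b := by
    intro L hL'
    obtain ⟨v, -, rfl⟩ := mem_image.mp hL'
    exact hL v
  have hM : (LL a b \ I).card = 2 := by
    rw [card_sdiff_of_subset hIL, hI, LL_card a b hab]
  obtain ⟨L1, L2, hne, hM2⟩ := card_eq_two.mp hM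
  have hdeg : ∀ k ∈ CC a b, (univ.filter fun v => k ∈ e v).card +
      ((if k ∈ L1 then 1 else 0) + (if k ∈ L2 then 1 else 0)) = 7 := by
    intro k hk
    rw [← LL_deg a b hab k hk]
    have h1 : (univ.filter fun v => k ∈ e v).card = (I.filter fun L => k ∈ L).card := by
      rw [← card_image_of_injective (univ.filter fun v => k ∈ e v) hinj]
      congr 1
      ext L
      simp only [mem_image, mem_filter, mem_univ, true_and, I]
      constructor
      · rintro ⟨v, hv, rfl⟩
        exact ⟨⟨v, rfl⟩, hv⟩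
      · rintro ⟨⟨v, rfl⟩, hv⟩
        exact ⟨v, hv, rfl⟩
    have h2 : ((LL a b \ I).filter fun L => k ∈ L).card =
        (if k ∈ L1 then 1 else 0) + (if k ∈ L2 then 1 else 0) := by
      rw [hM2, filter_insert, filter_singleton]
      by_cases h3 : k ∈ L1 <;> by_cases h4 : k ∈ L2 <;> simp [h3, h4, hne]
    rw [h1, ← h2, ← card_union_of_disjoint]
    · congr 1
      rw [← filter_union, union_sdiff_of_subset hIL]
    · exact disjoint_filter_filter disjoint_sdiff
  have hcard2 : ∀ L ∈ LL a b, L.card ≤ 2 ∧ L ⊆ CC a b := by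
    intro L hL'
    rcases mem_union.mp hL' with h | h
    · rw [mem_powersetCard] at h
      exact ⟨by omega, h.1⟩
    · rw [mem_powersetCard] at h
      exact ⟨by omega, h.1⟩
  have hL1 : L1 ∈ LL a b := by
    have : L1 ∈ LL a b \ I := by rw [hM2]; simp
    exact (mem_sdiff.mp this).1
  have hL2 : L2 ∈ LL a b := by
    have : L2 ∈ LL a b \ I := by rw [hM2]; simp
    exact (mem_sdiff.mp this).1
  have hk : ∃ k ∈ CC a b, (if k ∈ L1 then 1 else 0) + (if k ∈ L2 then 1 else 0) = 1 := by
    by_contra hcon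
    push Not at hcon
    apply hne
    ext k
    constructor
    · intro h
      by_contra h'
      exact hcon k ((hcard2 L1 hL1).2 h) (by simp [h, h'])
    · intro h
      by_contra h'
      exact hcon k ((hcard2 L2 hL2).2 h) (by simp [h, h'])
  have hl : ∃ l ∈ CC a b, (if l ∈ L1 then 1 else 0) + (if l ∈ L2 then 1 else 0) = 0 := by
    have h1 : (L1 ∪ L2).card < (CC a b).card := by
      rw [CC_card a b hab]
      have := card_union_le L1 L2
      have := (hcard2 L1 hL1).1
      have := (hcard2 L2 hL2).1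
      omega
    obtain ⟨l, hl1, hl2⟩ := exists_mem_notMem_of_card_lt_card h1
    rw [mem_union, not_or] at hl2
    exact ⟨l, hl1, by simp [hl2.1, hl2.2]⟩
  obtain ⟨k, hk1, hk2⟩ := hk
  obtain ⟨l, hl1, hl2⟩ := hl
  have h1 := hdeg k hk1
  have h2 := hdeg l hl1
  rw [hk2] at h1
  rw [hl2] at h2
  obtain ⟨z, hz⟩ := hpar k hk1 l hl1
  omega

/-- The label of a root `y` with inner product one with `g a - g b`. -/
def Ty (g : Fin 9 → E) (a b : Fin 9) (y : E) (e : Finset (Fin 9)) : Prop :=
  (∃ j, j ≠ a ∧ j ≠ b ∧ y = g a - g j ∧ e = {j}) ∨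
  (∃ j, j ≠ a ∧ j ≠ b ∧ y = g j - g b ∧ e = {j}) ∨
  (∃ S, Pat g y S ∧ S.card = 3 ∧ a ∈ S ∧ b ∉ S ∧ e = S.erase a) ∨
  (∃ S, Pat g y S ∧ S.card = 6 ∧ a ∈ S ∧ b ∉ S ∧ e = Sᶜ.erase b)

variable {g : Fin 9 → E} {a b : Fin 9}

theorem exists_ty (hx : Rep G x) (hg : MaxF x g) (h2 : NoTwo x g) (hab : a ≠ b) {y : E}
    (hy : Root x y) (hw : inner ℝ y (g a - g b) = (1 : ℝ)) : ∃ e, Ty g a b y e := by
  rcases exists_pat hx hg.1 (by norm_num) hy with ⟨i, j, hij, rfl⟩ | ⟨S, hS⟩
  · rw [hg.1.ip] at hw
    by_cases h1 : i = a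
    · subst h1
      have h3 : j ≠ b := by
        rintro rfl
        simp [hij, hij.symm] at hw
      exact ⟨{j}, Or.inl ⟨j, hij.symm, h3, rfl, rfl⟩⟩
    · rw [if_neg h1] at hw
      by_cases h3 : j = b
      · subst h3
        exact ⟨{i}, Or.inr (Or.inl ⟨i, h1, hij, rfl, rfl⟩)⟩
      · rw [if_neg h3] at hw
        exfalso
        split_ifs at hw <;> norm_num at hw
  · rw [hS a b] at hw
    have h1 : a ∈ S := by
      by_contra h
      rw [if_neg h] at hw
      split_ifs at hw <;> norm_num at hw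
    have h3 : b ∉ S := by
      intro h
      rw [if_pos h, if_pos h1] at hw
      norm_num at hw
    have h4 : S.card ≠ 0 := (card_pos.mpr ⟨a, h1⟩).ne'
    have h5 : S.card ≠ 9 := by
      intro h
      have : S = univ := by rw [← card_eq_iff_eq_univ, h, Fintype.card_fin]
      exact h3 (this ▸ mem_univ b)
    rcases pat_sizes hg h2 (by norm_num) hy hS with h | h | h | h | h | h
    · exact absurd h h4
    · exact absurd h h5
    · omega
    · omega
    · exact ⟨_, Or.inr (Or.inr (Or.inl ⟨S, hS, h.2, h1, h3, rfl⟩))⟩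
    · exact ⟨_, Or.inr (Or.inr (Or.inr ⟨S, hS, h.2, h1, h3, rfl⟩))⟩

theorem ty_LL {y : E} {e : Finset (Fin 9)} (h : Ty g a b y e) : e ∈ LL a b := by
  have hC : ∀ k, k ∈ CC a b ↔ k ≠ b ∧ k ≠ a := by
    intro k; simp [CC]
  rcases h with ⟨j, h1, h2, -, rfl⟩ | ⟨j, h1, h2, -, rfl⟩ | ⟨S, -, h1, h2, h3, rfl⟩ |
    ⟨S, -, h1, h2, h3, rfl⟩
  · apply mem_union_left
    rw [mem_powersetCard]
    exact ⟨by rw [singleton_subset_iff, hC]; exact ⟨h2, h1⟩, card_singleton j⟩
  · apply mem_union_left
    rw [mem_powersetCard]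
    exact ⟨by rw [singleton_subset_iff, hC]; exact ⟨h2, h1⟩, card_singleton j⟩
  · apply mem_union_right
    rw [mem_powersetCard]
    refine ⟨?_, by rw [card_erase_of_mem h2, h1]⟩
    intro k hk
    rw [mem_erase] at hk
    rw [hC]
    exact ⟨fun e => h3 (e ▸ hk.2), hk.1⟩
  · apply mem_union_right
    rw [mem_powersetCard]
    have h4 : b ∈ Sᶜ := mem_compl.mpr h3
    refine ⟨?_, by rw [card_erase_of_mem h4, card_compl, h1, Fintype.card_fin]⟩
    intro k hk
    rw [mem_erase, mem_compl] at hk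
    rw [hC]
    exact ⟨hk.1, fun e => hk.2 (e ▸ h2)⟩

theorem ty_par (hg : Frame x g) {y : E} {e : Finset (Fin 9)} (h : Ty g a b y e) {k l : Fin 9}
    (hk : k ∈ CC a b) (hl : l ∈ CC a b) : ∃ z : ℤ, (if k ∈ e then (1 : ℝ) else 0) -
      (if l ∈ e then 1 else 0) = inner ℝ y (g k - g l) + 2 * z := by
  have hC : ∀ k, k ∈ CC a b ↔ k ≠ b ∧ k ≠ a := by
    intro k; simp [CC]
  rw [hC] at hk hl
  rcases h with ⟨j, h1, h2, rfl, rfl⟩ | ⟨j, h1, h2, rfl, rfl⟩ | ⟨S, hS, h1, h2, h3, rfl⟩ |
    ⟨S, hS, h1, h2, h3, rfl⟩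
  · rw [hg.ip, if_neg hk.2.symm, if_neg hl.2.symm]
    simp only [mem_singleton, eq_comm (a := j)]
    by_cases h3 : k = j <;> by_cases h4 : l = j
    · exact ⟨0, by simp [h3, h4]⟩
    · exact ⟨1, by simp [h3, h4]; norm_num⟩
    · exact ⟨-1, by simp [h3, h4]; norm_num⟩
    · exact ⟨0, by simp [h3, h4]⟩
  · rw [hg.ip, if_neg hk.1.symm, if_neg hl.1.symm]
    simp only [mem_singleton, eq_comm (a := j)]
    exact ⟨0, by push_cast; ring⟩
  · rw [hS k l]
    refine ⟨0, ?_⟩
    simp [mem_erase, hk.2, hl.2]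
  · rw [hS k l]
    simp only [mem_erase, mem_compl, ne_eq, hk.1, hl.1, not_false_eq_true, true_and]
    by_cases h4 : k ∈ S <;> by_cases h5 : l ∈ S
    · exact ⟨0, by simp [h4, h5]⟩
    · exact ⟨-1, by simp [h4, h5]; norm_num⟩
    · exact ⟨1, by simp [h4, h5]; norm_num⟩
    · exact ⟨0, by simp [h4, h5]⟩

theorem ty_uniq (hx : Rep G x) (hg : Frame x g) (hab : a ≠ b) {u v : V}
    {e : Finset (Fin 9)} (hu : Ty g a b (x u) e) (hv : Ty g a b (x v) e) : u = v := by
  have hnn := ent_nonneg G u v
  have heq : x u = x v → u = v := by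
    intro h
    have h1 := hx u v
    rw [h, hx v v, ent_self] at h1
    rcases ent_cases (G := G) u v with ⟨h4, _⟩ | ⟨_, _, h4⟩ | ⟨_, _, h4⟩
    · exact h4
    · rw [h4] at h1; norm_num at h1
    · rw [h4] at h1; norm_num at h1
  have heq' : ∀ S, Pat g (x u) S → Pat g (x v) S → S.card * (9 - S.card) = 2 * 9 → u = v := by
    intro S h1 h2 h3
    apply heq
    have e1 := pat_eq hg (root_x hx u).2 h1 h3
    have e2 := pat_eq hg (root_x hx v).2 h2 h3
    exact smul_right_injective E (by norm_num : ((9 : ℕ) : ℝ) ≠ 0) (e1.trans e2.symm)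
  have hneg : ∀ u v : V, ∀ S T : Finset (Fin 9), Pat g (x u) S → Pat g (x v) T →
      S.card = 3 → T.card = 6 → a ∈ S → b ∉ S → a ∈ T → b ∉ T → S.erase a = Tᶜ.erase b →
      inner ℝ (x u) (x v) = (-1 : ℝ) := by
    intro u v S T hS hT hS3 hT6 haS hbS haT hbT he
    have e1 := pat_eq hg (root_x hx u).2 hS (by rw [hS3])
    have h1 := ip_qv (S := S) hT
    rw [← e1, inner_smul_right] at h1
    have h2 : S ∩ T = {a} := by
      ext k
      rw [mem_inter, mem_singleton]
      constructor
      · rintro ⟨hk1, hk2⟩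
        by_contra hka
        have : k ∈ S.erase a := mem_erase.mpr ⟨hka, hk1⟩
        rw [he, mem_erase, mem_compl] at this
        exact this.2 hk2
      · rintro rfl
        exact ⟨haS, haT⟩
    have h3 : (Sᶜ ∩ T).card = 5 := by
      have h4 : Sᶜ ∩ T = T.erase a := by
        ext k
        rw [mem_inter, mem_compl, mem_erase]
        constructor
        · rintro ⟨hk1, hk2⟩
          exact ⟨fun e => hk1 (e ▸ haS), hk2⟩
        · rintro ⟨hk1, hk2⟩
          refine ⟨fun hk3 => ?_, hk2⟩
          have : k ∈ S.erase a := mem_erase.mpr ⟨hk1, hk3⟩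
          rw [he, mem_erase, mem_compl] at this
          exact this.2 hk2
      rw [h4, card_erase_of_mem haT, hT6]
    rw [h2, h3, card_singleton, hS3] at h1
    push_cast at h1
    rw [real_inner_comm] at h1
    linarith
  rcases hu with ⟨j, h1, h2, h3, rfl⟩ | ⟨j, h1, h2, h3, rfl⟩ | ⟨S, hS, h1, h2, h3, rfl⟩ |
    ⟨S, hS, h1, h2, h3, rfl⟩ <;>
  rcases hv with ⟨j', h1', h2', h3', he⟩ | ⟨j', h1', h2', h3', he⟩ | ⟨T, hT, h1', h2', h3', he⟩ |
    ⟨T, hT, h1', h2', h3', he⟩
  · rw [singleton_inj] at he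
    exact heq (by rw [h3, h3', he])
  · exfalso
    rw [singleton_inj] at he
    subst he
    have h4 := hx u v
    rw [h3, h3', hg.ip] at h4
    rw [← h4] at hnn
    simp [h1, h1.symm, h2, h2.symm, hab] at hnn
    norm_num at hnn
  · exfalso
    have := congrArg Finset.card he
    rw [card_singleton, card_erase_of_mem h2', h1'] at this
    omega
  · exfalso
    have := congrArg Finset.card he
    rw [card_singleton, card_erase_of_mem (mem_compl.mpr h3'), card_compl, h1',
      Fintype.card_fin] at this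
    omega
  · exfalso
    rw [singleton_inj] at he
    subst he
    have h4 := hx u v
    rw [h3, h3', hg.ip] at h4
    rw [← h4] at hnn
    simp [h1, h1.symm, h2, h2.symm, hab, hab.symm] at hnn
    norm_num at hnn
  · rw [singleton_inj] at he
    exact heq (by rw [h3, h3', he])
  · exfalso
    have := congrArg Finset.card he
    rw [card_singleton, card_erase_of_mem h2', h1'] at this
    omega
  · exfalso
    have := congrArg Finset.card he
    rw [card_singleton, card_erase_of_mem (mem_compl.mpr h3'), card_compl, h1',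
      Fintype.card_fin] at this
    omega
  · exfalso
    have := congrArg Finset.card he
    rw [card_singleton, card_erase_of_mem h2, h1] at this
    omega
  · exfalso
    have := congrArg Finset.card he
    rw [card_singleton, card_erase_of_mem h2, h1] at this
    omega
  · have h4 : S = T := by
      rw [← insert_erase h2, he, insert_erase h2']
    subst h4
    exact heq' S hS hT (by rw [h1])
  · exfalso
    have h4 := hneg u v S T hS hT h1 h1' h2 h3 h2' h3' he
    rw [hx] at h4
    linarith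
  · exfalso
    have := congrArg Finset.card he
    rw [card_singleton, card_erase_of_mem (mem_compl.mpr h3), card_compl, h1,
      Fintype.card_fin] at this
    omega
  · exfalso
    have := congrArg Finset.card he
    rw [card_singleton, card_erase_of_mem (mem_compl.mpr h3), card_compl, h1,
      Fintype.card_fin] at this
    omega
  · exfalso
    have h4 := hneg v u T S hT hS h1' h1 h2' h3' h2 h3 he.symm
    rw [real_inner_comm, hx] at h4
    linarith
  · have h4 : Sᶜ = Tᶜ := by
      rw [← insert_erase (mem_compl.mpr h3), he, insert_erase (mem_compl.mpr h3')]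
    have h5 : S = T := compl_injective h4
    subst h5
    exact heq' S hS hT (by rw [h1])

/-- Core of the exclusion of `26` vertices. -/
theorem no_26_core [Fintype V] (hx : Rep G x) (hg : MaxF x g) (h2 : NoTwo x g) (hab : a ≠ b)
    (hw : ∀ v, inner ℝ (x v) (g a - g b) = (1 : ℝ)) {m : ℝ} (hsum : ∑ v, x v = m • (g a - g b))
    (hV : Fintype.card V = 26) : False := by
  classical
  have h3 : ∀ v, ∃ e, Ty g a b (x v) e := fun v => exists_ty hx hg h2 hab (root_x hx v) (hw v)
  choose e he using h3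
  apply no_26_labels hV hab e
  · intro u v huv
    exact ty_uniq hx hg.1 hab (he u) (huv ▸ he v)
  · exact fun v => ty_LL (he v)
  · intro k hk l hl
    have h4 : ∀ v, ∃ z : ℤ, (if k ∈ e v then (1 : ℝ) else 0) -
      (if l ∈ e v then 1 else 0) = inner ℝ (x v) (g k - g l) + 2 * z :=
      fun v => ty_par hg.1 (he v) hk hl
    choose z hz using h4
    refine ⟨∑ v, z v, ?_⟩
    have hC : ∀ k, k ∈ CC a b ↔ k ≠ b ∧ k ≠ a := by
      intro k; simp [CC]
    rw [hC] at hk hl
    have h5 : ∑ v, inner ℝ (x v) (g k - g l) = (0 : ℝ) := by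
      rw [← sum_inner, hsum, inner_smul_left, hg.1.ip, if_neg hk.2.symm, if_neg hl.2.symm,
        if_neg hk.1.symm, if_neg hl.1.symm]
      norm_num
    have h6 : ((((univ.filter fun v => k ∈ e v).card : ℤ) -
        (univ.filter fun v => l ∈ e v).card : ℤ) : ℝ) = ((2 * ∑ v, z v : ℤ) : ℝ) := by
      have h7 := Finset.sum_congr rfl fun v (_ : v ∈ (univ : Finset V)) => hz v
      rw [Finset.sum_sub_distrib, Finset.sum_add_distrib, h5, Finset.sum_boole,
        Finset.sum_boole, ← Finset.mul_sum] at h7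
      push_cast
      linarith
    exact_mod_cast h6

/-- Reflection. -/
noncomputable def rf (ρ y : E) : E := y - inner ℝ y ρ • ρ

theorem rf_ip {ρ : E} (y z : E) : inner ℝ (rf ρ y) z = inner ℝ y (rf ρ z) := by
  unfold rf
  rw [inner_sub_left, inner_sub_right, inner_smul_left, inner_smul_right, real_inner_comm z ρ]
  simp only [conj_trivial]
  ring

theorem rf_rf {ρ : E} (hρ : inner ℝ ρ ρ = (2 : ℝ)) (y : E) : rf ρ (rf ρ y) = y := by
  unfold rf
  rw [inner_sub_left, inner_smul_left, hρ]
  simp only [conj_trivial]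
  module

theorem rf_sub (ρ y z : E) : rf ρ (y - z) = rf ρ y - rf ρ z := by
  unfold rf
  rw [inner_sub_left]
  module

theorem rf_root (hx : Rep G x) {ρ : E} (hρ : Root x ρ) {y : E} (hy : Root x y) :
    Root x (rf ρ y) := by
  refine ⟨?_, by rw [rf_ip, rf_rf hρ.2]; exact hy.2⟩
  obtain ⟨z, hz⟩ := lat_int hx hy.1 hρ.1
  unfold rf
  rw [hz]
  exact (lat x).sub_mem hy.1 (int_smul_lat hρ.1)

/-- There is no exceptional graph of type `E_8` with `26` vertices. -/
theorem no_26 [Fintype V] (hx : Rep G x) (hg : MaxF x g) (h2 : NoTwo x g) (hr : Reg G 11)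
    (hV : Fintype.card V = 26) (hall : ∀ v, x v ∈ dif g) (hlat : wv x 11 ∈ lat x) : False := by
  have hww : inner ℝ (wv x 11) (wv x 11) = (2 : ℝ) := by
    have := wv_self hx hr
    rw [hV] at this
    push_cast at this
    linarith
  have hw : Root x (wv x 11) := ⟨hlat, hww⟩
  have hwd : wv x 11 ∈ dif g := (dif g).smul_mem _ ((dif g).sum_mem fun v _ => hall v)
  have hsum : ∑ v, x v = (13 : ℝ) • wv x 11 := by
    unfold wv
    rw [smul_smul]
    norm_num
  have hip : ∀ v, inner ℝ (x v) (wv x 11) = (1 : ℝ) := by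
    intro v; rw [real_inner_comm]; exact wv_ip hx hr v
  rcases exists_pat hx hg.1 (by norm_num) hw with ⟨a, b, hab, h3⟩ | ⟨S, hS⟩
  · rw [h3] at hsum hip
    exact no_26_core hx hg h2 hab hip hsum hV
  · -- find `a ∈ S`, `b ∉ S`
    have hS0 : S.card ≠ 0 ∧ S.card ≠ 9 := by
      constructor
      · intro h
        have h4 := eq_zero_of_dif (hS.perp (Or.inl h)) hwd
        rw [h4, inner_zero_left] at hww
        norm_num at hww
      · intro h
        have h4 := eq_zero_of_dif (hS.perp (Or.inr h)) hwd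
        rw [h4, inner_zero_left] at hww
        norm_num at hww
    obtain ⟨a, ha⟩ : S.Nonempty := card_pos.mp (Nat.pos_of_ne_zero hS0.1)
    obtain ⟨b, hb⟩ : Sᶜ.Nonempty := by
      apply card_pos.mp
      rw [card_compl, Fintype.card_fin]
      have := S.card_le_univ
      rw [Fintype.card_fin] at this
      omega
    rw [mem_compl] at hb
    have hab : a ≠ b := fun e => hb (e ▸ ha)
    have hwab : inner ℝ (wv x 11) (g a - g b) = (1 : ℝ) := hS.one ha hb
    generalize hρd : wv x 11 - (g a - g b) = ρ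
    have hρ : Root x ρ := by
      rw [← hρd]
      exact hw.sub (hg.1 a b hab) hwab
    have hg' : Frame x (fun i => rf ρ (g i)) := by
      intro i j hij
      rw [← rf_sub]
      exact rf_root hx hρ (hg.1 i j hij)
    have hmax : MaxF x (fun i => rf ρ (g i)) := ⟨hg', hg.2⟩
    have hno : NoTwo x (fun i => rf ρ (g i)) := by
      intro r T hr' hT
      apply h2 (rf ρ r) T (rf_root hx hρ hr')
      intro i j
      rw [rf_ip, rf_sub]
      exact hT i j
    have hwg : wv x 11 = rf ρ (g a) - rf ρ (g b) := by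
      rw [← rf_sub]
      unfold rf
      have h4 : inner ℝ (g a - g b) ρ = (-1 : ℝ) := by
        rw [← hρd, inner_sub_right, real_inner_comm, hwab, (hg.1 a b hab).2]
        norm_num
      rw [h4, ← hρd]
      module
    rw [hwg] at hsum hip
    exact no_26_core hx hmax hno hab hip hsum hV

end Pool.Agent.Lib.MP_70d4d1_co
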