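import Pool.Agent.Lib.MP_70d4d1_co.Order

namespace Pool.Agent.Lib.MP_70d4d1_co

open Module

variable {V : Type*} {G : SimpleGraph V} {N : ℕ} {y : V → Fin N → ℝ}

theorem SR.order [Fintype V] (h : SR G y) (hpos : ∀ v k, 0 ≤ y v k) {d : ℕ} (hr : Reg G d)
    (hc : G.Connected) : Fintype.card V ∈ Ord d := by
  classical
  have h1 : ∀ v, ∃ i j, i ≠ j ∧ ∀ k, y v k = (if k = i then (1 : ℝ) else 0) +
      (if k = j then 1 else 0) := by
    intro v
    obtain ⟨i, j, hij, a, b, ha, hb, hk⟩ := h.two v
    have ei : y v i = a := by rw [hk]; simp [hij]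
    have ej : y v j = b := by rw [hk]; simp [hij.symm]
    have ha1 : a = 1 := by
      rcases ha with h | h
      · exact h
      · exfalso; have := hpos v i; rw [ei, h] at this; norm_num at this
    have hb1 : b = 1 := by
      rcases hb with h | h
      · exact h
      · exfalso; have := hpos v j; rw [ej, h] at this; norm_num at this
    subst ha1 hb1
    exact ⟨i, j, hij, hk⟩
  choose i j hij hk using h1
  have hent : ∀ u v, ent G u v = (if i v = i u then (1 : ℝ) else 0) + (if i v = j u then 1 else 0)
      + ((if j v = i u then (1 : ℝ) else 0) + (if j v = j u then 1 else 0)) := by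
    intro u v
    rw [← h.gram u v]
    simp_rw [hk v, mul_add]
    rw [Finset.sum_add_distrib]
    simp [hk u]
  apply order_of_system hc hij
  · intro u v h2
    have h3 : ent G u v = 2 := by
      rw [hent]
      rcases Sym2.eq_iff.mp h2 with ⟨h4, h5⟩ | ⟨h4, h5⟩
      · rw [h4, h5]
        simp [hij v, (hij v).symm]
        norm_num
      · rw [h4, h5]
        simp [hij v, (hij v).symm]
        norm_num
    rcases ent_cases (G := G) u v with ⟨h4, _⟩ | ⟨_, _, h4⟩ | ⟨_, _, h4⟩
    · exact h4
    · rw [h3] at h4; norm_num at h4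
    · rw [h3] at h4; norm_num at h4
  · intro v
    have h2 := sum_ent hr v
    have h3 : ∀ k, ((cc i j k : ℕ) : ℝ) = ∑ u, ((if k = i u then (1 : ℝ) else 0) +
        (if k = j u then 1 else 0)) := by
      intro k
      have h4 := sum_cc hij {k}
      rw [Finset.sum_singleton] at h4
      rw [h4]
      push_cast
      refine Finset.sum_congr rfl fun u _ => ?_
      simp only [Finset.mem_singleton, eq_comm (b := k)]
    have h5 : ((cc i j (i v) + cc i j (j v) : ℕ) : ℝ) = ((d + 2 : ℕ) : ℝ) := by
      push_cast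
      rw [h3, h3, ← h2, ← Finset.sum_add_distrib]
      exact Finset.sum_congr rfl fun u _ => (hent u v).symm
    exact_mod_cast h5
  · intro u v huv
    by_contra hcon
    push Not at hcon
    obtain ⟨c1, c2, c3, c4⟩ := hcon
    have h2 := hent u v
    rw [ent_adj huv, if_neg c1.symm, if_neg c3.symm, if_neg c2.symm, if_neg c4.symm] at h2
    norm_num at h2

theorem reg_even [Fintype V] {d : ℕ} (hr : Reg G d) : Even (Fintype.card V * d) := by
  classical
  have h1 := G.sum_degrees_eq_twice_card_edges
  have h2 : ∀ v, G.degree v = d := by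
    intro v
    rw [← hr v, ← SimpleGraph.card_neighborSet_eq_degree, ← Nat.card_eq_fintype_card]
    rfl
  rw [Finset.sum_congr rfl fun v _ => h2 v, Finset.sum_const, smul_eq_mul, Finset.card_univ] at h1
  rw [h1]
  exact even_two_mul _

theorem cocktail_order [Fintype V] {d : ℕ} (hr : Reg G d) (hne : Nonempty V)
    (h : IsCocktail G) : Fintype.card V ∈ Ord d := by
  classical
  obtain ⟨v⟩ := hne
  obtain ⟨w, ⟨hw, hw'⟩, huniq⟩ := h v
  have h1 : (Set.univ : Set V) = insert w (insert v (G.neighborSet v)) := by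
    ext u
    simp only [Set.mem_univ, Set.mem_insert_iff, SimpleGraph.mem_neighborSet, true_iff]
    by_cases hu : u = v
    · exact Or.inr (Or.inl hu)
    by_cases hu' : G.Adj v u
    · exact Or.inr (Or.inr hu')
    · exact Or.inl (huniq u ⟨hu, hu'⟩)
  have h2 : Fintype.card V = d + 2 := by
    rw [← Nat.card_eq_fintype_card, ← Set.ncard_univ, h1, Set.ncard_insert_of_notMem,
      Set.ncard_insert_of_notMem, hr v]
    · simp
    · simp [hw, hw']
  right
  refine ⟨?_, h2⟩
  have h3 := reg_even hr
  rw [h2] at h3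
  by_contra hcon
  rw [Nat.even_mul] at h3
  rcases h3 with h3 | h3
  · exact hcon (by simpa [Nat.even_add] using h3)
  · exact hcon h3

theorem SR.struct_full [Fintype V] (h : SR G y) {d : ℕ} (hr : Reg G d) (hc : G.Connected) :
    (IsLine G ∨ IsCocktail G) ∧ Fintype.card V ∈ Ord d := by
  obtain ⟨y', h', hs⟩ := h.flip
  by_cases hpos : ∀ v k, 0 ≤ y' v k
  · exact ⟨Or.inl (h'.line hpos), h'.order hpos hr hc⟩
  · push Not at hpos
    obtain ⟨v, q, hq⟩ := hpos
    have h0 : y' v q = -1 := by
      rcases h'.vals v q with h1 | h1 | h1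
      · exact h1
      · rw [h1] at hq; norm_num at hq
      · rw [h1] at hq; norm_num at hq
    have h1 := h'.cocktail hs hr hc h0
    exact ⟨Or.inr h1, cocktail_order hr hc.nonempty h1⟩

end Pool.Agent.Lib.MP_70d4d1_co
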