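import Mathlib

namespace Pool.Agent.Lib.MP_70d4d1_co

/-- Pairs (degree, order) of the possible components that are neither line graphs nor cocktail
party graphs. -/
def etab : List (ℕ × ℕ) :=
  [(3, 10), (4, 8), (4, 9), (4, 10), (4, 12), (5, 14), (6, 12), (6, 16), (7, 12), (7, 18),
    (8, 15), (8, 20), (9, 22), (10, 16), (10, 18), (10, 24), (12, 21), (12, 28), (14, 24),
    (16, 27)]

/-- Those pairs (degree, order) whose order is not a sum of orders of line graphs and cocktail
party graphs of the same degree. -/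
def exo : List (ℕ × ℕ) :=
  [(5, 14), (7, 12), (9, 22), (10, 16), (10, 18), (12, 21), (14, 24), (16, 27)]

/-- Orders of the building blocks: line graphs of semiregular bipartite graphs with degrees `a`
and `b`, line graphs of `k`-regular graphs on `N` vertices, the cocktail party graph, and eight
exceptional pairs (degree, order). -/
def Blocks (d : ℕ) : Set ℕ :=
  {m | ∃ a b, 1 ≤ a ∧ 1 ≤ b ∧ a + b = d + 2 ∧ a ∣ m ∧ b ∣ m ∧ a * b ≤ m} ∪
    {m | ∃ k N, 2 * k = d + 2 ∧ k < N ∧ 2 * m = k * N} ∪
    {m | Even d ∧ m = d + 2} ∪ {m | (d, m) ∈ exo}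

end Pool.Agent.Lib.MP_70d4d1_co
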