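import Pool.Agent.Lib.MP_70d4d1_co.Eight
import Pool.Agent.Lib.MP_70d4d1_co.Order2
import Pool.Agent.Lib.MP_70d4d1_co.Tables

namespace Pool.Agent.Lib.MP_70d4d1_co

/-- The statement checked for each quadruple. -/
def OKt (d n t k : ℕ) : Prop :=
  3 ≤ d ∧ d + 1 ≤ n ∧ (n * d) % 2 = 0 ∧
    ((t = 1 ∧ k = 7) ∨ (t = 2 ∧ k = 6) ∨ (t = 3 ∧ k = 5)) ∧ (d + 2) ∣ t * n ∧
    (2 * (n : ℤ) - (d + 2)) ^ 2 ≤ k * ((d + 2) * ((n : ℤ) - (d + 2)) + 2 * n) →
    n = d + 2 ∨ (d, n) ∈ etab ∨ (d = 11 ∧ n = 26 ∧ t = 1)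

instance (d n t k : ℕ) : Decidable (OKt d n t k) := by
  unfold OKt
  infer_instance

theorem small_table : ∀ d : ℕ, d < 17 → ∀ n : ℕ, n < 29 → ∀ t : ℕ, t < 4 → ∀ k : ℕ, k < 8 →
    OKt d n t k := by
  decide +kernel

theorem small_bounds {d n t k : ℕ} (hd : 3 ≤ d) (hn : d + 1 ≤ n)
    (htk : (t = 1 ∧ k = 7) ∨ (t = 2 ∧ k = 6) ∨ (t = 3 ∧ k = 5)) (hdvd : (d + 2) ∣ t * n)
    (hineq : (2 * (n : ℤ) - (d + 2)) ^ 2 ≤ k * ((d + 2) * ((n : ℤ) - (d + 2)) + 2 * n)) :
    d < 17 ∧ n < 29 := by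
  obtain ⟨z, hz⟩ := hdvd
  have hD : (5 : ℤ) ≤ (d : ℤ) + 2 := by omega
  have hz' : (t : ℤ) * n = ((d : ℤ) + 2) * z := by exact_mod_cast hz
  have hn' : (d : ℤ) + 2 - 1 ≤ n := by omega
  suffices h : (d : ℤ) + 2 < 19 ∧ (n : ℤ) < 29 by omega
  clear hn hd hz
  generalize (d : ℤ) + 2 = D at *
  generalize (n : ℤ) = m at *
  have hz0 : (0 : ℤ) ≤ (z : ℤ) := Int.natCast_nonneg z
  generalize (z : ℤ) = w at *
  rcases htk with ⟨rfl, rfl⟩ | ⟨rfl, rfl⟩ | ⟨rfl, rfl⟩
  · push_cast at hz' hineq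
    have e : m = D * w := by linarith
    subst e
    have h1 : D * (D * (4 * w ^ 2 - 11 * w + 8)) ≤ D * (14 * w) := by nlinarith
    have h2 := le_of_mul_le_mul_left h1 (by omega)
    have h3 : 0 ≤ 4 * w ^ 2 - 11 * w + 8 := by nlinarith [sq_nonneg (8 * w - 11)]
    have h4 : 5 * (4 * w ^ 2 - 11 * w + 8) ≤ 14 * w := (mul_le_mul_of_nonneg_right hD h3).trans h2
    have h5 : w < 3 := by nlinarith
    interval_cases w
    · omega
    · omega
    · omega
  · push_cast at hz' hineq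
    have e : 2 * m = D * w := by linarith
    have h0 : 4 * (2 * m - D) ^ 2 ≤ 4 * (6 * (D * (m - D) + 2 * m)) := by linarith
    have h0' : 4 * (2 * m - D) ^ 2 = D * (D * (4 * w ^ 2 - 8 * w + 4)) := by
      have : 2 * m - D = D * w - D := by linarith
      rw [this]; ring
    have h0'' : 4 * (6 * (D * (m - D) + 2 * m)) = D * (D * (12 * w - 24) + 24 * w) := by
      have : 4 * (6 * (D * (m - D) + 2 * m)) = 12 * D * (2 * m) - 24 * D ^ 2 + 24 * (2 * m) := by
        ring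
      rw [this, e]; ring
    rw [h0', h0''] at h0
    have h2 := le_of_mul_le_mul_left h0 (by omega)
    have h2' : D * (4 * w ^ 2 - 20 * w + 28) ≤ 24 * w := by nlinarith
    have h3 : 0 ≤ 4 * w ^ 2 - 20 * w + 28 := by nlinarith [sq_nonneg (2 * w - 5)]
    have h4 : 5 * (4 * w ^ 2 - 20 * w + 28) ≤ 24 * w := (mul_le_mul_of_nonneg_right hD h3).trans h2'
    have h5 : w < 5 := by nlinarith
    interval_cases w
    · omega
    · omega
    · omega
    · omega
    · omega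
  · push_cast at hz' hineq
    have e : 3 * m = D * w := by linarith
    have h0 : 9 * (2 * m - D) ^ 2 ≤ 9 * (5 * (D * (m - D) + 2 * m)) := by linarith
    have h0' : 9 * (2 * m - D) ^ 2 = D * (D * (4 * w ^ 2 - 12 * w + 9)) := by
      have : 9 * (2 * m - D) ^ 2 = (2 * (3 * m) - 3 * D) ^ 2 := by ring
      rw [this, e]; ring
    have h0'' : 9 * (5 * (D * (m - D) + 2 * m)) = D * (D * (15 * w - 45) + 30 * w) := by
      have : 9 * (5 * (D * (m - D) + 2 * m)) = 15 * D * (3 * m) - 45 * D ^ 2 + 30 * (3 * m) := by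
        ring
      rw [this, e]; ring
    rw [h0', h0''] at h0
    have h2 := le_of_mul_le_mul_left h0 (by omega)
    have h2' : D * (4 * w ^ 2 - 27 * w + 54) ≤ 30 * w := by nlinarith
    have h3 : 0 ≤ 4 * w ^ 2 - 27 * w + 54 := by nlinarith [sq_nonneg (8 * w - 27)]
    have h4 : 5 * (4 * w ^ 2 - 27 * w + 54) ≤ 30 * w := (mul_le_mul_of_nonneg_right hD h3).trans h2'
    have h5 : w < 7 := by nlinarith
    interval_cases w
    · omega
    · omega
    · omega
    · omega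
    · omega
    · omega
    · omega

variable {V E : Type*} [NormedAddCommGroup E] [InnerProductSpace ℝ E]
variable {G : SimpleGraph V} {x : V → E}

theorem etype_table [Fintype V] [Nonempty V] (hx : Rep G x) {d : ℕ} (hd : 3 ≤ d) (hr : Reg G d)
    (h : EType x) : Fintype.card V = d + 2 ∨ (d, Fintype.card V) ∈ etab := by
  obtain ⟨t, k, htk, hdvd, hineq⟩ := etype_arith hx hr h
  obtain ⟨v⟩ := ‹Nonempty V›
  have hcard := card_gt hr v
  have htk' : (t = 1 ∧ k = 7) ∨ (t = 2 ∧ k = 6) ∨ (t = 3 ∧ k = 5) := by tauto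
  obtain ⟨hb1, hb2⟩ := small_bounds hd hcard htk' hdvd hineq
  rcases small_table d hb1 _ hb2 t (by omega) k (by omega)
    ⟨hd, hcard, Nat.even_iff.mp (reg_even hr), htk', hdvd, hineq⟩ with h1 | h1 | ⟨h1, h2, h3⟩
  · exact Or.inl h1
  · exact Or.inr h1
  · exfalso
    subst h1
    rcases htk with ⟨-, -, g, hg, hno, hall, hlat⟩ | h4 | h4
    · exact no_26 hx hg hno hr h2 hall hlat
    · omega
    · omega

/-- A regular graph with `d + 2` vertices is a cocktail party graph. -/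
theorem cocktail_of_card [Fintype V] {d : ℕ} (hr : Reg G d) (h : Fintype.card V = d + 2) :
    IsCocktail G := by
  classical
  intro v
  have h1 : ((insert v (G.neighborSet v))ᶜ : Set V).ncard = 1 := by
    have h2 := Set.ncard_add_ncard_compl (insert v (G.neighborSet v))
    rw [Set.ncard_insert_of_notMem (by simp), hr v, Nat.card_eq_fintype_card, h] at h2
    omega
  obtain ⟨w, hw⟩ := Set.ncard_eq_one.mp h1
  have hmem : ∀ u, (u ≠ v ∧ ¬ G.Adj v u) ↔ u = w := by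
    intro u
    have : u ∈ ((insert v (G.neighborSet v))ᶜ : Set V) ↔ u = w := by rw [hw]; rfl
    rw [← this, Set.mem_compl_iff, Set.mem_insert_iff, not_or]
    rfl
  exact ⟨w, (hmem w).mpr rfl, fun u hu => (hmem u).mp hu⟩

/-- Connected regular graphs with `A + 2 I` positive semidefinite, `d ≥ 3`. -/
theorem struct_all [Fintype V] {d : ℕ} (hd : 3 ≤ d) (hr : Reg G d) (hc : G.Connected)
    (hp : Psd G) : ((IsLine G ∨ IsCocktail G) ∧ Fintype.card V ∈ Ord d) ∨
      (d, Fintype.card V) ∈ etab := by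
  obtain ⟨x, hx⟩ := exists_rep G hp
  have hne : Nonempty V := hc.nonempty
  rcases tri_conn hx hc with h | h | h
  · obtain ⟨N, y, hy⟩ := sr_of_atype hx h
    exact Or.inl (hy.struct_full hr hc)
  · obtain ⟨N, y, hy⟩ := sr_of_dtype hx h
    exact Or.inl (hy.struct_full hr hc)
  · rcases etype_table hx hd hr h with h1 | h1
    · left
      have h2 := cocktail_of_card hr h1
      exact ⟨Or.inr h2, cocktail_order hr hne h2⟩
    · exact Or.inr h1

end Pool.Agent.Lib.MP_70d4d1_co
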