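import Pool.Agent.Lib.MP_70d4d1_co.Cons

namespace Pool.Agent.Lib.MP_70d4d1_co

/-- Integer inner product of the vectors given by two lists. -/
def ipl (a b : List ℤ) : ℤ := (List.zipWith (fun s t => s * t) a b).sum

theorem ipl_eq (m : ℕ) (a b : List ℤ) (h : a.length ≤ m) :
    ipl a b = ∑ k ∈ Finset.range m, a.getD k 0 * b.getD k 0 := by
  induction a generalizing m b with
  | nil => simp [ipl]
  | cons s a ih =>
    cases b with
    | nil => simp [ipl]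
    | cons t b =>
      cases m with
      | zero => simp at h
      | succ m =>
        have h1 := ih m b (by simpa using h)
        rw [Finset.sum_range_succ']
        simp only [ipl, List.zipWith_cons_cons, List.sum_cons] at h1 ⊢
        rw [h1]
        simp [List.getD_cons_succ, add_comm]

/-- The check: norm `8`, inner products `0` or `4`, degree `d`. -/
def chk (L : List (List ℤ)) (d : ℕ) : Bool :=
  decide L.Nodup && L.all (fun a => decide (a.length ≤ 8) && decide (ipl a a = 8) &&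
    decide ((L.filter (fun b => decide (ipl a b = 4))).length = d) &&
    L.all (fun b => decide (a = b) || decide (ipl a b = 0) || decide (ipl a b = 4)))

theorem good_of_list {L : List (List ℤ)} {d : ℕ} (h : chk L d = true) : Good d L.length := by
  classical
  simp only [chk, Bool.and_eq_true, decide_eq_true_eq, List.all_eq_true, Bool.or_eq_true] at h
  obtain ⟨hnd, hL⟩ := h
  let a : Fin L.length → List ℤ := fun i => L.get i
  have ha : ∀ i, a i ∈ L := fun i => List.get_mem L i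
  have hinj : Function.Injective a := List.nodup_iff_injective_get.mp hnd
  have hsymm : ∀ s t : List ℤ, ipl s t = ipl t s := by
    intro s t
    unfold ipl
    rw [List.zipWith_comm]
    simp only [mul_comm]
  let G : SimpleGraph (Fin L.length) :=
    { Adj := fun i j => ipl (a i) (a j) = 4
      symm := ⟨fun i j hij => by rw [hsymm]; exact hij⟩
      loopless := ⟨fun i hi => by
        have := (hL (a i) (ha i)).1.1.2
        rw [this] at hi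
        norm_num at hi⟩ }
  have hent : ∀ i j, 4 * ent G i j = (ipl (a i) (a j) : ℝ) := by
    intro i j
    by_cases hij : i = j
    · subst hij
      rw [(hL (a i) (ha i)).1.1.2]
      simp [ent]
      norm_num
    · rcases (hL (a i) (ha i)).2 (a j) (ha j) with (h1 | h1) | h1
      · exact absurd (hinj h1) hij
      · have h2 : ¬ G.Adj i j := by
          intro h3
          have h4 : ipl (a i) (a j) = 4 := h3
          rw [h1] at h4
          norm_num at h4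
        rw [h1]
        simp [ent, hij, h2]
      · have h2 : G.Adj i j := h1
        rw [h1]
        simp [ent, hij, h2]
  refine ⟨G, ?_, ?_⟩
  · intro i
    have h1 := (hL (a i) (ha i)).1.2
    have h2 : (G.neighborSet i).ncard =
        (L.filter (fun b => decide (ipl (a i) b = 4))).length := by
      have h3 : (G.neighborSet i) = a ⁻¹' {b | b ∈ L ∧ ipl (a i) b = 4} := by
        ext j
        simp only [SimpleGraph.mem_neighborSet, Set.mem_preimage]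
        exact ⟨fun h => ⟨ha j, h⟩, fun h => h.2⟩
      have h4 : a '' (G.neighborSet i) =
          ((L.filter (fun b => decide (ipl (a i) b = 4))).toFinset : Set (List ℤ)) := by
        ext b
        simp only [Set.mem_image, List.coe_toFinset, List.mem_filter, decide_eq_true_eq,
          Set.mem_ofPred_eq]
        constructor
        · rintro ⟨j, hj, rfl⟩
          exact ⟨ha j, hj⟩
        · rintro ⟨hb, hb'⟩
          obtain ⟨j, hj⟩ := List.get_of_mem hb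
          exact ⟨j, by
            show ipl (a i) (a j) = 4
            have : a j = b := hj
            rw [this]; exact hb', hj⟩
      rw [← Set.ncard_image_of_injective _ hinj, h4, Set.ncard_coe_finset,
        List.toFinset_card_of_nodup (hnd.filter _)]
    rw [h2, h1]
  · intro y
    have h1 : 4 * form G y = ∑ k ∈ Finset.range 8,
        (∑ i, ((a i).getD k 0 : ℝ) * y i) ^ 2 := by
      unfold form
      rw [Finset.mul_sum]
      have h2 : ∀ i, 4 * ∑ j, ent G i j * (y i * y j) =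
          ∑ j, ∑ k ∈ Finset.range 8, (((a i).getD k 0 : ℝ) * y i) * (((a j).getD k 0 : ℝ) * y j) := by
        intro i
        rw [Finset.mul_sum]
        refine Finset.sum_congr rfl fun j _ => ?_
        rw [← mul_assoc, hent, ipl_eq 8 _ _ (hL (a i) (ha i)).1.1.1]
        push_cast
        rw [Finset.sum_mul]
        refine Finset.sum_congr rfl fun k _ => ?_
        ring
      rw [Finset.sum_congr rfl fun i _ => h2 i]
      have h3 : ∀ k, (∑ i, ((a i).getD k 0 : ℝ) * y i) ^ 2 =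
          ∑ i, ∑ j, (((a i).getD k 0 : ℝ) * y i) * (((a j).getD k 0 : ℝ) * y j) := by
        intro k
        rw [sq, Finset.sum_mul_sum]
      simp_rw [h3]
      rw [Finset.sum_congr rfl fun i _ => Finset.sum_comm]
      exact Finset.sum_comm
    have h4 : 0 ≤ ∑ k ∈ Finset.range 8, (∑ i, ((a i).getD k 0 : ℝ) * y i) ^ 2 :=
      Finset.sum_nonneg fun k _ => sq_nonneg _
    linarith

theorem good_5_14 : Good 5 14 :=
  good_of_list (L := [[0, 2, 0, 0, 0, 2, 0, 0],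
    [0, 2, -2, 0, 0, 0, 0, 0],
    [1, 1, 1, -1, 1, -1, -1, -1],
    [1, 1, 1, 1, -1, 1, 1, -1],
    [2, 0, 0, 0, 0, 0, 0, -2],
    [1, 1, -1, 1, 1, -1, 1, 1],
    [0, 2, 0, 0, 0, -2, 0, 0],
    [2, 0, 0, 0, -2, 0, 0, 0],
    [1, 1, 1, -1, 1, 1, -1, 1],
    [1, 1, 1, -1, -1, -1, -1, 1],
    [1, 1, 1, 1, 1, 1, -1, -1],
    [2, 0, -2, 0, 0, 0, 0, 0],
    [0, 2, 0, 0, 0, 0, 2, 0],
    [2, 0, 0, 0, 0, 0, 0, 2]]) (by decide +kernel)

theorem good_7_12 : Good 7 12 :=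
  good_of_list (L := [[1, 1, 1, -1, -1, 1, 1, 1],
    [1, 1, 1, -1, -1, -1, -1, 1],
    [1, 1, 1, 1, -1, -1, 1, 1],
    [1, 1, 1, -1, 1, 1, 1, -1],
    [1, 1, 1, 1, -1, 1, 1, -1],
    [1, 1, 1, -1, 1, -1, 1, 1],
    [1, 1, 1, 1, -1, -1, -1, -1],
    [1, 1, 1, -1, -1, 1, -1, -1],
    [1, 1, 1, 1, 1, 1, -1, -1],
    [1, 1, 1, 1, 1, -1, -1, 1],
    [1, 1, 1, 1, 1, -1, 1, -1],
    [1, 1, 1, -1, 1, 1, -1, 1]]) (by decide +kernel)

theorem good_9_22 : Good 9 22 :=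
  good_of_list (L := [[1, 1, 1, -1, -1, -1, -1, 1],
    [1, 1, 1, 1, 1, 1, 1, 1],
    [1, 1, -1, 1, 1, -1, -1, -1],
    [1, 1, -1, -1, -1, -1, 1, 1],
    [1, 1, 1, 1, 1, -1, 1, -1],
    [0, 2, 0, 0, 0, 0, -2, 0],
    [2, 0, 0, -2, 0, 0, 0, 0],
    [1, 1, -1, -1, -1, 1, 1, -1],
    [1, 1, -1, 1, 1, 1, -1, 1],
    [2, 0, 0, 0, 0, 0, -2, 0],
    [1, 1, -1, 1, -1, -1, 1, -1],
    [1, 1, 1, -1, -1, 1, -1, -1],
    [2, 0, 0, 0, 0, 2, 0, 0],
    [1, 1, 1, -1, 1, -1, 1, 1],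
    [2, 0, 0, 2, 0, 0, 0, 0],
    [0, 2, 0, 0, -2, 0, 0, 0],
    [0, 2, 2, 0, 0, 0, 0, 0],
    [1, 1, -1, -1, 1, 1, 1, 1],
    [0, 2, -2, 0, 0, 0, 0, 0],
    [0, 2, 0, 0, 2, 0, 0, 0],
    [1, 1, 1, 1, -1, 1, 1, -1],
    [2, 0, 0, 0, 0, -2, 0, 0]]) (by decide +kernel)

theorem good_10_16 : Good 10 16 :=
  good_of_list (L := [[1, 1, 1, 1, 1, 1, 1, 1],
    [1, 1, 1, 1, 1, 1, -1, -1],
    [1, 1, 1, 1, 1, -1, 1, -1],
    [1, 1, 1, 1, 1, -1, -1, 1],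
    [1, 1, 1, 1, -1, 1, 1, -1],
    [1, 1, 1, 1, -1, 1, -1, 1],
    [1, 1, 1, 1, -1, -1, 1, 1],
    [1, 1, 1, 1, -1, -1, -1, -1],
    [1, 1, 1, -1, 1, 1, 1, -1],
    [1, 1, 1, -1, 1, 1, -1, 1],
    [1, 1, 1, -1, 1, -1, 1, 1],
    [1, 1, 1, -1, 1, -1, -1, -1],
    [1, 1, 1, -1, -1, 1, 1, 1],
    [1, 1, 1, -1, -1, 1, -1, -1],
    [1, 1, 1, -1, -1, -1, 1, -1],
    [1, 1, 1, -1, -1, -1, -1, 1]]) (by decide +kernel)

theorem good_10_18 : Good 10 18 :=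
  good_of_list (L := [[1, 1, 1, -1, 1, -1, -1, -1],
    [2, 0, 2, 0, 0, 0, 0, 0],
    [1, 1, 1, 1, -1, 1, 1, -1],
    [1, 1, 1, 1, 1, 1, -1, -1],
    [0, 2, 0, 0, 0, -2, 0, 0],
    [0, 2, 0, 2, 0, 0, 0, 0],
    [0, 2, 0, 0, 0, 0, -2, 0],
    [1, 1, 1, -1, -1, -1, -1, 1],
    [1, 1, 1, -1, 1, 1, -1, 1],
    [0, 2, 0, 0, 0, 2, 0, 0],
    [1, 1, 1, 1, 1, 1, 1, 1],
    [0, 2, 0, 0, 0, 0, 2, 0],
    [1, 1, 1, 1, 1, -1, 1, -1],
    [0, 2, 0, -2, 0, 0, 0, 0],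
    [0, 2, 0, 0, 0, 0, 0, 2],
    [1, 1, 1, -1, -1, -1, 1, -1],
    [1, 1, 1, -1, -1, 1, 1, 1],
    [1, 1, 1, 1, -1, -1, -1, -1]]) (by decide +kernel)

theorem good_12_21 : Good 12 21 :=
  good_of_list (L := [[1, 1, 1, -1, -1, -1, -1, 1],
    [1, 1, 1, -1, -1, -1, 1, -1],
    [1, 1, 1, 1, -1, -1, 1, 1],
    [1, 1, 1, -1, 1, 1, 1, -1],
    [0, 2, 0, 0, 0, 0, 0, 2],
    [1, 1, 1, 1, -1, 1, -1, 1],
    [0, 2, 0, 0, 0, 0, 0, -2],
    [0, 2, 0, 2, 0, 0, 0, 0],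
    [1, 1, 1, 1, -1, 1, 1, -1],
    [0, 2, 0, 0, 0, 2, 0, 0],
    [1, 1, 1, -1, 1, -1, -1, -1],
    [1, 1, 1, 1, 1, 1, 1, 1],
    [0, 2, 0, -2, 0, 0, 0, 0],
    [1, 1, 1, 1, 1, -1, 1, -1],
    [2, 0, 2, 0, 0, 0, 0, 0],
    [1, 1, 1, -1, -1, 1, 1, 1],
    [1, 1, 1, 1, 1, -1, -1, 1],
    [1, 1, 1, -1, -1, 1, -1, -1],
    [0, 2, 0, 0, 0, 0, -2, 0],
    [0, 2, 0, 0, 2, 0, 0, 0],
    [0, 2, 0, 0, 0, -2, 0, 0]]) (by decide +kernel)

theorem good_14_24 : Good 14 24 :=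
  good_of_list (L := [[1, 1, 1, 1, 1, -1, 1, -1],
    [1, 1, 1, 1, 1, 1, 1, 1],
    [0, 2, 0, 0, 0, 0, 0, 2],
    [1, 1, 1, -1, -1, -1, -1, 1],
    [1, 1, 1, 1, 1, 1, -1, -1],
    [0, 2, 0, 0, 0, 2, 0, 0],
    [0, 2, 0, 0, 0, -2, 0, 0],
    [0, 2, 0, 0, -2, 0, 0, 0],
    [0, 2, 0, 0, 2, 0, 0, 0],
    [0, 2, 0, 0, 0, 0, -2, 0],
    [1, 1, 1, -1, 1, -1, 1, 1],
    [1, 1, 1, -1, 1, 1, 1, -1],
    [0, 2, 0, -2, 0, 0, 0, 0],
    [1, 1, 1, 1, -1, 1, 1, -1],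
    [1, 1, 1, -1, -1, 1, 1, 1],
    [1, 1, 1, 1, -1, -1, -1, -1],
    [1, 1, 1, 1, -1, 1, -1, 1],
    [1, 1, 1, 1, 1, -1, -1, 1],
    [2, 0, 2, 0, 0, 0, 0, 0],
    [0, 2, 0, 0, 0, 0, 2, 0],
    [1, 1, 1, -1, -1, 1, -1, -1],
    [1, 1, 1, -1, 1, -1, -1, -1],
    [0, 2, 0, 0, 0, 0, 0, -2],
    [1, 1, 1, 1, -1, -1, 1, 1]]) (by decide +kernel)

theorem good_16_27 : Good 16 27 :=
  good_of_list (L := [[2, 0, 2, 0, 0, 0, 0, 0],
    [0, 2, 0, 2, 0, 0, 0, 0],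
    [0, 2, 0, -2, 0, 0, 0, 0],
    [0, 2, 0, 0, 2, 0, 0, 0],
    [0, 2, 0, 0, -2, 0, 0, 0],
    [0, 2, 0, 0, 0, 2, 0, 0],
    [0, 2, 0, 0, 0, -2, 0, 0],
    [0, 2, 0, 0, 0, 0, 2, 0],
    [0, 2, 0, 0, 0, 0, -2, 0],
    [0, 2, 0, 0, 0, 0, 0, 2],
    [0, 2, 0, 0, 0, 0, 0, -2],
    [1, 1, 1, 1, 1, 1, 1, 1],
    [1, 1, 1, 1, 1, 1, -1, -1],
    [1, 1, 1, 1, 1, -1, 1, -1],
    [1, 1, 1, 1, 1, -1, -1, 1],
    [1, 1, 1, 1, -1, 1, 1, -1],
    [1, 1, 1, 1, -1, 1, -1, 1],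
    [1, 1, 1, 1, -1, -1, 1, 1],
    [1, 1, 1, 1, -1, -1, -1, -1],
    [1, 1, 1, -1, 1, 1, 1, -1],
    [1, 1, 1, -1, 1, 1, -1, 1],
    [1, 1, 1, -1, 1, -1, 1, 1],
    [1, 1, 1, -1, 1, -1, -1, -1],
    [1, 1, 1, -1, -1, 1, 1, 1],
    [1, 1, 1, -1, -1, 1, -1, -1],
    [1, 1, 1, -1, -1, -1, 1, -1],
    [1, 1, 1, -1, -1, -1, -1, 1]]) (by decide +kernel)

end Pool.Agent.Lib.MP_70d4d1_co
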