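import Pool.Agent.Lib.MP_70d4d1_co.Defs

namespace Pool.Agent.Lib.MP_70d4d1_co

open scoped MatrixOrder Matrix.Norms.L2Operator

theorem ent_symm' {V : Type*} (G : SimpleGraph V) (u v : V) : ent G u v = ent G v u := by
  unfold ent
  by_cases h : u = v
  · subst h; rfl
  · have h' : ¬ v = u := fun e => h e.symm
    by_cases ha : G.Adj u v
    · have ha' := ha.symm
      simp only [h, h', ha, ha', if_true, if_false]
    · have ha' : ¬ G.Adj v u := fun e => ha e.symm
      simp only [h, h', ha, ha', if_false]

theorem ent_psd' {V : Type*} [Fintype V] (G : SimpleGraph V) (h : Psd G) :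
    (Matrix.of (ent G)).PosSemidef := by
  apply Matrix.PosSemidef.of_dotProduct_mulVec_nonneg
  · ext u v
    simp only [Matrix.conjTranspose_apply, Matrix.of_apply, star_trivial]
    exact ent_symm' G v u
  · intro y
    have h1 := h y
    unfold form at h1
    simp only [dotProduct, Matrix.mulVec, Matrix.of_apply, star_trivial, Pi.star_apply]
    refine h1.trans (le_of_eq ?_)
    apply Finset.sum_congr rfl
    intro u _
    rw [Finset.mul_sum]
    apply Finset.sum_congr rfl
    intro v _
    ring

/-- A positive semidefinite `A + 2 I` is a Gram matrix. -/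
theorem exists_rep {V : Type*} [Fintype V] (G : SimpleGraph V) (h : Psd G) :
    ∃ x : V → EuclideanSpace ℝ V, Rep G x := by
  classical
  obtain ⟨y, hy⟩ := CStarAlgebra.nonneg_iff_eq_star_mul_self.mp (ent_psd' G h).nonneg
  refine ⟨fun v => WithLp.toLp 2 (fun k => y k v), fun u v => ?_⟩
  have h1 : ent G u v = (star y * y) u v := by rw [← hy]; rfl
  rw [h1, Matrix.mul_apply]
  rw [PiLp.inner_apply]
  apply Finset.sum_congr rfl
  intro k _
  simp [Matrix.star_apply, mul_comm]

/-- If `A + 2 I` is positive definite, the vectors of a representation are independent. -/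
theorem rep_lin {V E : Type*} [Fintype V] [NormedAddCommGroup E] [InnerProductSpace ℝ E]
    {G : SimpleGraph V} {x : V → E} (hx : Rep G x) (h : Pd G) : LinearIndependent ℝ x := by
  rw [Fintype.linearIndependent_iff]
  intro c hc
  by_contra hne
  push Not at hne
  obtain ⟨i, hi⟩ := hne
  have hc0 : c ≠ 0 := by
    rintro rfl
    exact hi rfl
  have h1 := h c hc0
  have h2 : form G c = inner ℝ (∑ u, c u • x u) (∑ v, c v • x v) := by
    unfold form
    rw [sum_inner]
    apply Finset.sum_congr rfl
    intro u _
    rw [inner_sum]
    apply Finset.sum_congr rfl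
    intro v _
    rw [real_inner_smul_left, real_inner_smul_right, hx u v]
    ring
  rw [h2, hc, inner_zero_left] at h1
  exact lt_irrefl _ h1

end Pool.Agent.Lib.MP_70d4d1_co
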