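import Pool.Agent.Lib.MP_70d4d1_co.Signed
import Pool.Agent.Lib.MP_70d4d1_co.RepEx

namespace Pool.Agent.Lib.MP_70d4d1_co

open Module

variable {V : Type*} {G : SimpleGraph V} {N : ℕ} {y : V → Fin N → ℝ}

/-- Without negative coordinates the graph is a line graph. -/
theorem SR.line (h : SR G y) (hpos : ∀ v k, 0 ≤ y v k) : IsLine G := by
  classical
  have h1 : ∀ v, ∃ i j, i ≠ j ∧ ∀ k, y v k = (if k = i then (1 : ℝ) else 0) +
      (if k = j then 1 else 0) := by
    intro v
    obtain ⟨i, j, hij, a, b, ha, hb, hk⟩ := h.two v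
    have ei : y v i = a := by rw [hk]; simp [hij]
    have ej : y v j = b := by rw [hk]; simp [hij.symm]
    have ha1 : a = 1 := by
      rcases ha with h | h
      · exact h
      · exfalso; have := hpos v i; rw [ei, h] at this; norm_num at this
    have hb1 : b = 1 := by
      rcases hb with h | h
      · exact h
      · exfalso; have := hpos v j; rw [ej, h] at this; norm_num at this
    subst ha1 hb1
    exact ⟨i, j, hij, hk⟩
  choose i j hij hk using h1
  let H : SimpleGraph (Fin N) := SimpleGraph.fromEdgeSet (Set.range fun v => s(i v, j v))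
  have hmem : ∀ v, s(i v, j v) ∈ H.edgeSet := by
    intro v
    rw [SimpleGraph.mem_edgeSet, SimpleGraph.fromEdgeSet_adj]
    exact ⟨⟨v, rfl⟩, hij v⟩
  have hent : ∀ u v, ent G u v = (if i v = i u then (1 : ℝ) else 0) + (if i v = j u then 1 else 0)
      + ((if j v = i u then (1 : ℝ) else 0) + (if j v = j u then 1 else 0)) := by
    intro u v
    rw [← h.gram u v]
    simp_rw [hk v, mul_add]
    rw [Finset.sum_add_distrib]
    simp [hk u]
  let φ : V → H.edgeSet := fun v => ⟨s(i v, j v), hmem v⟩
  have hφinj : Function.Injective φ := by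
    intro u v huv
    have h2 : s(i u, j u) = s(i v, j v) := congrArg Subtype.val huv
    have h3 : ent G u v = 2 := by
      rw [hent]
      rcases Sym2.eq_iff.mp h2 with ⟨h4, h5⟩ | ⟨h4, h5⟩
      · rw [h4, h5]
        simp [hij v, (hij v).symm]
        norm_num
      · rw [h4, h5]
        simp [hij v, (hij v).symm]
        norm_num
    rcases ent_cases (G := G) u v with ⟨h4, _⟩ | ⟨_, _, h4⟩ | ⟨_, _, h4⟩
    · exact h4
    · rw [h3] at h4; norm_num at h4
    · rw [h3] at h4; norm_num at h4
  have hφsurj : Function.Surjective φ := by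
    rintro ⟨e, he⟩
    have h2 : e ∈ (SimpleGraph.fromEdgeSet (Set.range fun v => s(i v, j v))).edgeSet := he
    rw [SimpleGraph.edgeSet_fromEdgeSet] at h2
    obtain ⟨v, hv⟩ := h2.1
    exact ⟨v, Subtype.ext hv⟩
  refine ⟨N, H, ⟨⟨Equiv.ofBijective φ ⟨hφinj, hφsurj⟩, ?_⟩⟩⟩
  intro u v
  simp only [Equiv.ofBijective_apply, SimpleGraph.lineGraph_adj_iff_exists]
  constructor
  · rintro ⟨hne, k, hku, hkv⟩
    have huv : u ≠ v := fun e => hne (by rw [e])
    have h2 : k = i u ∨ k = j u := by simpa [φ] using hku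
    have h3 : k = i v ∨ k = j v := by simpa [φ] using hkv
    by_contra hcon
    have h4 := hent u v
    rw [ent_nadj huv hcon] at h4
    rcases h2 with rfl | rfl <;> rcases h3 with h3 | h3 <;> rw [← h3] at h4 <;>
      simp at h4 <;> split_ifs at h4 <;> norm_num at h4
  · intro hadj
    refine ⟨fun e => hadj.ne (hφinj e), ?_⟩
    have h4 := hent u v
    rw [ent_adj hadj] at h4
    by_cases a1 : i v = i u
    · exact ⟨i u, by simp [φ], by simp [φ, a1]⟩
    by_cases a2 : i v = j u
    · exact ⟨j u, by simp [φ], by simp [φ, a2]⟩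
    by_cases a3 : j v = i u
    · exact ⟨i u, by simp [φ], by simp [φ, a3]⟩
    by_cases a4 : j v = j u
    · exact ⟨j u, by simp [φ], by simp [φ, a4]⟩
    rw [if_neg a1, if_neg a2, if_neg a3, if_neg a4] at h4
    norm_num at h4

/-- Flip signs so that all coordinate sums are nonnegative. -/
theorem SR.flip [Fintype V] (h : SR G y) : ∃ y' : V → Fin N → ℝ, SR G y' ∧
    ∀ k, 0 ≤ ∑ v, y' v k := by
  classical
  have h1 : ∀ k, ∃ η : ℝ, Sgn η ∧ 0 ≤ η * ∑ v, y v k := by
    intro k
    rcases le_total 0 (∑ v, y v k) with h2 | h2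
    · exact ⟨1, Or.inl rfl, by linarith⟩
    · exact ⟨-1, Or.inr rfl, by linarith⟩
  choose η h2 h3 using h1
  refine ⟨fun v k => η k * y v k, ⟨?_, ?_⟩, ?_⟩
  · intro u v
    rw [← h.gram u v]
    refine Finset.sum_congr rfl fun k _ => ?_
    have := (h2 k).sq
    calc η k * y u k * (η k * y v k) = (η k * η k) * (y u k * y v k) := by ring
      _ = _ := by rw [this, one_mul]
  · intro v
    obtain ⟨i, j, hij, a, b, ha, hb, hk⟩ := h.two v
    have hmul : ∀ a b : ℝ, Sgn a → Sgn b → Sgn (a * b) := by
      intro a b ha hb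
      rcases ha with rfl | rfl <;> rcases hb with rfl | rfl
      · left; norm_num
      · right; norm_num
      · right; norm_num
      · left; norm_num
    refine ⟨i, j, hij, η i * a, η j * b, hmul _ _ (h2 i) ha, hmul _ _ (h2 j) hb, fun k => ?_⟩
    rw [hk, mul_add]
    congr 1
    · by_cases h : k = i
      · subst h; simp
      · simp [h]
    · by_cases h : k = j
      · subst h; simp
      · simp [h]
  · intro k
    rw [← Finset.mul_sum]
    exact h3 k

theorem SR.struct [Fintype V] (h : SR G y) {d : ℕ} (hr : Reg G d) (hc : G.Connected) :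
    IsLine G ∨ IsCocktail G := by
  obtain ⟨y', h', hs⟩ := h.flip
  by_cases hpos : ∀ v k, 0 ≤ y' v k
  · exact Or.inl (h'.line hpos)
  · right
    push Not at hpos
    obtain ⟨v, q, hq⟩ := hpos
    have h0 : y' v q = -1 := by
      rcases h'.vals v q with h1 | h1 | h1
      · exact h1
      · rw [h1] at hq; norm_num at hq
      · rw [h1] at hq; norm_num at hq
    exact h'.cocktail hs hr hc h0

section types

variable {E : Type*} [NormedAddCommGroup E] [InnerProductSpace ℝ E] {x : V → E}

theorem sr_of_atype (hx : Rep G x) (h : AType x) : ∃ (N : ℕ) (y : V → Fin N → ℝ), SR G y := by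
  classical
  obtain ⟨N, g, hg, hall⟩ := h
  choose i j hij hv using hall
  refine ⟨N, fun v k => (if k = i v then 1 else 0) + (if k = j v then -1 else 0), ⟨?_, ?_⟩⟩
  · intro u v
    rw [← hx, hv, hv, hg.ip]
    simp only [mul_add, Finset.sum_add_distrib, mul_ite, mul_one, mul_zero, mul_neg,
      Finset.sum_ite_eq', Finset.mem_univ, if_true]
    simp only [eq_comm (a := i v), eq_comm (a := j v)]
    split_ifs <;> norm_num
  · intro v
    exact ⟨i v, j v, hij v, 1, -1, Or.inl rfl, Or.inr rfl, fun k => rfl⟩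

theorem sr_of_dtype (hx : Rep G x) (h : DType x) : ∃ (N : ℕ) (y : V → Fin N → ℝ), SR G y := by
  classical
  obtain ⟨N, f, -, hf, hall⟩ := h
  refine ⟨N, fun v k => inner ℝ (x v) (f k), ⟨?_, ?_⟩⟩
  · intro u v
    obtain ⟨i, j, hij, a, b, -, -, hv⟩ := hall v
    have h1 : ∀ k, inner ℝ (x v) (f k) = (if k = i then a else 0) + (if k = j then b else 0) := by
      intro k
      rw [hv, inner_add_left, inner_smul_left, inner_smul_left, hf.1, hf.1]
      simp only [conj_trivial, eq_comm (b := k)]
      split_ifs <;> ring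
    simp_rw [h1]
    rw [← hx u v, hv, DFrame.ip]
    simp only [mul_add, Finset.sum_add_distrib, mul_ite, mul_zero, Finset.sum_ite_eq',
      Finset.mem_univ, if_true]
    ring
  · intro v
    obtain ⟨i, j, hij, a, b, ha, hb, hv⟩ := hall v
    refine ⟨i, j, hij, a, b, ha, hb, fun k => ?_⟩
    rw [hv, inner_add_left, inner_smul_left, inner_smul_left, hf.1, hf.1]
    simp only [conj_trivial, eq_comm (b := k)]
    split_ifs <;> ring

end types

end Pool.Agent.Lib.MP_70d4d1_co
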