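import Pool.Agent.Lib.MP_70d4d1_co.Cons

namespace Pool.Agent.Lib.MP_70d4d1_co

theorem odd_tri (z : ℤ) (hz : Odd z) : ∃ k : ℕ, 1 ≤ k ∧
    z ^ 2 = 4 * ((k * (k - 1) : ℕ) : ℤ) + 1 ∧ (2 * (k : ℝ) - 1) ^ 2 = (z : ℝ) ^ 2 := by
  obtain ⟨m, hm⟩ := Int.natAbs_odd.2 hz
  refine ⟨m + 1, by omega, ?_, ?_⟩
  · have h1 : z ^ 2 = ((z.natAbs : ℤ)) ^ 2 := (Int.natAbs_sq z).symm
    rw [h1, hm]
    have h2 : m + 1 - 1 = m := by omega
    rw [h2]
    push_cast
    ring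
  · have h1 : (z : ℝ) ^ 2 = ((z.natAbs : ℕ) : ℝ) ^ 2 := by
      rw [Nat.cast_natAbs, Int.cast_abs, sq_abs]
    rw [h1, hm]
    push_cast
    ring

/-- Every even number is a sum of four numbers `k (k-1)`, with a bound for the sum of the `k`. -/
theorem four_tri (e : ℕ) (he : Even e) : ∃ k : Fin 4 → ℕ, (∀ i, 1 ≤ k i) ∧
    ∑ i, k i * (k i - 1) = e ∧ ((∑ i, k i : ℕ) : ℝ) ≤ 2 * √((e : ℝ) + 1) + 2 := by
  obtain ⟨a, b, c, d, h⟩ := Nat.sum_four_squares (e + 1)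
  have hpar : Odd ((a : ℤ) + b + c + d) := by
    have h1 : Odd (e + 1) := he.add_one
    rw [← h] at h1
    have h2 : Odd (((a ^ 2 + b ^ 2 + c ^ 2 + d ^ 2 : ℕ) : ℤ)) := by exact_mod_cast h1
    push_cast at h2
    simp only [Int.odd_add, Int.odd_pow, Int.even_pow] at h2 ⊢
    simp only [← Int.not_even_iff_odd] at h2 ⊢
    tauto
  have hp2 : ∀ u : ℤ, Odd ((a : ℤ) + b + c + d - 2 * u) := by
    intro u
    exact hpar.sub_even ⟨u, by ring⟩
  have hhZ : (a : ℤ) ^ 2 + b ^ 2 + c ^ 2 + d ^ 2 = e + 1 := by exact_mod_cast h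
  obtain ⟨k1, p1, q1, r1⟩ := odd_tri ((a : ℤ) + b + c + d) hpar
  obtain ⟨k2, p2, q2, r2⟩ := odd_tri ((a : ℤ) + b - c - d)
    (by have := hp2 (c + d); convert this using 1; ring)
  obtain ⟨k3, p3, q3, r3⟩ := odd_tri ((a : ℤ) - b + c - d)
    (by have := hp2 (b + d); convert this using 1; ring)
  obtain ⟨k4, p4, q4, r4⟩ := odd_tri ((a : ℤ) - b - c + d)
    (by have := hp2 (b + c); convert this using 1; ring)
  refine ⟨![k1, k2, k3, k4], ?_, ?_, ?_⟩
  · intro i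
    fin_cases i <;> simp [p1, p2, p3, p4]
  · have hs : (4 : ℤ) * ((k1 * (k1 - 1) + k2 * (k2 - 1) + k3 * (k3 - 1) + k4 * (k4 - 1) : ℕ) : ℤ)
        = 4 * (e : ℤ) := by
      push_cast only [Nat.cast_add]
      linear_combination (-1 : ℤ) * q1 - q2 - q3 - q4 + 4 * hhZ
    have hs2 : k1 * (k1 - 1) + k2 * (k2 - 1) + k3 * (k3 - 1) + k4 * (k4 - 1) = e := by
      have := mul_left_cancel₀ (by norm_num : (4 : ℤ) ≠ 0) hs
      exact_mod_cast this
    simpa [Fin.sum_univ_four] using hs2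
  · have hhR : (a : ℝ) ^ 2 + b ^ 2 + c ^ 2 + d ^ 2 = e + 1 := by exact_mod_cast h
    push_cast at r1 r2 r3 r4
    set x1 : ℝ := 2 * (k1 : ℝ) - 1
    set x2 : ℝ := 2 * (k2 : ℝ) - 1
    set x3 : ℝ := 2 * (k3 : ℝ) - 1
    set x4 : ℝ := 2 * (k4 : ℝ) - 1
    have hsq : (x1 + x2 + x3 + x4) ^ 2 ≤ 16 * ((e : ℝ) + 1) := by
      have : x1 ^ 2 + x2 ^ 2 + x3 ^ 2 + x4 ^ 2 = 4 * ((e : ℝ) + 1) := by
        rw [r1, r2, r3, r4, ← hhR]; ring
      nlinarith [sq_nonneg (x1 - x2), sq_nonneg (x1 - x3), sq_nonneg (x1 - x4),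
        sq_nonneg (x2 - x3), sq_nonneg (x2 - x4), sq_nonneg (x3 - x4)]
    have hle : x1 + x2 + x3 + x4 ≤ 4 * √((e : ℝ) + 1) := by
      have h0 : (0 : ℝ) ≤ (e : ℝ) + 1 := by positivity
      apply le_of_sq_le_sq _ (by positivity)
      rw [mul_pow, Real.sq_sqrt h0]
      linarith
    have hsum : ((∑ i, (![k1, k2, k3, k4] : Fin 4 → ℕ) i : ℕ) : ℝ)
        = (x1 + x2 + x3 + x4) / 2 + 2 := by
      simp [Fin.sum_univ_four, x1, x2, x3, x4]
      ring
    rw [hsum]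
    linarith

theorem greedy_tri (e : ℕ) : ∃ k : ℕ, 1 ≤ k ∧ k * (k - 1) ≤ e ∧ e < k * (k + 1) := by
  induction e with
  | zero => exact ⟨1, le_refl _, by norm_num, by norm_num⟩
  | succ e ih =>
    obtain ⟨k, h1, h2, h3⟩ := ih
    by_cases h : e + 1 < k * (k + 1)
    · exact ⟨k, h1, by omega, h⟩
    · refine ⟨k + 1, by omega, ?_, ?_⟩
      · have : (k + 1) * (k + 1 - 1) = k * (k + 1) := by
          simp [Nat.mul_comm]
        omega
      · nlinarith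

/-- Greedy step followed by `four_tri`. -/
theorem five_tri (e : ℕ) (he : Even e) : ∃ k : Fin 5 → ℕ, (∀ i, 1 ≤ k i) ∧
    ∑ i, k i * (k i - 1) = e ∧
    ((∑ i, k i : ℕ) : ℝ) ≤ √(e : ℝ) + 3 + 2 * √(2 * √(e : ℝ) + 1) := by
  obtain ⟨k0, h1, h2, h3⟩ := greedy_tri e
  obtain ⟨m, rfl⟩ : ∃ m, k0 = m + 1 := ⟨k0 - 1, by omega⟩
  have hm1 : m + 1 - 1 = m := by omega
  rw [hm1] at h2
  have hev : Even ((m + 1) * m) := by
    rw [mul_comm]; exact Nat.even_mul_succ_self m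
  obtain ⟨r, hr⟩ : ∃ r, e = (m + 1) * m + r := ⟨e - (m + 1) * m, by omega⟩
  have hre : Even r := by
    rw [hr] at he
    exact (Nat.even_add.1 he).1 hev
  have hrle : r ≤ 2 * m := by
    obtain ⟨s, hs⟩ := hre
    have : (m + 1) * m + r < (m + 1) * (m + 1 + 1) := by rw [← hr]; exact h3
    have h4 : r < 2 * (m + 1) := by nlinarith
    omega
  obtain ⟨k, hk1, hk2, hk3⟩ := four_tri r hre
  have hmle : (m : ℝ) ≤ √(e : ℝ) := by
    apply Real.le_sqrt_of_sq_le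
    have : m ^ 2 ≤ e := by nlinarith
    exact_mod_cast this
  refine ⟨Fin.cons (m + 1) k, ?_, ?_, ?_⟩
  · intro i
    refine Fin.cases ?_ (fun j => ?_) i
    · simp
    · simpa using hk1 j
  · rw [Fin.sum_univ_succ]
    simp only [Fin.cons_zero, Fin.cons_succ, hm1]
    rw [hk2, hr]
  · rw [Fin.sum_univ_succ]
    simp only [Fin.cons_zero, Fin.cons_succ]
    push_cast at hk3 ⊢
    have h5 : √((r : ℝ) + 1) ≤ √(2 * √(e : ℝ) + 1) := by
      apply Real.sqrt_le_sqrt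
      have : (r : ℝ) ≤ 2 * m := by exact_mod_cast hrle
      linarith
    linarith

theorem good_caseA {d n e : ℕ} (hed : e ≤ d) (hev : Even e) (hdvd : (d + 1) ∣ (n + e))
    (hn : ((d : ℝ) + 1) * (√(d : ℝ) + 3 + 2 * √(2 * √(d : ℝ) + 1)) ≤ (n : ℝ)) : Good d n := by
  obtain ⟨k, hk1, hk2, hk3⟩ := five_tri e hev
  obtain ⟨t, ht⟩ := hdvd
  have hsle : √(e : ℝ) ≤ √(d : ℝ) := Real.sqrt_le_sqrt (by exact_mod_cast hed)
  have hsle2 : √(2 * √(e : ℝ) + 1) ≤ √(2 * √(d : ℝ) + 1) := Real.sqrt_le_sqrt (by linarith)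
  have hkt : ∑ i, k i ≤ t := by
    have h1 : ((∑ i, k i : ℕ) : ℝ) ≤ √(d : ℝ) + 3 + 2 * √(2 * √(d : ℝ) + 1) := by linarith
    have h2 : (n : ℝ) ≤ ((d : ℝ) + 1) * t := by
      have : n ≤ (d + 1) * t := by omega
      exact_mod_cast this
    have hD : (0 : ℝ) < (d : ℝ) + 1 := by positivity
    have h3 : ((d : ℝ) + 1) * ((∑ i, k i : ℕ) : ℝ) ≤ ((d : ℝ) + 1) * t :=
      le_trans (mul_le_mul_of_nonneg_left h1 hD.le) (hn.trans h2)
    have h4 := le_of_mul_le_mul_left h3 hD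
    exact_mod_cast h4
  have hki : ∀ i, k i ≤ d + 1 := by
    intro i
    have h1 : k i * (k i - 1) ≤ e := by
      rw [← hk2]
      exact Finset.single_le_sum (f := fun i => k i * (k i - 1)) (fun j _ => Nat.zero_le _)
        (Finset.mem_univ i)
    by_contra hcon
    have h2 : d + 2 ≤ k i := by omega
    have h3 : (d + 2) * (d + 1) ≤ k i * (k i - 1) := Nat.mul_le_mul h2 (by omega)
    nlinarith
  have hsumk : ∑ i, k i * (d + 2 - k i) + e = (d + 1) * ∑ i, k i := by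
    rw [← hk2, ← Finset.sum_add_distrib, Finset.mul_sum]
    refine Finset.sum_congr rfl fun i _ => ?_
    have h1 := hk1 i
    have h2 := hki i
    obtain ⟨u, hu⟩ : ∃ u, k i = u + 1 := ⟨k i - 1, by omega⟩
    rw [hu] at h2 ⊢
    obtain ⟨v, hv⟩ : ∃ v, d = u + v := ⟨d - u, by omega⟩
    subst hv
    have e1 : u + v + 2 - (u + 1) = v + 1 := by omega
    have e2 : u + 1 - 1 = u := by omega
    rw [e1, e2]
    ring
  have hneq : n = ∑ i, k i * (d + 2 - k i) + (t - ∑ i, k i) * (1 * (d + 2 - 1)) := by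
    obtain ⟨w, hw⟩ : ∃ w, t = ∑ i, k i + w := ⟨t - ∑ i, k i, by omega⟩
    have e1 : t - ∑ i, k i = w := by omega
    have e2 : 1 * (d + 2 - 1) = d + 1 := by omega
    rw [e1, e2]
    have h5 : n + e = (d + 1) * ∑ i, k i + (d + 1) * w := by rw [ht, hw]; ring
    have h6 : w * (d + 1) = (d + 1) * w := mul_comm _ _
    omega
  rw [hneq]
  exact good_add (good_sum _ _ fun i _ => good_rook (hk1 i) (hki i))
    (good_mul (good_rook le_rfl (by omega)) _)

/-- All large `n` are good. -/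
theorem good_large {d n : ℕ} (hd : 1 ≤ d) (he : Even (n * d))
    (hn : ((d : ℝ) + 1) * (√(d : ℝ) + 3 + 2 * √(2 * √(d : ℝ) + 1)) + (d + 2) ≤ (n : ℝ)) :
    Good d n := by
  have hn1 : ((d : ℝ) + 1) * (√(d : ℝ) + 3 + 2 * √(2 * √(d : ℝ) + 1)) ≤ (n : ℝ) := by
    have : (0 : ℝ) ≤ (d : ℝ) + 2 := by positivity
    linarith
  obtain ⟨e, hed, hdvd⟩ : ∃ e, e ≤ d ∧ (d + 1) ∣ (n + e) := by
    have hlt : n % (d + 1) < d + 1 := Nat.mod_lt _ (by omega)
    have hdm := Nat.div_add_mod n (d + 1)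
    by_cases h0 : n % (d + 1) = 0
    · exact ⟨0, by omega, by simpa using Nat.dvd_of_mod_eq_zero h0⟩
    · refine ⟨d + 1 - n % (d + 1), by omega, n / (d + 1) + 1, ?_⟩
      rw [mul_add, mul_one]
      omega
  by_cases hev : Even e
  · exact good_caseA hed hev hdvd hn1
  · have hodd : Odd e := Nat.not_even_iff_odd.1 hev
    have hde : Even d := by
      by_contra hdo
      have hdo' : Odd d := Nat.not_even_iff_odd.1 hdo
      have hne : Even n := by
        rcases Nat.even_mul.1 he with h | h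
        · exact h
        · exact absurd h hdo
      have h1 : Even (d + 1) := hdo'.add_one
      have h2 : Even (n + e) := by
        obtain ⟨t, ht⟩ := hdvd
        rw [ht]
        exact h1.mul_right t
      exact hev ((Nat.even_add.1 h2).1 hne)
    have hlt : e + 1 ≤ d := by
      rcases Nat.lt_or_ge e d with h | h
      · exact h
      · have : e = d := le_antisymm hed h
        exact absurd (this ▸ hde) hev
    have hnd : d + 2 ≤ n := by
      have h1 : ((d : ℝ) + 2) ≤ (n : ℝ) := by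
        have : (0 : ℝ) ≤ ((d : ℝ) + 1) * (√(d : ℝ) + 3 + 2 * √(2 * √(d : ℝ) + 1)) := by positivity
        linarith
      exact_mod_cast h1
    obtain ⟨n', rfl⟩ : ∃ n', n = n' + (d + 2) := ⟨n - (d + 2), by omega⟩
    refine good_add (good_caseA hlt (hodd.add_one) ?_ ?_) (good_cocktail hde)
    · have h3 : n' + (d + 2) + e = (n' + (e + 1)) + (d + 1) := by ring
      rw [h3] at hdvd
      exact (Nat.dvd_add_left (dvd_refl _)).1 hdvd
    · push_cast at hn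
      linarith

end Pool.Agent.Lib.MP_70d4d1_co
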