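import Pool.Agent.Lib.MP_70d4d1_co.PdCase

namespace Pool.Agent.Lib.MP_70d4d1_co

open Module

variable {V E : Type*} [NormedAddCommGroup E] [InnerProductSpace ℝ E]
variable {G : SimpleGraph V} {x : V → E} {N : ℕ}

theorem card_le_used [Fintype V] (hlin : LinearIndependent ℝ x) {g : Fin N → E}
    (U : Finset (Fin N)) (h : ∀ v, ∃ i ∈ U, ∃ j ∈ U, x v = g i - g j) :
    Fintype.card V ≤ U.card - 1 := by
  classical
  let g' : Fin U.card → E := fun k => g (U.equivFin.symm k)
  have h1 : ∀ v, x v ∈ dif g' := by
    intro v
    obtain ⟨i, hi, j, hj, hv⟩ := h v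
    have h2 := mem_dif g' (U.equivFin ⟨i, hi⟩) (U.equivFin ⟨j, hj⟩)
    simp only [g', Equiv.symm_apply_apply] at h2
    rw [hv]
    exact h2
  have h3 : LinearIndependent ℝ (fun v => (⟨x v, h1 v⟩ : dif g')) := by
    apply LinearIndependent.of_comp (dif g').subtype
    exact hlin
  exact h3.fintype_card_le_finrank.trans (finrank_dif_le g')

/-- The combinatorial core of the `A`-type case: heads `h`, tails `t`. -/
theorem star_core [Fintype V] {d : ℕ} (hr : Reg G d) (hc : G.Connected)
    {h t : V → Fin N} (hent : ∀ u v, ent G u v =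
      (if h u = h v then (1 : ℝ) else 0) + (if t u = t v then 1 else 0)) {v0 : V}
    (h1 : (Finset.univ.filter fun u => h u = h v0).card ≤ 1) {u v : V} (huv : u ≠ v) :
    G.Adj u v := by
  classical
  have hdeg : ∀ v, ((Finset.univ.filter fun u => h u = h v).card : ℝ) +
      (Finset.univ.filter fun u => t u = t v).card = d + 2 := by
    intro v
    rw [← sum_ent hr v]
    simp_rw [hent]
    rw [Finset.sum_add_distrib, Finset.sum_boole, Finset.sum_boole]
  have hall : ∀ v, t v = t v0 ∧ (Finset.univ.filter fun u => h u = h v).card ≤ 1 := by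
    refine conn_all hc ?_ ?_
    · rintro a b hab ⟨h2, h3⟩
      have h4 := hent a b
      rw [ent_adj hab] at h4
      have h5 : h a ≠ h b := by
        intro e
        have h6 : a ∈ (Finset.univ.filter fun u => h u = h a) := by simp
        have h7 : b ∈ (Finset.univ.filter fun u => h u = h a) := by simp [e]
        exact hab.ne (Finset.card_le_one.mp h3 a h6 b h7)
      rw [if_neg h5] at h4
      have h6 : t a = t b := by
        by_contra hcon
        rw [if_neg hcon] at h4
        norm_num at h4
      refine ⟨by rw [← h6, h2], ?_⟩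
      have h7 := hdeg a
      have h8 := hdeg b
      rw [h6] at h7
      have h9 : ((Finset.univ.filter fun u => h u = h b).card : ℝ) =
        (Finset.univ.filter fun u => h u = h a).card := by linarith
      have h10 : (Finset.univ.filter fun u => h u = h b).card =
        (Finset.univ.filter fun u => h u = h a).card := by exact_mod_cast h9
      rw [h10]
      exact h3
    · exact ⟨v0, rfl, h1⟩
  by_contra hcon
  have h2 := hent u v
  rw [ent_nadj huv hcon, if_pos (by rw [(hall u).1, (hall v).1] : t u = t v)] at h2
  split_ifs at h2 <;> norm_num at h2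

theorem atype_complete [Fintype V] (hx : Rep G x) (hlin : LinearIndependent ℝ x) {d : ℕ}
    (hr : Reg G d) (hc : G.Connected) (hA : AType x) {u v : V} (huv : u ≠ v) : G.Adj u v := by
  classical
  obtain ⟨N, g, hg, hall⟩ := hA
  choose h t hht hxv using hall
  have hent0 : ∀ u v, ent G u v = (if h u = h v then (1 : ℝ) else 0) -
      (if h u = t v then 1 else 0) - (if t u = h v then 1 else 0) +
      (if t u = t v then 1 else 0) := by
    intro u v
    rw [← hx, hxv, hxv, hg.ip]
  have hdis : ∀ u v, h u ≠ t v := by
    intro u v e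
    have h1 : h u ≠ h v := fun e' => hht v (by rw [← e', e])
    have h2 : t u ≠ t v := fun e' => hht u (by rw [e, e'])
    have h3 := hent0 u v
    rw [if_neg h1, if_pos e, if_neg h2] at h3
    have h4 : 0 ≤ ent G u v := by
      rcases ent_cases (G := G) u v with ⟨_, h⟩ | ⟨_, _, h⟩ | ⟨_, _, h⟩ <;> rw [h] <;> norm_num
    rw [h3] at h4
    split_ifs at h4 <;> norm_num at h4
  have hent : ∀ u v, ent G u v =
      (if h u = h v then (1 : ℝ) else 0) + (if t u = t v then 1 else 0) := by
    intro u v
    rw [hent0, if_neg (hdis u v), if_neg (hdis v u).symm]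
    ring
  -- used nodes
  let U : Finset (Fin N) := Finset.univ.image h ∪ Finset.univ.image t
  have hhU : ∀ v, h v ∈ U := fun v => Finset.mem_union_left _ (Finset.mem_image_of_mem _ (Finset.mem_univ v))
  have htU : ∀ v, t v ∈ U := fun v => Finset.mem_union_right _ (Finset.mem_image_of_mem _ (Finset.mem_univ v))
  have hU1 : Fintype.card V ≤ U.card - 1 :=
    card_le_used hlin U fun v => ⟨h v, hhU v, t v, htU v, hxv v⟩
  have hU2 : 0 < U.card := Finset.card_pos.mpr ⟨h u, hhU u⟩
  have c1 : Fintype.card V = ∑ k ∈ U, (Finset.univ.filter fun u => h u = k).card := by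
    rw [← Finset.card_univ]
    exact Finset.card_eq_sum_card_fiberwise fun v _ => hhU v
  have c2 : Fintype.card V = ∑ k ∈ U, (Finset.univ.filter fun u => t u = k).card := by
    rw [← Finset.card_univ]
    exact Finset.card_eq_sum_card_fiberwise fun v _ => htU v
  have hex : ∃ k ∈ U, (Finset.univ.filter fun u => h u = k).card +
      (Finset.univ.filter fun u => t u = k).card ≤ 1 := by
    by_contra hcon
    push Not at hcon
    have h5 : ∑ k ∈ U, 2 ≤ ∑ k ∈ U, ((Finset.univ.filter fun u => h u = k).card +
      (Finset.univ.filter fun u => t u = k).card) := Finset.sum_le_sum fun k hk => hcon k hk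
    rw [Finset.sum_add_distrib, ← c1, ← c2, Finset.sum_const, smul_eq_mul] at h5
    omega
  obtain ⟨k, hk, hk1⟩ := hex
  rcases Finset.mem_union.mp hk with h6 | h6
  · obtain ⟨v0, -, rfl⟩ := Finset.mem_image.mp h6
    exact star_core hr hc hent (v0 := v0) (by omega) huv
  · obtain ⟨v0, -, rfl⟩ := Finset.mem_image.mp h6
    exact star_core hr hc (h := t) (t := h) (v0 := v0) (fun u v => by rw [hent]; ring)
      (by omega) huv

/-- A connected `d`-regular graph with `A + 2 I` positive definite is complete if `d ≥ 3`. -/
theorem complete_of_pd [Fintype V] {d : ℕ} (hd : 3 ≤ d) (hr : Reg G d) (hc : G.Connected)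
    (hp : Pd G) {u v : V} (huv : u ≠ v) : G.Adj u v := by
  have hpsd : Psd G := by
    intro y
    by_cases hy : y = 0
    · subst hy; simp [form]
    · exact (hp y hy).le
  obtain ⟨x, hx⟩ := exists_rep G hpsd
  have hlin := rep_lin hx hp
  have hne : Nonempty V := ⟨u⟩
  rcases tri_conn hx hc with h | h | h
  · exact atype_complete hx hlin hr hc h huv
  · exact (no_dtype hx hlin hr hd h).elim
  · exact (no_etype hx hlin hr (by omega) h).elim

end Pool.Agent.Lib.MP_70d4d1_co
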