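import Pool.Agent.Lib.MP_70d4d1_co.Sys
import Pool.Agent.Lib.MP_70d4d1_co.Circ

namespace Pool.Agent.Lib.MP_70d4d1_co

open Classical in
/-- The first end point of an edge. -/
noncomputable def endI {N : ℕ} {H : SimpleGraph (Fin N)} (e : H.edgeSet) : Fin N := (e : Sym2 (Fin N)).out.1

open Classical in
/-- The second end point of an edge. -/
noncomputable def endJ {N : ℕ} {H : SimpleGraph (Fin N)} (e : H.edgeSet) : Fin N := (e : Sym2 (Fin N)).out.2

theorem endIJ {N : ℕ} {H : SimpleGraph (Fin N)} (e : H.edgeSet) :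
    s(endI e, endJ e) = (e : Sym2 (Fin N)) := by
  unfold endI endJ
  exact Quot.out_eq (e : Sym2 (Fin N))

open Classical in
theorem card_inc {N k : ℕ} {H : SimpleGraph (Fin N)} (hH : Reg H k) (x : Fin N) :
    (Finset.univ.filter fun u : H.edgeSet => endI u = x ∨ endJ u = x).card = k := by
  have hdeg : H.degree x = k := by
    rw [← hH x, ← SimpleGraph.card_neighborSet_eq_degree, Set.ncard_eq_toFinset_card',
      Set.toFinset_card]
  rw [← hdeg, ← SimpleGraph.card_incidenceFinset_eq_degree]
  refine Finset.card_bij (fun u _ => (u : Sym2 (Fin N))) ?_ ?_ ?_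
  · intro u hu
    rw [Finset.mem_filter] at hu
    rw [SimpleGraph.mem_incidenceFinset]
    refine ⟨u.2, ?_⟩
    rw [← endIJ u, Sym2.mem_iff]
    rcases hu.2 with h | h
    · exact Or.inl h.symm
    · exact Or.inr h.symm
  · intro u _ v _ h
    exact Subtype.ext h
  · intro b hb
    rw [SimpleGraph.mem_incidenceFinset] at hb
    refine ⟨⟨b, hb.1⟩, ?_, rfl⟩
    rw [Finset.mem_filter]
    refine ⟨Finset.mem_univ _, ?_⟩
    have h := hb.2
    have h2 := endIJ (⟨b, hb.1⟩ : H.edgeSet)
    change s(_, _) = b at h2
    rw [← h2, Sym2.mem_iff] at h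
    rcases h with h | h
    · exact Or.inl h.symm
    · exact Or.inr h.symm

/-- Line graphs of regular graphs. -/
theorem good_reg {d k N m : ℕ} (hk : 2 * k = d + 2) (hN : k < N) (hm : 2 * m = k * N) :
    Good d m := by
  classical
  obtain ⟨H, hH⟩ := exists_regular (N := N) (k := k) hN ⟨m, by rw [mul_comm N k, ← hm]; ring⟩
  have hcard : Fintype.card H.edgeSet = m := by
    have h1 := H.sum_degrees_eq_twice_card_edges
    have h2 : ∀ v, H.degree v = k := by
      intro v
      rw [← hH v, ← SimpleGraph.card_neighborSet_eq_degree, Set.ncard_eq_toFinset_card',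
        Set.toFinset_card]
    rw [Finset.sum_congr rfl fun v _ => h2 v, Finset.sum_const, Finset.card_univ, Fintype.card_fin,
      smul_eq_mul, SimpleGraph.edgeFinset_card] at h1
    rw [mul_comm] at hm
    nlinarith
  rw [← hcard]
  refine good_of_system (fun e : H.edgeSet => endI e) (fun e => endJ e) ?_ ?_ ?_
  · intro e h
    have h1 := e.2
    rw [← endIJ e, SimpleGraph.mem_edgeSet] at h1
    exact h1.ne h
  · intro u v h
    simp only [endIJ] at h
    exact Subtype.ext h
  · intro v
    have h1 := card_inc hH (endI v)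
    have h2 := card_inc hH (endJ v)
    have e : k + k = d + 2 := by omega
    rw [← e]
    congr 1
    · rw [← h1]
      congr
    · rw [← h2]
      congr

end Pool.Agent.Lib.MP_70d4d1_co
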