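import Pool.Agent.Lib.MP_70d4d1_co.Semi

namespace Pool.Agent.Lib.MP_70d4d1_co

theorem gen_form {d : ℕ} (hd : 28 ≤ d) {m : ℕ} (hm : m ∈ Ord d) :
    ∃ A B : ℕ, m + B = A * (d + 2) ∧ B ≤ A ^ 2 ∧ 2 * B ≤ (d + 2) * A := by
  rcases hm with (⟨a, b, q, ha, hb, hab, hq, rfl, hdvd⟩ | ⟨k, N, hk, hN, hm⟩) | ⟨he, rfl⟩
  · rcases le_total a b with h | h
    · refine ⟨q, a * q, ?_, ?_, ?_⟩
      · rw [← hab]; ring
      · nlinarith
      · rw [← hab]; nlinarith
    · obtain ⟨u, hu⟩ := hdvd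
      have hub : b ≤ u := by
        by_contra hcon
        have h1 : a * u < a * b := by
          apply Nat.mul_lt_mul_of_pos_left (by omega) (by omega)
        have h2 : b * a ≤ b * q := Nat.mul_le_mul_left b hq
        have h3 : a * b = b * a := Nat.mul_comm a b
        omega
      refine ⟨u, b * u, ?_, ?_, ?_⟩
      · rw [← hab, hu]; ring
      · nlinarith
      · rw [← hab]; nlinarith
  · obtain ⟨A, r, hr, hA⟩ : ∃ A r, r ≤ 3 ∧ N + r = 4 * A := ⟨(N + 3) / 4, 4 * ((N + 3) / 4) - N,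
      by omega, by omega⟩
    have h1 : 4 * m = (d + 2) * N := by
      have : 2 * (2 * m) = 2 * (k * N) := by rw [hm]
      rw [← hk]
      linarith
    have h2 : m ≤ A * (d + 2) := by
      have : (d + 2) * N ≤ (d + 2) * (4 * A) := Nat.mul_le_mul_left _ (by omega)
      nlinarith
    obtain ⟨B, hB⟩ := Nat.exists_eq_add_of_le h2
    have h3 : 4 * B = r * (d + 2) := by
      have : (d + 2) * (N + r) = (d + 2) * (4 * A) := by rw [hA]
      nlinarith
    refine ⟨A, B, hB.symm, ?_, ?_⟩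
    · have h4 : d + 2 + 2 ≤ 2 * N := by omega
      have h5 : 64 * B ≤ 64 * A ^ 2 := by
        have e1 : 64 * A ^ 2 = (2 * N + 2 * r) ^ 2 := by
          have : 2 * N + 2 * r = 8 * A := by omega
          rw [this]; ring
        have e2 : 64 * B = 16 * (r * (d + 2)) := by rw [← h3]; ring
        rw [e1, e2]
        have h6 : (d + 4 + 2 * r) ^ 2 ≤ (2 * N + 2 * r) ^ 2 := Nat.pow_le_pow_left (by omega) 2
        refine le_trans ?_ h6
        obtain ⟨e, rfl⟩ : ∃ e, d = e + 28 := ⟨d - 28, by omega⟩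
        interval_cases r <;> nlinarith
      omega
    · have h7 : r ≤ 2 * A := by omega
      have h8 : r * (d + 2) ≤ 2 * A * (d + 2) := Nat.mul_le_mul_right _ h7
      nlinarith
  · exact ⟨1, 0, by ring, by norm_num, by norm_num⟩

theorem semi_form {d : ℕ} (hd : 28 ≤ d) {n : ℕ} (hn : n ∈ AddSubmonoid.closure (Ord d)) :
    ∃ A B : ℕ, n + B = A * (d + 2) ∧ B ≤ A ^ 2 ∧ 2 * B ≤ (d + 2) * A := by
  induction hn using AddSubmonoid.closure_induction with
  | mem m hm => exact gen_form hd hm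
  | zero => exact ⟨0, 0, by norm_num, by norm_num, by norm_num⟩
  | add m m' _ _ h h' =>
    obtain ⟨A, B, h1, h2, h3⟩ := h
    obtain ⟨A', B', h1', h2', h3'⟩ := h'
    refine ⟨A + A', B + B', ?_, ?_, ?_⟩
    · rw [add_mul, ← h1, ← h1']; ring
    · nlinarith [Nat.zero_le (A * A')]
    · rw [mul_add, mul_add]; omega

/-- Sharpness of the bound for the order, all degrees. -/
theorem not_mem_all {d s : ℕ} (hd : 28 ≤ d) (hs : 2 ≤ s) (hsd : s ^ 2 ≤ d) :
    (s - 1) * (d + 2) + 1 ∉ AddSubmonoid.closure (Ord d) := by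
  intro hmem
  obtain ⟨A, B, h1, h2, h3⟩ := semi_form hd hmem
  obtain ⟨s', rfl⟩ : ∃ s', s = s' + 1 := ⟨s - 1, by omega⟩
  have e : s' + 1 - 1 = s' := by omega
  rw [e] at h1
  have hA : s' < A := by
    by_contra hcon
    have : A * (d + 2) ≤ s' * (d + 2) := Nat.mul_le_mul_right _ (not_lt.mp hcon)
    omega
  obtain ⟨j, rfl⟩ : ∃ j, A = s' + j := ⟨A - s', by omega⟩
  have hj : 1 ≤ j := by omega
  have hB : B + 1 = j * (d + 2) := by
    rw [add_mul] at h1; omega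
  have hjs : j ≤ s' := by
    by_contra hcon
    have h4 : s' + 1 ≤ j := by omega
    have h5 : 2 * (j * (d + 2)) ≤ (d + 2) * (s' + j) + 2 := by rw [← hB]; omega
    have h6 : (s' + 1) * (d + 2) ≤ j * (d + 2) := Nat.mul_le_mul_right _ h4
    nlinarith
  -- `B ≤ A ^ 2` fails
  have h7 : j * (d + 2) ≤ (s' + j) ^ 2 + 1 := by omega
  have h8 : j * ((s' + 1) ^ 2 + 2) ≤ j * (d + 2) := Nat.mul_le_mul_left _ (by omega)
  have h9 : (s' + j) ^ 2 ≤ j * (s' + 1) ^ 2 := by
    obtain ⟨i, rfl⟩ : ∃ i, j = i + 1 := ⟨j - 1, by omega⟩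
    obtain ⟨t, rfl⟩ : ∃ t, s' = i + 1 + t := ⟨s' - (i + 1), by omega⟩
    nlinarith [Nat.zero_le (i * t), Nat.zero_le (i * i), Nat.zero_le (t * t),
      Nat.zero_le (i * i * i), Nat.zero_le (i * i * t), Nat.zero_le (i * t * t)]
  nlinarith

end Pool.Agent.Lib.MP_70d4d1_co
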