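import Pool.Agent.Lib.MP_70d4d1_co.Spec
import Pool.Agent.Lib.MP_70d4d1_co.Comp
import Pool.Agent.Lib.MP_70d4d1_co.Conv
import Pool.Agent.Lib.MP_70d4d1_co.Etab
import Pool.Agent.Lib.MP_70d4d1_co.Exo
import Pool.Agent.Lib.MP_70d4d1_co.Sharp
import Pool.Agent.Lib.MP_70d4d1_co.PdCase2
import Pool.Agent.Lib.MP_70d4d1_co.Num
import Pool.Agent.Lib.MP_70d4d1_co.Bip
import Pool.Agent.Lib.MP_70d4d1_co.RegLine

namespace Pool.Agent.Lib.MP_70d4d1_co

theorem pos_of_ndvd {n d : ℕ} (h : ¬ (d + 1) ∣ n) : 0 < n := by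
  rcases Nat.eq_zero_or_pos n with h0 | h0
  · exact absurd (h0 ▸ dvd_zero _) h
  · exact h0

/-- If the least eigenvalue is larger than `-2`, then `d + 1` divides `n`. -/
theorem dvd_of_pd {n d : ℕ} (hd : 3 ≤ d) {G : SimpleGraph (Fin n)} (hr : Reg G d) (hp : Pd G) :
    (d + 1) ∣ n := by
  classical
  have h1 := dvd_of_complete_comps (G := G) hr (fun c u v huv => by
    have hf : Fintype c.supp := Fintype.ofFinite _
    exact complete_of_pd hd (reg_comp hr c) (conn_comp c) (pd_induce hp c.supp) huv)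
  rwa [Fintype.card_fin] at h1

theorem lam_le {n d : ℕ} (hd : 3 ≤ d) {G : SimpleGraph (Fin n)} (hr : Reg G d)
    (hn : ¬ (d + 1) ∣ n) : lamMin G ≤ -2 := by
  by_contra hcon
  exact hn (dvd_of_pd hd hr ((pd_iff (pos_of_ndvd hn) G).mpr (not_le.mp hcon)))

theorem lam_eq_iff {n d : ℕ} (hd : 3 ≤ d) {G : SimpleGraph (Fin n)} (hr : Reg G d)
    (hn : ¬ (d + 1) ∣ n) : lamMin G = -2 ↔ Psd G := by
  rw [psd_iff (pos_of_ndvd hn)]
  constructor
  · intro h; rw [h]
  · intro h; exact le_antisymm (lam_le hd hr hn) h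

/-- Structure of the components. -/
theorem comps_of_psd {n d : ℕ} (hd : 3 ≤ d) {G : SimpleGraph (Fin n)} (hr : Reg G d)
    (hp : Psd G) (c : G.ConnectedComponent) :
    ((IsLine (G.induce c.supp) ∨ IsCocktail (G.induce c.supp)) ∧ c.supp.ncard ∈ Ord d) ∨
      (d, c.supp.ncard) ∈ etab := by
  classical
  have hf : Fintype c.supp := Fintype.ofFinite _
  have h := struct_all hd (reg_comp hr c) (conn_comp c) (psd_induce hp c.supp)
  have e : Fintype.card c.supp = c.supp.ncard := by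
    rw [← Nat.card_eq_fintype_card]; rfl
  rw [e] at h
  exact h

/-- All building blocks. -/
def Orders (d : ℕ) : Set ℕ := Ord d ∪ {n | (d, n) ∈ exo}

theorem exo_good {d n : ℕ} (h : (d, n) ∈ exo) : Good d n := by
  simp only [exo, List.mem_cons, Prod.mk.injEq, List.not_mem_nil, or_false] at h
  rcases h with ⟨rfl, rfl⟩ | ⟨rfl, rfl⟩ | ⟨rfl, rfl⟩ | ⟨rfl, rfl⟩ | ⟨rfl, rfl⟩ | ⟨rfl, rfl⟩ |
    ⟨rfl, rfl⟩ | ⟨rfl, rfl⟩
  · exact good_5_14
  · exact good_7_12
  · exact good_9_22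
  · exact good_10_16
  · exact good_10_18
  · exact good_12_21
  · exact good_14_24
  · exact good_16_27

theorem ord_bip {d : ℕ} (a b q : ℕ) (ha : 1 ≤ a) (hb : 1 ≤ b) (hab : a + b = d + 2)
    (hq : a ≤ q) (hd : a ∣ b * q) : b * q ∈ AddSubmonoid.closure (Orders d) :=
  AddSubmonoid.subset_closure (Or.inl (Or.inl (Or.inl ⟨a, b, q, ha, hb, hab, hq, rfl, hd⟩)))

theorem ord_cock {d : ℕ} (hd : Even d) : d + 2 ∈ AddSubmonoid.closure (Orders d) :=
  AddSubmonoid.subset_closure (Or.inl (Or.inr ⟨hd, rfl⟩))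

theorem etab_mem {d n : ℕ} (h : (d, n) ∈ etab) : n ∈ AddSubmonoid.closure (Orders d) := by
  by_cases he : (d, n) ∈ exo
  · exact AddSubmonoid.subset_closure (Or.inr he)
  simp only [etab, List.mem_cons, Prod.mk.injEq, List.not_mem_nil, or_false] at h
  rcases h with ⟨rfl, rfl⟩ | ⟨rfl, rfl⟩ | ⟨rfl, rfl⟩ | ⟨rfl, rfl⟩ | ⟨rfl, rfl⟩ | ⟨rfl, rfl⟩ |
    ⟨rfl, rfl⟩ | ⟨rfl, rfl⟩ | ⟨rfl, rfl⟩ | ⟨rfl, rfl⟩ | ⟨rfl, rfl⟩ | ⟨rfl, rfl⟩ |
    ⟨rfl, rfl⟩ | ⟨rfl, rfl⟩ | ⟨rfl, rfl⟩ | ⟨rfl, rfl⟩ | ⟨rfl, rfl⟩ | ⟨rfl, rfl⟩ |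
    ⟨rfl, rfl⟩ | ⟨rfl, rfl⟩
  · exact AddSubmonoid.add_mem _ (ord_bip 1 4 1 (by norm_num) (by norm_num) (by norm_num)
      (by norm_num) (by norm_num)) (ord_bip 2 3 2 (by norm_num) (by norm_num) (by norm_num)
      (by norm_num) (by norm_num))
  · exact ord_bip 2 4 2 (by norm_num) (by norm_num) (by norm_num) (by norm_num) (by norm_num)
  · exact ord_bip 3 3 3 (by norm_num) (by norm_num) (by norm_num) (by norm_num) (by norm_num)
  · exact AddSubmonoid.add_mem _ (ord_bip 1 5 1 (by norm_num) (by norm_num) (by norm_num)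
      (by norm_num) (by norm_num)) (ord_bip 1 5 1 (by norm_num) (by norm_num) (by norm_num)
      (by norm_num) (by norm_num))
  · exact ord_bip 3 3 4 (by norm_num) (by norm_num) (by norm_num) (by norm_num) (by norm_num)
  · exact absurd (by decide) he
  · exact ord_bip 2 6 2 (by norm_num) (by norm_num) (by norm_num) (by norm_num) (by norm_num)
  · exact ord_bip 4 4 4 (by norm_num) (by norm_num) (by norm_num) (by norm_num) (by norm_num)
  · exact absurd (by decide) he
  · exact ord_bip 3 6 3 (by norm_num) (by norm_num) (by norm_num) (by norm_num) (by norm_num)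
  · exact AddSubmonoid.subset_closure (Or.inl (Or.inl (Or.inr ⟨5, 6, by norm_num, by norm_num,
      by norm_num⟩)))
  · exact AddSubmonoid.add_mem _ (ord_cock (d := 8) (by decide)) (ord_cock (by decide))
  · exact absurd (by decide) he
  · exact absurd (by decide) he
  · exact absurd (by decide) he
  · exact AddSubmonoid.add_mem _ (ord_cock (d := 10) (by decide)) (ord_cock (by decide))
  · exact absurd (by decide) he
  · exact AddSubmonoid.add_mem _ (ord_cock (d := 12) (by decide)) (ord_cock (by decide))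
  · exact absurd (by decide) he
  · exact absurd (by decide) he

theorem psd_of_comps' {n : ℕ} {G : SimpleGraph (Fin n)}
    (h : ∀ c : G.ConnectedComponent,
      IsLine (G.induce c.supp) ∨ IsCocktail (G.induce c.supp)) : Psd G := by
  apply psd_of_comps
  intro c _
  rcases h c with h | h
  · exact psd_of_line h
  · exact psd_of_cocktail h

theorem card_comps {V : Type*} [Fintype V] (G : SimpleGraph V) (S : AddSubmonoid ℕ)
    (h : ∀ c : G.ConnectedComponent, c.supp.ncard ∈ S) : Fintype.card V ∈ S := by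
  classical
  have : Fintype G.ConnectedComponent := Fintype.ofFinite _
  rw [← Finset.card_univ, Finset.card_eq_sum_card_fiberwise (f := G.connectedComponentMk)
    (t := Finset.univ) (fun x _ => Finset.mem_coe.2 (Finset.mem_univ _))]
  apply S.sum_mem
  intro c _
  have e : (Finset.univ.filter (fun a => G.connectedComponentMk a = c)).card = c.supp.ncard := by
    rw [← Set.ncard_coe_finset]
    congr 1
    ext w
    simp [SimpleGraph.ConnectedComponent.mem_supp_iff]
  rw [e]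
  exact h c

theorem good_of_ord {d m : ℕ} (h : m ∈ Ord d) : Good d m := by
  rcases h with (⟨a, b, q, ha, hb, hab, hq, rfl, hd⟩ | ⟨k, N, hk, hN, hm⟩) | ⟨he, rfl⟩
  · exact good_bip ha hb hab hq hd
  · exact good_reg hk hN hm
  · exact good_cocktail he

theorem good_of_mem {d n : ℕ} (h : n ∈ AddSubmonoid.closure (Orders d)) : Good d n := by
  induction h using AddSubmonoid.closure_induction with
  | mem m hm =>
    rcases hm with hm | hm
    · exact good_of_ord hm
    · exact exo_good hm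
  | zero => exact good_zero d
  | add a b _ _ ha hb => exact good_add ha hb

theorem mem_of_good {d n : ℕ} (hd : 3 ≤ d) (h : Good d n) :
    n ∈ AddSubmonoid.closure (Orders d) := by
  obtain ⟨G, hr, hp⟩ := h
  have h1 := card_comps G (AddSubmonoid.closure (Orders d)) (fun c => by
    rcases comps_of_psd (by omega) hr hp c with h | h
    · exact AddSubmonoid.subset_closure (Or.inl h.2)
    · exact etab_mem h)
  rwa [Fintype.card_fin] at h1

theorem exo_le {d n : ℕ} (h : (d, n) ∈ exo) : d ≤ 16 := by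
  simp only [exo, List.mem_cons, Prod.mk.injEq, List.not_mem_nil, or_false] at h
  omega

theorem orders_large {d : ℕ} (hd : 17 ≤ d) : Orders d = Ord d := by
  unfold Orders
  rw [Set.union_eq_left]
  intro n hn
  exact absurd (exo_le hn) (by omega)

theorem finite_lams (n d : ℕ) : {x | ∃ G : SimpleGraph (Fin n), Reg G d ∧ x = lamMin G}.Finite := by
  have : {x | ∃ G : SimpleGraph (Fin n), Reg G d ∧ x = lamMin G} ⊆
      Set.range (fun G : SimpleGraph (Fin n) => lamMin G) := by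
    rintro x ⟨G, -, rfl⟩
    exact ⟨G, rfl⟩
  exact (Set.finite_range _).subset this

/-- The maximum is attained. -/
theorem mu_attained {n d : ℕ} (h : ∃ G : SimpleGraph (Fin n), Reg G d) :
    ∃ G : SimpleGraph (Fin n), Reg G d ∧ lamMin G = mu n d ∧
      ∀ G' : SimpleGraph (Fin n), Reg G' d → lamMin G' ≤ mu n d := by
  obtain ⟨G0, h0⟩ := h
  have hne : {x | ∃ G : SimpleGraph (Fin n), Reg G d ∧ x = lamMin G}.Nonempty := ⟨_, G0, h0, rfl⟩
  obtain ⟨G, hG, hx⟩ := hne.csSup_mem (finite_lams n d)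
  exact ⟨G, hG, hx.symm, fun G' h' => le_csSup (finite_lams n d).bddAbove ⟨G', h', rfl⟩⟩

theorem mu_eq_of_good {n d : ℕ} (hd : 3 ≤ d) (hn : ¬ (d + 1) ∣ n) (h : Good d n) :
    mu n d = -2 := by
  obtain ⟨G, hr, hp⟩ := h
  obtain ⟨G', hr', h1, h2⟩ := mu_attained ⟨G, hr⟩
  apply le_antisymm
  · rw [← h1]; exact lam_le hd hr' hn
  · rw [← (lam_eq_iff hd hr hn).mpr hp]
    exact h2 G hr

theorem good_of_mu {n d : ℕ} (hd : 3 ≤ d) (hn : ¬ (d + 1) ∣ n) (h : mu n d = -2) :
    Good d n := by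
  have hex : ∃ G : SimpleGraph (Fin n), Reg G d := by
    by_contra hcon
    have h1 : {x | ∃ G : SimpleGraph (Fin n), Reg G d ∧ x = lamMin G} = ∅ := by
      ext x
      simp only [Set.mem_ofPred_eq, Set.mem_empty_iff_false, iff_false]
      rintro ⟨G, hG, -⟩
      exact hcon ⟨G, hG⟩
    unfold mu at h
    rw [h1, Real.sSup_empty] at h
    norm_num at h
  obtain ⟨G, hr, h1, -⟩ := mu_attained hex
  exact ⟨G, hr, (lam_eq_iff hd hr hn).mp (h1.trans h)⟩

/-- Sharpness: below `d ^ (3 / 2)` the value `-2` is not always attained. -/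
theorem mu_lt {d s : ℕ} (hd : 28 ≤ d) (hs : 2 ≤ s) (hsd : s ^ 2 ≤ d)
    (hev : Even (((s - 1) * (d + 2) + 1) * d)) : mu ((s - 1) * (d + 2) + 1) d < -2 := by
  obtain ⟨s', rfl⟩ : ∃ s', s = s' + 1 := ⟨s - 1, by omega⟩
  have hs' : s' + 1 - 1 = s' := by omega
  have hnot := not_mem_all hd hs hsd
  rw [hs'] at hnot hev ⊢
  have hdvd : ¬ (d + 1) ∣ s' * (d + 2) + 1 := by
    intro h
    have e : s' * (d + 2) + 1 = s' * (d + 1) + (s' + 1) := by ring
    rw [e, Nat.dvd_add_right (Dvd.intro_left _ rfl)] at h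
    have := Nat.le_of_dvd (by omega) h
    nlinarith
  obtain ⟨G0, h0⟩ := exists_regular (N := s' * (d + 2) + 1) (k := d) (by nlinarith) hev
  obtain ⟨G, hr, h1, -⟩ := mu_attained ⟨G0, h0⟩
  rw [← h1]
  rcases lt_or_eq_of_le (lam_le (by omega) hr hdvd) with h | h
  · exact h
  · exfalso
    have h2 := mem_of_good (d := d) (by omega) ⟨G, hr, (lam_eq_iff (by omega) hr hdvd).mp h⟩
    rw [orders_large (by omega)] at h2
    exact hnot h2

end Pool.Agent.Lib.MP_70d4d1_co
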