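import Mathlib

namespace Pool.Agent.Lib.MP_70d4d1_co

/-- Orders of the building blocks: line graphs of semiregular bipartite graphs, line graphs of
regular graphs, cocktail party graphs. -/
def Ord (d : ℕ) : Set ℕ :=
  {m | ∃ a b q, 1 ≤ a ∧ 1 ≤ b ∧ a + b = d + 2 ∧ a ≤ q ∧ m = b * q ∧ a ∣ m} ∪
    {m | ∃ k N, 2 * k = d + 2 ∧ k < N ∧ 2 * m = k * N} ∪ {m | Even d ∧ m = d + 2}

/-- If `d + 2` is an odd prime, numbers in the semigroup have a special form. -/
theorem ord_form {d : ℕ} (hp : (d + 2).Prime) (hd : 1 ≤ d) {n : ℕ}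
    (hn : n ∈ AddSubmonoid.closure (Ord d)) :
    ∃ A B : ℕ, n + B = A * (d + 2) ∧ B ≤ A ^ 2 ∧ 2 * B ≤ (d + 1) * A := by
  have hodd : ¬ 2 ∣ d + 2 := by
    intro h2
    have := (Nat.prime_dvd_prime_iff_eq Nat.prime_two hp).mp h2
    omega
  induction hn using AddSubmonoid.closure_induction with
  | mem m hm =>
    rcases hm with (hm | hm) | hm
    · obtain ⟨a, b, q, ha, hb, hab, haq, rfl, hdvd⟩ := hm
      have hcop : Nat.Coprime a b := by
        have h1 : Nat.gcd a b ∣ d + 2 := by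
          rw [← hab]
          exact Nat.dvd_add (Nat.gcd_dvd_left a b) (Nat.gcd_dvd_right a b)
        rcases (Nat.dvd_prime hp).mp h1 with h2 | h2
        · exact h2
        · have h3 := Nat.gcd_le_left b ha
          omega
      obtain ⟨t, rfl⟩ := hcop.dvd_of_dvd_mul_left hdvd
      have ht : 1 ≤ t := by
        rcases Nat.eq_zero_or_pos t with h0 | h0
        · rw [h0, mul_zero] at haq
          omega
        · exact h0
      have hne : a ≠ b := by
        rintro rfl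
        exact hodd ⟨a, by omega⟩
      rcases lt_or_gt_of_ne hne with hlt | hlt
      · refine ⟨a * t, a ^ 2 * t, ?_, ?_, ?_⟩
        · rw [← hab]; ring
        · calc a ^ 2 * t ≤ a ^ 2 * (t * t) := Nat.mul_le_mul_left _ (Nat.le_mul_of_pos_left t ht)
            _ = (a * t) ^ 2 := by ring
        · have h5 : 2 * a ≤ d + 1 := by omega
          calc 2 * (a ^ 2 * t) = (2 * a) * (a * t) := by ring
            _ ≤ (d + 1) * (a * t) := Nat.mul_le_mul_right _ h5
      · refine ⟨b * t, b ^ 2 * t, ?_, ?_, ?_⟩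
        · rw [← hab]; ring
        · calc b ^ 2 * t ≤ b ^ 2 * (t * t) := Nat.mul_le_mul_left _ (Nat.le_mul_of_pos_left t ht)
            _ = (b * t) ^ 2 := by ring
        · have h5 : 2 * b ≤ d + 1 := by omega
          calc 2 * (b ^ 2 * t) = (2 * b) * (b * t) := by ring
            _ ≤ (d + 1) * (b * t) := Nat.mul_le_mul_right _ h5
    · obtain ⟨k, N, hk, -, -⟩ := hm
      exact absurd ⟨k, hk.symm⟩ hodd
    · obtain ⟨h1, -⟩ := hm
      exact absurd (by
        have := h1.two_dvd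
        omega) hodd
  | zero => exact ⟨0, 0, by simp, by simp, by simp⟩
  | add x y _ _ hx hy =>
    obtain ⟨A1, B1, h1, h2, h3⟩ := hx
    obtain ⟨A2, B2, g1, g2, g3⟩ := hy
    refine ⟨A1 + A2, B1 + B2, ?_, ?_, ?_⟩
    · calc x + y + (B1 + B2) = (x + B1) + (y + B2) := by ring
        _ = (A1 + A2) * (d + 2) := by rw [h1, g1]; ring
    · calc B1 + B2 ≤ A1 ^ 2 + A2 ^ 2 := Nat.add_le_add h2 g2
        _ ≤ (A1 + A2) ^ 2 := by nlinarith [Nat.zero_le (A1 * A2)]
    · calc 2 * (B1 + B2) = 2 * B1 + 2 * B2 := by ring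
        _ ≤ (d + 1) * A1 + (d + 1) * A2 := Nat.add_le_add h3 g3
        _ = (d + 1) * (A1 + A2) := by ring

/-- Sharpness of the bound for the order. -/
theorem not_mem_semi {d s : ℕ} (hp : (d + 2).Prime) (hs : 4 ≤ s) (hsd : s ^ 2 ≤ d) :
    (s - 1) * (d + 2) + 1 ∉ AddSubmonoid.closure (Ord d) := by
  intro hmem
  have hd : 1 ≤ d := by nlinarith
  obtain ⟨A, B, h1, h2, h3⟩ := ord_form hp hd hmem
  obtain ⟨u, rfl⟩ : ∃ u, s = u + 1 := ⟨s - 1, by omega⟩
  have hu : 3 ≤ u := by omega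
  have e0 : u + 1 - 1 = u := by omega
  rw [e0] at h1
  -- A = u + j
  have hAu : u < A := by
    by_contra hcon
    push Not at hcon
    have : A * (d + 2) ≤ u * (d + 2) := Nat.mul_le_mul_right _ hcon
    omega
  obtain ⟨j, rfl⟩ : ∃ j, A = u + j := ⟨A - u, by omega⟩
  have hj : 1 ≤ j := by omega
  have h4 : B + 1 = j * (d + 2) := by
    have : (u + j) * (d + 2) = u * (d + 2) + j * (d + 2) := by ring
    omega
  -- j < u
  have h5 : j < u := by
    by_contra hcon
    push Not at hcon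
    have h6 : 2 * (j * (d + 2)) ≤ (d + 1) * (u + j) + 2 := by omega
    have h7 : (d + 1) * (u + j) ≤ (d + 1) * (j + j) := Nat.mul_le_mul_left _ (by omega)
    have h8 : 2 * (j * (d + 2)) = (d + 1) * (j + j) + 2 * j := by ring
    omega
  have h9 : j * ((u + 1) ^ 2 + 2) ≤ j * (d + 2) := Nat.mul_le_mul_left _ (by omega)
  have h10 : j * ((u + 1) ^ 2 + 2) ≤ (u + j) ^ 2 + 1 := by omega
  obtain ⟨i, rfl⟩ : ∃ i, j = i + 1 := ⟨j - 1, by omega⟩
  have h11 : i + 1 ≤ u ^ 2 := by nlinarith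
  have h12 : i * (i + 1) ≤ i * u ^ 2 := Nat.mul_le_mul_left _ h11
  nlinarith

end Pool.Agent.Lib.MP_70d4d1_co
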