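import Pool.Agent.Lib.MP_70d4d1_co.LineCase
import Pool.Agent.Lib.MP_70d4d1_co.Semi

namespace Pool.Agent.Lib.MP_70d4d1_co

open Module

variable {V : Type*} {G : SimpleGraph V} {N : ℕ} {y : V → Fin N → ℝ}

open Classical in
/-- The degree of a node. -/
noncomputable def cc [Fintype V] (i j : V → Fin N) (k : Fin N) : ℕ :=
  (Finset.univ.filter fun u => i u = k ∨ j u = k).card

theorem sum_cc [Fintype V] {i j : V → Fin N} (hne : ∀ v, i v ≠ j v) (A : Finset (Fin N)) :
    ∑ k ∈ A, cc i j k = ∑ u, ((if i u ∈ A then 1 else 0) + (if j u ∈ A then 1 else 0)) := by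
  classical
  have h1 : ∀ k, cc i j k = ∑ u, ((if i u = k then 1 else 0) + (if j u = k then 1 else 0)) := by
    intro k
    unfold cc
    rw [Finset.card_filter]
    refine Finset.sum_congr rfl fun u _ => ?_
    by_cases h : i u = k
    · have h' : j u ≠ k := fun e => hne u (h.trans e.symm)
      simp [h, h']
    · simp [h]
  rw [Finset.sum_congr rfl fun k _ => h1 k, Finset.sum_comm]
  refine Finset.sum_congr rfl fun u _ => ?_
  rw [Finset.sum_add_distrib, Finset.sum_ite_eq, Finset.sum_ite_eq]

/-- The other end point. -/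
noncomputable def oth (i j : V → Fin N) (k : Fin N) (u : V) : Fin N :=
  open Classical in if i u = k then j u else i u

theorem oth_inj {i j : V → Fin N} (hinj : ∀ u v, s(i u, j u) = s(i v, j v) → u = v)
    {k : Fin N} {u v : V} (hu : i u = k ∨ j u = k) (hv : i v = k ∨ j v = k)
    (h : oth i j k u = oth i j k v) : u = v := by
  apply hinj
  unfold oth at h
  rw [Sym2.eq_iff]
  by_cases h1 : i u = k <;> by_cases h2 : i v = k
  · rw [if_pos h1, if_pos h2] at h
    exact Or.inl ⟨h1.trans h2.symm, h⟩
  · rw [if_pos h1, if_neg h2] at h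
    have h3 : j v = k := by tauto
    exact Or.inr ⟨h1.trans h3.symm, h⟩
  · rw [if_neg h1, if_pos h2] at h
    have h3 : j u = k := by tauto
    exact Or.inr ⟨h, h3.trans h2.symm⟩
  · rw [if_neg h1, if_neg h2] at h
    have h3 : j v = k := by tauto
    have h4 : j u = k := by tauto
    exact Or.inl ⟨h, h4.trans h3.symm⟩

theorem cc_le [Fintype V] {i j : V → Fin N}
    (hinj : ∀ u v, s(i u, j u) = s(i v, j v) → u = v) {k : Fin N} {B : Finset (Fin N)}
    (hB : ∀ u, (i u = k ∨ j u = k) → oth i j k u ∈ B) : cc i j k ≤ B.card := by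
  classical
  unfold cc
  apply Finset.card_le_card_of_injOn (oth i j k)
  · intro u hu
    simp only [Finset.coe_filter, Finset.mem_univ, true_and, Set.mem_ofPred_eq] at hu
    exact hB u hu
  · intro u hu v hv h
    simp only [Finset.coe_filter, Finset.mem_univ, true_and, Set.mem_ofPred_eq] at hu hv
    exact oth_inj hinj hu hv h

theorem order_of_system [Fintype V] {d : ℕ} (hc : G.Connected) {i j : V → Fin N}
    (hne : ∀ v, i v ≠ j v) (hinj : ∀ u v, s(i u, j u) = s(i v, j v) → u = v)
    (hdeg : ∀ v, cc i j (i v) + cc i j (j v) = d + 2)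
    (hadj : ∀ u v, G.Adj u v → i u = i v ∨ i u = j v ∨ j u = i v ∨ j u = j v) :
    Fintype.card V ∈ Ord d := by
  classical
  obtain ⟨v0⟩ := hc.nonempty
  obtain ⟨a, ha⟩ : ∃ a, cc i j (i v0) = a := ⟨_, rfl⟩
  obtain ⟨b, hb⟩ : ∃ b, cc i j (j v0) = b := ⟨_, rfl⟩
  have hab : a + b = d + 2 := by rw [← ha, ← hb]; exact hdeg v0
  have hpos : ∀ v, 1 ≤ cc i j (i v) ∧ 1 ≤ cc i j (j v) := by
    intro v
    unfold cc
    exact ⟨Finset.card_pos.mpr ⟨v, by simp⟩, Finset.card_pos.mpr ⟨v, by simp⟩⟩
  have ha1 : 1 ≤ a := ha ▸ (hpos v0).1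
  have hb1 : 1 ≤ b := hb ▸ (hpos v0).2
  have hall : ∀ v, (cc i j (i v) = a ∧ cc i j (j v) = b) ∨
      (cc i j (i v) = b ∧ cc i j (j v) = a) := by
    refine conn_all hc ?_ ⟨v0, Or.inl ⟨ha, hb⟩⟩
    intro u v huv hu
    have h1 := hdeg v
    rcases hadj u v huv with h | h | h | h
    · rw [← h] at h1 ⊢
      rcases hu with hu | hu
      · left; omega
      · right; omega
    · rw [← h] at h1 ⊢
      rcases hu with hu | hu
      · right; omega
      · left; omega
    · rw [← h] at h1 ⊢
      rcases hu with hu | hu
      · right; omega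
      · left; omega
    · rw [← h] at h1 ⊢
      rcases hu with hu | hu
      · left; omega
      · right; omega
  -- the other end point
  have hoth : ∀ k u, (i u = k ∨ j u = k) →
      (cc i j k = a → cc i j (oth i j k u) = b) ∧ (cc i j k = b → cc i j (oth i j k u) = a) := by
    intro k u hu
    have h1 := hdeg u
    unfold oth
    by_cases h : i u = k
    · rw [if_pos h, ← h]
      constructor <;> intro h2 <;> omega
    · have h' : j u = k := by tauto
      rw [if_neg h, ← h']
      constructor <;> intro h2 <;> omega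
  by_cases hab' : a = b
  · -- regular
    left; right
    subst hab'
    refine ⟨a, (Finset.univ.filter fun k => cc i j k = a).card, by omega, ?_, ?_⟩
    · have h1 : cc i j (i v0) ≤ ((Finset.univ.filter fun k => cc i j k = a).erase (i v0)).card := by
        apply cc_le hinj
        intro u hu
        rw [Finset.mem_erase]
        refine ⟨?_, ?_⟩
        · unfold oth
          rcases hu with h | h
          · rw [if_pos h, ← h]; exact (hne u).symm
          · rw [if_neg (fun e => hne u (e.trans h.symm)), ← h]; exact hne u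
        · rw [Finset.mem_filter]
          exact ⟨Finset.mem_univ _, (hoth _ u hu).1 ha⟩
      have h2 : i v0 ∈ Finset.univ.filter fun k => cc i j k = a := by simp [ha]
      have h3 := Finset.card_erase_add_one h2
      omega
    · have h1 := sum_cc hne (Finset.univ.filter fun k => cc i j k = a)
      have h2 : ∑ k ∈ Finset.univ.filter (fun k => cc i j k = a), cc i j k =
          (Finset.univ.filter fun k => cc i j k = a).card * a := by
        rw [Finset.sum_congr rfl fun k hk => (Finset.mem_filter.mp hk).2, Finset.sum_const,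
          smul_eq_mul]
      have h3 : ∀ u, ((if i u ∈ Finset.univ.filter (fun k => cc i j k = a) then 1 else 0) +
          (if j u ∈ Finset.univ.filter (fun k => cc i j k = a) then 1 else 0)) = 2 := by
        intro u
        have h4 : cc i j (i u) = a ∧ cc i j (j u) = a := by
          rcases hall u with h | h <;> exact h
        simp [h4.1, h4.2]
      rw [h2, Finset.sum_congr rfl fun u _ => h3 u] at h1
      simp only [Finset.sum_const, Finset.card_univ, smul_eq_mul] at h1
      linarith
  · -- bipartite
    left; left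
    have hcount : ∀ c, (c = a ∨ c = b) → Fintype.card V =
        c * (Finset.univ.filter fun k => cc i j k = c).card := by
      intro c hc'
      have h1 := sum_cc hne (Finset.univ.filter fun k => cc i j k = c)
      have h2 : ∑ k ∈ Finset.univ.filter (fun k => cc i j k = c), cc i j k =
          (Finset.univ.filter fun k => cc i j k = c).card * c := by
        rw [Finset.sum_congr rfl fun k hk => (Finset.mem_filter.mp hk).2, Finset.sum_const,
          smul_eq_mul]
      have h3 : ∀ u, ((if i u ∈ Finset.univ.filter (fun k => cc i j k = c) then 1 else 0) +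
          (if j u ∈ Finset.univ.filter (fun k => cc i j k = c) then 1 else 0)) = 1 := by
        intro u
        have hba : b ≠ a := fun e => hab' e.symm
        rcases hall u with ⟨h4, h5⟩ | ⟨h4, h5⟩ <;> rcases hc' with rfl | rfl <;>
          simp [h4, h5, hab', hba]
      rw [h2, Finset.sum_congr rfl fun u _ => h3 u] at h1
      simp only [Finset.sum_const, Finset.card_univ, smul_eq_mul, mul_one] at h1
      rw [← h1, mul_comm]
    refine ⟨a, b, (Finset.univ.filter fun k => cc i j k = b).card, ha1, hb1, hab, ?_,
      hcount b (Or.inr rfl), ⟨_, hcount a (Or.inl rfl)⟩⟩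
    rw [← ha]
    apply cc_le hinj
    intro u hu
    rw [Finset.mem_filter]
    refine ⟨Finset.mem_univ _, ?_⟩
    have := (hoth _ u hu).1 ha
    exact this

end Pool.Agent.Lib.MP_70d4d1_co
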