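import Pool.Agent.Lib.MP_70d4d1_co.Basic

namespace Pool.Agent.Lib.MP_70d4d1_co

open Module

variable {V E : Type*} [NormedAddCommGroup E] [InnerProductSpace ℝ E]
variable {G : SimpleGraph V} {x : V → E} {N : ℕ} {g : Fin N → E}

/-- `r` takes two values on the frame, the larger one on `S`. -/
def Pat {N : ℕ} (g : Fin N → E) (r : E) (S : Finset (Fin N)) : Prop :=
  ∀ i j, inner ℝ r (g i - g j) = (if i ∈ S then (1 : ℝ) else 0) - (if j ∈ S then 1 else 0)

theorem exists_pat (hx : Rep G x) (hg : Frame x g) (hN : 0 < N) {r : E} (hr : Root x r) :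
    (∃ i j, i ≠ j ∧ r = g i - g j) ∨ ∃ S, Pat g r S := by
  classical
  by_cases h : ∃ i j, i ≠ j ∧ r = g i - g j
  · exact Or.inl h
  right
  push Not at h
  have h1 : ∀ i j, inner ℝ r (g i - g j) = -1 ∨ inner ℝ r (g i - g j) = 0 ∨
      inner ℝ r (g i - g j) = 1 := by
    intro i j
    by_cases hij : i = j
    · subst hij; simp
    · refine Root.ip hx hr (hg i j hij) (h i j hij) ?_
      rw [neg_sub]
      exact h j i (Ne.symm hij)
  have hne : Nonempty (Fin N) := ⟨⟨0, hN⟩⟩
  obtain ⟨o, ho⟩ := Finite.exists_min (fun i => inner ℝ r (g i))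
  have h2 : ∀ i, inner ℝ r (g i - g o) = 0 ∨ inner ℝ r (g i - g o) = 1 := by
    intro i
    have h3 : 0 ≤ inner ℝ r (g i - g o) := by
      rw [inner_sub_right]; linarith [ho i]
    rcases h1 i o with h4 | h4 | h4
    · rw [h4] at h3; norm_num at h3
    · exact Or.inl h4
    · exact Or.inr h4
  refine ⟨Finset.univ.filter (fun i => inner ℝ r (g i - g o) = 1), fun i j => ?_⟩
  have h5 : ∀ i, (if i ∈ Finset.univ.filter (fun i => inner ℝ r (g i - g o) = 1) then (1 : ℝ)
      else 0) = inner ℝ r (g i - g o) := by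
    intro i
    rcases h2 i with h6 | h6 <;> simp [h6]
  rw [h5, h5]
  simp only [inner_sub_right]
  ring

theorem Pat.neg {r : E} {S : Finset (Fin N)} (h : Pat g r S) : Pat g (-r) Sᶜ := by
  intro i j
  rw [inner_neg_left, h i j]
  simp only [Finset.mem_compl]
  split_ifs <;> norm_num

theorem Pat.one {r : E} {S : Finset (Fin N)} (h : Pat g r S) {i j : Fin N} (hi : i ∈ S)
    (hj : j ∉ S) : inner ℝ r (g i - g j) = 1 := by
  rw [h i j]; simp [hi, hj]

/-- The sum of all differences from `S` to its complement. -/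
noncomputable def qv {N : ℕ} (g : Fin N → E) (S : Finset (Fin N)) : E :=
  ∑ i ∈ S, ∑ j ∈ Sᶜ, (g i - g j)

/-- The span of the differences. -/
def dif {N : ℕ} (g : Fin N → E) : Submodule ℝ E :=
  Submodule.span ℝ (Set.range fun p : Fin N × Fin N => g p.1 - g p.2)

theorem mem_dif (g : Fin N → E) (i j : Fin N) : g i - g j ∈ dif g :=
  Submodule.subset_span ⟨(i, j), rfl⟩

theorem qv_mem (g : Fin N → E) (S : Finset (Fin N)) : qv g S ∈ dif g :=
  Submodule.sum_mem _ fun i _ => Submodule.sum_mem _ fun j _ => mem_dif g i j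

theorem qv_lat (hg : Frame x g) (S : Finset (Fin N)) : qv g S ∈ lat x := by
  refine Submodule.sum_mem _ fun i hi => Submodule.sum_mem _ fun j hj => (hg i j ?_).1
  rintro rfl
  exact (Finset.mem_compl.mp hj) hi

theorem qv_ip (hg : Frame x g) (S : Finset (Fin N)) (a b : Fin N) :
    inner ℝ (qv g S) (g a - g b) =
      (N : ℝ) * ((if a ∈ S then (1 : ℝ) else 0) - (if b ∈ S then 1 else 0)) := by
  classical
  unfold qv
  rw [sum_inner]
  simp_rw [sum_inner, hg.ip]
  have h1 : ∀ i ∈ S, ∑ j ∈ Sᶜ, ((if i = a then (1 : ℝ) else 0) - (if i = b then 1 else 0) -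
      (if j = a then 1 else 0) + (if j = b then 1 else 0)) =
      ((N : ℝ) - S.card) * ((if i = a then (1 : ℝ) else 0) - (if i = b then 1 else 0)) -
      (if a ∈ S then 0 else 1) + (if b ∈ S then 0 else 1) := by
    intro i _
    rw [Finset.sum_add_distrib, Finset.sum_sub_distrib, Finset.sum_const, nsmul_eq_mul,
      Finset.sum_ite_eq' Sᶜ a, Finset.sum_ite_eq' Sᶜ b, Finset.card_compl, Fintype.card_fin,
      Nat.cast_sub (by simpa using S.card_le_univ)]
    simp only [Finset.mem_compl, ite_not]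
  rw [Finset.sum_congr rfl h1, Finset.sum_add_distrib, Finset.sum_sub_distrib,
    ← Finset.mul_sum, Finset.sum_sub_distrib, Finset.sum_ite_eq' S a, Finset.sum_ite_eq' S b,
    Finset.sum_const, Finset.sum_const, nsmul_eq_mul, nsmul_eq_mul]
  split_ifs <;> ring

theorem ip_qv {y : E} {S T : Finset (Fin N)} (hy : Pat g y T) :
    inner ℝ y (qv g S) = ((S ∩ T).card : ℝ) * ((N : ℝ) - S.card) -
      (S.card : ℝ) * ((Sᶜ ∩ T).card : ℝ) := by
  classical
  unfold qv
  rw [inner_sum]
  simp_rw [inner_sum, hy _ _]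
  simp only [Finset.sum_sub_distrib, Finset.sum_const, nsmul_eq_mul, Finset.sum_ite_mem,
    Finset.card_compl, Fintype.card_fin, ← Finset.mul_sum]
  rw [Nat.cast_sub (by simpa using S.card_le_univ)]
  simp
  ring

theorem ip_qv_self {y : E} {S : Finset (Fin N)} (hy : Pat g y S) :
    inner ℝ y (qv g S) = (S.card : ℝ) * ((N : ℝ) - S.card) := by
  rw [ip_qv hy]
  have h1 : Sᶜ ∩ S = ∅ := by
    rw [← Finset.disjoint_iff_inter_eq_empty]
    exact disjoint_compl_left
  rw [h1]
  simp

theorem qv_self (hg : Frame x g) (S : Finset (Fin N)) :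
    inner ℝ (qv g S) (qv g S) = (N : ℝ) * ((S.card : ℝ) * ((N : ℝ) - S.card)) := by
  classical
  have h0 : inner ℝ (qv g S) (qv g S) = ∑ i ∈ S, ∑ j ∈ Sᶜ, inner ℝ (g i - g j) (qv g S) := by
    conv_lhs => rw [qv, sum_inner]
    simp_rw [sum_inner]
    rfl
  rw [h0]
  have h1 : ∀ i ∈ S, ∀ j ∈ Sᶜ, inner ℝ (g i - g j) (qv g S) = (N : ℝ) := by
    intro i hi j hj
    rw [real_inner_comm, qv_ip hg, if_pos hi, if_neg (Finset.mem_compl.mp hj)]
    ring
  rw [Finset.sum_congr rfl fun i hi => Finset.sum_congr rfl fun j hj => h1 i hi j hj]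
  simp only [Finset.sum_const, nsmul_eq_mul, Finset.card_compl, Fintype.card_fin]
  rw [Nat.cast_sub (by simpa using S.card_le_univ)]
  ring

theorem pat_defect (hg : Frame x g) {r : E} (hr : inner ℝ r r = (2 : ℝ)) {S : Finset (Fin N)}
    (h : Pat g r S) : inner ℝ ((N : ℝ) • r - qv g S) ((N : ℝ) • r - qv g S) =
      (N : ℝ) * (2 * N - (S.card : ℝ) * ((N : ℝ) - S.card)) := by
  rw [sub_sq, inner_smul_left, inner_smul_left, inner_smul_right, hr, ip_qv_self h, qv_self hg]
  simp only [conj_trivial]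
  ring

theorem pat_card (hg : Frame x g) (hN : 0 < N) {r : E} (hr : inner ℝ r r = (2 : ℝ))
    {S : Finset (Fin N)} (h : Pat g r S) : S.card * (N - S.card) ≤ 2 * N := by
  have h1 := pat_defect hg hr h
  have h2 : (0 : ℝ) ≤ inner ℝ ((N : ℝ) • r - qv g S) ((N : ℝ) • r - qv g S) :=
    real_inner_self_nonneg
  rw [h1] at h2
  have h3 : (0 : ℝ) < N := by exact_mod_cast hN
  have h4 := (mul_nonneg_iff_of_pos_left h3).mp h2
  have h5 : S.card ≤ N := by simpa using S.card_le_univ
  have h6 : ((S.card * (N - S.card) : ℕ) : ℝ) ≤ ((2 * N : ℕ) : ℝ) := by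
    push_cast [Nat.cast_sub h5]
    linarith
  exact_mod_cast h6

theorem pat_eq (hg : Frame x g) {r : E} (hr : inner ℝ r r = (2 : ℝ))
    {S : Finset (Fin N)} (h : Pat g r S) (hc : S.card * (N - S.card) = 2 * N) :
    (N : ℝ) • r = qv g S := by
  have h5 : S.card ≤ N := by simpa using S.card_le_univ
  have h6 : (S.card : ℝ) * ((N : ℝ) - S.card) = 2 * N := by
    rw [← Nat.cast_sub h5]; exact_mod_cast hc
  have h1 := pat_defect hg hr h
  rw [h6] at h1
  have h2 : inner ℝ ((N : ℝ) • r - qv g S) ((N : ℝ) • r - qv g S) = (0 : ℝ) := by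
    rw [h1]; ring
  exact sub_eq_zero.mp (inner_self_eq_zero.mp h2)

theorem MaxF.card_ne_one (hg : MaxF x g) {r : E} (hr : Root x r) {S : Finset (Fin N)}
    (h : Pat g r S) : S.card ≠ 1 := by
  intro hc
  obtain ⟨a, rfl⟩ := Finset.card_eq_one.mp hc
  apply hg.no_ext (g a - r)
  intro j
  by_cases hj : j = a
  · subst hj
    have : g j - r - g j = -r := by abel
    rw [this]
    exact hr.neg
  · have h1 : inner ℝ (g a - g j) r = (1 : ℝ) := by
      rw [real_inner_comm]
      exact h.one (Finset.mem_singleton_self a) (by simpa using hj)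
    have := (hg.1 a j (Ne.symm hj)).sub hr h1
    have e : g a - r - g j = g a - g j - r := by abel
    rw [e]
    exact this

theorem MaxF.card_ne_pred (hg : MaxF x g) {r : E} (hr : Root x r) {S : Finset (Fin N)}
    (h : Pat g r S) : S.card + 1 ≠ N := by
  intro hc
  apply hg.card_ne_one hr.neg h.neg
  rw [Finset.card_compl, Fintype.card_fin]
  omega

theorem Pat.swap (hg : Frame x g) {r : E} (hr : Root x r) {S : Finset (Fin N)} (h : Pat g r S)
    {i j : Fin N} (hi : i ∈ S) (hj : j ∉ S) :
    Root x (r - (g i - g j)) ∧ Pat g (r - (g i - g j)) (insert j (S.erase i)) := by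
  have hij : i ≠ j := fun h => hj (h ▸ hi)
  refine ⟨hr.sub (hg i j hij) (h.one hi hj), fun a b => ?_⟩
  rw [inner_sub_left, h a b, hg.ip]
  have key : ∀ a : Fin N, (if a ∈ insert j (S.erase i) then (1 : ℝ) else 0) =
      (if a ∈ S then 1 else 0) - (if i = a then 1 else 0) + (if j = a then 1 else 0) := by
    intro a
    by_cases h1 : a = i
    · subst h1
      simp [hi, hij, hij.symm]
    · by_cases h2 : a = j
      · subst h2
        simp [hj, h1, Ne.symm h1]
      · simp [h1, h2, Ne.symm h1, Ne.symm h2]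
  rw [key a, key b]
  ring

theorem exists_move (hg : Frame x g) {r : E} (hr : Root x r) {S : Finset (Fin N)}
    (h : Pat g r S) (S' : Finset (Fin N)) (hc : S'.card = S.card) :
    ∃ r', Root x r' ∧ Pat g r' S' ∧ r' - r ∈ dif g := by
  induction hk : (S \ S').card generalizing r S with
  | zero =>
    have h1 : S ⊆ S' := by
      rw [← Finset.sdiff_eq_empty_iff_subset]
      exact Finset.card_eq_zero.mp hk
    have h2 : S = S' := Finset.eq_of_subset_of_card_le h1 hc.le
    subst h2
    exact ⟨r, hr, h, by simp⟩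
  | succ n ih =>
    have h1 : (S \ S').Nonempty := Finset.card_pos.mp (by omega)
    obtain ⟨i, hi⟩ := h1
    have h2 : (S' \ S).card = (S \ S').card := by
      have a1 := Finset.card_sdiff_add_card_inter S' S
      have a2 := Finset.card_sdiff_add_card_inter S S'
      rw [Finset.inter_comm] at a2
      omega
    have h3 : (S' \ S).Nonempty := Finset.card_pos.mp (by omega)
    obtain ⟨j, hj⟩ := h3
    rw [Finset.mem_sdiff] at hi hj
    obtain ⟨h4, h5⟩ := h.swap hg hr hi.1 hj.2
    have h6 : (insert j (S.erase i)).card = S.card := by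
      rw [Finset.card_insert_of_notMem (by simp [hj.2]), Finset.card_erase_of_mem hi.1]
      have : 0 < S.card := Finset.card_pos.mpr ⟨i, hi.1⟩
      omega
    have h7 : (insert j (S.erase i)) \ S' = (S \ S').erase i := by
      ext a
      simp only [Finset.mem_sdiff, Finset.mem_insert, Finset.mem_erase]
      constructor
      · rintro ⟨rfl | ⟨ha, ha'⟩, hb⟩
        · exact absurd hj.1 hb
        · exact ⟨ha, ha', hb⟩
      · rintro ⟨ha, ha', hb⟩
        exact ⟨Or.inr ⟨ha, ha'⟩, hb⟩
    have h8 : ((insert j (S.erase i)) \ S').card = n := by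
      rw [h7, Finset.card_erase_of_mem (Finset.mem_sdiff.mpr hi)]
      omega
    obtain ⟨r', h9, h10, h11⟩ := ih h4 h5 (by rw [h6]; exact hc) h8
    refine ⟨r', h9, h10, ?_⟩
    have e : r' - r = (r' - (r - (g i - g j))) - (g i - g j) := by abel
    rw [e]
    exact (dif g).sub_mem h11 (mem_dif g i j)

/-- `y` is orthogonal to all differences. -/
theorem perp_dif {y : E} (h : ∀ i j, inner ℝ y (g i - g j) = (0 : ℝ)) {w : E}
    (hw : w ∈ dif g) : inner ℝ y w = (0 : ℝ) := by
  induction hw using Submodule.span_induction with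
  | mem b hb => obtain ⟨p, rfl⟩ := hb; exact h _ _
  | zero => simp
  | add a b _ _ ha hb => rw [inner_add_right, ha, hb]; norm_num
  | smul c a _ ha => rw [inner_smul_right, ha]; norm_num

theorem eq_zero_of_dif {y : E} (h : ∀ i j, inner ℝ y (g i - g j) = (0 : ℝ))
    (hy : y ∈ dif g) : y = 0 := inner_self_eq_zero.mp (perp_dif h hy)

theorem move_eq (hg : Frame x g) {r r' : E} {S S' : Finset (Fin N)}
    (h : Pat g r S) (h' : Pat g r' S') (hd : r' - r ∈ dif g) :
    (N : ℝ) • r' = (N : ℝ) • r + qv g S' - qv g S := by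
  have h1 : (N : ℝ) • (r' - r) - (qv g S' - qv g S) = 0 := by
    apply eq_zero_of_dif (g := g)
    · intro i j
      rw [inner_sub_left, inner_smul_left, inner_sub_left, inner_sub_left, qv_ip hg, qv_ip hg,
        h i j, h' i j]
      simp only [conj_trivial]
      ring
    · exact (dif g).sub_mem ((dif g).smul_mem _ hd) ((dif g).sub_mem (qv_mem g _) (qv_mem g _))
  have h2 := sub_eq_zero.mp h1
  rw [smul_sub] at h2
  have h3 : (N : ℝ) • r' = (N : ℝ) • r' - (N : ℝ) • r + (N : ℝ) • r := by abel
  rw [h3, h2]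
  abel

theorem move_ip (hg : Frame x g) (hN : 0 < N) {r r' : E} (hr : Root x r)
    {S S' : Finset (Fin N)} (h : Pat g r S) (h' : Pat g r' S') (hd : r' - r ∈ dif g)
    (hc : S'.card = S.card) (hdis : Disjoint S S') :
    inner ℝ r r' = 2 - (S.card : ℝ) := by
  have h1 := move_eq hg h h' hd
  have h2 : inner ℝ r ((N : ℝ) • r') = inner ℝ r ((N : ℝ) • r + qv g S' - qv g S) := by rw [h1]
  rw [inner_sub_right, inner_add_right, inner_smul_right, inner_smul_right, hr.2,
    ip_qv_self h, ip_qv h, hc] at h2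
  have h3 : S' ∩ S = ∅ := (Finset.disjoint_iff_inter_eq_empty.mp hdis.symm)
  have h4 : S'ᶜ ∩ S = S := by
    rw [Finset.inter_eq_right]
    intro a ha
    rw [Finset.mem_compl]
    exact Finset.disjoint_left.mp hdis ha
  rw [h3, h4] at h2
  have h5 : (0 : ℝ) < N := by exact_mod_cast hN
  have h6 : (N : ℝ) * inner ℝ r r' = (N : ℝ) * (2 - (S.card : ℝ)) := by
    rw [h2]; simp only [Finset.card_empty]; push_cast; ring
  exact mul_left_cancel₀ h5.ne' h6

theorem finrank_dif_le (g : Fin N → E) : finrank ℝ (dif g) ≤ N - 1 := by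
  classical
  rcases Nat.eq_zero_or_pos N with hN | hN
  · subst hN
    have : dif g = ⊥ := by
      unfold dif
      rw [Submodule.span_eq_bot]
      rintro _ ⟨p, rfl⟩
      exact p.1.elim0
    rw [this]
    simp
  · let o : Fin N := ⟨0, hN⟩
    have h1 : dif g ≤ Submodule.span ℝ ((Finset.univ.erase o).image fun i => g i - g o : Set E) := by
      unfold dif
      rw [Submodule.span_le]
      rintro _ ⟨⟨i, j⟩, rfl⟩
      have h2 : ∀ i, g i - g o ∈
          Submodule.span ℝ ((Finset.univ.erase o).image fun i => g i - g o : Set E) := by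
        intro i
        by_cases hi : i = o
        · subst hi; simp
        · apply Submodule.subset_span
          simp only [Finset.coe_image, Set.mem_image, Finset.mem_coe, Finset.mem_erase,
            Finset.mem_univ, and_true]
          exact ⟨i, hi, rfl⟩
      have e : g i - g j = (g i - g o) - (g j - g o) := by abel
      simp only [SetLike.mem_coe]
      rw [e]
      exact Submodule.sub_mem _ (h2 i) (h2 j)
    have h3 : finrank ℝ (Submodule.span ℝ
        ((Finset.univ.erase o).image fun i => g i - g o : Set E)) ≤ N - 1 := by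
      refine (finrank_span_finset_le_card _).trans ?_
      refine Finset.card_image_le.trans ?_
      rw [Finset.card_erase_of_mem (Finset.mem_univ _), Finset.card_univ, Fintype.card_fin]
    refine (Submodule.finrank_mono h1).trans h3

instance (g : Fin N → E) : FiniteDimensional ℝ (dif g) :=
  FiniteDimensional.span_of_finite ℝ (Set.finite_range _)

end Pool.Agent.Lib.MP_70d4d1_co
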