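import Pool.Agent.Lib.MP_70d4d1_co.Tri
import Pool.Agent.Lib.MP_70d4d1_co.RepEx

namespace Pool.Agent.Lib.MP_70d4d1_co

open Module

variable {V E : Type*} [NormedAddCommGroup E] [InnerProductSpace ℝ E]
variable {G : SimpleGraph V} {x : V → E} {N : ℕ}

/-- Members of the lattice are integer combinations. -/
theorem lat_comb [Fintype V] {b : E} (hb : b ∈ lat x) : ∃ z : V → ℤ, b = ∑ v, (z v : ℝ) • x v := by
  unfold lat at hb
  rw [Submodule.mem_span_range_iff_exists_fun] at hb
  obtain ⟨z, hz⟩ := hb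
  exact ⟨z, by rw [← hz]; exact Finset.sum_congr rfl fun v _ => (Int.cast_smul_eq_zsmul ℝ _ _).symm⟩

/-- A small multiple of `w` cannot be in the lattice. -/
theorem no_small [Fintype V] [Nonempty V] (hlin : LinearIndependent ℝ x) {d t : ℕ}
    (ht : 0 < t) (htd : t < d + 2) : (t : ℝ) • wv x d ∉ lat x := by
  intro h
  obtain ⟨z, hz⟩ := lat_comb h
  unfold wv at hz
  rw [Finset.smul_sum, Finset.smul_sum] at hz
  have h1 : ∑ v, ((t : ℝ) * (1 / ((d : ℝ) + 2)) - z v) • x v = 0 := by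
    simp_rw [sub_smul, mul_smul]
    rw [Finset.sum_sub_distrib, hz, sub_self]
  obtain ⟨v⟩ := ‹Nonempty V›
  have h2 := (Fintype.linearIndependent_iff.mp hlin) _ h1 v
  have h3 : (0 : ℝ) < (d : ℝ) + 2 := by positivity
  have h4 : (t : ℝ) = z v * ((d : ℝ) + 2) := by
    field_simp at h2
    linarith
  have h5 : (t : ℤ) = z v * (d + 2) := by exact_mod_cast h4
  have h6 : (0 : ℤ) < t := by exact_mod_cast ht
  have h7 : (t : ℤ) < d + 2 := by exact_mod_cast htd
  have h8 : 0 < z v := by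
    by_contra hcon
    have : z v * ((d : ℤ) + 2) ≤ 0 := mul_nonpos_of_nonpos_of_nonneg (by omega) (by omega)
    omega
  have h9 : 1 * ((d : ℤ) + 2) ≤ z v * (d + 2) := mul_le_mul_of_nonneg_right h8 (by omega)
  omega

theorem no_etype [Fintype V] [Nonempty V] (hx : Rep G x) (hlin : LinearIndependent ℝ x) {d : ℕ}
    (hr : Reg G d) (hd : 2 ≤ d) (h : EType x) : False := by
  obtain ⟨W, t, k, htd, hW, hall, -⟩ := h
  apply no_small (d := d) (t := t) hlin (by omega) (by omega)
  apply hW.dual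
  · exact W.smul_mem _ (W.sum_mem fun v _ => hall v)
  · exact fun b hb => wv_int hx hr b hb

theorem dframe_exp {f : Fin N → E} (hf : DFrame x f) {w : E}
    (hw : w ∈ Submodule.span ℝ (Set.range f)) : w = ∑ i, inner ℝ w (f i) • f i := by
  induction hw using Submodule.span_induction with
  | mem b hb =>
    obtain ⟨k, rfl⟩ := hb
    simp_rw [hf.1]
    simp
  | zero => simp
  | add a b _ _ ha hb =>
    simp_rw [inner_add_left, add_smul]
    rw [Finset.sum_add_distrib, ← ha, ← hb]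
  | smul c a _ ha =>
    simp_rw [inner_smul_left, mul_smul]
    rw [← Finset.smul_sum, ← ha]
    simp

theorem no_dtype [Fintype V] [Nonempty V] (hx : Rep G x) (hlin : LinearIndependent ℝ x) {d : ℕ}
    (hr : Reg G d) (hd : 3 ≤ d) (h : DType x) : False := by
  obtain ⟨N, f, hN, hf, hall⟩ := h
  have hspan : wv x d ∈ Submodule.span ℝ (Set.range f) := by
    refine Submodule.smul_mem _ _ (Submodule.sum_mem _ fun v _ => ?_)
    obtain ⟨i, j, -, a, b, -, -, hv⟩ := hall v
    rw [hv]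
    exact Submodule.add_mem _ (Submodule.smul_mem _ _ (Submodule.subset_span ⟨i, rfl⟩))
      (Submodule.smul_mem _ _ (Submodule.subset_span ⟨j, rfl⟩))
  have hex : ∀ i : Fin N, ∃ j, i ≠ j := by
    intro i
    by_cases h : (i : ℕ) = 0
    · exact ⟨⟨1, by omega⟩, fun e => by rw [e] at h; simp at h⟩
    · exact ⟨⟨0, by omega⟩, fun e => by rw [e] at h; simp at h⟩
  have h2f : ∀ i, (2 : ℝ) • f i ∈ lat x := by
    intro i
    obtain ⟨j, hij⟩ := hex i
    obtain ⟨h1, h2⟩ := hf.2 i j hij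
    have := (lat x).add_mem h1 h2
    have e : (2 : ℝ) • f i = f i + f j + (f i - f j) := by module
    rw [e]; exact this
  have h2c : ∀ i, ∃ z : ℤ, 2 * inner ℝ (wv x d) (f i) = z := by
    intro i
    obtain ⟨z, hz⟩ := wv_int hx hr _ (h2f i)
    exact ⟨z, by rw [← hz, inner_smul_right]⟩
  apply no_small (d := d) (t := 4) hlin (by omega) (by omega)
  have e : ((4 : ℕ) : ℝ) • wv x d = ∑ i, (2 * inner ℝ (wv x d) (f i)) • ((2 : ℝ) • f i) := by
    conv_lhs => rw [dframe_exp hf hspan]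
    rw [Finset.smul_sum]
    refine Finset.sum_congr rfl fun i _ => ?_
    push_cast
    module
  rw [e]
  refine Submodule.sum_mem _ fun i _ => ?_
  obtain ⟨z, hz⟩ := h2c i
  rw [hz, Int.cast_smul_eq_zsmul]
  exact (lat x).smul_mem z (h2f i)

end Pool.Agent.Lib.MP_70d4d1_co
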