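import Pool.Agent.Lib.MP_70d4d1_co.Defs

namespace Pool.Agent.Lib.MP_70d4d1_co

/-- The sum of the squares of the entries of `x xᵀ` and of `xᵀ x` agree. -/
theorem gram_swap {V A : Type*} [Fintype V] [Fintype A] (x : V → A → ℝ) :
    ∑ u, ∑ v, (∑ a, x u a * x v a) ^ 2 = ∑ a, ∑ c, (∑ v, x v a * x v c) ^ 2 := by
  have h1 : ∀ u v, (∑ a, x u a * x v a) ^ 2 =
      ∑ a, ∑ c, (x u a * x u c) * (x v a * x v c) := by
    intro u v
    rw [sq, Finset.sum_mul_sum]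
    refine Finset.sum_congr rfl fun a _ => Finset.sum_congr rfl fun c _ => ?_
    ring
  have h2 : ∀ a c, (∑ v, x v a * x v c) ^ 2 =
      ∑ u, ∑ v, (x u a * x u c) * (x v a * x v c) := by
    intro a c
    rw [sq, Finset.sum_mul_sum]
  simp only [h1, h2]
  calc ∑ u, ∑ v, ∑ a, ∑ c, x u a * x u c * (x v a * x v c)
      = ∑ u, ∑ a, ∑ v, ∑ c, x u a * x u c * (x v a * x v c) :=
        Finset.sum_congr rfl fun u _ => Finset.sum_comm
    _ = ∑ a, ∑ u, ∑ v, ∑ c, x u a * x u c * (x v a * x v c) := Finset.sum_comm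
    _ = ∑ a, ∑ u, ∑ c, ∑ v, x u a * x u c * (x v a * x v c) :=
        Finset.sum_congr rfl fun a _ => Finset.sum_congr rfl fun u _ => Finset.sum_comm
    _ = ∑ a, ∑ c, ∑ u, ∑ v, x u a * x u c * (x v a * x v c) :=
        Finset.sum_congr rfl fun a _ => Finset.sum_comm

/-- Cauchy-Schwarz for the eigenvalues of a Gram matrix of rank at most `d`. -/
theorem trace_ineq {V E : Type*} [Fintype V] [NormedAddCommGroup E] [InnerProductSpace ℝ E]
    (W : Submodule ℝ E) [FiniteDimensional ℝ W] (p : V → E) (hp : ∀ v, p v ∈ W) (d : ℕ)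
    (hd : Module.finrank ℝ W ≤ d) :
    (∑ v, inner ℝ (p v) (p v)) ^ 2 ≤ d * ∑ u, ∑ v, (inner ℝ (p u) (p v)) ^ 2 := by
  set b := stdOrthonormalBasis ℝ W with hb
  set q : V → W := fun v => ⟨p v, hp v⟩ with hq
  have hin : ∀ u v, inner ℝ (p u) (p v) = ∑ a, inner ℝ (q u) (b a) * inner ℝ (q v) (b a) := by
    intro u v
    have h1 : inner ℝ (p u) (p v) = inner ℝ (q u) (q v) := rfl
    rw [h1, ← b.sum_inner_mul_inner]
    refine Finset.sum_congr rfl fun a _ => ?_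
    rw [real_inner_comm (q v) (b a)]
  have hd' : (Fintype.card (Fin (Module.finrank ℝ W)) : ℝ) ≤ d := by
    rw [Fintype.card_fin]
    exact_mod_cast hd
  have h3 : ∑ v, inner ℝ (p v) (p v) =
      ∑ a, ∑ v, inner ℝ (q v) (b a) * inner ℝ (q v) (b a) := by
    rw [Finset.sum_comm]
    exact Finset.sum_congr rfl fun v _ => hin v v
  have h4 : ∑ u, ∑ v, (inner ℝ (p u) (p v)) ^ 2 =
      ∑ a, ∑ c, (∑ v, inner ℝ (q v) (b a) * inner ℝ (q v) (b c)) ^ 2 := by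
    rw [← gram_swap]
    exact Finset.sum_congr rfl fun u _ => Finset.sum_congr rfl fun v _ => by rw [hin u v]
  rw [h3, h4]
  have h5 : (∑ a, ∑ v, inner ℝ (q v) (b a) * inner ℝ (q v) (b a)) ^ 2 ≤
      (Fintype.card (Fin (Module.finrank ℝ W)) : ℝ) *
      ∑ a, (∑ v, inner ℝ (q v) (b a) * inner ℝ (q v) (b a)) ^ 2 := by
    have := sq_sum_le_card_mul_sum_sq
      (s := (Finset.univ : Finset (Fin (Module.finrank ℝ W))))
      (f := fun a => ∑ v, inner ℝ (q v) (b a) * inner ℝ (q v) (b a))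
    rwa [Finset.card_univ] at this
  have h6 : ∑ a, (∑ v, inner ℝ (q v) (b a) * inner ℝ (q v) (b a)) ^ 2 ≤
      ∑ a, ∑ c, (∑ v, inner ℝ (q v) (b a) * inner ℝ (q v) (b c)) ^ 2 := by
    refine Finset.sum_le_sum fun a _ => ?_
    exact Finset.single_le_sum
      (f := fun c => (∑ v, inner ℝ (q v) (b a) * inner ℝ (q v) (b c)) ^ 2)
      (fun c _ => sq_nonneg _) (Finset.mem_univ a)
  have h7 : 0 ≤ ∑ a, (∑ v, inner ℝ (q v) (b a) * inner ℝ (q v) (b a)) ^ 2 :=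
    Finset.sum_nonneg fun a _ => sq_nonneg _
  calc _ ≤ _ := h5
    _ ≤ (d : ℝ) * ∑ a, (∑ v, inner ℝ (q v) (b a) * inner ℝ (q v) (b a)) ^ 2 :=
        mul_le_mul_of_nonneg_right hd' h7
    _ ≤ _ := mul_le_mul_of_nonneg_left h6 (Nat.cast_nonneg d)

end Pool.Agent.Lib.MP_70d4d1_co
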