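import Pool.Agent.Lib.MP_70d4d1_co.Tri
import Pool.Agent.Lib.MP_70d4d1_co.Trace

namespace Pool.Agent.Lib.MP_70d4d1_co

open Module

variable {V E : Type*} [NormedAddCommGroup E] [InnerProductSpace ℝ E]
variable {G : SimpleGraph V} {x : V → E} {N : ℕ}

theorem ent_comm (G : SimpleGraph V) (u v : V) : ent G u v = ent G v u := by
  rcases ent_cases (G := G) u v with ⟨h, h'⟩ | ⟨h, h', h''⟩ | ⟨h, h', h''⟩
  · subst h; rfl
  · rw [h'', ent_adj h'.symm]
  · rw [h'', ent_nadj h.symm fun e => h' e.symm]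

theorem card_gt [Fintype V] {d : ℕ} (hr : Reg G d) (v : V) : d + 1 ≤ Fintype.card V := by
  classical
  have h1 : (insert v (G.neighborSet v)).ncard = d + 1 := by
    rw [Set.ncard_insert_of_notMem (by simp), hr v]
  rw [← h1, ← Nat.card_eq_fintype_card, ← Set.ncard_univ]
  exact Set.ncard_le_ncard (Set.subset_univ _)

theorem sum_ent_sq [Fintype V] {d : ℕ} (hr : Reg G d) (v : V) :
    ∑ u, ent G u v ^ 2 = (d : ℝ) + 4 := by
  classical
  have h1 : ∀ u, ent G u v ^ 2 = ent G u v + (if u = v then (2 : ℝ) else 0) := by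
    intro u
    rcases ent_cases (G := G) u v with ⟨h, h'⟩ | ⟨h, h', h''⟩ | ⟨h, h', h''⟩
    · rw [h', if_pos h]; norm_num
    · rw [h'', if_neg h]; norm_num
    · rw [h'', if_neg h]; norm_num
  rw [Finset.sum_congr rfl fun u _ => h1 u, Finset.sum_add_distrib, sum_ent hr v,
    Finset.sum_ite_eq', if_pos (Finset.mem_univ _)]
  ring

theorem wv_self [Fintype V] (hx : Rep G x) {d : ℕ} (hr : Reg G d) :
    inner ℝ (wv x d) (wv x d) * ((d : ℝ) + 2) = Fintype.card V := by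
  have h1 : inner ℝ (wv x d) (wv x d) = (1 / ((d : ℝ) + 2)) * ∑ v, inner ℝ (wv x d) (x v) := by
    conv_lhs => rw [wv, inner_smul_right, inner_sum]
    rfl
  have h0 : (0 : ℝ) < (d : ℝ) + 2 := by positivity
  rw [h1, Finset.sum_congr rfl fun v _ => wv_ip hx hr v]
  simp only [Finset.sum_const, Finset.card_univ, nsmul_eq_mul, mul_one]
  field_simp

theorem rank_ineq [Fintype V] [Nonempty V] (hx : Rep G x) {d : ℕ} (hr : Reg G d)
    {W : Submodule ℝ E} [FiniteDimensional ℝ W] (hW : ∀ v, x v ∈ W) {k : ℕ}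
    (hk : finrank ℝ W ≤ k + 1) {c : ℝ} (hc : c = inner ℝ (wv x d) (wv x d)) :
    0 < c ∧ ((d : ℝ) + 2) * (2 * c - 1) ^ 2 ≤ k * (((d : ℝ) + 2) * (c - 1) + 2 * c) := by
  have hD : (0 : ℝ) < (d : ℝ) + 2 := by positivity
  have hn := wv_self hx hr
  rw [← hc] at hn
  have hn0 : (0 : ℝ) < Fintype.card V := by exact_mod_cast Fintype.card_pos
  have hc0 : 0 < c := by
    by_contra hcon
    have : c * ((d : ℝ) + 2) ≤ 0 := mul_nonpos_of_nonpos_of_nonneg (not_lt.mp hcon) hD.le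
    linarith
  refine ⟨hc0, ?_⟩
  have hw0 : wv x d ≠ 0 := by
    intro h
    rw [h, inner_zero_left] at hc
    linarith
  have hwW : wv x d ∈ W := W.smul_mem _ (W.sum_mem fun v _ => hW v)
  have hle : Submodule.span ℝ {wv x d} ≤ W := by
    rw [Submodule.span_singleton_le_iff_mem]; exact hwW
  have hfin : FiniteDimensional ℝ ((Submodule.span ℝ {wv x d})ᗮ ⊓ W : Submodule ℝ E) :=
    Submodule.finiteDimensional_inf_right _ _
  have hrk : finrank ℝ ((Submodule.span ℝ {wv x d})ᗮ ⊓ W : Submodule ℝ E) ≤ k := by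
    have h1 := Submodule.finrank_add_inf_finrank_orthogonal hle
    rw [finrank_span_singleton hw0] at h1
    omega
  have hp : ∀ v, x v - (1 / c) • wv x d ∈ ((Submodule.span ℝ {wv x d})ᗮ ⊓ W : Submodule ℝ E) := by
    intro v
    refine ⟨?_, W.sub_mem (hW v) (W.smul_mem _ hwW)⟩
    rw [SetLike.mem_coe, Submodule.mem_orthogonal_singleton_iff_inner_right, inner_sub_right,
      inner_smul_right, wv_ip hx hr, ← hc]
    field_simp
    norm_num
  have hip : ∀ u v, inner ℝ (x u - (1 / c) • wv x d) (x v - (1 / c) • wv x d) =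
      ent G u v - 1 / c := by
    intro u v
    rw [inner_sub_left, inner_sub_right, inner_sub_right, inner_smul_left, inner_smul_right,
      inner_smul_left, inner_smul_right, hx, wv_ip hx hr, real_inner_comm (wv x d) (x u),
      wv_ip hx hr, ← hc]
    simp only [conj_trivial]
    field_simp
    ring
  have htr := trace_ineq _ _ hp k hrk
  have e1 : ∑ v, inner ℝ (x v - (1 / c) • wv x d) (x v - (1 / c) • wv x d) =
      (Fintype.card V : ℝ) * (2 - 1 / c) := by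
    rw [Finset.sum_congr rfl fun v _ => hip v v]
    simp only [ent_self, Finset.sum_const, Finset.card_univ, nsmul_eq_mul]
  have e2 : ∑ u, ∑ v, inner ℝ (x u - (1 / c) • wv x d) (x v - (1 / c) • wv x d) ^ 2 =
      (Fintype.card V : ℝ) * ((d : ℝ) + 4 - 2 * ((d : ℝ) + 2) / c +
        (Fintype.card V : ℝ) / c ^ 2) := by
    have h1 : ∀ u, ∑ v, inner ℝ (x u - (1 / c) • wv x d) (x v - (1 / c) • wv x d) ^ 2 =
        (d : ℝ) + 4 - 2 * ((d : ℝ) + 2) / c + (Fintype.card V : ℝ) / c ^ 2 := by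
      intro u
      have h2 : ∀ v, inner ℝ (x u - (1 / c) • wv x d) (x v - (1 / c) • wv x d) ^ 2 =
          ent G v u ^ 2 - (2 / c) * ent G v u + 1 / c ^ 2 := by
        intro v
        rw [hip, ent_comm G u v]
        field_simp
        ring
      rw [Finset.sum_congr rfl fun v _ => h2 v, Finset.sum_add_distrib, Finset.sum_sub_distrib,
        sum_ent_sq hr, ← Finset.mul_sum, sum_ent hr]
      simp only [Finset.sum_const, Finset.card_univ, nsmul_eq_mul]
      ring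
    rw [Finset.sum_congr rfl fun u _ => h1 u]
    simp only [Finset.sum_const, Finset.card_univ, nsmul_eq_mul]
  rw [e1, e2] at htr
  have h3 : (Fintype.card V : ℝ) * (2 - 1 / c) ^ 2 ≤ k * ((d : ℝ) + 4 - 2 * ((d : ℝ) + 2) / c +
      (Fintype.card V : ℝ) / c ^ 2) := by
    have h4 : (Fintype.card V : ℝ) * ((Fintype.card V : ℝ) * (2 - 1 / c) ^ 2) ≤
        (Fintype.card V : ℝ) * (k * ((d : ℝ) + 4 - 2 * ((d : ℝ) + 2) / c +
          (Fintype.card V : ℝ) / c ^ 2)) := by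
      calc _ = ((Fintype.card V : ℝ) * (2 - 1 / c)) ^ 2 := by ring
        _ ≤ _ := htr
        _ = _ := by ring
    exact le_of_mul_le_mul_left h4 hn0
  rw [← hn] at h3
  have h5 : c * ((d : ℝ) + 2) * (2 - 1 / c) ^ 2 * c = ((d : ℝ) + 2) * (2 * c - 1) ^ 2 := by
    field_simp
  have h6 : (k * ((d : ℝ) + 4 - 2 * ((d : ℝ) + 2) / c + c * ((d : ℝ) + 2) / c ^ 2)) * c =
      k * (((d : ℝ) + 2) * (c - 1) + 2 * c) := by
    field_simp
    ring
  rw [← h5, ← h6]
  exact mul_le_mul_of_nonneg_right h3 hc0.le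

/-- Arithmetic conditions for exceptional connected regular graphs. -/
theorem etype_arith [Fintype V] [Nonempty V] (hx : Rep G x) {d : ℕ} (hr : Reg G d)
    (h : EType x) : ∃ t k : ℕ, ((t = 1 ∧ k = 7 ∧ ∃ g : Fin 9 → E, MaxF x g ∧ NoTwo x g ∧
        (∀ v, x v ∈ dif g) ∧ wv x d ∈ lat x) ∨ (t = 2 ∧ k = 6) ∨ (t = 3 ∧ k = 5)) ∧
      (d + 2) ∣ t * Fintype.card V ∧
      (2 * (Fintype.card V : ℤ) - (d + 2)) ^ 2 ≤ k * ((d + 2) * ((Fintype.card V : ℤ) - (d + 2)) +
        2 * Fintype.card V) := by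
  obtain ⟨W, t, k, htk, hW, hall, h9⟩ := h
  have hfd := hW.fin
  have hwW : wv x d ∈ W := W.smul_mem _ (W.sum_mem fun v _ => hall v)
  have hlat := hW.dual _ hwW (wv_int hx hr)
  obtain ⟨z, hz⟩ := wv_int hx hr _ hlat
  rw [inner_smul_right] at hz
  obtain ⟨c, hc⟩ : ∃ c : ℝ, c = inner ℝ (wv x d) (wv x d) := ⟨_, rfl⟩
  rw [← hc] at hz
  have hk : finrank ℝ W ≤ (k - 1) + 1 := by
    have := hW.rk
    omega
  obtain ⟨hc0, hineq⟩ := rank_ineq hx hr hall hk hc
  have hn := wv_self hx hr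
  rw [← hc] at hn
  have hD : (0 : ℝ) < (d : ℝ) + 2 := by positivity
  refine ⟨t, k - 1, ?_, ?_, ?_⟩
  · rcases htk with ⟨h1, h2⟩ | ⟨h1, h2⟩ | ⟨h1, h2⟩
    · left
      refine ⟨h1, by omega, ?_⟩
      obtain ⟨g, hg, hno, hWg⟩ := h9 h1
      refine ⟨g, hg, hno, fun v => hWg ▸ hall v, ?_⟩
      rw [h1] at hlat
      simpa using hlat
    · right; left; omega
    · right; right; omega
  · have h1 : ((t * Fintype.card V : ℤ) : ℝ) = ((z * (d + 2) : ℤ) : ℝ) := by
      push_cast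
      rw [← hn, ← hz]
      ring
    have h2 : (t * Fintype.card V : ℤ) = z * (d + 2) := by exact_mod_cast h1
    have h3 : ((d + 2 : ℕ) : ℤ) ∣ ((t * Fintype.card V : ℕ) : ℤ) := by
      push_cast
      exact ⟨z, by rw [h2]; ring⟩
    exact_mod_cast h3
  · have h1 : (2 * (Fintype.card V : ℝ) - (d + 2)) ^ 2 ≤ ((k - 1 : ℕ) : ℝ) *
        (((d : ℝ) + 2) * ((Fintype.card V : ℝ) - (d + 2)) + 2 * Fintype.card V) := by
      rw [← hn]
      have h2 : (2 * (c * ((d : ℝ) + 2)) - (d + 2)) ^ 2 =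
          ((d : ℝ) + 2) * (((d : ℝ) + 2) * (2 * c - 1) ^ 2) := by ring
      have h3 : ((k - 1 : ℕ) : ℝ) * (((d : ℝ) + 2) * (c * ((d : ℝ) + 2) - (d + 2)) +
          2 * (c * ((d : ℝ) + 2))) = ((d : ℝ) + 2) *
            (((k - 1 : ℕ) : ℝ) * (((d : ℝ) + 2) * (c - 1) + 2 * c)) := by ring
      rw [h2, h3]
      exact mul_le_mul_of_nonneg_left hineq hD.le
    exact_mod_cast h1

end Pool.Agent.Lib.MP_70d4d1_co
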