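import Pool.Agent.Lib.MP_70d4d1_co.Spec

namespace Pool.Agent.Lib.MP_70d4d1_co

/-- The quadratic form of the adjacency matrix. -/
noncomputable def aform {V : Type*} [Fintype V] (G : SimpleGraph V) (y : V → ℝ) : ℝ :=
  ∑ u, ∑ v, adj G u v * (y u * y v)

/-- The matrix `A - t I`. -/
noncomputable def tmat {n : ℕ} (G : SimpleGraph (Fin n)) (t : ℝ) : Matrix (Fin n) (Fin n) ℝ :=
  algebraMap ℝ (Matrix (Fin n) (Fin n) ℝ) (-t) + adj G

theorem tmat_herm {n : ℕ} (G : SimpleGraph (Fin n)) (t : ℝ) : (tmat G t).IsHermitian := by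
  unfold tmat
  apply Matrix.IsHermitian.add _ (adj_herm G)
  ext u v
  simp only [Matrix.conjTranspose_apply, Matrix.algebraMap_matrix_apply, star_trivial]
  by_cases h : u = v
  · subst h; simp
  · have h2 : v ≠ u := fun e => h e.symm
    simp [h, h2]

theorem tform_eq {n : ℕ} (G : SimpleGraph (Fin n)) (t : ℝ) (y : Fin n → ℝ) :
    aform G y - t * ∑ v, y v ^ 2 = star y ⬝ᵥ (Matrix.mulVec (tmat G t) y) := by
  classical
  simp only [aform, tmat, dotProduct, Matrix.mulVec, Pi.star_apply, star_trivial,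
    Matrix.add_apply, Matrix.algebraMap_matrix_apply, Finset.mul_sum]
  rw [← Finset.sum_sub_distrib]
  refine Finset.sum_congr rfl fun u _ => ?_
  have h1 : ∑ v, y u * (((if u = v then (algebraMap ℝ ℝ) (-t) else 0) + adj G u v) * y v)
      = ∑ v, (if u = v then -t * (y u * y v) else 0) + ∑ v, adj G u v * (y u * y v) := by
    rw [← Finset.sum_add_distrib]
    refine Finset.sum_congr rfl fun v _ => ?_
    by_cases h : u = v
    · subst h
      simp
      ring
    · simp [h]
      ring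
  rw [h1, Finset.sum_ite_eq]
  simp
  ring

theorem spec_tmat {n : ℕ} (G : SimpleGraph (Fin n)) (t x : ℝ) :
    x ∈ spectrum ℝ (tmat G t) ↔ x + t ∈ spectrum ℝ (adj G) := by
  unfold tmat
  rw [← spectrum.singleton_add_eq]
  constructor
  · rintro ⟨a, ha, b, hb, rfl⟩
    rw [Set.mem_singleton_iff] at ha
    subst ha
    simpa using hb
  · intro h
    exact ⟨-t, rfl, x + t, h, by ring⟩

/-- Rayleigh characterisation of the least eigenvalue. -/
theorem le_lam_iff {n : ℕ} (hn : 0 < n) (G : SimpleGraph (Fin n)) (t : ℝ) :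
    t ≤ lamMin G ↔ ∀ y : Fin n → ℝ, t * ∑ v, y v ^ 2 ≤ aform G y := by
  have h1 : (∀ y : Fin n → ℝ, t * ∑ v, y v ^ 2 ≤ aform G y) ↔ (tmat G t).PosSemidef := by
    rw [Matrix.posSemidef_iff_dotProduct_mulVec]
    constructor
    · intro h
      exact ⟨tmat_herm G t, fun y => by rw [← tform_eq]; exact sub_nonneg.2 (h y)⟩
    · rintro ⟨-, h⟩ y
      have := h y
      rw [← tform_eq] at this
      exact sub_nonneg.1 this
  rw [h1, (tmat_herm G t).posSemidef_iff_eigenvalues_nonneg]
  have h2 := (tmat_herm G t).spectrum_real_eq_range_eigenvalues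
  obtain ⟨hm, hle⟩ := lam_attained hn G
  constructor
  · intro h i
    have h3 : (tmat_herm G t).eigenvalues i ∈ spectrum ℝ (tmat G t) := by
      rw [h2]; exact ⟨i, rfl⟩
    rw [spec_tmat] at h3
    have := hle _ h3
    simp only [Pi.zero_apply]
    linarith
  · intro h
    have h3 : lamMin G - t ∈ spectrum ℝ (tmat G t) := by
      rw [spec_tmat]; simpa using hm
    rw [h2] at h3
    obtain ⟨i, hi⟩ := h3
    have := h i
    simp only [Pi.zero_apply] at this
    linarith

/-- A test vector gives an upper bound. -/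
theorem lam_le_of {n : ℕ} (hn : 0 < n) (G : SimpleGraph (Fin n)) (t : ℝ) (y : Fin n → ℝ)
    (hy : 0 < ∑ v, y v ^ 2) (h : aform G y ≤ t * ∑ v, y v ^ 2) : lamMin G ≤ t := by
  have h1 := (le_lam_iff hn G (lamMin G)).1 le_rfl y
  exact le_of_mul_le_mul_right (h1.trans h) hy

end Pool.Agent.Lib.MP_70d4d1_co
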