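import Pool.Agent.Lib.MP_70d4d1_co.PsdE

namespace Pool.Agent.Lib.MP_70d4d1_co

open Module

variable {V : Type*} {G : SimpleGraph V} {N : ℕ}

/-- Signed representation by vectors with two nonzero coordinates, both `±1`. -/
structure SR (G : SimpleGraph V) {N : ℕ} (y : V → Fin N → ℝ) : Prop where
  gram : ∀ u v, ∑ k, y u k * y v k = ent G u v
  two : ∀ v, ∃ i j, i ≠ j ∧ ∃ a b : ℝ, Sgn a ∧ Sgn b ∧
    ∀ k, y v k = (if k = i then a else 0) + (if k = j then b else 0)

variable {y : V → Fin N → ℝ}

theorem Sgn.ne {a : ℝ} (h : Sgn a) : a ≠ 0 := by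
  rcases h with h | h <;> rw [h] <;> norm_num

theorem ent_nonneg (G : SimpleGraph V) (u v : V) : 0 ≤ ent G u v := by
  rcases ent_cases (G := G) u v with ⟨_, h⟩ | ⟨_, _, h⟩ | ⟨_, _, h⟩ <;> rw [h] <;> norm_num

theorem SR.other (h : SR G y) {v : V} {q : Fin N} (hq : y v q ≠ 0) :
    ∃ i, i ≠ q ∧ Sgn (y v q) ∧ Sgn (y v i) ∧ ∀ k, k ≠ q → k ≠ i → y v k = 0 := by
  obtain ⟨i, j, hij, a, b, ha, hb, hk⟩ := h.two v
  have h1 : q = i ∨ q = j := by
    by_contra hcon
    push Not at hcon
    apply hq
    rw [hk, if_neg hcon.1, if_neg hcon.2, add_zero]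
  have ei : y v i = a := by rw [hk]; simp [hij]
  have ej : y v j = b := by rw [hk]; simp [hij.symm]
  rcases h1 with rfl | rfl
  · refine ⟨j, hij.symm, by rw [ei]; exact ha, by rw [ej]; exact hb, fun k h1 h2 => ?_⟩
    rw [hk, if_neg h1, if_neg h2, add_zero]
  · refine ⟨i, hij, by rw [ej]; exact hb, by rw [ei]; exact ha, fun k h1 h2 => ?_⟩
    rw [hk, if_neg h1, if_neg h2, add_zero]

theorem SR.vals (h : SR G y) (v : V) (q : Fin N) : y v q = -1 ∨ y v q = 0 ∨ y v q = 1 := by
  by_cases hq : y v q = 0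
  · exact Or.inr (Or.inl hq)
  · obtain ⟨i, -, h1, -⟩ := h.other hq
    rcases h1 with h1 | h1
    · exact Or.inr (Or.inr h1)
    · exact Or.inl h1

theorem sum_two {v : V} {q i : Fin N} (hiq : i ≠ q)
    (hz : ∀ k, k ≠ q → k ≠ i → y v k = 0) (z : Fin N → ℝ) :
    ∑ k, z k * y v k = z q * y v q + z i * y v i := by
  apply Finset.sum_eq_add q i hiq.symm
  · rintro k - ⟨h1, h2⟩
    rw [hz k h1 h2, mul_zero]
  · exact fun h => absurd (Finset.mem_univ _) h
  · exact fun h => absurd (Finset.mem_univ _) h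

theorem SR.eq_of_two (h : SR G y) {u v : V} (he : ∑ k, y u k * y v k = 2) : u = v := by
  rw [h.gram] at he
  rcases ent_cases (G := G) u v with ⟨h1, _⟩ | ⟨_, _, h1⟩ | ⟨_, _, h1⟩
  · exact h1
  · rw [h1] at he; norm_num at he
  · rw [h1] at he; norm_num at he

/-- The pair lemma, first form. -/
theorem SR.pair0 [Fintype V] (h : SR G y) (hs : ∀ k, 0 ≤ ∑ v, y v k) {v : V} {q : Fin N}
    (hq : y v q = -1) : ∃ u i, i ≠ q ∧ y u q = 1 ∧ y v i ≠ 0 ∧ y u i = y v i ∧
      (∀ k, k ≠ q → k ≠ i → y v k = 0) ∧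
      (∀ w, y w q = 1 → w = u) ∧ (∀ w, y w q = -1 → w = v) := by
  classical
  obtain ⟨i, hi, -, h2, h3⟩ := h.other (v := v) (q := q) (by rw [hq]; norm_num)
  have ha : ∀ u, y u q = 1 → y u i = y v i := by
    intro u hu
    have h4 := h.gram u v
    rw [sum_two hi h3, hq, hu] at h4
    have h5 := ent_nonneg G u v
    rw [← h4] at h5
    rcases h.vals u i with h6 | h6 | h6 <;> rcases h2 with h7 | h7 <;> rw [h6, h7] at h5 ⊢ <;>
      norm_num at h5
  have hb : ∀ u u', y u q = 1 → y u' q = 1 → u = u' := by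
    intro u u' hu hu'
    obtain ⟨i', hi', -, h5, h6⟩ := h.other (v := u') (q := q) (by rw [hu']; norm_num)
    have h7 : i = i' := by
      by_contra hcon
      have h8 := h6 i hi hcon
      rw [ha u' hu'] at h8
      exact h2.ne h8
    apply h.eq_of_two
    rw [sum_two hi' h6, hu, hu', ← h7, ha u hu, ha u' hu', h2.sq]
    norm_num
  have hc : ∃ u, y u q = 1 := by
    by_contra hcon
    push Not at hcon
    have h4 : ∀ w, y w q ≤ if w = v then (-1 : ℝ) else 0 := by
      intro w
      by_cases hw : w = v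
      · rw [if_pos hw, hw, hq]
      · rw [if_neg hw]
        rcases h.vals w q with h6 | h6 | h6
        · rw [h6]; norm_num
        · rw [h6]
        · exact absurd h6 (hcon w)
    have h5 := Finset.sum_le_sum fun w (_ : w ∈ Finset.univ) => h4 w
    rw [Finset.sum_ite_eq', if_pos (Finset.mem_univ _)] at h5
    linarith [hs q]
  obtain ⟨u, hu⟩ := hc
  refine ⟨u, i, hi, hu, h2.ne, ha u hu, h3, fun w hw => hb w u hw hu, ?_⟩
  intro w' hw'
  by_contra hne
  have h4 : ∀ w, y w q ≤ (if w = u then (1 : ℝ) else 0) - (if w = v then 1 else 0) -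
      (if w = w' then 1 else 0) := by
    intro w
    by_cases h5 : w = u
    · subst h5
      have h6 : w ≠ v := fun e => by rw [e, hq] at hu; norm_num at hu
      have h7 : w ≠ w' := fun e => by rw [e, hw'] at hu; norm_num at hu
      rw [if_pos rfl, if_neg h6, if_neg h7, hu]
      norm_num
    · by_cases h6 : w = v
      · subst h6
        have h7 : w ≠ w' := fun e => hne e.symm
        rw [if_neg h5, if_pos rfl, if_neg h7, hq]
        norm_num
      · by_cases h7 : w = w'
        · subst h7
          rw [if_neg h5, if_neg h6, if_pos rfl, hw']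
          norm_num
        · rw [if_neg h5, if_neg h6, if_neg h7]
          rcases h.vals w q with h8 | h8 | h8
          · rw [h8]; norm_num
          · rw [h8]; norm_num
          · exact absurd (hb w u h8 hu) h5
  have h5 := Finset.sum_le_sum fun w (_ : w ∈ Finset.univ) => h4 w
  rw [Finset.sum_sub_distrib, Finset.sum_sub_distrib, Finset.sum_ite_eq', Finset.sum_ite_eq',
    Finset.sum_ite_eq', if_pos (Finset.mem_univ _), if_pos (Finset.mem_univ _),
    if_pos (Finset.mem_univ _)] at h5
  linarith [hs q]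

/-- The pair lemma. -/
theorem SR.pair [Fintype V] (h : SR G y) (hs : ∀ k, 0 ≤ ∑ v, y v k) {v : V} {q : Fin N}
    (hq : y v q = -1) : ∃ u i, i ≠ q ∧ y u q = 1 ∧ y v i = 1 ∧ y u i = 1 ∧
      (∀ w, y w q ≠ 0 → w = u ∨ w = v) ∧ ∑ w, y w q = 0 := by
  classical
  obtain ⟨u, i, hi, hu, h1, h2, h3, h4, h5⟩ := h.pair0 hs hq
  have huv : u ≠ v := fun e => by rw [e, hq] at hu; norm_num at hu
  have h6 : y v i = 1 := by
    rcases h.vals v i with h7 | h7 | h7
    · exfalso
      obtain ⟨u', i', -, -, -, -, -, -, h8⟩ := h.pair0 hs h7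
      exact huv (h8 u (by rw [h2, h7]))
    · exact absurd h7 h1
    · exact h7
  refine ⟨u, i, hi, hu, h6, by rw [h2, h6], ?_, ?_⟩
  · intro w hw
    rcases h.vals w q with h7 | h7 | h7
    · exact Or.inr (h5 w h7)
    · exact absurd h7 hw
    · exact Or.inl (h4 w h7)
  · have h7 : ∀ w, y w q = (if w = u then (1 : ℝ) else 0) - (if w = v then 1 else 0) := by
      intro w
      by_cases h8 : w = u
      · subst h8
        rw [if_pos rfl, if_neg huv, hu]; norm_num
      · by_cases h9 : w = v
        · subst h9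
          rw [if_neg h8, if_pos rfl, hq]; norm_num
        · rw [if_neg h8, if_neg h9]
          rcases h.vals w q with h10 | h10 | h10
          · exact absurd (h5 w h10) h9
          · rw [h10]; norm_num
          · exact absurd (h4 w h10) h8
    rw [Finset.sum_congr rfl fun w _ => h7 w, Finset.sum_sub_distrib, Finset.sum_ite_eq',
      Finset.sum_ite_eq', if_pos (Finset.mem_univ _), if_pos (Finset.mem_univ _)]
    norm_num

theorem SR.total [Fintype V] (h : SR G y) {d : ℕ} (hr : Reg G d) (v : V) :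
    ∑ k, (∑ u, y u k) * y v k = (d : ℝ) + 2 := by
  rw [← sum_ent hr v]
  simp_rw [Finset.sum_mul]
  rw [Finset.sum_comm]
  exact Finset.sum_congr rfl fun u _ => h.gram u v

/-- With a negative coordinate the graph is a cocktail party graph. -/
theorem SR.cocktail [Fintype V] (h : SR G y) (hs : ∀ k, 0 ≤ ∑ v, y v k) {d : ℕ} (hr : Reg G d)
    (hc : G.Connected) {v0 : V} {q0 : Fin N} (h0 : y v0 q0 = -1) : IsCocktail G := by
  classical
  obtain ⟨u0, i0, hi0, hu0, hv1, hu1, h4, h5⟩ := h.pair hs h0
  have hne0 : u0 ≠ v0 := fun e => by rw [e, h0] at hu0; norm_num at hu0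
  -- no negative entry at `i0`
  have hno : ∀ w, y w i0 ≠ -1 := by
    intro w hw
    obtain ⟨u', i', -, hu', -, -, h6, -⟩ := h.pair hs hw
    have h7 : ∀ w', y w' i0 = 1 → w' = u' := by
      intro w' hw'
      rcases h6 w' (by rw [hw']; norm_num) with h8 | h8
      · exact h8
      · exfalso; rw [h8, hw] at hw'; norm_num at hw'
    exact hne0 ((h7 u0 hu1).trans (h7 v0 hv1).symm)
  have hsi : ∑ u, y u i0 = (d : ℝ) + 2 := by
    obtain ⟨i', hi', -, h8, h9⟩ := h.other (v := v0) (q := q0) (by rw [h0]; norm_num)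
    have h10 : i0 = i' := by
      by_contra hcon
      have := h9 i0 hi0 hcon
      rw [hv1] at this
      norm_num at this
    have h11 := h.total hr v0
    rw [sum_two hi' h9 (fun k => ∑ u, y u k), ← h10, h5, hv1] at h11
    linarith
  -- other coordinate
  have hoth : ∀ v, y v i0 = 1 → ∃ q, q ≠ i0 ∧ Sgn (y v q) ∧
      (∀ k, k ≠ i0 → k ≠ q → y v k = 0) ∧ ∃ v', v' ≠ v ∧ y v' i0 = 1 ∧ y v' q = - y v q ∧
      (∀ w, y w q ≠ 0 → w = v' ∨ w = v) := by
    intro v hv
    obtain ⟨q, hq, -, h8, h9⟩ := h.other (v := v) (q := i0) (by rw [hv]; norm_num)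
    refine ⟨q, hq, h8, h9, ?_⟩
    have h10 := h.total hr v
    rw [sum_two hq h9 (fun k => ∑ u, y u k), hsi, hv] at h10
    have h11 : ∑ u, y u q = 0 := by
      have : (∑ u, y u q) * y v q = 0 := by linarith
      rcases mul_eq_zero.mp this with h | h
      · exact h
      · exact absurd h h8.ne
    -- a negative entry at `q`
    have h12 : ∃ w, y w q = -1 := by
      by_contra hcon
      push Not at hcon
      have h13 : ∀ w ∈ Finset.univ, 0 ≤ y w q := by
        intro w _
        rcases h.vals w q with h14 | h14 | h14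
        · exact absurd h14 (hcon w)
        · rw [h14]
        · rw [h14]; norm_num
      have h14 := (Finset.sum_eq_zero_iff_of_nonneg h13).mp h11 v (Finset.mem_univ _)
      exact h8.ne h14
    obtain ⟨w, hw⟩ := h12
    obtain ⟨u, i, hi, hu, hw1, hu1', h13, -⟩ := h.pair hs hw
    have huw : u ≠ w := fun e => by rw [e, hw] at hu; norm_num at hu
    rcases h13 v h8.ne with rfl | rfl
    · have h14 : i = i0 := by
        by_contra hcon
        have := h9 i hcon hi
        rw [hu1'] at this
        norm_num at this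
      subst h14
      exact ⟨w, huw.symm, hw1, by rw [hw, hu], fun w' hw' => (h13 w' hw').symm⟩
    · have h14 : i = i0 := by
        by_contra hcon
        have := h9 i hcon hi
        rw [hw1] at this
        norm_num at this
      subst h14
      exact ⟨u, huw, hu1', by rw [hw, hu]; norm_num, h13⟩
  have hall : ∀ v, y v i0 = 1 := by
    refine conn_all hc ?_ ⟨v0, hv1⟩
    intro v w hvw hv
    obtain ⟨q, hq, h8, h9, v', hv', h10, h11, h12⟩ := hoth v hv
    have h13 := h.gram w v
    rw [ent_adj hvw.symm, sum_two hq h9, hv] at h13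
    rcases h.vals w i0 with h14 | h14 | h14
    · exact absurd h14 (hno w)
    · exfalso
      rw [h14] at h13
      have h15 : y w q ≠ 0 := fun e => by rw [e] at h13; norm_num at h13
      rcases h12 w h15 with h16 | h16
      · rw [h16, h11] at h13
        have := h8.sq
        linarith
      · exact hvw.ne h16.symm
    · exact h14
  intro v
  obtain ⟨q, hq, h8, h9, v', hv', h10, h11, h12⟩ := hoth v (hall v)
  have hg := h.gram v' v
  rw [sum_two hq h9, hall v, hall v', h11] at hg
  have hz : ent G v' v = 0 := by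
    rw [← hg]
    have := h8.sq
    linarith
  refine ⟨v', ⟨hv', fun hadj => ?_⟩, ?_⟩
  · rw [ent_adj hadj.symm] at hz
    norm_num at hz
  · rintro w ⟨hw, hw'⟩
    have h13 := h.gram w v
    rw [sum_two hq h9, hall v, hall w, ent_nadj hw fun e => hw' e.symm] at h13
    have h15 : y w q ≠ 0 := fun e => by rw [e] at h13; norm_num at h13
    rcases h12 w h15 with h16 | h16
    · exact h16
    · exact absurd h16 hw

end Pool.Agent.Lib.MP_70d4d1_co
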