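import Pool.Agent.Lib.MP_70d4d1_co.Blocks
import Pool.Agent.Lib.MP_70d4d1_co.Cocyc
import Pool.Agent.Lib.MP_70d4d1_co.Two

namespace Pool.Agent.Lib.MP_70d4d1_co

theorem mu_eq {n d : ℕ} {m : ℝ} (h1 : ∀ G : SimpleGraph (Fin n), Reg G d → lamMin G ≤ m)
    (h2 : ∃ G : SimpleGraph (Fin n), Reg G d ∧ lamMin G = m) : mu n d = m := by
  obtain ⟨G, hr, hG⟩ := h2
  obtain ⟨G', hr', h3, h4⟩ := mu_attained ⟨G, hr⟩
  apply le_antisymm
  · rw [← h3]; exact h1 G' hr'
  · rw [← hG]; exact h4 G hr

/-- Order `d + 3`. -/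
theorem mu_plus_three {d : ℕ} (hd : 1 ≤ d) :
    mu (d + 3) d = -1 - 2 * Real.cos (2 * Real.pi / ((d + 3 : ℕ) : ℝ)) ∧
    ∀ G : SimpleGraph (Fin (d + 3)), Reg G d → (lamMin G = mu (d + 3) d ↔ Gᶜ.Connected) := by
  have hlt : -3 < -1 - 2 * Real.cos (2 * Real.pi / ((d + 3 : ℕ) : ℝ)) := by
    have h1 : Real.cos (2 * Real.pi / ((d + 3 : ℕ) : ℝ)) < 1 := by
      have h2 : (0 : ℝ) < ((d + 3 : ℕ) : ℝ) := by positivity
      have h3 : 0 < 2 * Real.pi / ((d + 3 : ℕ) : ℝ) := by positivity
      have h4 : 2 * Real.pi / ((d + 3 : ℕ) : ℝ) ≤ Real.pi := by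
        rw [div_le_iff₀ h2]
        have : (2 : ℝ) ≤ ((d + 3 : ℕ) : ℝ) := by push_cast; linarith [Nat.cast_nonneg (α := ℝ) d]
        nlinarith [Real.pi_pos]
      have h5 := Real.cos_lt_cos_of_nonneg_of_le_pi (le_refl 0) h4 h3
      rwa [Real.cos_zero] at h5
    linarith
  have hval : mu (d + 3) d = -1 - 2 * Real.cos (2 * Real.pi / ((d + 3 : ℕ) : ℝ)) := by
    apply mu_eq
    · intro G hr
      by_cases hc : Gᶜ.Connected
      · exact (lam_cocycle rfl hd hr hc).le
      · rw [lam_cocycle' rfl hd hr hc]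
        exact hlt.le
    · obtain ⟨H, hH, hc⟩ := exists_cycle (n := d + 3) (by omega)
      refine ⟨Hᶜ, ?_, ?_⟩
      · intro v
        have h1 : (Hᶜ).neighborSet v = (insert v (H.neighborSet v))ᶜ := by
          ext u
          simp only [SimpleGraph.mem_neighborSet, SimpleGraph.compl_adj, Set.mem_compl_iff,
            Set.mem_insert_iff, not_or]
          exact ⟨fun h => ⟨h.1.symm, h.2⟩, fun h => ⟨Ne.symm h.1, h.2⟩⟩
        have h2 := Set.ncard_add_ncard_compl (insert v (H.neighborSet v))
        rw [Set.ncard_insert_of_notMem (by simp), hH v, Nat.card_eq_fintype_card,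
          Fintype.card_fin] at h2
        rw [h1]
        omega
      · have hr : Reg (Hᶜ) d := by
          intro v
          have h1 : (Hᶜ).neighborSet v = (insert v (H.neighborSet v))ᶜ := by
            ext u
            simp only [SimpleGraph.mem_neighborSet, SimpleGraph.compl_adj, Set.mem_compl_iff,
              Set.mem_insert_iff, not_or]
            exact ⟨fun h => ⟨h.1.symm, h.2⟩, fun h => ⟨Ne.symm h.1, h.2⟩⟩
          have h2 := Set.ncard_add_ncard_compl (insert v (H.neighborSet v))
          rw [Set.ncard_insert_of_notMem (by simp), hH v, Nat.card_eq_fintype_card,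
            Fintype.card_fin] at h2
          rw [h1]
          omega
        exact lam_cocycle rfl hd hr (by rw [compl_compl]; exact hc)
  refine ⟨hval, fun G hr => ?_⟩
  rw [hval]
  constructor
  · intro h
    by_contra hc
    rw [lam_cocycle' rfl hd hr hc] at h
    linarith
  · exact fun hc => lam_cocycle rfl hd hr hc

theorem two_value {n : ℕ} (hn : ¬ 3 ∣ n) (h : n = 5 ∨ 8 ≤ n) :
    mu n 2 = -((1 + √5) / 2) := by
  apply mu_eq
  · exact fun G hr => two_le hr hn
  · have hex : ∃ a b, n = 3 * a + 5 * b := by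
      have h1 : n % 3 = 1 ∨ n % 3 = 2 := by omega
      rcases h1 with h1 | h1
      · exact ⟨(n - 10) / 3, 2, by omega⟩
      · exact ⟨(n - 5) / 3, 1, by omega⟩
    obtain ⟨a, b, rfl⟩ := hex
    obtain ⟨G, hr, hc⟩ := two_exists a b
    exact ⟨G, hr, (two_eq_iff hr hn).mpr hc⟩

theorem comp_four' {n : ℕ} {G : SimpleGraph (Fin n)} (hr : Reg G 2) (hc : ¬ G.Connected)
    (hn : n = 7) : ∃ c : G.ConnectedComponent, c.supp.ncard = 4 := by
  by_contra hcon
  push Not at hcon
  have hne : Nonempty (Fin n) := ⟨⟨0, by omega⟩⟩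
  rw [SimpleGraph.connected_iff, not_and_or] at hc
  have hc' : ¬ G.Preconnected := by
    rcases hc with h | h
    · exact h
    · exact absurd hne h
  unfold SimpleGraph.Preconnected at hc'
  push Not at hc'
  obtain ⟨u, v, huv⟩ := hc'
  have hcc : G.connectedComponentMk u ≠ G.connectedComponentMk v := fun h =>
    huv (SimpleGraph.ConnectedComponent.exact h)
  have hdisj : ∀ c c' : G.ConnectedComponent, c ≠ c' → Disjoint c.supp c'.supp := by
    intro c c' hne'
    rw [Set.disjoint_left]
    intro w h1 h2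
    exact hne' (h1.symm.trans h2)
  have hcard : ∀ s : Set (Fin n), s.ncard ≤ 7 := by
    intro s
    have := Set.ncard_le_ncard (Set.subset_univ s)
    rw [Set.ncard_univ, Nat.card_eq_fintype_card, Fintype.card_fin] at this
    omega
  have h1 := comp_three hr (G.connectedComponentMk u)
  have h2 := comp_three hr (G.connectedComponentMk v)
  have h3 := hcon (G.connectedComponentMk u)
  have h4 := hcon (G.connectedComponentMk v)
  have h5 := Set.ncard_union_eq (hdisj _ _ hcc)
  have h6 := hcard ((G.connectedComponentMk u).supp ∪ (G.connectedComponentMk v).supp)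
  have h7 : ∃ w, w ∉ (G.connectedComponentMk u).supp ∪ (G.connectedComponentMk v).supp := by
    by_contra hall
    push Not at hall
    have h8 : (G.connectedComponentMk u).supp ∪ (G.connectedComponentMk v).supp = Set.univ :=
      Set.eq_univ_of_forall hall
    rw [h8, Set.ncard_univ, Nat.card_eq_fintype_card, Fintype.card_fin] at h5
    omega
  obtain ⟨w, hw⟩ := h7
  rw [Set.mem_union, not_or] at hw
  have h8 := comp_three hr (G.connectedComponentMk w)
  have h9 : Disjoint ((G.connectedComponentMk u).supp ∪ (G.connectedComponentMk v).supp)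
      (G.connectedComponentMk w).supp := by
    rw [Set.disjoint_union_left]
    refine ⟨hdisj _ _ fun h => hw.1 ?_, hdisj _ _ fun h => hw.2 ?_⟩
    · rw [h]; rfl
    · rw [h]; rfl
  have h10 := Set.ncard_union_eq h9
  have h11 := hcard ((G.connectedComponentMk u).supp ∪ (G.connectedComponentMk v).supp ∪
    (G.connectedComponentMk w).supp)
  omega

theorem seven_value : mu 7 2 = -2 * Real.cos (Real.pi / 7) := by
  have hle : -2 ≤ -2 * Real.cos (Real.pi / 7) := by linarith [Real.cos_le_one (Real.pi / 7)]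
  apply mu_eq
  · intro G hr
    by_cases hc : G.Connected
    · have := lam_odd_cycle (n := 7) (by decide) hr hc
      rw [this]
      norm_num
    · obtain ⟨c, hc4⟩ := comp_four' hr hc rfl
      exact (comp_four hr c hc4).trans hle
  · obtain ⟨H, hH, hc⟩ := exists_cycle (n := 7) (by omega)
    refine ⟨H, hH, ?_⟩
    have := lam_odd_cycle (n := 7) (by decide) hH hc
    rw [this]
    norm_num

theorem four_value : mu 4 2 = -2 := by
  have key : ∀ G : SimpleGraph (Fin 4), Reg G 2 → lamMin G = -2 := by
    intro G hr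
    apply le_antisymm
    · have h1 := comp_three hr (G.connectedComponentMk 0)
      apply comp_four hr (G.connectedComponentMk 0)
      by_contra hcon
      have h2 : (G.connectedComponentMk 0).supp.ncard ≤ 4 := by
        have := Set.ncard_le_ncard (Set.subset_univ (G.connectedComponentMk 0).supp)
        rwa [Set.ncard_univ, Nat.card_eq_fintype_card, Fintype.card_fin] at this
      have h3 : (G.connectedComponentMk 0).supp.ncard = 3 := by omega
      have h4 : ∃ w, w ∉ (G.connectedComponentMk 0).supp := by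
        by_contra hall
        push Not at hall
        have h8 : (G.connectedComponentMk 0).supp = Set.univ := Set.eq_univ_of_forall hall
        rw [h8, Set.ncard_univ, Nat.card_eq_fintype_card, Fintype.card_fin] at h3
        omega
      obtain ⟨w, hw⟩ := h4
      have h5 := comp_three hr (G.connectedComponentMk w)
      have h6 : Disjoint (G.connectedComponentMk 0).supp (G.connectedComponentMk w).supp := by
        rw [Set.disjoint_left]
        intro x h1 h2
        exact hw ((h2.symm.trans h1))
      have h7 := Set.ncard_union_eq h6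
      have h8 : ((G.connectedComponentMk 0).supp ∪ (G.connectedComponentMk w).supp).ncard ≤ 4 := by
        have := Set.ncard_le_ncard (Set.subset_univ
          ((G.connectedComponentMk 0).supp ∪ (G.connectedComponentMk w).supp))
        rwa [Set.ncard_univ, Nat.card_eq_fintype_card, Fintype.card_fin] at this
      omega
    · exact (psd_iff (by norm_num) G).mp (psd_of_cocktail (cocktail_of_card hr (by simp)))
  apply mu_eq
  · exact fun G hr => (key G hr).le
  · obtain ⟨H, hH, -⟩ := exists_cycle (n := 4) (by omega)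
    exact ⟨H, hH, key H hH⟩

theorem mem_mul {d : ℕ} (a : ℕ) : a * (d + 1) ∈ AddSubmonoid.closure (Orders d) := by
  have h1 : (d + 1) * 1 ∈ AddSubmonoid.closure (Orders d) :=
    ord_bip 1 (d + 1) 1 (by norm_num) (by omega) (by omega) (by norm_num) (one_dvd _)
  rw [mul_one] at h1
  have := (AddSubmonoid.closure (Orders d)).nsmul_mem h1 a
  simpa using this

theorem value_of_mem {d n m : ℕ} (hd : 3 ≤ d) (hn : ¬ (d + 1) ∣ n)
    (hm : m ∈ AddSubmonoid.closure (Orders d)) (h : ∃ a, n = a * (d + 1) + m) :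
    mu n d = -2 := by
  obtain ⟨a, rfl⟩ := h
  exact mu_eq_of_good hd hn (good_of_mem ((AddSubmonoid.closure (Orders d)).add_mem
    (mem_mul a) hm))

theorem three_value {n : ℕ} (he : Even n) (h4 : 4 ≤ n) (hn : ¬ 4 ∣ n) : mu n 3 = -2 := by
  obtain ⟨k, hk⟩ := he
  exact value_of_mem (d := 3) (m := 6) (by norm_num) hn
    (ord_bip 2 3 2 (by norm_num) (by norm_num) (by norm_num) (by norm_num) (by norm_num))
    ⟨(n - 6) / 4, by omega⟩

theorem four_value' {n : ℕ} (h5 : 5 ≤ n) (h7 : n ≠ 7) (hn : ¬ 5 ∣ n) : mu n 4 = -2 := by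
  have h1 : n % 5 = 1 ∨ n % 5 = 2 ∨ n % 5 = 3 ∨ n % 5 = 4 := by omega
  rcases h1 with h | h | h | h
  · exact value_of_mem (d := 4) (m := 6) (by norm_num) hn (ord_cock (by decide))
      ⟨(n - 6) / 5, by omega⟩
  · exact value_of_mem (d := 4) (m := 12) (by norm_num) hn
      (ord_bip 3 3 4 (by norm_num) (by norm_num) (by norm_num) (by norm_num) (by norm_num))
      ⟨(n - 12) / 5, by omega⟩
  · exact value_of_mem (d := 4) (m := 8) (by norm_num) hn
      (ord_bip 2 4 2 (by norm_num) (by norm_num) (by norm_num) (by norm_num) (by norm_num))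
      ⟨(n - 8) / 5, by omega⟩
  · exact value_of_mem (d := 4) (m := 9) (by norm_num) hn
      (ord_bip 3 3 3 (by norm_num) (by norm_num) (by norm_num) (by norm_num) (by norm_num))
      ⟨(n - 9) / 5, by omega⟩

theorem five_value {n : ℕ} (he : Even n) (h6 : 6 ≤ n) (h8 : n ≠ 8) (hn : ¬ 6 ∣ n) :
    mu n 5 = -2 := by
  obtain ⟨k, hk⟩ := he
  have h1 : n % 6 = 2 ∨ n % 6 = 4 := by omega
  rcases h1 with h | h
  · exact value_of_mem (d := 5) (m := 14) (by norm_num) hn
      (AddSubmonoid.subset_closure (Or.inr (by decide))) ⟨(n - 14) / 6, by omega⟩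
  · exact value_of_mem (d := 5) (m := 10) (by norm_num) hn
      (ord_bip 2 5 2 (by norm_num) (by norm_num) (by norm_num) (by norm_num) (by norm_num))
      ⟨(n - 10) / 6, by omega⟩

end Pool.Agent.Lib.MP_70d4d1_co
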