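import Pool.Agent.Lib.MP_70d4d1_co.Defs

namespace Pool.Agent.Lib.MP_70d4d1_co

/-- The matrix `A + 2 I`. -/
noncomputable def bmat {n : ℕ} (G : SimpleGraph (Fin n)) : Matrix (Fin n) (Fin n) ℝ :=
  Matrix.of fun u v => ent G u v

theorem bmat_eq {n : ℕ} (G : SimpleGraph (Fin n)) :
    bmat G = algebraMap ℝ (Matrix (Fin n) (Fin n) ℝ) 2 + adj G := by
  classical
  ext u v
  simp only [bmat, adj, ent, Matrix.of_apply, Matrix.add_apply, Matrix.algebraMap_matrix_apply]
  by_cases h : u = v
  · subst h; simp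
  · by_cases h' : G.Adj u v <;> simp [h, h']

theorem bmat_herm {n : ℕ} (G : SimpleGraph (Fin n)) : (bmat G).IsHermitian := by
  classical
  ext u v
  simp only [bmat, ent, Matrix.of_apply, Matrix.conjTranspose_apply, star_trivial]
  by_cases h : u = v
  · subst h; simp
  · have h2 : v ≠ u := fun e => h e.symm
    by_cases h' : G.Adj u v
    · simp [h, h2, h', h'.symm]
    · have h3 : ¬ G.Adj v u := fun e => h' e.symm
      simp [h, h2, h', h3]

theorem adj_herm {n : ℕ} (G : SimpleGraph (Fin n)) : (adj G).IsHermitian := by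
  classical
  ext u v
  simp only [adj, Matrix.of_apply, Matrix.conjTranspose_apply, star_trivial]
  by_cases h' : G.Adj u v
  · simp [h', h'.symm]
  · have h3 : ¬ G.Adj v u := fun e => h' e.symm
    simp [h', h3]

theorem form_eq {n : ℕ} (G : SimpleGraph (Fin n)) (y : Fin n → ℝ) :
    form G y = star y ⬝ᵥ (Matrix.mulVec (bmat G) y) := by
  simp only [form, bmat, dotProduct, Matrix.mulVec, Pi.star_apply, star_trivial, Matrix.of_apply,
    Finset.mul_sum]
  refine Finset.sum_congr rfl fun u _ => Finset.sum_congr rfl fun v _ => ?_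
  ring

theorem lam_attained {n : ℕ} (hn : 0 < n) (G : SimpleGraph (Fin n)) :
    lamMin G ∈ spectrum ℝ (adj G) ∧ ∀ x ∈ spectrum ℝ (adj G), lamMin G ≤ x := by
  have h := (adj_herm G).spectrum_real_eq_range_eigenvalues
  have hne : (spectrum ℝ (adj G)).Nonempty := by
    rw [h]
    have : Nonempty (Fin n) := ⟨⟨0, hn⟩⟩
    exact Set.range_nonempty _
  have hfin : (spectrum ℝ (adj G)).Finite := by
    rw [h]; exact Set.finite_range _
  exact ⟨hne.csInf_mem hfin, fun x hx => csInf_le hfin.bddBelow hx⟩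

theorem spec_bmat {n : ℕ} (G : SimpleGraph (Fin n)) (x : ℝ) :
    x ∈ spectrum ℝ (bmat G) ↔ x - 2 ∈ spectrum ℝ (adj G) := by
  rw [bmat_eq, ← spectrum.singleton_add_eq]
  constructor
  · rintro ⟨a, ha, b, hb, rfl⟩
    rw [Set.mem_singleton_iff] at ha
    subst ha
    simpa using hb
  · intro h
    exact ⟨2, rfl, x - 2, h, by ring⟩

/-- `A + 2 I` is positive semidefinite iff the least eigenvalue of `A` is at least `-2`. -/
theorem psd_iff {n : ℕ} (hn : 0 < n) (G : SimpleGraph (Fin n)) : Psd G ↔ -2 ≤ lamMin G := by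
  have h1 : Psd G ↔ (bmat G).PosSemidef := by
    rw [Matrix.posSemidef_iff_dotProduct_mulVec]
    constructor
    · intro h
      exact ⟨bmat_herm G, fun y => by rw [← form_eq]; exact h y⟩
    · rintro ⟨-, h⟩ y
      rw [form_eq]; exact h y
  rw [h1, (bmat_herm G).posSemidef_iff_eigenvalues_nonneg]
  have h2 := (bmat_herm G).spectrum_real_eq_range_eigenvalues
  obtain ⟨hm, hle⟩ := lam_attained hn G
  constructor
  · intro h
    have h3 : lamMin G + 2 ∈ spectrum ℝ (bmat G) := by
      rw [spec_bmat]; simpa using hm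
    rw [h2] at h3
    obtain ⟨i, hi⟩ := h3
    have := h i
    simp only [Pi.zero_apply] at this
    linarith
  · intro h i
    have h3 : (bmat_herm G).eigenvalues i ∈ spectrum ℝ (bmat G) := by
      rw [h2]; exact ⟨i, rfl⟩
    rw [spec_bmat] at h3
    have := hle _ h3
    simp only [Pi.zero_apply]
    linarith

/-- `A + 2 I` is positive definite iff the least eigenvalue of `A` is larger than `-2`. -/
theorem pd_iff {n : ℕ} (hn : 0 < n) (G : SimpleGraph (Fin n)) : Pd G ↔ -2 < lamMin G := by
  have h1 : Pd G ↔ (bmat G).PosDef := by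
    rw [Matrix.posDef_iff_dotProduct_mulVec]
    constructor
    · intro h
      exact ⟨bmat_herm G, fun y hy => by rw [← form_eq]; exact h y hy⟩
    · rintro ⟨-, h⟩ y hy
      rw [form_eq]; exact h hy
  rw [h1, (bmat_herm G).posDef_iff_eigenvalues_pos]
  have h2 := (bmat_herm G).spectrum_real_eq_range_eigenvalues
  obtain ⟨hm, hle⟩ := lam_attained hn G
  constructor
  · intro h
    have h3 : lamMin G + 2 ∈ spectrum ℝ (bmat G) := by
      rw [spec_bmat]; simpa using hm
    rw [h2] at h3
    obtain ⟨i, hi⟩ := h3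
    have := h i
    linarith
  · intro h i
    have h3 : (bmat_herm G).eigenvalues i ∈ spectrum ℝ (bmat G) := by
      rw [h2]; exact ⟨i, rfl⟩
    rw [spec_bmat] at h3
    have := hle _ h3
    linarith

end Pool.Agent.Lib.MP_70d4d1_co
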