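import Pool.Agent.Lib.MP_70d4d1_co.Cons

namespace Pool.Agent.Lib.MP_70d4d1_co

/-- The graph of a line system. -/
def sysGraph {V ι : Type*} (i j : V → ι) : SimpleGraph V where
  Adj u v := u ≠ v ∧ ((i u = i v ∨ j u = i v) ∨ (i u = j v ∨ j u = j v))
  symm := ⟨by
    rintro u v ⟨h, h2⟩
    refine ⟨h.symm, ?_⟩
    rcases h2 with (h2 | h2) | (h2 | h2)
    · exact Or.inl (Or.inl h2.symm)
    · exact Or.inr (Or.inl h2.symm)
    · exact Or.inl (Or.inr h2.symm)
    · exact Or.inr (Or.inr h2.symm)⟩
  loopless := ⟨fun u h => h.1 rfl⟩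

open Classical in
/-- Characteristic function of the two end points. -/
noncomputable def sysChi {V ι : Type*} (i j : V → ι) (u : V) (k : ι) : ℝ :=
  (if i u = k then 1 else 0) + (if j u = k then 1 else 0)

open Classical in
theorem sum_chi {V ι : Type*} (i j : V → ι) (K : Finset ι) (u v : V)
    (hi : i u ∈ K) (hj : j u ∈ K) :
    ∑ k ∈ K, sysChi i j u k * sysChi i j v k =
      ((if i v = i u then 1 else 0) + (if j v = i u then 1 else 0)) +
      ((if i v = j u then 1 else 0) + (if j v = j u then 1 else 0)) := by
  have h1 : ∀ k, sysChi i j u k * sysChi i j v k =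
      (if i u = k then sysChi i j v k else 0) + (if j u = k then sysChi i j v k else 0) := by
    intro k
    change ((if i u = k then (1 : ℝ) else 0) + (if j u = k then 1 else 0)) *
      sysChi i j v k = _
    split_ifs <;> ring
  simp_rw [h1]
  rw [Finset.sum_add_distrib, Finset.sum_ite_eq, Finset.sum_ite_eq, if_pos hi, if_pos hj]
  rfl

open Classical in
theorem sys_aux4 (p1 p2 p3 p4 : Prop) (hx : ¬((p1 ∨ p2) ∧ (p3 ∨ p4))) (ha : ¬(p1 ∧ p2))
    (hb : ¬(p3 ∧ p4)) : (if ((p1 ∨ p2) ∨ (p3 ∨ p4)) then (1 : ℝ) else 0) =
      ((if p1 then 1 else 0) + (if p2 then 1 else 0)) +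
      ((if p3 then 1 else 0) + (if p4 then 1 else 0)) := by
  by_cases c1 : p1 <;> by_cases c2 : p2 <;> by_cases c3 : p3 <;> by_cases c4 : p4 <;>
    simp_all

theorem sym_eq_aux {V ι : Type*} (i j : V → ι) (hinj : ∀ u v, s(i u, j u) = s(i v, j v) → u = v)
    {u v : V} (h1 : i u = i v ∨ j u = i v) (h2 : i u = j v ∨ j u = j v)
    (hv : i v ≠ j v) : u = v := by
  apply hinj
  rcases h1 with h1 | h1 <;> rcases h2 with h2 | h2
  · exact absurd (h1.symm.trans h2) hv
  · rw [h1, h2]
  · rw [h1, h2, Sym2.eq_swap]
  · exact absurd (h1.symm.trans h2) hv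

open Classical in
/-- Line systems: the vertices are edges `{i v, j v}` of a graph without double edges, and the
degrees of the two end points of every edge add up to `d + 2`. -/
theorem good_of_system {V ι : Type*} [Fintype V] {d : ℕ} (i j : V → ι)
    (hne : ∀ v, i v ≠ j v) (hinj : ∀ u v, s(i u, j u) = s(i v, j v) → u = v)
    (hdeg : ∀ v, (Finset.univ.filter fun u => i u = i v ∨ j u = i v).card +
      (Finset.univ.filter fun u => i u = j v ∨ j u = j v).card = d + 2) :
    Good d (Fintype.card V) := by
  refine good_of_fintype (sysGraph i j) ?_ ?_ rfl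
  · intro v
    set F1 := Finset.univ.filter fun u => i u = i v ∨ j u = i v with hF1
    set F2 := Finset.univ.filter fun u => i u = j v ∨ j u = j v with hF2
    have hset : (sysGraph i j).neighborSet v = (((F1 ∪ F2).erase v : Finset V) : Set V) := by
      ext u
      simp only [SimpleGraph.mem_neighborSet, Finset.coe_erase, Finset.coe_union,
        Set.mem_sdiff, Set.mem_union, Finset.mem_coe, Set.mem_singleton_iff, hF1, hF2,
        Finset.mem_filter, Finset.mem_univ, true_and]
      constructor
      · intro h
        have h' : (sysGraph i j).Adj u v := h.symm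
        exact ⟨h'.2, h'.1⟩
      · intro h
        have h' : (sysGraph i j).Adj u v := ⟨h.2, h.1⟩
        exact h'.symm
    rw [hset, Set.ncard_coe_finset]
    have hvm : v ∈ F1 ∪ F2 := by
      simp [hF1]
    rw [Finset.card_erase_of_mem hvm]
    have hint : F1 ∩ F2 = {v} := by
      ext u
      simp only [hF1, hF2, Finset.mem_inter, Finset.mem_filter, Finset.mem_univ, true_and,
        Finset.mem_singleton]
      constructor
      · rintro ⟨h1, h2⟩
        exact sym_eq_aux i j hinj h1 h2 (hne v)
      · rintro rfl
        exact ⟨Or.inl rfl, Or.inr rfl⟩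
    have h1 := Finset.card_union_add_card_inter F1 F2
    rw [hint, Finset.card_singleton] at h1
    have h2 : F1.card + F2.card = d + 2 := hdeg v
    omega
  · intro y
    set K : Finset ι := Finset.univ.image i ∪ Finset.univ.image j with hK
    have hiK : ∀ u, i u ∈ K := fun u => by simp [hK]
    have hjK : ∀ u, j u ∈ K := fun u => by simp [hK]
    have hent : ∀ u v, ent (sysGraph i j) u v = ∑ k ∈ K, sysChi i j u k * sysChi i j v k := by
      intro u v
      rw [sum_chi i j K u v (hiK u) (hjK u)]
      unfold ent
      by_cases huv : u = v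
      · subst huv
        have h1 : ¬ (j u = i u) := fun h => hne u h.symm
        simp only [if_true, hne u, h1, if_false]
        norm_num
      · rw [if_neg huv]
        have key : (sysGraph i j).Adj u v ↔
            ((i v = i u ∨ j v = i u) ∨ (i v = j u ∨ j v = j u)) := by
          constructor
          · intro h
            have h' : (sysGraph i j).Adj v u := h.symm
            exact h'.2
          · intro h
            have h' : (sysGraph i j).Adj v u := ⟨fun e => huv e.symm, h⟩
            exact h'.symm
        have hx : ¬ ((i v = i u ∨ j v = i u) ∧ (i v = j u ∨ j v = j u)) := by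
          rintro ⟨h1, h2⟩
          exact huv (sym_eq_aux i j hinj h1 h2 (hne u)).symm
        have ha : ¬ (i v = i u ∧ j v = i u) := fun h => hne v (h.1.trans h.2.symm)
        have hb : ¬ (i v = j u ∧ j v = j u) := fun h => hne v (h.1.trans h.2.symm)
        rw [if_congr key rfl rfl]
        exact sys_aux4 _ _ _ _ hx ha hb
    have hform : form (sysGraph i j) y = ∑ k ∈ K, (∑ u, sysChi i j u k * y u) ^ 2 := by
      unfold form
      have e1 : ∀ k, (∑ u, sysChi i j u k * y u) ^ 2 =
          ∑ u, ∑ v, sysChi i j u k * sysChi i j v k * (y u * y v) := by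
        intro k
        rw [sq, Finset.sum_mul_sum]
        exact Finset.sum_congr rfl fun u _ => Finset.sum_congr rfl fun v _ => by ring
      simp_rw [e1]
      symm
      rw [Finset.sum_comm]
      refine Finset.sum_congr rfl fun u _ => ?_
      rw [Finset.sum_comm]
      refine Finset.sum_congr rfl fun v _ => ?_
      rw [hent u v, Finset.sum_mul]
    rw [hform]
    exact Finset.sum_nonneg fun k _ => sq_nonneg _

end Pool.Agent.Lib.MP_70d4d1_co
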