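import Pool.Agent.Lib.MP_70d4d1_co.CaseE3
import Pool.Agent.Lib.MP_70d4d1_co.CaseD

namespace Pool.Agent.Lib.MP_70d4d1_co

open Module

variable {V E : Type*} [NormedAddCommGroup E] [InnerProductSpace ℝ E]
variable {G : SimpleGraph V} {x : V → E} {N : ℕ} {g : Fin N → E}

/-- The trichotomy. -/
theorem trichotomy (hx : Rep G x) (hg : MaxF x g) (hN : 2 ≤ N) :
    (∀ r, Root x r → (∃ i j, i ≠ j ∧ r = g i - g j) ∨ ∀ i j, inner ℝ r (g i - g j) = (0 : ℝ)) ∨
    (∃ f : Fin N → E, DFrame x f) ∨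
    (∃ W t d, ((t = 1 ∧ d = 8) ∨ (t = 2 ∧ d = 7) ∨ (t = 3 ∧ d = 6)) ∧ Exc x W t d ∧
      (t = 1 → ∃ g : Fin 9 → E, MaxF x g ∧ NoTwo x g ∧ W = dif g)) := by
  by_cases h2 : NoTwo x g
  · by_cases h3 : ∃ r S, Root x r ∧ Pat g r S ∧ S.card ≠ 0 ∧ S.card ≠ N
    · right; right
      obtain ⟨r, S, hr, hS, h4, h5⟩ := h3
      rcases pat_sizes hg h2 hN hr hS with h | h | h | h | h | h
      · exact absurd h h4
      · exact absurd h h5
      · obtain ⟨W, hW⟩ := exc_six hx hg h2 h.1 hr hS h.2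
        exact ⟨W, 3, 6, by tauto, hW, fun h => by omega⟩
      · exact ⟨_, 2, 7, by tauto, exc_eight hx hg h2 h.1 hr hS h.2, fun h => by omega⟩
      · obtain ⟨hN9, hc⟩ := h
        subst hN9
        exact ⟨_, 1, 8, by tauto, exc_nine hx hg h2 rfl hr hS hc, fun _ => ⟨g, hg, h2, rfl⟩⟩
      · obtain ⟨hN9, hc⟩ := h
        subst hN9
        refine ⟨_, 1, 8, by tauto, exc_nine hx hg h2 rfl hr.neg hS.neg ?_,
          fun _ => ⟨g, hg, h2, rfl⟩⟩
        rw [Finset.card_compl, Fintype.card_fin]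
        omega
    · left
      intro r hr
      rcases exists_pat hx hg.1 (by omega) hr with h | ⟨S, hS⟩
      · exact Or.inl h
      · right
        apply hS.perp
        by_contra h4
        push Not at h4
        exact h3 ⟨r, S, hr, hS, h4.1, h4.2⟩
  · right; left
    unfold NoTwo at h2
    push Not at h2
    obtain ⟨r, S, hr, hS, hc⟩ := h2
    exact exists_DFrame hg.1 hr hS hc

theorem exists_not_perp {s : E} (hs : Root x s) : ∃ v, inner ℝ s (x v) ≠ (0 : ℝ) := by
  by_contra h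
  push Not at h
  have h1 : ∀ b ∈ lat x, inner ℝ s b = (0 : ℝ) := by
    intro b hb
    induction hb using Submodule.span_induction with
    | mem b hb => obtain ⟨v, rfl⟩ := hb; exact h v
    | zero => simp
    | add a b _ _ ha hb => rw [inner_add_right, ha, hb]; norm_num
    | smul c a _ ha =>
      rw [← Int.cast_smul_eq_zsmul ℝ c a, inner_smul_right, ha]
      norm_num
  have h2 := h1 s hs.1
  rw [hs.2] at h2
  norm_num at h2

theorem conn_all (hc : G.Connected) {P : V → Prop} (hP : ∀ u v, G.Adj u v → P u → P v)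
    (h0 : ∃ v, P v) : ∀ v, P v := by
  intro v
  obtain ⟨v0, h0⟩ := h0
  obtain ⟨p⟩ := hc.preconnected v0 v
  induction p with
  | nil => exact h0
  | cons h p ih => exact ih (hP _ _ h h0)

/-- `A`-type representation. -/
def AType (x : V → E) : Prop :=
  ∃ (N : ℕ) (g : Fin N → E), Frame x g ∧ ∀ v, ∃ i j, i ≠ j ∧ x v = g i - g j

/-- `D`-type representation. -/
def DType (x : V → E) : Prop :=
  ∃ (N : ℕ) (f : Fin N → E), 2 ≤ N ∧ DFrame x f ∧
    ∀ v, ∃ i j, i ≠ j ∧ ∃ a b : ℝ, Sgn a ∧ Sgn b ∧ x v = a • f i + b • f j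

/-- `E`-type representation. -/
def EType (x : V → E) : Prop :=
  ∃ W t d, ((t = 1 ∧ d = 8) ∨ (t = 2 ∧ d = 7) ∨ (t = 3 ∧ d = 6)) ∧ Exc x W t d ∧
    (∀ v, x v ∈ W) ∧ (t = 1 → ∃ g : Fin 9 → E, MaxF x g ∧ NoTwo x g ∧ W = dif g)

theorem tri_conn [FiniteDimensional ℝ E] (hx : Rep G x) (hc : G.Connected) :
    AType x ∨ DType x ∨ EType x := by
  obtain ⟨N, g, hg⟩ := exists_maxF x
  have hne : Nonempty V := hc.nonempty
  have hN : 2 ≤ N := hg.two_le hx
  have hadj : ∀ u v, G.Adj u v → inner ℝ (x v) (x u) = (1 : ℝ) := by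
    intro u v h
    rw [hx, ent_adj h.symm]
  rcases trichotomy hx hg hN with h | ⟨f, hf⟩ | ⟨W, t, d, htd, hW, h9⟩
  · left
    refine ⟨N, g, hg.1, ?_⟩
    refine conn_all hc ?_ ?_
    · rintro u v huv ⟨i, j, hij, hu⟩
      rcases h (x v) (root_x hx v) with h1 | h1
      · exact h1
      · exfalso
        have h2 := hadj u v huv
        rw [hu, h1] at h2
        norm_num at h2
    · have h1 : Root x (g ⟨0, by omega⟩ - g ⟨1, by omega⟩) := hg.1 _ _ (by simp)
      obtain ⟨v, hv⟩ := exists_not_perp h1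
      refine ⟨v, ?_⟩
      rcases h (x v) (root_x hx v) with h2 | h2
      · exact h2
      · exfalso
        apply hv
        rw [real_inner_comm]
        exact h2 _ _
  · right; left
    refine ⟨N, f, hN, hf, ?_⟩
    refine conn_all hc ?_ ?_
    · rintro u v huv ⟨i, j, hij, a, b, ha, hb, hu⟩
      rcases hf.dicho hx hg (root_x hx v) with h1 | h1
      · exact h1
      · exfalso
        have h2 := hadj u v huv
        rw [hu, DFrame.ip, h1, h1] at h2
        norm_num at h2
    · have h1 : Root x ((1 : ℝ) • f ⟨0, by omega⟩ + (1 : ℝ) • f ⟨1, by omega⟩) :=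
        hf.root (by simp) (Or.inl rfl) (Or.inl rfl)
      obtain ⟨v, hv⟩ := exists_not_perp h1
      refine ⟨v, ?_⟩
      rcases hf.dicho hx hg (root_x hx v) with h2 | h2
      · exact h2
      · exfalso
        apply hv
        rw [real_inner_comm, DFrame.ip, h2, h2]
        norm_num
  · right; right
    refine ⟨W, t, d, htd, hW, ?_, h9⟩
    refine conn_all hc ?_ ?_
    · intro u v huv hu
      rcases hW.dicho (x v) (root_x hx v) with h1 | h1
      · exact h1
      · exfalso
        have h2 := hadj u v huv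
        rw [h1 _ hu] at h2
        norm_num at h2
    · obtain ⟨s, hs, hsW⟩ := hW.ne
      obtain ⟨v, hv⟩ := exists_not_perp hs
      refine ⟨v, ?_⟩
      rcases hW.dicho (x v) (root_x hx v) with h2 | h2
      · exact h2
      · exfalso
        apply hv
        rw [real_inner_comm]
        exact h2 _ hsW

/-- The vector `w` with inner product `1` with all `x v`. -/
noncomputable def wv [Fintype V] (x : V → E) (d : ℕ) : E := (1 / ((d : ℝ) + 2)) • ∑ v, x v

theorem sum_ent [Fintype V] {d : ℕ} (hr : Reg G d) (v : V) : ∑ u, ent G u v = (d : ℝ) + 2 := by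
  classical
  have h1 : ∀ u, ent G u v = (if u = v then (2 : ℝ) else 0) + (if G.Adj v u then 1 else 0) := by
    intro u
    rcases ent_cases (G := G) u v with ⟨h, h'⟩ | ⟨h, h', h''⟩ | ⟨h, h', h''⟩
    · subst h; rw [h']; simp
    · rw [h'']; simp [h, h'.symm]
    · have : ¬ G.Adj v u := fun h => h' h.symm
      rw [h'']; simp [h, this]
  rw [Finset.sum_congr rfl fun u _ => h1 u, Finset.sum_add_distrib, Finset.sum_ite_eq',
    if_pos (Finset.mem_univ _), Finset.sum_boole]
  have h2 : (Finset.univ.filter fun u => G.Adj v u).card = d := by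
    rw [← hr v, ← Set.ncard_coe_finset]
    congr 1
    ext u
    simp
  rw [h2]
  ring

theorem wv_ip [Fintype V] (hx : Rep G x) {d : ℕ} (hr : Reg G d) (v : V) :
    inner ℝ (wv x d) (x v) = (1 : ℝ) := by
  unfold wv
  rw [inner_smul_left, sum_inner]
  simp_rw [hx _ v]
  rw [sum_ent hr v]
  simp only [conj_trivial]
  have : (0 : ℝ) < (d : ℝ) + 2 := by positivity
  field_simp

theorem wv_int [Fintype V] (hx : Rep G x) {d : ℕ} (hr : Reg G d) (b : E) (hb : b ∈ lat x) :
    ∃ z : ℤ, inner ℝ (wv x d) b = z :=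
  int_of_gen (fun v => ⟨1, by rw [wv_ip hx hr]; norm_num⟩) hb

end Pool.Agent.Lib.MP_70d4d1_co
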